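import Pool.Agent.H47.OD.Fl

/-!
# Persistence of nondegenerate fixed points
-/

set_option autoImplicit false

open Module Filter Topology

namespace Pool.Agent.H47.OD

open Pool.Agent.H47.QG

variable {n : ℕ}

/-- persistence near one nondegenerate zero -/
theorem pst_local {E : Type*} [NormedAddCommGroup E] [NormedSpace ℝ E] [CompleteSpace E]
    {F : E → E} {A : E ≃L[ℝ] E} {c : E} (hF : HasStrictFDerivAt F (A : E →L[ℝ] E) c)
    (hc : F c = 0) :
    ∀ᶠ r : ℝ in 𝓝[>] 0, ∀ᶠ κ : ℝ in 𝓝[>] 0, ∀ F' : E → E, (∀ w, ‖F' w - F w‖ ≤ κ) →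
      (∀ w w', ‖(F' w - F w) - (F' w' - F w')‖ ≤ κ * ‖w - w'‖) →
      ∃ z ∈ Metric.closedBall c r, F' z = 0 ∧ ∀ w ∈ Metric.closedBall c r, F' w = 0 → w = z := by
  set N : ℝ := ‖(A.symm : E →L[ℝ] E)‖ + 1 with hN
  have hN1 : 0 < N := by positivity
  have hA : ∀ v, ‖A.symm v‖ ≤ N * ‖v‖ := fun v =>
    ((A.symm : E →L[ℝ] E).le_opNorm v).trans
      (mul_le_mul_of_nonneg_right (by rw [hN]; linarith) (norm_nonneg v))
  have hε : (0 : ℝ) < 1 / (4 * N) := by positivity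
  obtain ⟨s, hs, happ⟩ := hF.approximates_deriv_on_nhds (c := ⟨1 / (4 * N), hε.le⟩)
    (Or.inr (by exact_mod_cast hε))
  obtain ⟨r0, hr0, hball⟩ := Metric.nhds_basis_closedBall.mem_iff.1 hs
  have hr : ∀ᶠ r : ℝ in 𝓝[>] 0, 0 < r ∧ r ≤ r0 := by
    filter_upwards [self_mem_nhdsWithin, mem_nhdsWithin_of_mem_nhds (Iic_mem_nhds hr0)]
      with r h1 h2 using ⟨h1, h2⟩
  filter_upwards [hr] with r hr
  have hrN : 0 < min (1 / (4 * N)) (r / (2 * N)) := by
    have := hr.1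
    positivity
  have hκ : ∀ᶠ κ : ℝ in 𝓝[>] 0, 0 < κ ∧ κ ≤ min (1 / (4 * N)) (r / (2 * N)) := by
    filter_upwards [self_mem_nhdsWithin, mem_nhdsWithin_of_mem_nhds (Iic_mem_nhds hrN)]
      with r h1 h2 using ⟨h1, h2⟩
  filter_upwards [hκ] with κ hκ F' hF1 hF2
  have hκ1 : κ ≤ 1 / (4 * N) := hκ.2.trans (min_le_left _ _)
  have hκ2 : κ ≤ r / (2 * N) := hκ.2.trans (min_le_right _ _)
  have hsub : Metric.closedBall c r ⊆ s :=
    (Metric.closedBall_subset_closedBall hr.2).trans hball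
  -- the contraction
  set g : E → E := fun w => w - A.symm (F' w) with hg
  have hlip : ∀ x ∈ Metric.closedBall c r, ∀ y ∈ Metric.closedBall c r,
      ‖g x - g y‖ ≤ 1 / 2 * ‖x - y‖ := by
    intro x hx y hy
    have e : g x - g y = - A.symm ((F x - F y - A (x - y)) +
        ((F' x - F x) - (F' y - F y))) := by
      simp only [hg, map_add, map_sub, ContinuousLinearEquiv.symm_apply_apply]
      abel
    have h1 : ‖F x - F y - A (x - y)‖ ≤ 1 / (4 * N) * ‖x - y‖ := happ x (hsub hx) y (hsub hy)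
    have h2 := hF2 x y
    have h3 : κ * ‖x - y‖ ≤ 1 / (4 * N) * ‖x - y‖ :=
      mul_le_mul_of_nonneg_right hκ1 (norm_nonneg _)
    rw [e, norm_neg]
    refine (hA _).trans ?_
    have h4 : ‖(F x - F y - A (x - y)) + ((F' x - F x) - (F' y - F y))‖ ≤
        2 * (1 / (4 * N) * ‖x - y‖) := (norm_add_le _ _).trans (by linarith)
    refine (mul_le_mul_of_nonneg_left h4 hN1.le).trans (le_of_eq ?_)
    field_simp
    ring
  have hcc : c ∈ Metric.closedBall c r := Metric.mem_closedBall_self hr.1.le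
  have hgc : ‖g c - c‖ ≤ r / 2 := by
    have e : g c - c = - A.symm (F' c) := by simp only [hg]; abel
    have h1 : ‖F' c‖ ≤ κ := by
      have := hF1 c
      rwa [hc, sub_zero] at this
    rw [e, norm_neg]
    refine (hA _).trans ?_
    refine (mul_le_mul_of_nonneg_left (h1.trans hκ2) hN1.le).trans (le_of_eq ?_)
    field_simp
  have hmaps : Set.MapsTo g (Metric.closedBall c r) (Metric.closedBall c r) := by
    intro x hx
    rw [mem_closedBall_iff_norm] at hx ⊢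
    have h1 := hlip x (mem_closedBall_iff_norm.2 hx) c hcc
    have h2 : g x - c = (g x - g c) + (g c - c) := by abel
    rw [h2]
    refine (norm_add_le _ _).trans ?_
    linarith
  have hfix : ∀ w, g w = w ↔ F' w = 0 := by
    intro w
    simp only [hg]
    rw [sub_eq_self]
    exact A.symm.map_eq_zero_iff
  have hcw : ContractingWith (1 / 2) (hmaps.restrict g _ _) := by
    refine ⟨by
      rw [div_lt_one (by norm_num)]; norm_num, LipschitzWith.of_dist_le_mul fun x y => ?_⟩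
    have := hlip x x.2 y y.2
    simpa [Subtype.dist_eq, dist_eq_norm] using this
  obtain ⟨z, hz, hzf, -⟩ := ContractingWith.exists_fixedPoint'
    (Metric.isClosed_closedBall.isComplete) hmaps hcw hcc (edist_ne_top _ _)
  refine ⟨z, hz, (hfix z).1 hzf, fun w hw hw0 => ?_⟩
  have h1 := hlip w hw z hz
  rw [(hfix w).2 hw0, hzf.eq] at h1
  have h2 : ‖w - z‖ = 0 := by
    have := norm_nonneg (w - z)
    linarith
  exact sub_eq_zero.1 (norm_eq_zero.1 h2)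

theorem pst_isClosed_Zn : IsClosed {u : Pt n | u ∈ Zn n} := by
  have h : {u : Pt n | u ∈ Zn n} = ⋂ i, ({u : Pt n | u.1 i ∈ Set.range ((↑) : ℤ → ℝ)} ∩
      {u : Pt n | u.2 i ∈ Set.range ((↑) : ℤ → ℝ)}) := by
    ext u
    simp only [Set.mem_iInter, Set.mem_inter_iff]
    constructor
    · rintro ⟨a, b, rfl⟩ i
      exact ⟨⟨a i, rfl⟩, ⟨b i, rfl⟩⟩
    · intro h
      choose h1 h2 using h
      choose a ha using h1
      choose b hb using h2
      exact ⟨a, b, by ext i <;> simp [ha, hb]⟩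
  rw [h]
  refine isClosed_iInter fun i => ?_
  have hr : IsClosed (Set.range ((↑) : ℤ → ℝ)) := Int.isClosedEmbedding_coe_real.isClosed_range
  exact (hr.preimage (by fun_prop)).inter (hr.preimage (by fun_prop))

/-- every point has a translate in the unit cube -/
theorem pst_cube (w : Pt n) : ∃ e ∈ Zn n, w - e ∈ Set.Icc (0 : Pt n) 1 := by
  refine ⟨(fun i => ((⌊w.1 i⌋ : ℤ) : ℝ), fun i => ((⌊w.2 i⌋ : ℤ) : ℝ)),
    ⟨fun i => ⌊w.1 i⌋, fun i => ⌊w.2 i⌋, rfl⟩, ⟨?_, ?_⟩, ⟨?_, ?_⟩⟩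
  · exact fun i => Int.fract_nonneg (w.1 i)
  · exact fun i => Int.fract_nonneg (w.2 i)
  · exact fun i => (Int.fract_lt_one (w.1 i)).le
  · exact fun i => (Int.fract_lt_one (w.2 i)).le

/-- no zeros away from the translates of `C` -/
theorem pst_far {F : Pt n → Pt n} (hF : Continuous F) (hper : ∀ w, ∀ e ∈ Zn n, F (w + e) = F w)
    (C : Finset (Pt n)) (hC : ∀ w, F w = 0 → ∃ c ∈ C, w - c ∈ Zn n) {r : ℝ} (hr : 0 < r) :
    ∃ δ > 0, ∀ w, ‖F w‖ < δ → ∃ c ∈ C, ∃ e ∈ Zn n, ‖w - e - c‖ < r := by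
  set K : Set (Pt n) := Set.Icc (0 : Pt n) 1 ∩
    {w | ∀ c ∈ C, ∀ e ∈ Zn n, r ≤ ‖w - e - c‖} with hK
  have hcl : IsClosed {w : Pt n | ∀ c ∈ C, ∀ e ∈ Zn n, r ≤ ‖w - e - c‖} := by
    have : {w : Pt n | ∀ c ∈ C, ∀ e ∈ Zn n, r ≤ ‖w - e - c‖} =
        ⋂ c ∈ C, ⋂ e ∈ Zn n, {w : Pt n | r ≤ ‖w - e - c‖} := by
      ext w
      simp
    rw [this]
    refine isClosed_biInter fun c _ => isClosed_biInter fun e _ => ?_
    exact isClosed_le continuous_const (by fun_prop)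
  have hKc : IsCompact K := isCompact_Icc.inter_right hcl
  have hpos : ∀ w ∈ K, 0 < ‖F w‖ := by
    intro w hw
    rw [norm_pos_iff]
    intro h0
    obtain ⟨c, hc, he⟩ := hC w h0
    have := hw.2 c hc _ he
    rw [sub_sub_cancel, sub_self, norm_zero] at this
    linarith
  obtain ⟨δ, hδ, hδK⟩ := hKc.exists_forall_le' (hF.norm.continuousOn) hpos
  refine ⟨δ, hδ, fun w hw => ?_⟩
  obtain ⟨e, he, hcube⟩ := pst_cube w
  by_contra hcon
  push Not at hcon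
  have hmem : w - e ∈ K := by
    refine ⟨hcube, fun c hc e' he' => ?_⟩
    have := hcon c hc (e + e') ((Zn n).add_mem he he')
    rwa [← sub_sub] at this
  have h1 := hδK _ hmem
  have h2 : F (w - e) = F w := by
    have := hper (w - e) e he
    rw [sub_add_cancel] at this
    exact this.symm
  rw [h2] at h1
  linarith

/-- the translates of different points of `C` are separated -/
theorem pst_sep (C : Finset (Pt n)) (hCd : ∀ c ∈ C, ∀ c' ∈ C, c - c' ∈ Zn n → c = c') :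
    ∀ᶠ r : ℝ in 𝓝[>] 0, ∀ c ∈ C, ∀ c' ∈ C, ∀ w w', ‖w - c‖ ≤ r → ‖w' - c'‖ ≤ r →
      w - w' ∈ Zn n → c = c' := by
  rw [Filter.eventually_all_finset C]
  intro c hc
  rw [Filter.eventually_all_finset C]
  intro c' hc'
  by_cases h : c = c'
  · exact Filter.Eventually.of_forall fun r w w' _ _ _ => h
  have hno : c - c' ∈ {u : Pt n | u ∈ Zn n}ᶜ := fun hmem => h (hCd c hc c' hc' hmem)
  obtain ⟨r1, hr1, hball⟩ := Metric.nhds_basis_closedBall.mem_iff.1
    (pst_isClosed_Zn.isOpen_compl.mem_nhds hno)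
  filter_upwards [mem_nhdsWithin_of_mem_nhds (Iic_mem_nhds (half_pos hr1))] with r hr w w' h1 h2 h3
  exfalso
  have hr' : r ≤ r1 / 2 := hr
  refine hball (mem_closedBall_iff_norm.2 ?_) h3
  have e : w - w' - (c - c') = (w - c) - (w' - c') := by abel
  rw [e]
  refine (norm_sub_le _ _).trans ?_
  linarith

/-- small Lipschitz perturbations of `Φ` have fixed points near those of `Φ` and no others -/
theorem persist {Φ : Pt n → Pt n} (hΦ : ContDiff ℝ 1 Φ)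
    (hper : ∀ w, ∀ e ∈ Zn n, Φ (w + e) = Φ w + e) (C : Finset (Pt n))
    (hC : ∀ w, Φ w = w ↔ ∃ c ∈ C, w - c ∈ Zn n)
    (hCd : ∀ c ∈ C, ∀ c' ∈ C, c - c' ∈ Zn n → c = c')
    (hnd : ∀ c ∈ C, ∀ v, fderiv ℝ Φ c v = v → v = 0) (ρ : ℝ) (hρ : 0 < ρ) :
    ∃ κ > 0, ∀ Φ' : Pt n → Pt n, (∀ w, ∀ e ∈ Zn n, Φ' (w + e) = Φ' w + e) →
      (∀ w, ‖Φ' w - Φ w‖ ≤ κ) →
      (∀ w w', ‖(Φ' w - Φ w) - (Φ' w' - Φ w')‖ ≤ κ * ‖w - w'‖) →
      ∃ g : Pt n → Pt n, (∀ c ∈ C, ‖g c - c‖ ≤ ρ ∧ Φ' (g c) = g c) ∧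
        (∀ c ∈ C, ∀ c' ∈ C, g c - g c' ∈ Zn n → c = c') ∧
        ∀ w, Φ' w = w → ∃ c ∈ C, w - g c ∈ Zn n := by
  set F : Pt n → Pt n := fun w => Φ w - w with hF
  have hFc : Continuous F := hΦ.continuous.sub continuous_id
  have hFper : ∀ w, ∀ e ∈ Zn n, F (w + e) = F w := by
    intro w e he
    simp only [hF, hper w e he]
    abel
  have hF0 : ∀ w, F w = 0 → ∃ c ∈ C, w - c ∈ Zn n := fun w hw =>
    (hC w).1 (sub_eq_zero.1 hw)
  have hloc : ∀ c ∈ C, ∀ᶠ r : ℝ in 𝓝[>] 0, ∀ᶠ κ : ℝ in 𝓝[>] 0, ∀ F' : Pt n → Pt n,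
      (∀ w, ‖F' w - F w‖ ≤ κ) →
      (∀ w w', ‖(F' w - F w) - (F' w' - F w')‖ ≤ κ * ‖w - w'‖) →
      ∃ z ∈ Metric.closedBall c r, F' z = 0 ∧
        ∀ w ∈ Metric.closedBall c r, F' w = 0 → w = z := by
    intro c hc
    have hst : HasStrictFDerivAt F (fderiv ℝ Φ c - ContinuousLinearMap.id ℝ (Pt n)) c :=
      (hΦ.contDiffAt.hasStrictFDerivAt one_ne_zero).sub (hasStrictFDerivAt_id c)
    have hker : LinearMap.ker ((fderiv ℝ Φ c - ContinuousLinearMap.id ℝ (Pt n) :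
        Pt n →L[ℝ] Pt n) : Pt n →ₗ[ℝ] Pt n) = ⊥ := by
      rw [LinearMap.ker_eq_bot']
      intro v hv
      refine hnd c hc v ?_
      have : fderiv ℝ Φ c v - v = 0 := hv
      exact sub_eq_zero.1 this
    let A : Pt n ≃L[ℝ] Pt n := (LinearEquiv.ofInjectiveEndo _
      (LinearMap.ker_eq_bot.1 hker)).toContinuousLinearEquiv
    have hA : (A : Pt n →L[ℝ] Pt n) = fderiv ℝ Φ c - ContinuousLinearMap.id ℝ (Pt n) := by
      ext v <;> rfl
    rw [← hA] at hst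
    have hc0 : F c = 0 := sub_eq_zero.2 ((hC c).2 ⟨c, hc, by
      rw [sub_self]; exact (Zn n).zero_mem⟩)
    exact pst_local hst hc0
  have hr : ∀ᶠ r : ℝ in 𝓝[>] 0, 0 < r ∧ r ≤ ρ := by
    filter_upwards [self_mem_nhdsWithin, mem_nhdsWithin_of_mem_nhds (Iic_mem_nhds hρ)]
      with r h1 h2 using ⟨h1, h2⟩
  obtain ⟨r, ⟨hr0, hrρ⟩, hsep, hl⟩ := (hr.and ((pst_sep C hCd).and
    ((Filter.eventually_all_finset C).2 hloc))).exists
  obtain ⟨δ, hδ, hfar⟩ := pst_far hFc hFper C hF0 hr0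
  have hκ : ∀ᶠ κ : ℝ in 𝓝[>] 0, 0 < κ ∧ κ < δ := by
    filter_upwards [self_mem_nhdsWithin, mem_nhdsWithin_of_mem_nhds (Iio_mem_nhds hδ)]
      with r h1 h2 using ⟨h1, h2⟩
  obtain ⟨κ, ⟨hκ0, hκδ⟩, hκl⟩ := (hκ.and ((Filter.eventually_all_finset C).2 hl)).exists
  refine ⟨κ, hκ0, fun Φ' hper' h1 h2 => ?_⟩
  set F' : Pt n → Pt n := fun w => Φ' w - w with hF'
  have hd : ∀ w, F' w - F w = Φ' w - Φ w := fun w => by simp only [hF', hF]; abel
  have hz : ∀ c ∈ C, ∃ z ∈ Metric.closedBall c r, F' z = 0 ∧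
      ∀ w ∈ Metric.closedBall c r, F' w = 0 → w = z := fun c hc =>
    hκl c hc F' (fun w => by rw [hd]; exact h1 w) (fun w w' => by rw [hd, hd]; exact h2 w w')
  choose! g hg1 hg2 hg3 using hz
  refine ⟨g, fun c hc => ⟨(mem_closedBall_iff_norm.1 (hg1 c hc)).trans hrρ,
    sub_eq_zero.1 (hg2 c hc)⟩, fun c hc c' hc' h => ?_, fun w hw => ?_⟩
  · exact hsep c hc c' hc' (g c) (g c') (mem_closedBall_iff_norm.1 (hg1 c hc))
      (mem_closedBall_iff_norm.1 (hg1 c' hc')) h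
  · have hw0 : F' w = 0 := sub_eq_zero.2 hw
    have hFw : ‖F w‖ < δ := by
      have := h1 w
      rw [← hd, hw0, zero_sub, norm_neg] at this
      exact this.trans_lt hκδ
    obtain ⟨c, hc, e, he, hlt⟩ := hfar w hFw
    refine ⟨c, hc, ?_⟩
    have hwe : F' (w - e) = 0 := by
      have := hper' (w - e) e he
      rw [sub_add_cancel] at this
      simp only [hF'] at hw0 ⊢
      rw [← hw0, this]
      abel
    have := hg3 c hc (w - e) (mem_closedBall_iff_norm.2 hlt.le) hwe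
    rw [← this, sub_sub_cancel]
    exact he

end Pool.Agent.H47.OD
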