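import Pool.Agent.H47.QG.Tor
import Pool.Agent.H47.QG.Idx

/-!
# Small Hamiltonians have small generating functions
-/

set_option autoImplicit false

open Module Filter Topology Metric Set

open scoped RealInnerProductSpace Gradient

namespace Pool.Agent.H47.OD

open Pool.Agent.H47.QG
open Pool.Agent.H60.QG (Torus PtE proj projP IsHamiltonian IsTimeOne projHom lft Reg dS GV)
open Pool.Agent.H60.PO (PerHam toHam gX gY unc Evo Ham gen cur)

variable {n : ℕ}

theorem SmG_per {L : ℝ → PtE n → ℝ} (hL : IsHamiltonian L) : PerHam (projHom n).ker L :=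
  ⟨hL.smooth, hL.time, fun t z e he => hL.space t _ _ (by
    rw [H60.QG.proj_eq, add_sub_cancel_left]
    exact he)⟩

/-- the Hamiltonian normalised to vanish at the origin -/
noncomputable def nrmL (L : ℝ → PtE n → ℝ) (t : ℝ) (z : PtE n) : ℝ := L t z - L t 0

theorem SmG_nrm {L : ℝ → PtE n → ℝ} (hL : IsHamiltonian L) : IsHamiltonian (nrmL L) where
  smooth := by
    have h1 : ContDiff ℝ 2 fun p : ℝ × PtE n => L p.1 0 :=
      hL.smooth.comp (contDiff_fst.prodMk contDiff_const)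
    exact hL.smooth.sub h1
  time t z := by
    change L (t + 1) z - L (t + 1) 0 = L t z - L t 0
    rw [hL.time, hL.time]
  space t z w h := by
    change L t z - L t 0 = L t w - L t 0
    rw [hL.space t z w h]

theorem SmG_fd_nrm (L : ℝ → PtE n → ℝ) (t : ℝ) : fderiv ℝ (nrmL L t) = fderiv ℝ (L t) := by
  funext z
  exact fderiv_sub_const (L t 0)

theorem SmG_timeOne_nrm {L : ℝ → PtE n → ℝ} {g : Torus n → Torus n} (h : IsTimeOne L g) :
    IsTimeOne (nrmL L) g := by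
  intro γ hγ
  refine h γ fun t => ?_
  have h1 := hγ t
  have h2 : ∇ (fun y => nrmL L t ((γ t).1, y)) (γ t).2 = ∇ (fun y => L t ((γ t).1, y)) (γ t).2 := by
    unfold gradient
    congr 1
    exact fderiv_sub_const (L t 0)
  have h3 : ∇ (fun x => nrmL L t (x, (γ t).2)) (γ t).1 = ∇ (fun x => L t (x, (γ t).2)) (γ t).1 := by
    unfold gradient
    congr 1
    exact fderiv_sub_const (L t 0)
  rw [h2, h3] at h1
  exact h1

/-- the space derivative in terms of the derivative of the uncurried function -/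
theorem SmG_fd_unc {H : ℝ → PtE n → ℝ}
    (hH : ContDiff ℝ 2 (unc H)) (t : ℝ) (z k : PtE n) :
    fderiv ℝ (unc H) (t, z) (0, k) = fderiv ℝ (H t) z k := by
  have h1 : HasFDerivAt (fun w : PtE n => (t, w)) (ContinuousLinearMap.inr ℝ ℝ (PtE n)) z :=
    hasFDerivAt_prodMk_right t z
  have h2 : HasFDerivAt (H t) ((fderiv ℝ (unc H) (t, z)).comp
      (ContinuousLinearMap.inr ℝ ℝ (PtE n))) z :=
    (hH.differentiable (by norm_num) (t, z)).hasFDerivAt.comp z h1
  rw [h2.fderiv]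
  rfl

theorem SmG_diff {H : ℝ → PtE n → ℝ} (hH : ContDiff ℝ 2 (unc H)) (t : ℝ) :
    ContDiff ℝ 2 (H t) :=
  hH.comp (contDiff_const.prodMk contDiff_id)

theorem SmG_norm_le {v : EuclideanSpace ℝ (Fin n)} {B : ℝ} (hB : 0 ≤ B)
    (h : ∀ w, ⟪v, w⟫ ≤ B * ‖w‖) : ‖v‖ ≤ B := by
  have h1 := h v
  rw [real_inner_self_eq_norm_sq] at h1
  by_contra h2
  have h3 : 0 < ‖v‖ := hB.trans_lt (not_le.1 h2)
  nlinarith [not_le.1 h2]

theorem SmG_fst0 (w : EuclideanSpace ℝ (Fin n)) : ‖((w, 0) : PtE n)‖ = ‖w‖ := by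
  rw [Prod.norm_def]; simp

theorem SmG_snd0 (w : EuclideanSpace ℝ (Fin n)) : ‖((0, w) : PtE n)‖ = ‖w‖ := by
  rw [Prod.norm_def]; simp

/-- small derivatives give small constants -/
theorem SmG_reg {H : ℝ → PtE n → ℝ} (hH : PerHam (projHom n).ker H) {κ C : ℝ} (hκ : 0 < κ)
    (h0 : ∀ t, H t 0 = 0) (hC : (n + 1) * κ ≤ C)
    (h1 : ∀ t z, ‖fderiv ℝ (H t) z‖ ≤ κ) (h2 : ∀ t z, ‖fderiv ℝ (fderiv ℝ (H t)) z‖ ≤ κ) :
    Reg (toHam H) C := by
  have hn : (0 : ℝ) ≤ n := Nat.cast_nonneg n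
  have hκC : κ ≤ C := by nlinarith
  have hnκC : κ * n ≤ C := by nlinarith
  have hC0 : 0 < C := hκ.trans_le hκC
  have hd : ∀ t z, DifferentiableAt ℝ (H t) z := fun t z =>
    (SmG_diff hH.smooth t).differentiable (by norm_num) z
  have hd2 : ∀ t z, DifferentiableAt ℝ (fderiv ℝ (H t)) z := fun t z =>
    ((SmG_diff hH.smooth t).fderiv_right (m := 1) (by norm_num)).differentiable (by norm_num) z
  have hl : ∀ t z z', ‖fderiv ℝ (H t) z - fderiv ℝ (H t) z'‖ ≤ κ * ‖z - z'‖ := fun t z z' =>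
    Convex.norm_image_sub_le_of_norm_fderiv_le (fun w _ => hd2 t w) (fun w _ => h2 t w)
      convex_univ (mem_univ z') (mem_univ z)
  have eX : ∀ t z w, ⟪gX H t z, w⟫ = fderiv ℝ (H t) z (w, 0) := fun t z w => by
    rw [H60.PO.inner_gX, SmG_fd_unc hH.smooth]
  have eY : ∀ t z w, ⟪gY H t z, w⟫ = fderiv ℝ (H t) z (0, w) := fun t z w => by
    rw [H60.PO.inner_gY, SmG_fd_unc hH.smooth]
  refine ⟨hC0, hH.smooth.continuous, hH.gX_smooth.continuous, hH.gY_smooth.continuous,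
    ?_, ?_, ?_, ?_, ?_, ?_⟩
  · intro t z k
    change |H t (z + k) - H t z - ⟪gX H t z, k.1⟫ - ⟪gY H t z, k.2⟫| ≤ C * ‖k‖ ^ 2
    have e1 : ⟪gX H t z, k.1⟫ + ⟪gY H t z, k.2⟫ = fderiv ℝ (H t) z k := by
      rw [eX, eY, ← map_add, Prod.mk_add_mk, add_zero, zero_add]
    have e2 : H t (z + k) - H t z - ⟪gX H t z, k.1⟫ - ⟪gY H t z, k.2⟫ =
        H t (z + k) - H t z - fderiv ℝ (H t) z k := by rw [← e1]; ring
    rw [e2]
    have h3 := Convex.norm_image_sub_le_of_norm_hasFDerivWithin_le' (f := H t)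
      (f' := fderiv ℝ (H t)) (s := closedBall z ‖k‖) (φ := fderiv ℝ (H t) z) (C := κ * ‖k‖)
      (x := z) (y := z + k) (fun w _ => (hd t w).hasFDerivAt.hasFDerivWithinAt)
      (fun w hw => (hl t w z).trans (by
        rw [mem_closedBall, dist_eq_norm] at hw
        exact mul_le_mul_of_nonneg_left hw hκ.le)) (convex_closedBall _ _)
      (mem_closedBall_self (norm_nonneg _)) (by
        rw [mem_closedBall, dist_eq_norm, add_sub_cancel_left])
    rw [add_sub_cancel_left, Real.norm_eq_abs] at h3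
    refine h3.trans ?_
    calc κ * ‖k‖ * ‖k‖ = κ * ‖k‖ ^ 2 := by ring
      _ ≤ C * ‖k‖ ^ 2 := mul_le_mul_of_nonneg_right hκC (sq_nonneg _)
  · intro t z z'
    refine (SmG_norm_le (v := gX H t z - gX H t z') (B := κ * ‖z - z'‖) (by positivity)
      fun w => ?_).trans (mul_le_mul_of_nonneg_right hκC (norm_nonneg _))
    rw [inner_sub_left, eX, eX, ← sub_apply]
    refine (le_abs_self _).trans ?_
    rw [← Real.norm_eq_abs]
    refine (ContinuousLinearMap.le_opNorm _ _).trans ?_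
    rw [SmG_fst0]
    exact mul_le_mul_of_nonneg_right (hl t z z') (norm_nonneg _)
  · intro t z z'
    refine (SmG_norm_le (v := gY H t z - gY H t z') (B := κ * ‖z - z'‖) (by positivity)
      fun w => ?_).trans (mul_le_mul_of_nonneg_right hκC (norm_nonneg _))
    rw [inner_sub_left, eY, eY, ← sub_apply]
    refine (le_abs_self _).trans ?_
    rw [← Real.norm_eq_abs]
    refine (ContinuousLinearMap.le_opNorm _ _).trans ?_
    rw [SmG_snd0]
    exact mul_le_mul_of_nonneg_right (hl t z z') (norm_nonneg _)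
  · intro t z
    change |H t z| ≤ C
    obtain ⟨e, he, hez⟩ := H60.QG.cocompact z
    rw [← hH.pz t z e he]
    have h3 := Convex.norm_image_sub_le_of_norm_fderiv_le (f := H t) (C := κ) (s := univ)
      (fun w _ => hd t w) (fun w _ => h1 t w) convex_univ (mem_univ 0) (mem_univ (z + e))
    rw [h0, sub_zero, sub_zero, Real.norm_eq_abs] at h3
    exact h3.trans ((mul_le_mul_of_nonneg_left hez hκ.le).trans hnκC)
  · intro t z
    refine (SmG_norm_le (v := gX H t z) (B := κ) hκ.le fun w => ?_).trans hκC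
    rw [eX]
    refine (le_abs_self _).trans ?_
    rw [← Real.norm_eq_abs]
    refine (ContinuousLinearMap.le_opNorm _ _).trans ?_
    rw [SmG_fst0]
    exact mul_le_mul_of_nonneg_right (h1 t z) (norm_nonneg _)
  · intro t z
    refine (SmG_norm_le (v := gY H t z) (B := κ) hκ.le fun w => ?_).trans hκC
    rw [eY]
    refine (le_abs_self _).trans ?_
    rw [← Real.norm_eq_abs]
    refine (ContinuousLinearMap.le_opNorm _ _).trans ?_
    rw [SmG_snd0]
    exact mul_le_mul_of_nonneg_right (h1 t z) (norm_nonneg _)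

section gen

variable {h : Ham (EuclideanSpace ℝ (Fin n))} {C s τ : ℝ}
  {E : ℝ → PtE n → ℝ → PtE n}

theorem SmG_sx_bd (hh : Reg h C) (hE : Evo h E) (hτ : 0 ≤ τ) (hCτ : C * τ ≤ 1 / 8)
    (u : PtE n) : ‖(gen h E s τ).sx u‖ ≤ C * τ := by
  have h1 := H60.QG.cur_move' hh hE u (H60.QG.lt_aux (s := s) hτ) (H60.QG.rt_aux (s := s) hτ)
  have e : (gen h E s τ).sx u = (cur E s τ u s - cur E s τ u (s + τ)).2 := by
    rw [Prod.snd_sub, H60.QG.cur_init hE]
    rfl
  rw [e]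
  exact (norm_snd_le _).trans h1

theorem SmG_sy_bd (hh : Reg h C) (hE : Evo h E) (hτ : 0 ≤ τ) (hCτ : C * τ ≤ 1 / 8)
    (u : PtE n) : ‖(gen h E s τ).sy u‖ ≤ C * τ := by
  have h1 := H60.QG.cur_move' hh hE u (H60.QG.rt_aux (s := s) hτ) (H60.QG.lt_aux (s := s) hτ)
  have e : (gen h E s τ).sy u = (cur E s τ u (s + τ) - cur E s τ u s).1 := by
    rw [Prod.fst_sub, H60.QG.cur_end hh hE hτ hCτ]
    rfl
  rw [e]
  exact (norm_fst_le _).trans h1

theorem SmG_sy_lip (hh : Reg h C) (hE : Evo h E) (hτ : 0 ≤ τ) (hCτ : C * τ ≤ 1 / 8)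
    (u u' : PtE n) : ‖(gen h E s τ).sy u - (gen h E s τ).sy u'‖ ≤ 2 * (C * τ) * ‖u - u'‖ := by
  have h1 := (H60.PO.bvp_bound (δ := fun t => cur E s τ u t - cur E s τ u' t) (M := ‖u - u'‖)
    hτ hh.pos.le (hCτ.trans (by norm_num))
    (fun t => (H60.QG.cur_deriv hE u t).sub (H60.QG.cur_deriv hE u' t))
    (fun t _ => hh.lip t _ _) (by
      rw [Prod.fst_sub, H60.QG.cur_end hh hE hτ hCτ, H60.QG.cur_end hh hE hτ hCτ, ← Prod.fst_sub]
      exact norm_fst_le _) (by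
      rw [Prod.snd_sub, H60.QG.cur_init hE, H60.QG.cur_init hE, ← Prod.snd_sub]
      exact norm_snd_le _)).2 (s + τ) (H60.QG.rt_aux hτ) s (H60.QG.lt_aux hτ)
  have e : (gen h E s τ).sy u - (gen h E s τ).sy u' =
      ((cur E s τ u (s + τ) - cur E s τ u' (s + τ)) - (cur E s τ u s - cur E s τ u' s)).1 := by
    rw [Prod.fst_sub, Prod.fst_sub, Prod.fst_sub, H60.QG.cur_end hh hE hτ hCτ,
      H60.QG.cur_end hh hE hτ hCτ]
    change u.1 - (cur E s τ u s).1 - (u'.1 - (cur E s τ u' s).1) = _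
    abel
  rw [e]
  exact (norm_fst_le _).trans h1

theorem SmG_sx_lip (hh : Reg h C) (hE : Evo h E) (hτ : 0 ≤ τ) (hCτ : C * τ ≤ 1 / 8)
    (u u' : PtE n) : ‖(gen h E s τ).sx u - (gen h E s τ).sx u'‖ ≤ 2 * (C * τ) * ‖u - u'‖ := by
  have h1 := (H60.PO.bvp_bound (δ := fun t => cur E s τ u t - cur E s τ u' t) (M := ‖u - u'‖)
    hτ hh.pos.le (hCτ.trans (by norm_num))
    (fun t => (H60.QG.cur_deriv hE u t).sub (H60.QG.cur_deriv hE u' t))
    (fun t _ => hh.lip t _ _) (by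
      rw [Prod.fst_sub, H60.QG.cur_end hh hE hτ hCτ, H60.QG.cur_end hh hE hτ hCτ, ← Prod.fst_sub]
      exact norm_fst_le _) (by
      rw [Prod.snd_sub, H60.QG.cur_init hE, H60.QG.cur_init hE, ← Prod.snd_sub]
      exact norm_snd_le _)).2 s (H60.QG.lt_aux hτ) (s + τ) (H60.QG.rt_aux hτ)
  have e : (gen h E s τ).sx u - (gen h E s τ).sx u' =
      ((cur E s τ u s - cur E s τ u' s) - (cur E s τ u (s + τ) - cur E s τ u' (s + τ))).2 := by
    rw [Prod.snd_sub, Prod.snd_sub, Prod.snd_sub, H60.QG.cur_init hE, H60.QG.cur_init hE]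
    change u.2 - (cur E s τ u (s + τ)).2 - (u'.2 - (cur E s τ u' (s + τ)).2) = _
    abel
  rw [e]
  exact (norm_snd_le _).trans h1

end gen

/-- a time-one map is the projection of the evolution -/
theorem SmG_one {L : ℝ → PtE n → ℝ} (hL : IsHamiltonian L) {E : ℝ → PtE n → ℝ → PtE n}
    (hE : Evo (toHam L) E) {g : Torus n → Torus n} (hg : IsTimeOne L g) (w : PtE n) :
    g (proj w) = proj (E 0 w 1) := by
  have h1 := hg (fun t => E 0 w t) (fun t => by
    have h2 := hE.deriv 0 w t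
    have h3 := ((SmG_per hL).hasGradientAt_fst t (E 0 w t)).gradient
    have h4 := ((SmG_per hL).hasGradientAt_snd t (E 0 w t)).gradient
    rw [h3, h4]
    exact h2)
  simp only [hE.init] at h1
  exact h1

/-- the time-one map of a Hamiltonian which is small in `C^2` has a small generating function -/
theorem small_gen (η : ℝ) (hη : 0 < η) : ∃ κ > 0, ∀ L : ℝ → PtE n → ℝ, IsHamiltonian L →
    (∀ t z, ‖fderiv ℝ (L t) z‖ ≤ κ) → (∀ t z, ‖fderiv ℝ (fderiv ℝ (L t)) z‖ ≤ κ) →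
    ∃ (S : Pt n → ℝ) (f : Pt n → Pt n), Gen S f ∧ (∀ p, ‖fderiv ℝ S p‖ ≤ η) ∧
      (∀ p, ‖fderiv ℝ (fderiv ℝ S) p‖ ≤ η) ∧
      ∀ g, IsTimeOne L g → ∀ z, g (projP z) = projP (f z) := by
  set M : ℝ := ‖(lft n : Pt n →L[ℝ] PtE n)‖ with hM
  have hM0 : 0 ≤ M := norm_nonneg _
  set A : ℝ := 8 + 4 * (M + 1) ^ 2 / η with hA
  have hA0 : 0 < A := by positivity
  have hn0 : (0 : ℝ) ≤ n := Nat.cast_nonneg n
  have hn : (0 : ℝ) < n + 1 := by linarith
  set κ : ℝ := 1 / (A * (n + 1)) with hκ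
  have hκ0 : 0 < κ := by positivity
  set C : ℝ := 1 / A with hC
  have hC0 : 0 < C := by positivity
  have hCA : C * A = 1 := by rw [hC]; field_simp
  have hnκ : (n + 1) * κ = C := by rw [hκ, hC]; field_simp
  have hC8 : C ≤ 1 / 8 := by
    have h1 : 0 ≤ 4 * (M + 1) ^ 2 / η := by positivity
    have h2 : C * 8 ≤ C * A := mul_le_mul_of_nonneg_left (by rw [hA]; linarith) hC0.le
    rw [hCA] at h2
    linarith
  have hCM : 4 * C * (M + 1) ^ 2 ≤ η := by
    have h1 : 4 * (M + 1) ^ 2 / η ≤ A := by rw [hA]; linarith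
    have h2 : C * (4 * (M + 1) ^ 2 / η) ≤ 1 :=
      (mul_le_mul_of_nonneg_left h1 hC0.le).trans hCA.le
    have h3 : C * (4 * (M + 1) ^ 2 / η) = 4 * C * (M + 1) ^ 2 / η := by ring
    rw [h3, div_le_one hη] at h2
    exact h2
  have hCM1 : 2 * C * M ≤ η := by nlinarith [mul_nonneg hC0.le hM0, mul_nonneg (mul_nonneg hC0.le hM0) hM0]
  have hCM2 : 4 * C * M * M ≤ η := by nlinarith [mul_nonneg hC0.le hM0, mul_nonneg (mul_nonneg hC0.le hM0) hM0]
  refine ⟨κ, hκ0, fun L hL h1 h2 => ?_⟩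
  have hL' := SmG_nrm hL
  have hP := SmG_per hL'
  have hreg : Reg (toHam (nrmL L)) C := SmG_reg hP hκ0 (fun t => sub_self _) hnκ.le
    (fun t z => by rw [SmG_fd_nrm]; exact h1 t z) (fun t z => by rw [SmG_fd_nrm]; exact h2 t z)
  obtain ⟨C', hC', hX, hY⟩ := H60.QG.exists_reg hP H60.QG.cocompact
  obtain ⟨E, hE⟩ := hP.evo hX hY
  have hCτ : C * (1 : ℝ) ≤ 1 / 8 := by linarith
  have hGV := H60.QG.gv_gen hP H60.QG.cocompact hreg hE zero_le_one hCτ 0
  set G := gen (toHam (nrmL L)) E 0 1 with hG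
  have hgen := H60.QG.gen_lft hGV
  have hfd : fderiv ℝ (fun w => G.S (lft n w)) =
      fun w => (dS G (lft n w)).comp (lft n : Pt n →L[ℝ] PtE n) := by
    funext w
    exact ((hGV.deriv (lft n w)).comp w (lft n : Pt n →L[ℝ] PtE n).hasFDerivAt).fderiv
  have hlft : ∀ k : Pt n, ‖lft n k‖ ≤ M * ‖k‖ := fun k =>
    (lft n : Pt n →L[ℝ] PtE n).le_opNorm k
  have hin : ∀ (a b k1 k2 : EuclideanSpace ℝ (Fin n)) (B r : ℝ), 0 ≤ B → ‖a‖ ≤ B → ‖b‖ ≤ B →
      ‖k1‖ ≤ r → ‖k2‖ ≤ r → |⟪a, k1⟫ + ⟪b, k2⟫| ≤ 2 * B * r := by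
    intro a b k1 k2 B r hB ha hb hk1 hk2
    have h3 := abs_real_inner_le_norm a k1
    have h4 := abs_real_inner_le_norm b k2
    have h5 : ‖a‖ * ‖k1‖ ≤ B * r := by gcongr
    have h6 : ‖b‖ * ‖k2‖ ≤ B * r := by gcongr
    have h7 := abs_add_le ⟪a, k1⟫ ⟪b, k2⟫
    linarith
  refine ⟨_, _, hgen, fun p => ?_, fun p => ?_, fun g hg z => ?_⟩
  · rw [hfd]
    refine ContinuousLinearMap.opNorm_le_bound _ hη.le fun k => ?_
    change ‖dS G (lft n p) (lft n k)‖ ≤ _
    rw [H60.QG.dS_apply, Real.norm_eq_abs]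
    have h3 := hin (G.sx (lft n p)) (G.sy (lft n p)) (lft n k).1 (lft n k).2 C (M * ‖k‖) hC0.le
      ((SmG_sx_bd hreg hE zero_le_one hCτ _).trans (by linarith))
      ((SmG_sy_bd hreg hE zero_le_one hCτ _).trans (by linarith))
      ((norm_fst_le _).trans (hlft k)) ((norm_snd_le _).trans (hlft k))
    refine h3.trans ?_
    calc 2 * C * (M * ‖k‖) = (2 * C * M) * ‖k‖ := by ring
      _ ≤ η * ‖k‖ := mul_le_mul_of_nonneg_right hCM1 (norm_nonneg _)
  · rw [hfd]
    have h3 : ∀ w w' : Pt n, ‖(dS G (lft n w)).comp (lft n : Pt n →L[ℝ] PtE n) -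
        (dS G (lft n w')).comp (lft n : Pt n →L[ℝ] PtE n)‖ ≤ η * ‖w - w'‖ := by
      intro w w'
      refine ContinuousLinearMap.opNorm_le_bound _ (by positivity) fun k => ?_
      change ‖dS G (lft n w) (lft n k) - dS G (lft n w') (lft n k)‖ ≤ _
      rw [H60.QG.dS_apply, H60.QG.dS_apply, Real.norm_eq_abs]
      have e : ⟪G.sx (lft n w), (lft n k).1⟫ + ⟪G.sy (lft n w), (lft n k).2⟫ -
          (⟪G.sx (lft n w'), (lft n k).1⟫ + ⟪G.sy (lft n w'), (lft n k).2⟫) =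
          ⟪G.sx (lft n w) - G.sx (lft n w'), (lft n k).1⟫ +
          ⟪G.sy (lft n w) - G.sy (lft n w'), (lft n k).2⟫ := by
        rw [inner_sub_left, inner_sub_left]; ring
      rw [e]
      have h4 : ‖lft n w - lft n w'‖ ≤ M * ‖w - w'‖ := by
        rw [← map_sub]; exact hlft _
      have h5 := hin (G.sx (lft n w) - G.sx (lft n w')) (G.sy (lft n w) - G.sy (lft n w'))
        (lft n k).1 (lft n k).2 (2 * (C * 1) * (M * ‖w - w'‖)) (M * ‖k‖) (by positivity)
        ((SmG_sx_lip hreg hE zero_le_one hCτ _ _).trans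
          (mul_le_mul_of_nonneg_left h4 (by positivity)))
        ((SmG_sy_lip hreg hE zero_le_one hCτ _ _).trans
          (mul_le_mul_of_nonneg_left h4 (by positivity)))
        ((norm_fst_le _).trans (hlft k)) ((norm_snd_le _).trans (hlft k))
      refine h5.trans ?_
      calc 2 * (2 * (C * 1) * (M * ‖w - w'‖)) * (M * ‖k‖)
          = (4 * C * M * M) * (‖w - w'‖ * ‖k‖) := by ring
        _ ≤ η * (‖w - w'‖ * ‖k‖) := mul_le_mul_of_nonneg_right hCM2 (by positivity)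
        _ = η * ‖w - w'‖ * ‖k‖ := by ring
    have h4 : LipschitzWith ⟨η, hη.le⟩
        (fun w => (dS G (lft n w)).comp (lft n : Pt n →L[ℝ] PtE n)) :=
      LipschitzWith.of_dist_le_mul fun w w' => by
        rw [dist_eq_norm, dist_eq_norm]; exact h3 w w'
    exact norm_fderiv_le_of_lipschitz ℝ h4
  · have h3 := SmG_one hL' hE (SmG_timeOne_nrm hg) (lft n z)
    rw [H60.QG.projP_eq, h3, H60.QG.projP_eq, ContinuousLinearEquiv.apply_symm_apply, zero_add]

/-- every `C^2` Hamiltonian has a time-one map -/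
theorem exists_timeOne (L : ℝ → PtE n → ℝ) (hL : IsHamiltonian L) : ∃ g, IsTimeOne L g := by
  have hP := SmG_per hL
  obtain ⟨C, hC, hX, hY⟩ := H60.QG.exists_reg hP H60.QG.cocompact
  obtain ⟨E, hE⟩ := hP.evo hX hY
  have hlip : ∀ t, LipschitzOnWith C ((toHam L).fld t) univ := fun t =>
    (LipschitzWith.of_dist_le_mul fun z z' => by
      rw [dist_eq_norm, dist_eq_norm]; exact hC.lip t z z').lipschitzOnWith
  have huniq : ∀ γ γ' : ℝ → PtE n, (∀ t, HasDerivAt γ ((toHam L).fld t (γ t)) t) →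
      (∀ t, HasDerivAt γ' ((toHam L).fld t (γ' t)) t) → γ 0 = γ' 0 → γ = γ' :=
    fun γ γ' h1 h2 h3 => ODE_solution_unique_univ (v := (toHam L).fld) (s := fun _ => univ)
      (K := C) (t₀ := 0) hlip (fun t => ⟨h1 t, mem_univ _⟩) (fun t => ⟨h2 t, mem_univ _⟩) h3
  have hsurj : ∀ w : Torus n, ∃ z : PtE n, proj z = w := by
    intro w
    choose a ha using fun i => QuotientAddGroup.mk_surjective (w.1 i)
    choose b hb using fun i => QuotientAddGroup.mk_surjective (w.2 i)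
    exact ⟨(WithLp.toLp 2 a, WithLp.toLp 2 b), Prod.ext (funext ha) (funext hb)⟩
  choose r hr using hsurj
  refine ⟨fun w => proj (E 0 (r w) 1), fun γ hγ => ?_⟩
  have h1 : ∀ t, HasDerivAt γ ((toHam L).fld t (γ t)) t := by
    intro t
    have h2 := hγ t
    rw [(hP.hasGradientAt_fst t (γ t)).gradient, (hP.hasGradientAt_snd t (γ t)).gradient] at h2
    exact h2
  set e : PtE n := r (proj (γ 0)) - γ 0 with he
  have heΛ : e ∈ (projHom n).ker := by
    rw [he, ← H60.QG.proj_eq]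
    exact hr _
  have h2 : E 0 (r (proj (γ 0))) = fun t => γ t + e := by
    refine huniq _ _ (fun t => hE.deriv 0 _ t) (fun t => ?_) ?_
    · rw [hP.fld_per t (γ t) e heΛ]
      exact (h1 t).add_const e
    · rw [hE.init, he]
      abel
  change proj (E 0 (r (proj (γ 0))) 1) = proj (γ 1)
  rw [h2, H60.QG.proj_eq, add_sub_cancel_left]
  exact heΛ

end Pool.Agent.H47.OD
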