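import Pool.Agent.H47.OD.TwH
import Pool.Agent.H47.OD.Shr
import Pool.Agent.H47.OD.SmG

/-!
# The local twist
-/

set_option autoImplicit false

open Module Filter Topology
open scoped Gradient

namespace Pool.Agent.H47.OD

open Pool.Agent.H47.QG
open Pool.Agent.H60.QG (Torus PtE proj projP IsHamiltonian IsTimeOne lft projP_eq lft_fst lft_snd)

variable {n : ℕ}

/-- gradient of a quadratic function -/
theorem TwM_grad (G : EuclideanSpace ℝ (Fin n) → ℝ) (A ε : ℝ) (b y : EuclideanSpace ℝ (Fin n))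
    (h : G =ᶠ[𝓝 y] fun x => ε * ((A + ‖x - b‖ ^ 2) / 2)) : ∇ G y = ε • (y - b) := by
  have h1 : HasFDerivAt (fun x : EuclideanSpace ℝ (Fin n) => ‖x - b‖ ^ 2)
      (2 • (innerSL ℝ (y - b)).comp (ContinuousLinearMap.id ℝ (EuclideanSpace ℝ (Fin n)))) y :=
    ((hasFDerivAt_id y).sub_const b).norm_sq
  have h2 : HasFDerivAt (fun x : EuclideanSpace ℝ (Fin n) => ε * ((A + ‖x - b‖ ^ 2) / 2))
      (InnerProductSpace.toDual ℝ (EuclideanSpace ℝ (Fin n)) (ε • (y - b))) y := by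
    have h3 := ((h1.const_add A).const_mul (ε / 2))
    have e1 : (fun x : EuclideanSpace ℝ (Fin n) => ε * ((A + ‖x - b‖ ^ 2) / 2)) =
        fun x => ε / 2 * (A + ‖x - b‖ ^ 2) := by
      funext x
      ring
    rw [e1]
    refine h3.congr_fderiv ?_
    ext v
    simp only [smul_apply, ContinuousLinearMap.comp_apply,
      ContinuousLinearMap.id_apply, innerSL_apply_apply, InnerProductSpace.toDual_apply_apply,
      inner_smul_left, smul_eq_mul, nsmul_eq_mul]
    simp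
    ring
  have h3 : HasGradientAt G (ε • (y - b)) y := (h2.congr_of_eventuallyEq h)
  exact h3.gradient

/-- gradient of a function which is locally zero -/
theorem TwM_grad0 (G : EuclideanSpace ℝ (Fin n) → ℝ) (y : EuclideanSpace ℝ (Fin n))
    (h : G =ᶠ[𝓝 y] fun _ => 0) : ∇ G y = 0 := by
  have h1 : HasFDerivAt (fun _ : EuclideanSpace ℝ (Fin n) => (0 : ℝ))
      (0 : EuclideanSpace ℝ (Fin n) →L[ℝ] ℝ) y := hasFDerivAt_const _ _
  have h2 : HasGradientAt G 0 y := by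
    have h3 := h1.congr_of_eventuallyEq h
    unfold HasGradientAt HasGradientAtFilter
    rw [map_zero]
    exact h3
  exact h2.gradient

theorem TwM_expand (A : Pt n →L[ℝ] ℝ) (v : Pt n) :
    A v = ∑ i, (v.1 i * A (Pi.single i 1, 0) + v.2 i * A (0, Pi.single i 1)) := by
  have h : v = ∑ i, (v.1 i • ((Pi.single i 1, 0) : Pt n) + v.2 i • ((0, Pi.single i 1) : Pt n)) := by
    refine Prod.ext ?_ ?_
    · funext j
      simp [Prod.fst_sum, Finset.sum_apply, Pi.single_apply]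
    · funext j
      simp [Prod.snd_sum, Finset.sum_apply, Pi.single_apply]
  conv_lhs => rw [h]
  rw [map_sum]
  refine Finset.sum_congr rfl fun i _ => ?_
  rw [map_add, map_smul, map_smul, smul_eq_mul, smul_eq_mul]

/-- a fixed number of the circle determines small real numbers -/
theorem TwM_lattice (p q z : Pt n) (h : projP p = projP q) (h1 : ∀ i, |p.1 i - z.1 i| ≤ 1 / 100)
    (h2 : ∀ i, |p.2 i - z.2 i| ≤ 1 / 100) (h3 : ∀ i, |q.1 i - z.1 i| ≤ 1 / 4)
    (h4 : ∀ i, |q.2 i - z.2 i| ≤ 1 / 4) : p = q := by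
  obtain ⟨a, b, hab⟩ := (proj_eq_iff p q).1 h
  have key : ∀ (x y u : ℝ) (k : ℤ), |x - u| ≤ 1 / 100 → |y - u| ≤ 1 / 4 → x - y = k → x = y := by
    intro x y u k h1 h2 h3
    have h4 : |(k : ℝ)| < 1 := by
      rw [← h3]
      rw [abs_le] at h1 h2
      rw [abs_lt]
      constructor <;> linarith
    have h5 : k = 0 := by
      have : |k| < 1 := by exact_mod_cast h4
      rwa [Int.abs_lt_one_iff] at this
    rw [h5] at h3
    push_cast at h3
    linarith
  refine Prod.ext (funext fun i => ?_) (funext fun i => ?_)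
  · refine key _ _ (z.1 i) (a i) (h1 i) (h3 i) ?_
    have := congrArg (fun t : Pt n => t.1 i) hab
    simpa using this
  · refine key _ _ (z.2 i) (b i) (h2 i) (h4 i) ?_
    have := congrArg (fun t : Pt n => t.2 i) hab
    simpa using this

theorem TwM_single (i : Fin n) : ‖(Pi.single i 1 : Fin n → ℝ)‖ ≤ 1 := by
  rw [pi_norm_le_iff_of_nonneg zero_le_one]
  intro j
  rw [Pi.single_apply]
  split_ifs <;> simp

/-- the twist map: how far `α` moves a point -/
theorem TwM_move {a : Pt n → ℝ} {α : Pt n → Pt n} (h : Gen a α) {η : ℝ}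
    (ha : ∀ p, ‖fderiv ℝ a p‖ ≤ η) (z : Pt n) (i : Fin n) :
    |(α z).1 i - z.1 i| ≤ η ∧ |(α z).2 i - z.2 i| ≤ η := by
  obtain ⟨h1, h2⟩ := (h.rel z (α z)).1 rfl i
  have e1 : ‖((0, Pi.single i 1) : Pt n)‖ ≤ 1 := by
    rw [Prod.norm_def]
    simpa using TwM_single i
  have e2 : ‖((Pi.single i 1, 0) : Pt n)‖ ≤ 1 := by
    rw [Prod.norm_def]
    simpa using TwM_single i
  have hη : 0 ≤ η := (norm_nonneg _).trans (ha z)
  constructor
  · have h3 : (α z).1 i - z.1 i = fderiv ℝ a ((α z).1, z.2) (0, Pi.single i 1) := by linarith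
    rw [h3, ← Real.norm_eq_abs]
    refine ((fderiv ℝ a ((α z).1, z.2)).le_opNorm _).trans ?_
    calc _ ≤ η * 1 := mul_le_mul (ha _) e1 (norm_nonneg _) hη
      _ = η := mul_one _
  · have h3 : (α z).2 i - z.2 i = - fderiv ℝ a ((α z).1, z.2) (Pi.single i 1, 0) := by linarith
    rw [h3, abs_neg, ← Real.norm_eq_abs]
    refine ((fderiv ℝ a ((α z).1, z.2)).le_opNorm _).trans ?_
    calc _ ≤ η * 1 := mul_le_mul (ha _) e2 (norm_nonneg _) hη
      _ = η := mul_one _

/-- `α z` from an explicit solution -/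
theorem TwM_sol {K : PtE n → ℝ} {ε : ℝ} {a : Pt n → ℝ} {α : Pt n → Pt n} (h : Gen a α)
    (ha : ∀ p, ‖fderiv ℝ a p‖ ≤ 1 / 100) {g : Torus n → Torus n}
    (hg : IsTimeOne (fun _ z => ε * K z) g) (hgα : ∀ z, g (projP z) = projP (α z))
    (z : Pt n) (γ : ℝ → PtE n) (h0 : γ 0 = lft n z)
    (hγ : ∀ t, HasDerivAt γ (∇ (fun y => ε * K ((γ t).1, y)) (γ t).2,
      -∇ (fun x => ε * K (x, (γ t).2)) (γ t).1) t)
    (h1 : ∀ i, |(γ 1).1 i - z.1 i| ≤ 1 / 4) (h2 : ∀ i, |(γ 1).2 i - z.2 i| ≤ 1 / 4) :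
    α z = (lft n).symm (γ 1) := by
  have e1 := hg γ hγ
  rw [h0, ← projP_eq, hgα] at e1
  have e2 : proj (γ 1) = projP ((lft n).symm (γ 1)) := by
    rw [projP_eq, ContinuousLinearEquiv.apply_symm_apply]
  rw [e2] at e1
  have e3 : lft n ((lft n).symm (γ 1)) = γ 1 := ContinuousLinearEquiv.apply_symm_apply _ _
  refine TwM_lattice _ _ z e1 (fun i => (TwM_move h ha z i).1) (fun i => (TwM_move h ha z i).2)
    (fun i => ?_) (fun i => ?_)
  · rw [← lft_fst, e3]
    exact h1 i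
  · rw [← lft_snd, e3]
    exact h2 i

/-- constant solutions -/
theorem TwM_const {K : PtE n → ℝ} {ε : ℝ} {a : Pt n → ℝ} {α : Pt n → Pt n} (h : Gen a α)
    (ha : ∀ p, ‖fderiv ℝ a p‖ ≤ 1 / 100) {g : Torus n → Torus n}
    (hg : IsTimeOne (fun _ z => ε * K z) g) (hgα : ∀ z, g (projP z) = projP (α z))
    (z : Pt n) (hz : ∀ᶠ z' in 𝓝 (lft n z), K z' = 0) : α z = z := by
  have e := TwM_sol h ha hg hgα z (fun _ => lft n z) rfl (fun t => ?_) (fun i => ?_) (fun i => ?_)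
  · rw [e, ContinuousLinearEquiv.symm_apply_apply]
  · have h1 : ∇ (fun y => ε * K ((lft n z).1, y)) (lft n z).2 = 0 := by
      refine TwM_grad0 _ _ ?_
      have hc : Tendsto (fun y : EuclideanSpace ℝ (Fin n) => ((lft n z).1, y)) (𝓝 (lft n z).2)
          (𝓝 (lft n z)) := by
        have : Continuous (fun y : EuclideanSpace ℝ (Fin n) => ((lft n z).1, y)) := by fun_prop
        exact this.tendsto _
      filter_upwards [hc.eventually hz] with y hy
      rw [hy, mul_zero]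
    have h2 : ∇ (fun x => ε * K (x, (lft n z).2)) (lft n z).1 = 0 := by
      refine TwM_grad0 _ _ ?_
      have hc : Tendsto (fun y : EuclideanSpace ℝ (Fin n) => (y, (lft n z).2)) (𝓝 (lft n z).1)
          (𝓝 (lft n z)) := by
        have : Continuous (fun y : EuclideanSpace ℝ (Fin n) => (y, (lft n z).2)) := by fun_prop
        exact this.tendsto _
      filter_upwards [hc.eventually hz] with y hy
      rw [hy, mul_zero]
    have h3 := hasDerivAt_const t (lft n z)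
    rw [h1, h2, neg_zero]
    exact h3
  · rw [lft_fst]
    simp
  · rw [lft_snd]
    simp

/-- near `w` the map is a rotation -/
theorem TwM_rot {K : PtE n → ℝ} {ε : ℝ} {a : Pt n → ℝ} {α : Pt n → Pt n} (h : Gen a α)
    (ha : ∀ p, ‖fderiv ℝ a p‖ ≤ 1 / 100) {g : Torus n → Torus n}
    (hg : IsTimeOne (fun _ z => ε * K z) g) (hgα : ∀ z, g (projP z) = projP (α z))
    (w : Pt n) (r : ℝ) (hK : ∀ z : Pt n, ‖z - w‖ < r →
      K (lft n z) = (∑ i, ((z.1 i - w.1 i) ^ 2 + (z.2 i - w.2 i) ^ 2)) / 2)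
    (z : Pt n) (hz : ‖z - w‖ < r / 2) (hz' : ‖z - w‖ ≤ 1 / 12) :
    α z = (fun i => w.1 i + (Real.cos ε * (z.1 i - w.1 i) + Real.sin ε * (z.2 i - w.2 i)),
      fun i => w.2 i + (-Real.sin ε * (z.1 i - w.1 i) + Real.cos ε * (z.2 i - w.2 i))) := by
  set W := lft n w with hW
  set u := (lft n z).1 - W.1 with hu
  set v := (lft n z).2 - W.2 with hv
  have hui : ∀ i, u i = z.1 i - w.1 i := fun i => rfl
  have hvi : ∀ i, v i = z.2 i - w.2 i := fun i => rfl
  have hu1 : ∀ i, |z.1 i - w.1 i| ≤ ‖z - w‖ := fun i =>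
    (norm_le_pi_norm (z - w).1 i).trans (norm_fst_le (z - w))
  have hv1 : ∀ i, |z.2 i - w.2 i| ≤ ‖z - w‖ := fun i =>
    (norm_le_pi_norm (z - w).2 i).trans (norm_snd_le (z - w))
  let γ : ℝ → PtE n := fun t => (W.1 + (Real.cos (ε * t) • u + Real.sin (ε * t) • v),
    W.2 + (-Real.sin (ε * t) • u + Real.cos (ε * t) • v))
  have hK2 : ∀ q : PtE n, ‖(lft n).symm q - w‖ < r →
      K q = (‖q.1 - W.1‖ ^ 2 + ‖q.2 - W.2‖ ^ 2) / 2 := by
    intro q hq
    have h1 := hK _ hq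
    rw [ContinuousLinearEquiv.apply_symm_apply] at h1
    rw [h1, EuclideanSpace.norm_sq_eq, EuclideanSpace.norm_sq_eq, ← Finset.sum_add_distrib]
    congr 1
    refine Finset.sum_congr rfl fun i _ => ?_
    rw [Real.norm_eq_abs, Real.norm_eq_abs, sq_abs, sq_abs]
    rfl
  have hr : ∀ t, ‖(lft n).symm (γ t) - w‖ < r := by
    intro t
    have hcs : |Real.cos (ε * t)| ≤ 1 := Real.abs_cos_le_one _
    have hsn : |Real.sin (ε * t)| ≤ 1 := Real.abs_sin_le_one _
    have key : ∀ (c s x y : ℝ), |c| ≤ 1 → |s| ≤ 1 → |x| ≤ ‖z - w‖ → |y| ≤ ‖z - w‖ →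
        |c * x + s * y| ≤ 2 * ‖z - w‖ := by
      intro c s x y hc hs hx hy
      have h1 : |c * x| ≤ ‖z - w‖ := by
        rw [abs_mul]
        calc |c| * |x| ≤ 1 * ‖z - w‖ := mul_le_mul hc hx (abs_nonneg _) zero_le_one
          _ = _ := one_mul _
      have h2 : |s * y| ≤ ‖z - w‖ := by
        rw [abs_mul]
        calc |s| * |y| ≤ 1 * ‖z - w‖ := mul_le_mul hs hy (abs_nonneg _) zero_le_one
          _ = _ := one_mul _
      linarith [abs_add_le (c * x) (s * y)]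
    have hle : ‖(lft n).symm (γ t) - w‖ ≤ 2 * ‖z - w‖ := by
      rw [Prod.norm_def]
      refine max_le ?_ ?_
      · rw [pi_norm_le_iff_of_nonneg (by positivity)]
        intro i
        have e : ((lft n).symm (γ t) - w).1 i =
            Real.cos (ε * t) * (z.1 i - w.1 i) + Real.sin (ε * t) * (z.2 i - w.2 i) := by
          change (w.1 i + (Real.cos (ε * t) * (z.1 i - w.1 i) +
            Real.sin (ε * t) * (z.2 i - w.2 i))) - w.1 i = _
          ring
        rw [e, Real.norm_eq_abs]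
        exact key _ _ _ _ hcs hsn (hu1 i) (hv1 i)
      · rw [pi_norm_le_iff_of_nonneg (by positivity)]
        intro i
        have e : ((lft n).symm (γ t) - w).2 i =
            -Real.sin (ε * t) * (z.1 i - w.1 i) + Real.cos (ε * t) * (z.2 i - w.2 i) := by
          change (w.2 i + (-Real.sin (ε * t) * (z.1 i - w.1 i) +
            Real.cos (ε * t) * (z.2 i - w.2 i))) - w.2 i = _
          ring
        rw [e, Real.norm_eq_abs]
        exact key _ _ _ _ (by rw [abs_neg]; exact hsn) hcs (hu1 i) (hv1 i)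
    linarith
  have hopen : ∀ t, ∀ᶠ q in 𝓝 (γ t), K q = (‖q.1 - W.1‖ ^ 2 + ‖q.2 - W.2‖ ^ 2) / 2 := by
    intro t
    have hc : Continuous fun q : PtE n => ‖(lft n).symm q - w‖ := by fun_prop
    filter_upwards [(hc.tendsto (γ t)).eventually (gt_mem_nhds (hr t))] with q hq
    exact hK2 q hq
  have hγ : ∀ t, HasDerivAt γ (∇ (fun y => ε * K ((γ t).1, y)) (γ t).2,
      -∇ (fun x => ε * K (x, (γ t).2)) (γ t).1) t := by
    intro t
    have g1 : ∇ (fun y => ε * K ((γ t).1, y)) (γ t).2 = ε • ((γ t).2 - W.2) := by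
      refine TwM_grad _ (‖(γ t).1 - W.1‖ ^ 2) ε W.2 _ ?_
      have hc : Tendsto (fun y : EuclideanSpace ℝ (Fin n) => ((γ t).1, y)) (𝓝 (γ t).2)
          (𝓝 (γ t)) := by
        have : Continuous (fun y : EuclideanSpace ℝ (Fin n) => ((γ t).1, y)) := by fun_prop
        exact this.tendsto _
      filter_upwards [hc.eventually (hopen t)] with y hy
      rw [hy]
    have g2 : ∇ (fun x => ε * K (x, (γ t).2)) (γ t).1 = ε • ((γ t).1 - W.1) := by
      refine TwM_grad _ (‖(γ t).2 - W.2‖ ^ 2) ε W.1 _ ?_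
      have hc : Tendsto (fun y : EuclideanSpace ℝ (Fin n) => (y, (γ t).2)) (𝓝 (γ t).1)
          (𝓝 (γ t)) := by
        have : Continuous (fun y : EuclideanSpace ℝ (Fin n) => (y, (γ t).2)) := by fun_prop
        exact this.tendsto _
      filter_upwards [hc.eventually (hopen t)] with y hy
      rw [hy, add_comm (‖(γ t).2 - W.2‖ ^ 2)]
    rw [g1, g2]
    have d0 : HasDerivAt (fun s : ℝ => ε * s) ε t := by
      simpa using (hasDerivAt_id t).const_mul ε
    have dc : HasDerivAt (fun s => Real.cos (ε * s)) (-Real.sin (ε * t) * ε) t := d0.cos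
    have ds : HasDerivAt (fun s => Real.sin (ε * s)) (Real.cos (ε * t) * ε) t := d0.sin
    have d1 : HasDerivAt (fun s => W.1 + (Real.cos (ε * s) • u + Real.sin (ε * s) • v))
        ((-Real.sin (ε * t) * ε) • u + (Real.cos (ε * t) * ε) • v) t :=
      ((dc.smul_const u).add (ds.smul_const v)).const_add W.1
    have d2 : HasDerivAt (fun s => W.2 + (-Real.sin (ε * s) • u + Real.cos (ε * s) • v))
        ((-(Real.cos (ε * t) * ε)) • u + (-Real.sin (ε * t) * ε) • v) t :=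
      ((ds.neg.smul_const u).add (dc.smul_const v)).const_add W.2
    have d3 := d1.prodMk d2
    refine d3.congr_deriv ?_
    refine Prod.ext ?_ ?_
    · change (-Real.sin (ε * t) * ε) • u + (Real.cos (ε * t) * ε) • v =
        ε • ((W.2 + (-Real.sin (ε * t) • u + Real.cos (ε * t) • v)) - W.2)
      rw [add_sub_cancel_left, smul_add, smul_smul, smul_smul]
      congr 2 <;> ring
    · change (-(Real.cos (ε * t) * ε)) • u + (-Real.sin (ε * t) * ε) • v =
        -(ε • ((W.1 + (Real.cos (ε * t) • u + Real.sin (ε * t) • v)) - W.1))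
      rw [add_sub_cancel_left, smul_add, smul_smul, smul_smul, neg_add, ← neg_smul, ← neg_smul]
      congr 2 <;> ring
  have h0 : γ 0 = lft n z := by
    change (W.1 + (Real.cos (ε * 0) • u + Real.sin (ε * 0) • v),
      W.2 + (-Real.sin (ε * 0) • u + Real.cos (ε * 0) • v)) = lft n z
    rw [mul_zero, Real.cos_zero, Real.sin_zero, neg_zero, zero_smul, zero_smul, one_smul, one_smul,
      add_zero, zero_add, hu, hv, add_sub_cancel, add_sub_cancel]
  have key2 : ∀ (c s x y : ℝ), |c| ≤ 1 → |s| ≤ 1 → |x| ≤ 1 / 12 → |y| ≤ 1 / 12 →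
      |c * x + s * y - x| ≤ 1 / 4 := by
    intro c s x y hc hs hx hy
    have h1 : |c * x| ≤ 1 / 12 := by
      rw [abs_mul]
      calc |c| * |x| ≤ 1 * (1 / 12) := mul_le_mul hc hx (abs_nonneg _) zero_le_one
        _ = _ := one_mul _
    have h2 : |s * y| ≤ 1 / 12 := by
      rw [abs_mul]
      calc |s| * |y| ≤ 1 * (1 / 12) := mul_le_mul hs hy (abs_nonneg _) zero_le_one
        _ = _ := one_mul _
    rw [abs_le] at *
    constructor <;> linarith [h1.1, h1.2, h2.1, h2.2, hx.1, hx.2]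
  have h1i : ∀ i, (γ 1).1 i =
      w.1 i + (Real.cos ε * (z.1 i - w.1 i) + Real.sin ε * (z.2 i - w.2 i)) := by
    intro i
    change w.1 i + (Real.cos (ε * 1) * (z.1 i - w.1 i) + Real.sin (ε * 1) * (z.2 i - w.2 i)) = _
    rw [mul_one]
  have h2i : ∀ i, (γ 1).2 i =
      w.2 i + (-Real.sin ε * (z.1 i - w.1 i) + Real.cos ε * (z.2 i - w.2 i)) := by
    intro i
    change w.2 i + (-Real.sin (ε * 1) * (z.1 i - w.1 i) + Real.cos (ε * 1) * (z.2 i - w.2 i)) = _
    rw [mul_one]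
  have e := TwM_sol h ha hg hgα z γ h0 hγ (fun i => ?_) (fun i => ?_)
  · rw [e]
    refine Prod.ext (funext fun i => ?_) (funext fun i => ?_)
    · exact h1i i
    · exact h2i i
  · rw [h1i]
    have := key2 (Real.cos ε) (Real.sin ε) (z.1 i - w.1 i) (z.2 i - w.2 i)
      (Real.abs_cos_le_one _) (Real.abs_sin_le_one _) ((hu1 i).trans hz') ((hv1 i).trans hz')
    rwa [show w.1 i + (Real.cos ε * (z.1 i - w.1 i) + Real.sin ε * (z.2 i - w.2 i)) - z.1 i =
      Real.cos ε * (z.1 i - w.1 i) + Real.sin ε * (z.2 i - w.2 i) - (z.1 i - w.1 i) by ring]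
  · rw [h2i]
    have := key2 (Real.cos ε) (-Real.sin ε) (z.2 i - w.2 i) (z.1 i - w.1 i)
      (Real.abs_cos_le_one _) (by rw [abs_neg]; exact Real.abs_sin_le_one _)
      ((hv1 i).trans hz') ((hu1 i).trans hz')
    rwa [show w.2 i + (-Real.sin ε * (z.1 i - w.1 i) + Real.cos ε * (z.2 i - w.2 i)) - z.2 i =
      Real.cos ε * (z.2 i - w.2 i) + -Real.sin ε * (z.1 i - w.1 i) - (z.2 i - w.2 i) by ring]

/-- the Hessian from the values of the gradient on a line -/
theorem TwM_hess {a : Pt n → ℝ} (ha : ContDiff ℝ 2 a) (w v : Pt n) (Q : ℝ)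
    (h : ∀ᶠ t in 𝓝 (0 : ℝ), fderiv ℝ a (w + t • v) v = t * Q) : hess a w v = Q := by
  rw [hess_apply]
  have hd : Differentiable ℝ (fderiv ℝ a) :=
    (ha.fderiv_right (m := 1) (by norm_num)).differentiable one_ne_zero
  have h1 : HasDerivAt (fun t : ℝ => w + t • v) v 0 := by
    simpa using ((hasDerivAt_id (0 : ℝ)).smul_const v).const_add w
  have h2 : HasDerivAt (fun t : ℝ => fderiv ℝ a (w + t • v)) (fderiv ℝ (fderiv ℝ a) w v) 0 := by
    have h3 := (hd (w + (0 : ℝ) • v)).hasFDerivAt.comp_hasDerivAt (0 : ℝ) h1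
    rw [zero_smul, add_zero] at h3
    exact h3
  have h4 : HasDerivAt (fun t : ℝ => fderiv ℝ a (w + t • v) v) (fderiv ℝ (fderiv ℝ a) w v v) 0 := by
    have h5 := h2.clm_apply (hasDerivAt_const (0 : ℝ) v)
    simpa using h5
  have h6 : HasDerivAt (fun t : ℝ => t * Q) Q 0 := by
    simpa using (hasDerivAt_id (0 : ℝ)).mul_const Q
  exact (h4.congr_of_eventuallyEq (h.mono fun _ ht => ht.symm)).unique h6

theorem TwM_hess0 {a : Pt n → ℝ} {α : Pt n → Pt n} (h : Gen a α) (c : Pt n)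
    (hc : ∀ᶠ z in 𝓝 c, α z = z) : hess a c = 0 := by
  have h1 : fderiv ℝ a =ᶠ[𝓝 c] fun _ => 0 := by
    filter_upwards [hc] with z hz
    refine ContinuousLinearMap.ext fun v => ?_
    rw [TwM_expand, zero_apply]
    have h2 := (h.rel z z).1 hz
    refine Finset.sum_eq_zero fun i _ => ?_
    obtain ⟨h3, h4⟩ := h2 i
    rw [show fderiv ℝ a z (Pi.single i 1, 0) = 0 by linarith,
      show fderiv ℝ a z (0, Pi.single i 1) = 0 by linarith]
    ring
  ext v
  rw [hess_apply, h1.fderiv_eq]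
  simp

/-- the Hessian at the centre of the twist -/
theorem TwM_hessw {a : Pt n → ℝ} {α : Pt n → Pt n} (h : Gen a α) (w : Pt n) (c s : ℝ)
    (hc : 0 < c) (hcs : c ^ 2 + s ^ 2 = 1) (R : ℝ) (hR : 0 < R)
    (hα : ∀ z : Pt n, ‖z - w‖ < R → α z =
      (fun i => w.1 i + (c * (z.1 i - w.1 i) + s * (z.2 i - w.2 i)),
      fun i => w.2 i + (-s * (z.1 i - w.1 i) + c * (z.2 i - w.2 i)))) (v : Pt n) :
    hess a w v = ∑ i, (s / c * (v.1 i ^ 2 + v.2 i ^ 2) + 2 * (1 - 1 / c) * (v.1 i * v.2 i)) := by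
  have hc0 : c ≠ 0 := hc.ne'
  refine TwM_hess h.smooth w v _ ?_
  let z : ℝ → Pt n := fun t => (fun i => w.1 i + t * ((v.1 i - s * v.2 i) / c),
    fun i => w.2 i + t * v.2 i)
  have hz : Continuous z := by fun_prop
  have hz0 : z 0 = w := by
    refine Prod.ext (funext fun i => ?_) (funext fun i => ?_)
    · change w.1 i + 0 * ((v.1 i - s * v.2 i) / c) = w.1 i
      ring
    · change w.2 i + 0 * v.2 i = w.2 i
      ring
  have hnear : ∀ᶠ t in 𝓝 (0 : ℝ), ‖z t - w‖ < R := by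
    have h1 : Continuous fun t => ‖z t - w‖ := by fun_prop
    refine (h1.tendsto 0).eventually (gt_mem_nhds ?_)
    rw [hz0, sub_self, norm_zero]
    exact hR
  filter_upwards [hnear] with t ht
  have h1 := (h.rel (z t) _).1 (hα (z t) ht)
  have hp : ((fun i => w.1 i + (c * ((z t).1 i - w.1 i) + s * ((z t).2 i - w.2 i))), (z t).2) =
      w + t • v := by
    refine Prod.ext (funext fun i => ?_) (funext fun i => ?_)
    · change w.1 i + (c * ((w.1 i + t * ((v.1 i - s * v.2 i) / c)) - w.1 i) +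
        s * ((w.2 i + t * v.2 i) - w.2 i)) = w.1 i + t * v.1 i
      field_simp
      ring
    · rfl
  rw [TwM_expand, Finset.mul_sum]
  refine Finset.sum_congr rfl fun i _ => ?_
  obtain ⟨h2, h3⟩ := h1 i
  change w.1 i + (c * ((z t).1 i - w.1 i) + s * ((z t).2 i - w.2 i)) = (z t).1 i +
    fderiv ℝ a ((fun i => w.1 i + (c * ((z t).1 i - w.1 i) + s * ((z t).2 i - w.2 i))),
      (z t).2) (0, Pi.single i 1) at h2
  change w.2 i + (-s * ((z t).1 i - w.1 i) + c * ((z t).2 i - w.2 i)) = (z t).2 i -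
    fderiv ℝ a ((fun i => w.1 i + (c * ((z t).1 i - w.1 i) + s * ((z t).2 i - w.2 i))),
      (z t).2) (Pi.single i 1, 0) at h3
  rw [hp] at h2 h3
  have e1 : (z t).1 i = w.1 i + t * ((v.1 i - s * v.2 i) / c) := rfl
  have e2 : (z t).2 i = w.2 i + t * v.2 i := rfl
  rw [e1, e2] at h2 h3
  have h4 : fderiv ℝ a (w + t • v) (0, Pi.single i 1) =
      c * (t * ((v.1 i - s * v.2 i) / c)) + s * (t * v.2 i) - t * ((v.1 i - s * v.2 i) / c) := by
    linarith
  have h5 : fderiv ℝ a (w + t • v) (Pi.single i 1, 0) =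
      t * v.2 i + s * (t * ((v.1 i - s * v.2 i) / c)) - c * (t * v.2 i) := by
    linarith
  rw [h4, h5]
  have hs : s ^ 2 = 1 - c ^ 2 := by linarith
  field_simp
  ring_nf
  rw [hs]
  ring

/-- positivity -/
theorem TwM_pos (c s : ℝ) (hc : 0 < c) (hcs : c ^ 2 + s ^ 2 = 1) (hs : 0 < s) (v : Pt n)
    (hv : v ≠ 0) :
    0 < ∑ i, (s / c * (v.1 i ^ 2 + v.2 i ^ 2) + 2 * (1 - 1 / c) * (v.1 i * v.2 i)) := by
  have hc1 : c < 1 := by nlinarith
  have hsc : 1 - c < s := by nlinarith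
  have key : ∀ x y : ℝ, (s - (1 - c)) / c * (x ^ 2 + y ^ 2) ≤
      s / c * (x ^ 2 + y ^ 2) + 2 * (1 - 1 / c) * (x * y) := by
    intro x y
    have h1 : s / c * (x ^ 2 + y ^ 2) + 2 * (1 - 1 / c) * (x * y) -
        (s - (1 - c)) / c * (x ^ 2 + y ^ 2) = (1 - c) / c * (x - y) ^ 2 := by
      field_simp
      ring
    have h2 : 0 ≤ (1 - c) / c * (x - y) ^ 2 := by
      have : 0 ≤ (1 - c) / c := div_nonneg (by linarith) hc.le
      positivity
    linarith
  have hk : 0 < (s - (1 - c)) / c := div_pos (by linarith) hc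
  have hex : ∃ i, v.1 i ≠ 0 ∨ v.2 i ≠ 0 := by
    by_contra hcon
    push Not at hcon
    exact hv (Prod.ext (funext fun i => (hcon i).1) (funext fun i => (hcon i).2))
  obtain ⟨i0, hi0⟩ := hex
  refine Finset.sum_pos' (fun i _ => ?_) ⟨i0, Finset.mem_univ _, ?_⟩
  · exact (mul_nonneg hk.le (by positivity)).trans (key _ _)
  · refine lt_of_lt_of_le (mul_pos hk ?_) (key _ _)
    rcases hi0 with h | h
    · positivity
    · positivity

/-- **The local twist.** -/
theorem twist_gen (w : Pt n) (ρ : ℝ) (hρ : 0 < ρ) (m : ℕ) (δ : ℝ) (hδ : 0 < δ) :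
    ∃ K : PtE n → ℝ, (∀ k : ℕ, ContDiff ℝ k K) ∧ (∀ z z', proj z = proj z' → K z = K z') ∧
    ∀ η > 0, ∃ ε₀ > 0, ∀ ε : ℝ, ε ≠ 0 → |ε| ≤ ε₀ →
      (∀ k ≤ m, ∀ z, ‖iteratedFDeriv ℝ k (fun z => ε * K z) z‖ ≤ δ) ∧
      ∃ (a : Pt n → ℝ) (α : Pt n → Pt n), Gen a α ∧ (∀ p, ‖fderiv ℝ a p‖ ≤ η) ∧
        (∀ p, ‖fderiv ℝ (fderiv ℝ a) p‖ ≤ η) ∧
        (∀ g, IsTimeOne (fun _ z => ε * K z) g → ∀ z, g (projP z) = projP (α z)) ∧
        α w = w ∧ (∀ c, (∀ e ∈ Zn n, ρ ≤ ‖c - w + e‖) → α c = c ∧ hess a c = 0) ∧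
        (0 < ε → ∀ v, v ≠ 0 → 0 < hess a w v) ∧ (ε < 0 → ∀ v, v ≠ 0 → hess a w v < 0) := by
  obtain ⟨K, r, hr, hKs, hKp, hKw, hK0⟩ := exists_twistHam w ρ hρ
  refine ⟨K, hKs, hKp, fun η hη => ?_⟩
  obtain ⟨κ, hκ, hsm⟩ := small_gen (n := n) (min η (1 / 100)) (lt_min hη (by norm_num))
  obtain ⟨C, hC⟩ := bdd_deriv K hKs hKp (max m 2)
  have hC0 : 0 ≤ C := (norm_nonneg _).trans (hC 0 (Nat.zero_le _) 0)
  have hC1 : 0 < C + 1 := by linarith
  refine ⟨min (min (δ / (C + 1)) (κ / (C + 1))) 1,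
    lt_min (lt_min (div_pos hδ hC1) (div_pos hκ hC1)) one_pos, fun ε hε0 hε => ?_⟩
  have hε1 : |ε| ≤ δ / (C + 1) := hε.trans ((min_le_left _ _).trans (min_le_left _ _))
  have hε2 : |ε| ≤ κ / (C + 1) := hε.trans ((min_le_left _ _).trans (min_le_right _ _))
  have hε3 : |ε| ≤ 1 := hε.trans (min_le_right _ _)
  have hbd : ∀ b : ℝ, |ε| ≤ b / (C + 1) → ∀ k ≤ max m 2, ∀ z,
      ‖iteratedFDeriv ℝ k (fun z => ε * K z) z‖ ≤ b := by
    intro b hb k hk z
    have e1 : iteratedFDeriv ℝ k (fun z => ε * K z) z = ε • iteratedFDeriv ℝ k K z :=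
      iteratedFDeriv_const_smul_apply (a := ε) ((hKs k).contDiffAt)
    rw [e1, norm_smul, Real.norm_eq_abs]
    have h1 : |ε| * ‖iteratedFDeriv ℝ k K z‖ ≤ |ε| * (C + 1) :=
      mul_le_mul_of_nonneg_left ((hC k hk z).trans (by linarith)) (abs_nonneg _)
    have h2 : |ε| * (C + 1) ≤ b := by
      rwa [le_div_iff₀ hC1] at hb
    exact h1.trans h2
  have hL : IsHamiltonian (n := n) (fun _ z => ε * K z) := by
    refine ⟨?_, fun _ _ => rfl, fun _ z z' hz => by rw [hKp z z' hz]⟩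
    have h2 : ContDiff ℝ 2 K := by exact_mod_cast hKs 2
    exact contDiff_const.mul (h2.comp contDiff_snd)
  refine ⟨fun k hk z => hbd δ hε1 k (hk.trans (le_max_left _ _)) z, ?_⟩
  have hb1 : ∀ (t : ℝ) (z : PtE n),
      ‖fderiv ℝ ((fun (_ : ℝ) (z : PtE n) => ε * K z) t) z‖ ≤ κ := by
    intro t z
    rw [← norm_iteratedFDeriv_one]
    exact hbd κ hε2 1 ((by norm_num : 1 ≤ 2).trans (le_max_right _ _)) z
  have hb2 : ∀ (t : ℝ) (z : PtE n),
      ‖fderiv ℝ (fderiv ℝ ((fun (_ : ℝ) (z : PtE n) => ε * K z) t)) z‖ ≤ κ := by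
    intro t z
    have h1 := hbd κ hε2 2 (le_max_right _ _) z
    rw [← norm_iteratedFDeriv_fderiv, norm_iteratedFDeriv_one] at h1
    exact h1
  obtain ⟨a, α, hG, ha1, ha2, hgα⟩ := hsm (fun _ z => ε * K z) hL hb1 hb2
  have ha1' : ∀ p, ‖fderiv ℝ a p‖ ≤ 1 / 100 := fun p => (ha1 p).trans (min_le_right _ _)
  obtain ⟨g, hg⟩ := exists_timeOne (fun _ z => ε * K z) hL
  have hgα' := hgα g hg
  have hfix : ∀ c, (∀ e ∈ Zn n, ρ ≤ ‖c - w + e‖) → ∀ᶠ z in 𝓝 c, α z = z := by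
    intro c hc
    have h1 := (hK0 c hc).eventually_nhds
    have h2 : Tendsto (lft n) (𝓝 c) (𝓝 (lft n c)) := (lft n).continuous.tendsto c
    filter_upwards [h2.eventually h1] with z hz
    exact TwM_const hG ha1' hg hgα' z hz
  set R := min (r / 2) (1 / 12) with hR
  have hR0 : 0 < R := lt_min (by linarith) (by norm_num)
  have hrot : ∀ z : Pt n, ‖z - w‖ < R → α z =
      (fun i => w.1 i + (Real.cos ε * (z.1 i - w.1 i) + Real.sin ε * (z.2 i - w.2 i)),
      fun i => w.2 i + (-Real.sin ε * (z.1 i - w.1 i) + Real.cos ε * (z.2 i - w.2 i))) :=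
    fun z hz => TwM_rot hG ha1' hg hgα' w r hKw z (hz.trans_le (min_le_left _ _))
      (hz.trans_le (min_le_right _ _)).le
  have hcos : 0 < Real.cos ε := Real.cos_pos_of_le_one hε3
  have hcs : Real.cos ε ^ 2 + Real.sin ε ^ 2 = 1 := Real.cos_sq_add_sin_sq ε
  have hH := fun v => TwM_hessw hG w (Real.cos ε) (Real.sin ε) hcos hcs R hR0 hrot v
  refine ⟨a, α, hG, fun p => (ha1 p).trans (min_le_left _ _),
    fun p => (ha2 p).trans (min_le_left _ _), hgα, ?_, fun c hc => ⟨(hfix c hc).self_of_nhds,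
    TwM_hess0 hG c (hfix c hc)⟩, fun hε v hv => ?_, fun hε v hv => ?_⟩
  · have h1 := hrot w (by rw [sub_self, norm_zero]; exact hR0)
    rw [h1]
    refine Prod.ext (funext fun i => ?_) (funext fun i => ?_)
    · simp
    · simp
  · rw [hH v]
    exact TwM_pos _ _ hcos hcs
      (Real.sin_pos_of_pos_of_le_one hε (by rw [abs_of_pos hε] at hε3; exact hε3)) v hv
  · rw [hH v]
    have hs : 0 < -Real.sin ε := by
      rw [← Real.sin_neg]
      exact Real.sin_pos_of_pos_of_le_one (by linarith) (by rw [abs_of_neg hε] at hε3; exact hε3)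
    have h1 := TwM_pos (Real.cos ε) (-Real.sin ε) hcos (by rw [neg_sq]; exact hcs) hs
      ((v.1, -v.2) : Pt n) (by
        intro h0
        have h3 : v.1 = 0 := congrArg Prod.fst h0
        have h4 : -v.2 = 0 := congrArg Prod.snd h0
        exact hv (Prod.ext h3 (neg_eq_zero.mp h4)))
    have hc1 : Real.cos ε ≤ 1 := Real.cos_le_one ε
    have h2 : (∑ i, (-Real.sin ε / Real.cos ε * (v.1 i ^ 2 + (-v.2) i ^ 2) +
        2 * (1 - 1 / Real.cos ε) * (v.1 i * (-v.2) i))) +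
        ∑ i, (Real.sin ε / Real.cos ε * (v.1 i ^ 2 + v.2 i ^ 2) +
        2 * (1 - 1 / Real.cos ε) * (v.1 i * v.2 i)) = 0 := by
      rw [← Finset.sum_add_distrib]
      refine Finset.sum_eq_zero fun i _ => ?_
      rw [Pi.neg_apply]
      ring
    change 0 < ∑ i, (-Real.sin ε / Real.cos ε * (v.1 i ^ 2 + (-v.2) i ^ 2) +
        2 * (1 - 1 / Real.cos ε) * (v.1 i * (-v.2) i)) at h1
    linarith

end Pool.Agent.H47.OD
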