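import Pool.Agent.H47.OD.Lk
import Pool.Agent.H47.OD.TwM
import Pool.Agent.H47.OD.Pst

/-!
# The twist step
-/

set_option autoImplicit false

open Module QuadraticForm Filter Topology

namespace Pool.Agent.H47.OD

open Pool.Agent.H47.QG
open Pool.Agent.H60.QG (Torus PtE proj projP IsHamiltonian IsTimeOne compose)

variable {n : ℕ}

theorem DnsT_pos {N : ℕ} {ψ : ℕ → Pt n → Pt n} {α : Pt n → Pt n} {c : Pt n}
    (hc : flw ψ N c = c) (hα : α c = c) {j : ℕ} (hj : j ≤ N + 2) :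
    flw (snoc (N + 1) (snoc N ψ α) id) j c = if j ≤ N then flw ψ j c else c := by
  split_ifs with h
  · rw [flw_snoc_le _ _ _ (by omega), flw_snoc_le _ _ _ h]
  · rcases (by omega : j = N + 1 ∨ j = N + 1 + 1) with rfl | rfl
    · rw [flw_snoc_le _ _ _ le_rfl, flw_snoc, hc, hα]
    · rw [flw_snoc, flw_snoc, hc, hα]
      rfl

theorem DnsT_fix {N : ℕ} {ψ : ℕ → Pt n → Pt n} {α : Pt n → Pt n} {c : Pt n}
    (hc : flw ψ N c = c) (hα : α c = c) :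
    flw (snoc (N + 1) (snoc N ψ α) id) (N + 2) c = c := by
  rw [DnsT_pos hc hα le_rfl, if_neg (by omega)]

theorem DnsT_hess_zero (c : Pt n) : hess (fun _ : Pt n => (0 : ℝ)) c = 0 := by
  ext v
  rw [hess_apply]
  have h : fderiv ℝ (fun _ : Pt n => (0 : ℝ)) = fun _ => 0 := by
    funext x
    simp
  rw [h]
  simp

theorem DnsT_hs {N : ℕ} (S : ℕ → Pt n → ℝ) {ψ : ℕ → Pt n → Pt n} {a : Pt n → ℝ}
    {α : Pt n → Pt n} {c : Pt n} (hc : flw ψ N c = c) (hα : α c = c) (ha : hess a c = 0) (j : ℕ)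
    (hj : j < N + 2) :
    hs (snoc (N + 1) (snoc N S fun _ => 0) fun _ => 0) (snoc (N + 1) (snoc N ψ id) id) c j =
      hs (snoc (N + 1) (snoc N S a) fun _ => 0) (snoc (N + 1) (snoc N ψ α) id) c j := by
  unfold hs
  rw [DnsT_pos hc hα (by omega : j + 1 ≤ N + 2), DnsT_pos hc hα (by omega : j ≤ N + 2),
    DnsT_pos (α := id) hc rfl (by omega : j + 1 ≤ N + 2),
    DnsT_pos (α := id) hc rfl (by omega : j ≤ N + 2)]
  rcases (by omega : j < N ∨ j = N ∨ j = N + 1) with h | rfl | rfl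
  · rw [snoc_lt _ _ _ (by omega), snoc_lt _ _ _ h, snoc_lt _ _ _ (by omega), snoc_lt _ _ _ h]
  · rw [snoc_lt _ _ _ (by omega), snoc_last, snoc_lt _ _ _ (by omega), snoc_last,
      if_neg (by omega), if_pos le_rfl, hc, DnsT_hess_zero, ha]
  · rw [snoc_last, snoc_last]

theorem DnsT_dist (v : Pt n) (hv : v ∉ Zn n) : ∃ ρ > 0, ∀ e ∈ Zn n, ρ ≤ ‖v + e‖ := by
  have key : ∀ x : ℝ, (∀ m : ℤ, x ≠ m) → ∃ ρ > 0, ∀ m : ℤ, ρ ≤ |x + m| := by
    intro x hx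
    refine ⟨|x - round x|, abs_pos.2 (sub_ne_zero.2 (hx _)), fun m => ?_⟩
    have := round_le x (-m)
    push_cast at this
    rwa [sub_neg_eq_add] at this
  have h : (∃ i, ∀ m : ℤ, v.1 i ≠ m) ∨ ∃ i, ∀ m : ℤ, v.2 i ≠ m := by
    by_contra hcon
    rw [not_or] at hcon
    obtain ⟨h1, h2⟩ := hcon
    push Not at h1 h2
    choose a ha using h1
    choose b hb using h2
    exact hv ⟨a, b, Prod.ext (funext ha) (funext hb)⟩
  rcases h with ⟨i, hi⟩ | ⟨i, hi⟩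
  · obtain ⟨ρ, hρ, h1⟩ := key _ hi
    refine ⟨ρ, hρ, ?_⟩
    rintro _ ⟨a, b, rfl⟩
    refine (h1 (a i)).trans ?_
    calc |v.1 i + a i| = ‖(v.1 + fun i => (a i : ℝ)) i‖ := rfl
      _ ≤ ‖v.1 + fun i => (a i : ℝ)‖ := norm_le_pi_norm _ i
      _ ≤ _ := by rw [Prod.norm_def]; exact le_max_left _ _
  · obtain ⟨ρ, hρ, h1⟩ := key _ hi
    refine ⟨ρ, hρ, ?_⟩
    rintro _ ⟨a, b, rfl⟩
    refine (h1 (b i)).trans ?_
    calc |v.2 i + b i| = ‖(v.2 + fun i => (b i : ℝ)) i‖ := rfl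
      _ ≤ ‖v.2 + fun i => (b i : ℝ)‖ := norm_le_pi_norm _ i
      _ ≤ _ := by rw [Prod.norm_def]; exact le_max_right _ _

theorem DnsT_sep (C : Finset (Pt n)) (hCd : ∀ c ∈ C, ∀ c' ∈ C, c - c' ∈ Zn n → c = c') :
    ∃ ρ > 0, ∀ c ∈ C, ∀ c' ∈ C, c ≠ c' → ∀ e ∈ Zn n, ρ ≤ ‖c' - c + e‖ := by
  classical
  have h1 : ∀ p : Pt n × Pt n, ∃ ρ > 0, p.1 ∈ C → p.2 ∈ C → p.1 ≠ p.2 →
      ∀ e ∈ Zn n, ρ ≤ ‖p.2 - p.1 + e‖ := by
    intro p
    by_cases hp : p.1 ∈ C ∧ p.2 ∈ C ∧ p.1 ≠ p.2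
    · obtain ⟨ρ, hρ, h2⟩ := DnsT_dist (p.2 - p.1) (fun h0 =>
        hp.2.2 (hCd p.2 hp.2.1 p.1 hp.1 h0).symm)
      exact ⟨ρ, hρ, fun _ _ _ => h2⟩
    · exact ⟨1, one_pos, fun a b c => absurd ⟨a, b, c⟩ hp⟩
  choose ρ hρ h2 using h1
  by_cases hne : (C ×ˢ C).Nonempty
  · refine ⟨(C ×ˢ C).inf' hne ρ, ?_, fun c hc c' hc' hcc e he => ?_⟩
    · rw [gt_iff_lt, Finset.lt_inf'_iff]
      exact fun p _ => hρ p
    · refine (Finset.inf'_le ρ (Finset.mk_mem_product hc hc')).trans ?_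
      exact h2 (c, c') hc hc' hcc e he
  · refine ⟨1, one_pos, fun c hc c' hc' _ => ?_⟩
    exact absurd ⟨(c, c'), Finset.mk_mem_product hc hc'⟩ hne

/-- moving the mean index of one point off `t` -/
theorem DnsT_one {N : ℕ} {S : ℕ → Pt n → ℝ} {ψ : ℕ → Pt n → Pt n} (h : Sy N S ψ)
    (C : Finset (Pt n)) (hfix : ∀ c ∈ C, flw ψ N c = c) (x : Pt n) (t : ℝ)
    (T : Finset (Pt n)) (hT : ∀ c, c ∈ T ↔ c ∈ C ∧
      MeanIdx (snoc (N + 1) (snoc N S fun _ => 0) fun _ => 0) (snoc (N + 1) (snoc N ψ id) id)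
        (N + 2) c t) (hxT : x ∈ T)
    (hsum : ∑ c ∈ T, (-1 : ℤ) ^ ind (snoc (N + 1) (snoc N S fun _ => 0) fun _ => 0)
      (snoc (N + 1) (snoc N ψ id) id) (N + 2) c = 0) {a : Pt n → ℝ} {α : Pt n → Pt n}
    (ha : Gen a α) (hα : ∀ c ∈ C, α c = c) (hess0 : ∀ c ∈ C, c ≠ x → hess a c = 0)
    (hmean : ¬ MeanIdx (snoc (N + 1) (snoc N S a) fun _ => 0) (snoc (N + 1) (snoc N ψ α) id)
      (N + 2) x t) :
    ∃ T' : Finset (Pt n), (∀ c, c ∈ T' ↔ c ∈ C ∧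
        MeanIdx (snoc (N + 1) (snoc N S a) fun _ => 0) (snoc (N + 1) (snoc N ψ α) id)
          (N + 2) c t) ∧
        ∑ c ∈ T', (-1 : ℤ) ^ ind (snoc (N + 1) (snoc N S a) fun _ => 0)
          (snoc (N + 1) (snoc N ψ α) id) (N + 2) c ≠ 0 := by
  classical
  have hB : Sy (N + 2) (snoc (N + 1) (snoc N S fun _ => 0) fun _ => 0)
      (snoc (N + 1) (snoc N ψ id) id) := (h.snoc gen_zero).snoc gen_zero
  have hA : Sy (N + 2) (snoc (N + 1) (snoc N S a) fun _ => 0)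
      (snoc (N + 1) (snoc N ψ α) id) := (h.snoc ha).snoc gen_zero
  have hBf : ∀ c ∈ C, flw (snoc (N + 1) (snoc N ψ id) id) (N + 2) c = c := fun c hc =>
    DnsT_fix (α := id) (hfix c hc) rfl
  have hAf : ∀ c ∈ C, flw (snoc (N + 1) (snoc N ψ α) id) (N + 2) c = c := fun c hc =>
    DnsT_fix (hfix c hc) (hα c hc)
  have hmc : ∀ c ∈ C, c ≠ x →
      (MeanIdx (snoc (N + 1) (snoc N S fun _ => 0) fun _ => 0) (snoc (N + 1) (snoc N ψ id) id)
        (N + 2) c t ↔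
      MeanIdx (snoc (N + 1) (snoc N S a) fun _ => 0) (snoc (N + 1) (snoc N ψ α) id)
        (N + 2) c t) := fun c hc hcx =>
    mean_congr hB hA c c (hBf c hc) (hAf c hc)
      (DnsT_hs S (hfix c hc) (hα c hc) (hess0 c hc hcx)) t
  refine ⟨T.erase x, fun c => ?_, ?_⟩
  · rw [Finset.mem_erase, hT]
    constructor
    · rintro ⟨h1, h2, h3⟩
      exact ⟨h2, (hmc c h2 h1).1 h3⟩
    · rintro ⟨h2, h3⟩
      have h1 : c ≠ x := by
        rintro rfl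
        exact hmean h3
      exact ⟨h1, h2, (hmc c h2 h1).2 h3⟩
  · have h1 : ∑ c ∈ T.erase x, (-1 : ℤ) ^ ind (snoc (N + 1) (snoc N S a) fun _ => 0)
          (snoc (N + 1) (snoc N ψ α) id) (N + 2) c =
        ∑ c ∈ T.erase x, (-1 : ℤ) ^ ind (snoc (N + 1) (snoc N S fun _ => 0) fun _ => 0)
          (snoc (N + 1) (snoc N ψ id) id) (N + 2) c := by
      refine Finset.sum_congr rfl fun c hc => ?_
      obtain ⟨h2, h3⟩ := Finset.mem_erase.1 hc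
      have hcC := ((hT c).1 h3).1
      have h4 := ind_congr hB hA c c (hBf c hcC) (hAf c hcC)
        (DnsT_hs S (hfix c hcC) (hα c hcC) (hess0 c hcC h2)) 1 one_pos
      rw [one_mul] at h4
      rw [h4]
    rw [h1]
    have h2 := Finset.add_sum_erase T (fun c => (-1 : ℤ) ^
      ind (snoc (N + 1) (snoc N S fun _ => 0) fun _ => 0)
        (snoc (N + 1) (snoc N ψ id) id) (N + 2) c) hxT
    rw [hsum] at h2
    intro h3
    rw [h3, add_zero] at h2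
    exact pow_ne_zero _ (by norm_num) h2

end Pool.Agent.H47.OD
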