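import Pool.Agent.H47.OD.DnsA
import Pool.Agent.H47.OD.DnsT

/-!
# The twist step, assembly
-/

set_option autoImplicit false

open Module QuadraticForm Filter Topology

namespace Pool.Agent.H47.OD

open Pool.Agent.H47.QG
open Pool.Agent.H60.QG (Torus PtE proj projP IsHamiltonian IsTimeOne compose)

variable {n : ℕ}

/-- after a small twist some class of fixed points has a nonzero sum -/
theorem twist_step {N : ℕ} {S : ℕ → Pt n → ℝ} {ψ : ℕ → Pt n → Pt n} (h : Sy N S ψ)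
    (C : Finset (Pt n)) (hne : C.Nonempty) (hC : ∀ w, flw ψ N w = w ↔ ∃ c ∈ C, w - c ∈ Zn n)
    (hCd : ∀ c ∈ C, ∀ c' ∈ C, c - c' ∈ Zn n → c = c')
    (hnd : ∀ c ∈ C, ∀ v, fderiv ℝ (flw ψ N) c v = v → v = 0) (m : ℕ) (δ : ℝ) (hδ : 0 < δ) :
    ∃ (K : PtE n → ℝ) (a : Pt n → ℝ) (α : Pt n → Pt n), (∀ k : ℕ, ContDiff ℝ k K) ∧
      (∀ z z', proj z = proj z' → K z = K z') ∧
      (∀ k ≤ m, ∀ z, ‖iteratedFDeriv ℝ k K z‖ ≤ δ) ∧ Gen a α ∧
      (∀ g, IsTimeOne (fun _ => K) g → ∀ z, g (projP z) = projP (α z)) ∧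
      (∀ w, α (flw ψ N w) = w ↔ ∃ c ∈ C, w - c ∈ Zn n) ∧
      (∀ c ∈ C, ∀ v, fderiv ℝ (fun w => α (flw ψ N w)) c v = v → v = 0) ∧
      ∃ (t : ℝ) (T : Finset (Pt n)), (∀ c, c ∈ T ↔ c ∈ C ∧
        MeanIdx (snoc (N + 1) (snoc N S a) fun _ => 0) (snoc (N + 1) (snoc N ψ α) id)
          (N + 2) c t) ∧
        ∑ c ∈ T, (-1 : ℤ) ^ ind (snoc (N + 1) (snoc N S a) fun _ => 0)
          (snoc (N + 1) (snoc N ψ α) id) (N + 2) c ≠ 0 := by
  classical
  have hfix : ∀ c ∈ C, flw ψ N c = c := fun c hc =>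
    (hC c).2 ⟨c, hc, by rw [sub_self]; exact (Zn n).zero_mem⟩
  have hB : Sy (N + 2) (snoc (N + 1) (snoc N S fun _ => 0) fun _ => 0)
      (snoc (N + 1) (snoc N ψ id) id) := (h.snoc gen_zero).snoc gen_zero
  have hBf : ∀ c ∈ C, flw (snoc (N + 1) (snoc N ψ id) id) (N + 2) c = c := fun c hc =>
    DnsT_fix (α := id) (hfix c hc) rfl
  by_cases hcase : ∃ (t : ℝ) (T : Finset (Pt n)), (∀ c, c ∈ T ↔ c ∈ C ∧
      MeanIdx (snoc (N + 1) (snoc N S fun _ => 0) fun _ => 0) (snoc (N + 1) (snoc N ψ id) id)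
        (N + 2) c t) ∧
      ∑ c ∈ T, (-1 : ℤ) ^ ind (snoc (N + 1) (snoc N S fun _ => 0) fun _ => 0)
        (snoc (N + 1) (snoc N ψ id) id) (N + 2) c ≠ 0
  · obtain ⟨δ', hδ', hsm⟩ := ham_small (n := n) m δ hδ
    have h0 : ∀ z : Pt n, shU 0 0 z = z := by
      intro z
      unfold shU trg
      refine Prod.ext rfl (funext fun i => ?_)
      simp
    refine ⟨hamU 0 0, fun _ => 0, id, hamU_smooth 0 0, hamU_per 0 0, fun k hk z => ?_, gen_zero,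
      fun g hg z => ?_, hC, hnd, hcase⟩
    · exact (hsm 0 0 (by rw [norm_zero]; exact hδ'.le) (by rw [norm_zero]; exact hδ'.le) k hk
        z).1
    · rw [hamU_timeOne 0 0 g hg, h0]
      rfl
  · have hzero : ∀ (t : ℝ) (T : Finset (Pt n)), (∀ c, c ∈ T ↔ c ∈ C ∧
        MeanIdx (snoc (N + 1) (snoc N S fun _ => 0) fun _ => 0) (snoc (N + 1) (snoc N ψ id) id)
        (N + 2) c t) →
        ∑ c ∈ T, (-1 : ℤ) ^ ind (snoc (N + 1) (snoc N S fun _ => 0) fun _ => 0)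
        (snoc (N + 1) (snoc N ψ id) id) (N + 2) c = 0 := by
      intro t T hT
      by_contra hcon
      exact hcase ⟨t, T, hT, hcon⟩
    obtain ⟨w, hw⟩ := hne
    obtain ⟨t, ht, -⟩ := hB.exists_mean w (hBf w hw)
    set T : Finset (Pt n) := C.filter fun c =>
      MeanIdx (snoc (N + 1) (snoc N S fun _ => 0) fun _ => 0) (snoc (N + 1) (snoc N ψ id) id)
        (N + 2) c t with hTdef
    have hT : ∀ c, c ∈ T ↔ c ∈ C ∧
        MeanIdx (snoc (N + 1) (snoc N S fun _ => 0) fun _ => 0) (snoc (N + 1) (snoc N ψ id) id)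
        (N + 2) c t := fun c => Finset.mem_filter
    have hwT : w ∈ T := (hT w).2 ⟨hw, ht⟩
    have hsum := hzero t T hT
    obtain ⟨w2, hw2T, hw2⟩ : ∃ w2 ∈ T,
        ind (snoc (N + 1) (snoc N S fun _ => 0) fun _ => 0) (snoc (N + 1) (snoc N ψ id) id)
          (N + 2) w2 ≠
        ind (snoc (N + 1) (snoc N S fun _ => 0) fun _ => 0) (snoc (N + 1) (snoc N ψ id) id)
          (N + 2) w := by
      by_contra hcon
      push Not at hcon
      rw [Finset.sum_congr rfl fun c hc => by rw [hcon c hc], Finset.sum_const,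
        nsmul_eq_mul] at hsum
      rcases mul_eq_zero.1 hsum with h1 | h1
      · have h2 : T.card = 0 := by exact_mod_cast h1
        rw [Finset.card_eq_zero] at h2
        rw [h2] at hwT
        exact absurd hwT (Finset.notMem_empty _)
      · exact pow_ne_zero _ (by norm_num) h1
    have hw2C := ((hT w2).1 hw2T).1
    obtain ⟨ρ, hρ, hsep⟩ := DnsT_sep C hCd
    obtain ⟨η, hη, hsame⟩ := fix_same (flw_c1 h.gen N)
      (fun w e he => flw_add_int h.gen N w e he) C hC hCd hnd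
    obtain ⟨K1, hK1, hK1p, hK1t⟩ := twist_gen w ρ hρ m δ hδ
    obtain ⟨ε₁, hε₁, H1⟩ := hK1t η hη
    obtain ⟨K2, hK2, hK2p, hK2t⟩ := twist_gen w2 ρ hρ m δ hδ
    obtain ⟨ε₂, hε₂, H2⟩ := hK2t η hη
    set ε := min ε₁ ε₂ with hε
    have hε0 : 0 < ε := lt_min hε₁ hε₂
    -- one twist at `x` with the strength `s`
    have one : ∀ (x : Pt n) (K : PtE n → ℝ) (s : ℝ), x ∈ T → (∀ k : ℕ, ContDiff ℝ k K) →
        (∀ z z', proj z = proj z' → K z = K z') →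
        (∀ k ≤ m, ∀ z, ‖iteratedFDeriv ℝ k (fun z => s * K z) z‖ ≤ δ) →
        ∀ (a : Pt n → ℝ) (α : Pt n → Pt n), Gen a α → (∀ p, ‖fderiv ℝ a p‖ ≤ η) →
        (∀ p, ‖fderiv ℝ (fderiv ℝ a) p‖ ≤ η) →
        (∀ g, IsTimeOne (fun _ z => s * K z) g → ∀ z, g (projP z) = projP (α z)) →
        α x = x → (∀ c, (∀ e ∈ Zn n, ρ ≤ ‖c - x + e‖) → α c = c ∧ hess a c = 0) →
        ¬ MeanIdx (snoc (N + 1) (snoc N S a) fun _ => 0) (snoc (N + 1) (snoc N ψ α) id)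
          (N + 2) x t →
        ∃ (K : PtE n → ℝ) (a : Pt n → ℝ) (α : Pt n → Pt n), (∀ k : ℕ, ContDiff ℝ k K) ∧
      (∀ z z', proj z = proj z' → K z = K z') ∧
      (∀ k ≤ m, ∀ z, ‖iteratedFDeriv ℝ k K z‖ ≤ δ) ∧ Gen a α ∧
      (∀ g, IsTimeOne (fun _ => K) g → ∀ z, g (projP z) = projP (α z)) ∧
      (∀ w, α (flw ψ N w) = w ↔ ∃ c ∈ C, w - c ∈ Zn n) ∧
      (∀ c ∈ C, ∀ v, fderiv ℝ (fun w => α (flw ψ N w)) c v = v → v = 0) ∧
      ∃ (t : ℝ) (T : Finset (Pt n)), (∀ c, c ∈ T ↔ c ∈ C ∧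
        MeanIdx (snoc (N + 1) (snoc N S a) fun _ => 0) (snoc (N + 1) (snoc N ψ α) id)
          (N + 2) c t) ∧
        ∑ c ∈ T, (-1 : ℤ) ^ ind (snoc (N + 1) (snoc N S a) fun _ => 0)
          (snoc (N + 1) (snoc N ψ α) id) (N + 2) c ≠ 0 := by
      intro x K s hxT hKs hKp hKb a α ha ha1 ha2 hg hx hfar hmean
      have hxC := ((hT x).1 hxT).1
      have hα : ∀ c ∈ C, α c = c := by
        intro c hc
        by_cases hcx : c = x
        · rw [hcx]; exact hx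
        · exact (hfar c (hsep x hxC c hc (Ne.symm hcx))).1
      have hh0 : ∀ c ∈ C, c ≠ x → hess a c = 0 := fun c hc hcx =>
        (hfar c (hsep x hxC c hc (Ne.symm hcx))).2
      obtain ⟨h1, h2⟩ := hsame a α ha ha1 ha2 hα
      refine ⟨fun z => s * K z, a, α, fun k => contDiff_const.mul (hKs k), fun z z' hz =>
        congrArg (s * ·) (hKp z z' hz), hKb, ha, hg, h1, h2, t, ?_⟩
      exact DnsT_one h C hfix x t T hT hxT hsum ha hα hh0 hmean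
    -- the four twists
    obtain ⟨b1, a1, α1, A1, A2, A3, A4, A5, A6, A7, -⟩ := H1 ε hε0.ne' (by
      rw [abs_of_pos hε0]; exact min_le_left _ _)
    obtain ⟨b2, a2, α2, B1, B2, B3, B4, B5, B6, -, B8⟩ := H1 (-ε) (neg_ne_zero.2 hε0.ne') (by
      rw [abs_neg, abs_of_pos hε0]; exact min_le_left _ _)
    obtain ⟨b3, a3, α3, C1, C2, C3, C4, C5, C6, C7, -⟩ := H2 ε hε0.ne' (by
      rw [abs_of_pos hε0]; exact min_le_right _ _)
    obtain ⟨b4, a4, α4, D1, D2, D3, D4, D5, D6, -, D8⟩ := H2 (-ε) (neg_ne_zero.2 hε0.ne') (by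
      rw [abs_neg, abs_of_pos hε0]; exact min_le_right _ _)
    by_cases m1 : MeanIdx (snoc (N + 1) (snoc N S a1) fun _ => 0)
      (snoc (N + 1) (snoc N ψ α1) id) (N + 2) w t
    swap
    · exact one w K1 ε hwT hK1 hK1p b1 a1 α1 A1 A2 A3 A4 A5 A6 m1
    by_cases m2 : MeanIdx (snoc (N + 1) (snoc N S a2) fun _ => 0)
      (snoc (N + 1) (snoc N ψ α2) id) (N + 2) w t
    swap
    · exact one w K1 (-ε) hwT hK1 hK1p b2 a2 α2 B1 B2 B3 B4 B5 B6 m2
    by_cases m3 : MeanIdx (snoc (N + 1) (snoc N S a3) fun _ => 0)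
      (snoc (N + 1) (snoc N ψ α3) id) (N + 2) w2 t
    swap
    · exact one w2 K2 ε hw2T hK2 hK2p b3 a3 α3 C1 C2 C3 C4 C5 C6 m3
    by_cases m4 : MeanIdx (snoc (N + 1) (snoc N S a4) fun _ => 0)
      (snoc (N + 1) (snoc N ψ α4) id) (N + 2) w2 t
    swap
    · exact one w2 K2 (-ε) hw2T hK2 hK2p b4 a4 α4 D1 D2 D3 D4 D5 D6 m4
    exfalso
    have e1 := lock_sys h w (hfix w hw) B1 A1 B5 A5 (B8 (by linarith)) (A7 hε0) t m2 m1
    have e2 := lock_sys h w2 (hfix w2 hw2C) D1 C1 D5 C5 (D8 (by linarith)) (C7 hε0) t m4 m3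
    rw [← e2] at e1
    exact hw2 (by exact_mod_cast e1.symm)

end Pool.Agent.H47.OD
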