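import Pool.Agent.H47.OD.Opn
import Pool.Agent.H47.OD.DnsS

/-!
# Density
-/

set_option autoImplicit false

open Module QuadraticForm Filter Topology

namespace Pool.Agent.H47.OD

open Pool.Agent.H47.QG
open Pool.Agent.H60.QG (Torus PtE proj projP IsHamiltonian IsTimeOne compose)

variable {n : ℕ}

/-- **Density and openness.** -/
theorem dense_main (hn : 0 < n) {r : ℕ} (hr : 0 < r) (H : ℕ → ℝ → PtE n → ℝ)
    (f : ℕ → Torus n → Torus n) (hH : ∀ i < r, IsHamiltonian (H i))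
    (hf : ∀ i < r, IsTimeOne (H i) (f i)) (m : ℕ) (δ : ℝ) (hδ : 0 < δ) :
    ∃ K : Fin 3 → PtE n → ℝ, (∀ i, ∀ k : ℕ, ContDiff ℝ k (K i)) ∧
      (∀ i z z', proj z = proj z' → K i z = K i z') ∧
      (∀ i, ∀ k ≤ m, ∀ z, ‖iteratedFDeriv ℝ k (K i) z‖ ≤ δ) ∧
      ∃ κ > 0, ∀ L : ℝ → PtE n → ℝ, IsHamiltonian L → (∀ t z, ‖fderiv ℝ (L t) z‖ ≤ κ) →
        (∀ t z, ‖fderiv ℝ (fderiv ℝ (L t)) z‖ ≤ κ) →
        ∀ (g : Fin 3 → Torus n → Torus n) (h : Torus n → Torus n),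
          (∀ i, IsTimeOne (fun _ => K i) (g i)) → IsTimeOne L h →
          QuadGrowth (h ∘ g 2 ∘ g 1 ∘ g 0 ∘ compose f r) := by
  obtain ⟨N, S, ψ, hD⟩ := exists_decomp hr H f hH hf
  have hsy : Sy N S ψ := sy_of_decomp hD
  obtain ⟨δ', hδ', hsm⟩ := ham_small (n := n) m δ hδ
  obtain ⟨a, b, c, d, ha, hb, hc, hd, hsard⟩ := sard_shear (flw_c1 hD.gen N) δ' hδ'
  obtain ⟨SU, hSU⟩ := gen_shU a b
  obtain ⟨SV, hSV⟩ := gen_shV c d
  have hsy1 : Sy (N + 2) (snoc (N + 1) (snoc N S SU) SV)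
      (snoc (N + 1) (snoc N ψ (shU a b)) (shV c d)) := (hsy.snoc hSU).snoc hSV
  set S1 := snoc (N + 1) (snoc N S SU) SV with hS1
  set ψ1 := snoc (N + 1) (snoc N ψ (shU a b)) (shV c d) with hψ1
  have hflw : flw ψ1 (N + 2) = fun w => shV c d (shU a b (flw ψ N w)) := by
    funext w
    rw [hψ1, flw_snoc, flw_snoc]
  have hnd1 : ∀ w, flw ψ1 (N + 2) w = w → ∀ v, fderiv ℝ (flw ψ1 (N + 2)) w v = v → v = 0 := by
    rw [hflw]
    exact hsard
  obtain ⟨C, hC, hCd⟩ := fin_fixed (flw_c1 hsy1.gen (N + 2))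
    (fun w e he => flw_add_int hsy1.gen (N + 2) w e he) hnd1
  have hnd : ∀ c ∈ C, ∀ v, fderiv ℝ (flw ψ1 (N + 2)) c v = v → v = 0 := fun x hx =>
    hnd1 x ((hC x).2 ⟨x, hx, by rw [sub_self]; exact (Zn n).zero_mem⟩)
  -- the perturbations
  have key : ∃ (K : PtE n → ℝ) (α : Pt n → Pt n), (∀ k : ℕ, ContDiff ℝ k K) ∧
      (∀ z z', proj z = proj z' → K z = K z') ∧
      (∀ k ≤ m, ∀ z, ‖iteratedFDeriv ℝ k K z‖ ≤ δ) ∧
      (∀ g, IsTimeOne (fun _ => K) g → ∀ z, g (projP z) = projP (α z)) ∧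
      ∃ η > 0, ∀ (b : Pt n → ℝ) (β : Pt n → Pt n), Gen b β → (∀ p, ‖fderiv ℝ b p‖ ≤ η) →
      (∀ p, ‖fderiv ℝ (fderiv ℝ b) p‖ ≤ η) → ∀ φ g : Torus n → Torus n,
      (∀ z, φ (projP z) = projP (α (flw ψ1 (N + 2) z))) → (∀ z, g (projP z) = projP (β z)) →
      QuadGrowth (g ∘ φ) := by
    by_cases hne : C.Nonempty
    · obtain ⟨K, a2, α, h1, h2, h3, h4, h5, h6, h7, t, T, hT, hsum⟩ :=
        twist_step hsy1 C hne hC hCd hnd m δ hδ
      have hfl2 : flw (snoc (N + 2) ψ1 α) (N + 2 + 1) = fun w => α (flw ψ1 (N + 2) w) := by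
        funext w
        rw [flw_snoc]
      obtain ⟨η, hη, hopen⟩ := open_step hn (hsy1.snoc h4) C (by rw [hfl2]; exact h6) hCd
        (by rw [hfl2]; exact h7) t T hT hsum
      refine ⟨K, α, h1, h2, h3, h5, η, hη, fun b β hb1 hb2 hb3 φ g hφ hg => ?_⟩
      exact hopen b β hb1 hb2 hb3 φ g (fun z => by rw [hφ, hfl2]) hg
    · obtain ⟨a2, ha2⟩ := gen_shU (n := n) 0 0
      have hfl2 : ∀ w, flw (snoc (N + 2) ψ1 (shU 0 0)) (N + 2 + 1) w =
          shU 0 0 (flw ψ1 (N + 2) w) := fun w => flw_snoc _ _ _ _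
      have h0 : ∀ z : Pt n, shU 0 0 z = z := by
        intro z
        unfold shU trg
        refine Prod.ext rfl (funext fun i => ?_)
        simp
      obtain ⟨η, hη, hopen⟩ := open_empty hn (hsy1.snoc ha2) (fun w hw => by
        rw [hfl2, h0] at hw
        obtain ⟨x, hx, -⟩ := (hC w).1 hw
        exact hne ⟨x, hx⟩)
      refine ⟨hamU 0 0, shU 0 0, hamU_smooth 0 0, hamU_per 0 0, fun k hk z => ?_,
        hamU_timeOne 0 0, η, hη, fun b β hb1 hb2 hb3 φ g hφ hg => ?_⟩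
      · exact (hsm 0 0 (by rw [norm_zero]; exact hδ'.le) (by rw [norm_zero]; exact hδ'.le) k hk
          z).1
      · exact hopen b β hb1 hb2 hb3 φ g (fun z => by rw [hφ, hfl2]) hg
  obtain ⟨K, α, hK1, hK2, hK3, hK4, η, hη, hopen⟩ := key
  obtain ⟨κ, hκ, hgen⟩ := small_gen (n := n) η hη
  refine ⟨![hamU a b, hamV c d, K], fun i => ?_, fun i => ?_, fun i => ?_, κ, hκ,
    fun L hL hL1 hL2 g h hg hh => ?_⟩
  · fin_cases i
    · exact hamU_smooth a b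
    · exact hamV_smooth c d
    · exact hK1
  · fin_cases i
    · exact hamU_per a b
    · exact hamV_per c d
    · exact hK2
  · fin_cases i
    · exact fun k hk z => (hsm a b ha hb k hk z).1
    · exact fun k hk z => (hsm c d hc hd k hk z).2
    · exact hK3
  · obtain ⟨b', β, h1, h2, h3, h4⟩ := hgen L hL hL1 hL2
    refine hopen b' β h1 h2 h3 (g 2 ∘ g 1 ∘ g 0 ∘ compose f r) h (fun z => ?_) (h4 h hh)
    have e0 := hamU_timeOne a b (g 0) (hg 0)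
    have e1 := hamV_timeOne c d (g 1) (hg 1)
    have e2 := hK4 (g 2) (hg 2)
    simp only [Function.comp_apply]
    rw [hD.lift, e0, e1, e2, hflw]

end Pool.Agent.H47.OD
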