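import Pool.Agent.H47.OD.Pst

/-!
# Fixed points under small perturbations which fix them
-/

set_option autoImplicit false

open Module Filter Topology

namespace Pool.Agent.H47.OD

open Pool.Agent.H47.QG

variable {n : ℕ}

theorem dnsA_floor (w : Pt n) : ∃ e ∈ Zn n, ‖w - e‖ ≤ 1 := by
  refine ⟨((fun i => ((⌊w.1 i⌋ : ℤ) : ℝ)), (fun i => ((⌊w.2 i⌋ : ℤ) : ℝ))),
    ⟨fun i => ⌊w.1 i⌋, fun i => ⌊w.2 i⌋, rfl⟩, ?_⟩
  rw [Prod.norm_def]
  refine max_le ?_ ?_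
  · refine (pi_norm_le_iff_of_nonneg zero_le_one).2 fun i => ?_
    rw [Real.norm_eq_abs, abs_le]
    have h1 := Int.floor_le (w.1 i)
    have h2 := Int.lt_floor_add_one (w.1 i)
    change -1 ≤ w.1 i - (⌊w.1 i⌋ : ℝ) ∧ w.1 i - (⌊w.1 i⌋ : ℝ) ≤ 1
    constructor <;> linarith
  · refine (pi_norm_le_iff_of_nonneg zero_le_one).2 fun i => ?_
    rw [Real.norm_eq_abs, abs_le]
    have h1 := Int.floor_le (w.2 i)
    have h2 := Int.lt_floor_add_one (w.2 i)
    change -1 ≤ w.2 i - (⌊w.2 i⌋ : ℝ) ∧ w.2 i - (⌊w.2 i⌋ : ℝ) ≤ 1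
    constructor <;> linarith

theorem dnsA_bdd {F : Type*} [SeminormedAddCommGroup F] {g : Pt n → F} (hg : Continuous g)
    (hper : ∀ w, ∀ e ∈ Zn n, g (w + e) = g w) : ∃ B, ∀ w, ‖g w‖ ≤ B := by
  obtain ⟨B, hB⟩ := (isCompact_closedBall (0 : Pt n) 1).exists_bound_of_continuousOn
    hg.continuousOn
  refine ⟨B, fun w => ?_⟩
  obtain ⟨e, he, h1⟩ := dnsA_floor w
  have h2 := hB (w - e) (by rw [mem_closedBall_zero_iff]; exact h1)
  rwa [← hper (w - e) e he, sub_add_cancel] at h2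

/-- maps which commute with `ℤ^{2n}` are Lipschitz -/
theorem dnsA_lip {Φ : Pt n → Pt n} (hΦ : ContDiff ℝ 1 Φ)
    (hper : ∀ w, ∀ e ∈ Zn n, Φ (w + e) = Φ w + e) :
    ∃ Λ > 0, ∀ w w', ‖Φ w - Φ w'‖ ≤ Λ * ‖w - w'‖ := by
  have h1 : ∀ w, ∀ e ∈ Zn n, fderiv ℝ Φ (w + e) = fderiv ℝ Φ w := by
    intro w e he
    rw [← fderiv_comp_add_right]
    have h2 : (fun x => Φ (x + e)) = fun x => Φ x + e := funext fun x => hper x e he
    rw [h2, fderiv_add_const]
  obtain ⟨B, hB⟩ := dnsA_bdd (hΦ.continuous_fderiv one_ne_zero) h1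
  refine ⟨max B 1, lt_of_lt_of_le one_pos (le_max_right _ _), fun w w' => ?_⟩
  exact Convex.norm_image_sub_le_of_norm_fderiv_le (𝕜 := ℝ) (s := Set.univ)
    (fun x _ => hΦ.differentiable one_ne_zero x) (fun x _ => (hB x).trans (le_max_left _ _))
    convex_univ (Set.mem_univ _) (Set.mem_univ _)

theorem dnsA_far {u : Pt n} (hu : u ∉ Zn n) : ∃ r > 0, ∀ e ∈ Zn n, r ≤ ‖u - e‖ := by
  have h1 : (∃ i, u.1 i ≠ (round (u.1 i) : ℝ)) ∨ ∃ i, u.2 i ≠ (round (u.2 i) : ℝ) := by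
    by_contra hc
    rw [not_or, not_exists, not_exists] at hc
    refine hu ⟨fun i => round (u.1 i), fun i => round (u.2 i), ?_⟩
    refine Prod.ext (funext fun i => ?_) (funext fun i => ?_)
    · exact not_not.mp (hc.1 i)
    · exact not_not.mp (hc.2 i)
  rcases h1 with ⟨i, hi⟩ | ⟨i, hi⟩
  · refine ⟨|u.1 i - round (u.1 i)|, abs_pos.2 (sub_ne_zero.2 hi), ?_⟩
    rintro _ ⟨a, b, rfl⟩
    refine (round_le (u.1 i) (a i)).trans ?_
    have h2 := norm_le_pi_norm (u - ((fun i => (a i : ℝ)), (fun i => (b i : ℝ)))).1 i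
    exact h2.trans (norm_fst_le _)
  · refine ⟨|u.2 i - round (u.2 i)|, abs_pos.2 (sub_ne_zero.2 hi), ?_⟩
    rintro _ ⟨a, b, rfl⟩
    refine (round_le (u.2 i) (b i)).trans ?_
    have h2 := norm_le_pi_norm (u - ((fun i => (a i : ℝ)), (fun i => (b i : ℝ)))).2 i
    exact h2.trans (norm_snd_le _)

theorem dnsA_small {e : Pt n} (he : e ∈ Zn n) (h : ‖e‖ < 1) : e = 0 := by
  obtain ⟨a, b, rfl⟩ := he
  have key : ∀ m : ℤ, |(m : ℝ)| < 1 → (m : ℝ) = 0 := by
    intro m hm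
    have h1 : |m| < 1 := by exact_mod_cast hm
    rw [Int.abs_lt_one_iff] at h1
    rw [h1, Int.cast_zero]
  refine Prod.ext (funext fun i => ?_) (funext fun i => ?_)
  · refine key (a i) (lt_of_le_of_lt ?_ h)
    exact (norm_le_pi_norm (fun i => (a i : ℝ)) i).trans
      (norm_fst_le ((fun i => (a i : ℝ)), (fun i => (b i : ℝ))))
  · refine key (b i) (lt_of_le_of_lt ?_ h)
    exact (norm_le_pi_norm (fun i => (b i : ℝ)) i).trans
      (norm_snd_le ((fun i => (a i : ℝ)), (fun i => (b i : ℝ))))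

theorem dnsA_sep (C : Finset (Pt n)) (hCd : ∀ c ∈ C, ∀ c' ∈ C, c - c' ∈ Zn n → c = c') :
    ∃ ρ > 0, ρ < 1 ∧ ∀ c ∈ C, ∀ c' ∈ C, ∀ e ∈ Zn n, ‖c - c' - e‖ ≤ ρ → c = c' := by
  classical
  have key : ∀ P : Finset (Pt n), (∀ u ∈ P, u ∉ Zn n) →
      ∃ r > 0, ∀ u ∈ P, ∀ e ∈ Zn n, r ≤ ‖u - e‖ := by
    intro P
    induction P using Finset.induction_on with
    | empty => exact fun _ => ⟨1, one_pos, fun u hu => absurd hu (Finset.notMem_empty u)⟩
    | insert a P ha ih =>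
      intro h
      obtain ⟨r, hr, h1⟩ := ih fun u hu => h u (Finset.mem_insert_of_mem hu)
      obtain ⟨r', hr', h2⟩ := dnsA_far (h a (Finset.mem_insert_self a P))
      refine ⟨min r r', lt_min hr hr', fun u hu e he => ?_⟩
      rcases Finset.mem_insert.1 hu with rfl | hu
      · exact (min_le_right _ _).trans (h2 e he)
      · exact (min_le_left _ _).trans (h1 u hu e he)
  obtain ⟨r, hr, h⟩ := key (((C ×ˢ C).image fun p => p.1 - p.2).filter fun u => u ∉ Zn n)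
    fun u hu => (Finset.mem_filter.1 hu).2
  refine ⟨min (r / 2) (1 / 2), lt_min (half_pos hr) one_half_pos,
    lt_of_le_of_lt (min_le_right _ _) one_half_lt_one, fun c hc c' hc' e he hle => ?_⟩
  by_contra hne
  have h1 : c - c' ∉ Zn n := fun h' => hne (hCd c hc c' hc' h')
  have h2 := h (c - c') (Finset.mem_filter.2 ⟨Finset.mem_image.2
    ⟨(c, c'), Finset.mem_product.2 ⟨hc, hc'⟩, rfl⟩, h1⟩) e he
  have h3 := min_le_left (r / 2) (1 / 2 : ℝ)
  linarith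

theorem dnsA_anti {Φ : Pt n → Pt n} (C : Finset (Pt n))
    (hnd : ∀ c ∈ C, ∀ v, fderiv ℝ Φ c v = v → v = 0) :
    ∃ K > 0, ∀ c ∈ C, ∀ v, ‖v‖ ≤ K * ‖fderiv ℝ Φ c v - v‖ := by
  classical
  induction C using Finset.induction_on with
  | empty => exact ⟨1, one_pos, fun c hc => absurd hc (Finset.notMem_empty c)⟩
  | insert a C ha ih =>
    obtain ⟨K, hK, h1⟩ := ih fun c hc => hnd c (Finset.mem_insert_of_mem hc)
    have h2 : LinearMap.ker ((fderiv ℝ Φ a - ContinuousLinearMap.id ℝ (Pt n) :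
        Pt n →L[ℝ] Pt n) : Pt n →ₗ[ℝ] Pt n) = ⊥ := by
      rw [LinearMap.ker_eq_bot']
      intro v hv
      refine hnd a (Finset.mem_insert_self a C) v ?_
      exact sub_eq_zero.1 hv
    obtain ⟨K', hK', h3⟩ := LinearMap.exists_antilipschitzWith _ h2
    refine ⟨max K K', lt_max_of_lt_left hK, fun c hc v => ?_⟩
    rcases Finset.mem_insert.1 hc with rfl | hc
    · have h4 := h3.le_mul_dist v 0
      rw [map_zero, dist_zero_right, dist_zero_right] at h4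
      exact h4.trans (mul_le_mul_of_nonneg_right (le_max_right _ _) (norm_nonneg _))
    · exact (h1 c hc v).trans (mul_le_mul_of_nonneg_right (le_max_left _ _) (norm_nonneg _))

/-- the fixed points do not change under small perturbations which fix them and stay
nondegenerate -/
theorem fix_same {Φ : Pt n → Pt n} (hΦ : ContDiff ℝ 1 Φ)
    (hper : ∀ w, ∀ e ∈ Zn n, Φ (w + e) = Φ w + e) (C : Finset (Pt n))
    (hC : ∀ w, Φ w = w ↔ ∃ c ∈ C, w - c ∈ Zn n)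
    (hCd : ∀ c ∈ C, ∀ c' ∈ C, c - c' ∈ Zn n → c = c')
    (hnd : ∀ c ∈ C, ∀ v, fderiv ℝ Φ c v = v → v = 0) :
    ∃ η > 0, ∀ (a : Pt n → ℝ) (α : Pt n → Pt n), Gen a α → (∀ p, ‖fderiv ℝ a p‖ ≤ η) →
      (∀ p, ‖fderiv ℝ (fderiv ℝ a) p‖ ≤ η) → (∀ c ∈ C, α c = c) →
      (∀ w, α (Φ w) = w ↔ ∃ c ∈ C, w - c ∈ Zn n) ∧
      ∀ c ∈ C, ∀ v, fderiv ℝ (fun w => α (Φ w)) c v = v → v = 0 := by
  obtain ⟨Λ, hΛ, hlip⟩ := dnsA_lip hΦ hper
  obtain ⟨ρ, hρ, hρ1, hsep⟩ := dnsA_sep C hCd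
  obtain ⟨K, hK, hanti⟩ := dnsA_anti C hnd
  obtain ⟨κ, hκ, hpst⟩ := persist hΦ hper C hC hCd hnd ρ hρ
  obtain ⟨η, hη, hη1, hη2, hη3, hη4⟩ : ∃ η > 0, η ≤ 1 / 2 ∧ η ≤ κ ∧ 2 * η * Λ ≤ κ ∧
      K * (2 * η * Λ) ≤ 1 / 2 := by
    refine ⟨min (min (1 / 2) κ) (min (κ / (2 * Λ)) (1 / (4 * K * Λ))),
      lt_min (lt_min one_half_pos hκ) (lt_min (by positivity) (by positivity)),
      (min_le_left _ _).trans (min_le_left _ _), (min_le_left _ _).trans (min_le_right _ _),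
      ?_, ?_⟩
    · have h1 : min (min (1 / 2) κ) (min (κ / (2 * Λ)) (1 / (4 * K * Λ))) ≤ κ / (2 * Λ) :=
        (min_le_right _ _).trans (min_le_left _ _)
      rw [le_div_iff₀ (by positivity)] at h1
      linarith
    · have h1 : min (min (1 / 2) κ) (min (κ / (2 * Λ)) (1 / (4 * K * Λ))) ≤ 1 / (4 * K * Λ) :=
        (min_le_right _ _).trans (min_le_right _ _)
      rw [le_div_iff₀ (by positivity)] at h1
      linarith
  refine ⟨η, hη, fun a α hα h1 h2 hfix => ?_⟩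
  obtain ⟨hcl, hclL⟩ := gen_close hα hη.le hη1 h1 h2
  have hself : ∀ c ∈ C, Φ c = c := fun c hc =>
    (hC c).2 ⟨c, hc, by rw [sub_self]; exact (Zn n).zero_mem⟩
  have hL : ∀ w w', ‖(α (Φ w) - Φ w) - (α (Φ w') - Φ w')‖ ≤ 2 * η * Λ * ‖w - w'‖ := by
    intro w w'
    refine (hclL (Φ w) (Φ w')).trans ?_
    have h3 := mul_le_mul_of_nonneg_left (hlip w w') (by positivity : 0 ≤ 2 * η)
    linarith
  obtain ⟨g, hg1, -, hg3⟩ := hpst (fun w => α (Φ w))
    (fun w e he => by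
      rw [hper w e he, hα.add_int _ _ he])
    (fun w => (hcl (Φ w)).trans hη2)
    (fun w w' => (hL w w').trans (mul_le_mul_of_nonneg_right hη3 (norm_nonneg _)))
  have hgc : ∀ c ∈ C, g c = c := by
    intro c hc
    obtain ⟨c', hc', h3⟩ := hg3 c (by
      change α (Φ c) = c
      rw [hself c hc, hfix c hc])
    have h4 : c = c' := by
      refine hsep c hc c' hc' _ h3 ?_
      have h5 : c - c' - (c - g c') = g c' - c' := by abel
      rw [h5]
      exact (hg1 c' hc').1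
    subst h4
    have h5 := dnsA_small h3 (by
      rw [norm_sub_rev]
      exact lt_of_le_of_lt (hg1 c hc).1 hρ1)
    exact (sub_eq_zero.1 h5).symm
  refine ⟨fun w => ⟨fun hw => ?_, ?_⟩, fun c hc v hv => ?_⟩
  · obtain ⟨c, hc, h3⟩ := hg3 w hw
    exact ⟨c, hc, by rwa [hgc c hc] at h3⟩
  · rintro ⟨c, hc, h3⟩
    have h4 : w = c + (w - c) := by abel
    rw [h4, hper _ _ h3, hself c hc, hα.add_int _ _ h3, hfix c hc]
  · by_cases hd : DifferentiableAt ℝ (fun w => α (Φ w)) c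
    · have hdΦ : DifferentiableAt ℝ Φ c := hΦ.differentiable one_ne_zero c
      have h3 : fderiv ℝ (fun w => α (Φ w) - Φ w) c =
          fderiv ℝ (fun w => α (Φ w)) c - fderiv ℝ Φ c := fderiv_fun_sub hd hdΦ
      have h4 : ‖fderiv ℝ (fun w => α (Φ w) - Φ w) c‖ ≤ 2 * η * Λ := by
        have h5 : LipschitzWith ⟨2 * η * Λ, by positivity⟩ (fun w => α (Φ w) - Φ w) :=
          LipschitzWith.of_dist_le_mul fun w w' => by
            rw [dist_eq_norm, dist_eq_norm]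
            exact hL w w'
        exact norm_fderiv_le_of_lipschitz ℝ h5
      have h5 : ‖fderiv ℝ Φ c v - v‖ ≤ 2 * η * Λ * ‖v‖ := by
        have h6 : fderiv ℝ Φ c v - v = -(fderiv ℝ (fun w => α (Φ w) - Φ w) c v) := by
          rw [h3, sub_apply, hv]
          abel
        rw [h6, norm_neg]
        exact (ContinuousLinearMap.le_opNorm _ _).trans
          (mul_le_mul_of_nonneg_right h4 (norm_nonneg _))
      have h6 := (hanti c hc v).trans (mul_le_mul_of_nonneg_left h5 hK.le)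
      have h7 : K * (2 * η * Λ * ‖v‖) ≤ 1 / 2 * ‖v‖ := by
        rw [← mul_assoc]
        exact mul_le_mul_of_nonneg_right hη4 (norm_nonneg _)
      have h8 : ‖v‖ ≤ 0 := by linarith
      exact norm_le_zero_iff.1 h8
    · rw [fderiv_zero_of_not_differentiableAt hd, zero_apply] at hv
      exact hv.symm

end Pool.Agent.H47.OD
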