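import Pool.Agent.H47.QG.IterP
import Pool.Agent.H47.QG.IterT
import Pool.Agent.H47.QG.Main5

/-!
# Maps with generating functions are `C^1` (first part)
-/

set_option autoImplicit false

open Module QuadraticForm Filter Topology

namespace Pool.Agent.H47.OD

open Pool.Agent.H47.QG

variable {n : ℕ}

/-- `(x', y) ↦ (x, y)` -/
noncomputable def FlA_P (S : Pt n → ℝ) (p : Pt n) : Pt n :=
  (fun i => p.1 i - fderiv ℝ S p (0, Pi.single i 1), p.2)

/-- `(x', y) ↦ (x', y')` -/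
noncomputable def FlA_Q (S : Pt n → ℝ) (p : Pt n) : Pt n :=
  (p.1, fun i => p.2 i - fderiv ℝ S p (Pi.single i 1, 0))

theorem FlA_smooth {S : Pt n → ℝ} (hS : ContDiff ℝ 2 S) (u : Pt n) :
    ContDiff ℝ 1 fun p => fderiv ℝ S p u :=
  (hS.fderiv_right (m := 1) (by norm_num)).clm_apply contDiff_const

theorem FlA_P_smooth {S : Pt n → ℝ} (hS : ContDiff ℝ 2 S) : ContDiff ℝ 1 (FlA_P S) := by
  unfold FlA_P
  refine ContDiff.prodMk (contDiff_pi.2 fun i => ?_) contDiff_snd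
  refine ContDiff.sub ?_ (FlA_smooth hS _)
  exact (contDiff_apply ℝ ℝ i).comp contDiff_fst

theorem FlA_Q_smooth {S : Pt n → ℝ} (hS : ContDiff ℝ 2 S) : ContDiff ℝ 1 (FlA_Q S) := by
  unfold FlA_Q
  refine ContDiff.prodMk contDiff_fst (contDiff_pi.2 fun i => ?_)
  refine ContDiff.sub ?_ (FlA_smooth hS _)
  exact (contDiff_apply ℝ ℝ i).comp contDiff_snd

theorem FlA_hasFDerivAt {S : Pt n → ℝ} (hS : ContDiff ℝ 2 S) (p u : Pt n) :
    HasFDerivAt (fun p => fderiv ℝ S p u)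
      ((ContinuousLinearMap.apply ℝ ℝ u).comp (fderiv ℝ (fderiv ℝ S) p)) p := by
  have h1 : DifferentiableAt ℝ (fderiv ℝ S) p :=
    ((hS.fderiv_right (m := 1) (by norm_num)).differentiable (by norm_num)) p
  exact (ContinuousLinearMap.apply ℝ ℝ u).hasFDerivAt.comp p h1.hasFDerivAt

theorem FlA_P_fst {S : Pt n → ℝ} (hS : ContDiff ℝ 2 S) (p v : Pt n) (i : Fin n) :
    (fderiv ℝ (FlA_P S) p v).1 i =
      v.1 i - fderiv ℝ (fderiv ℝ S) p v (0, Pi.single i 1) := by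
  have hd : HasFDerivAt (FlA_P S) (fderiv ℝ (FlA_P S) p) p :=
    (((FlA_P_smooth hS).differentiable (by norm_num)) p).hasFDerivAt
  let l : Pt n →L[ℝ] ℝ := (ContinuousLinearMap.proj (R := ℝ) (φ := fun _ : Fin n => ℝ) i).comp
    (ContinuousLinearMap.fst ℝ (Fin n → ℝ) (Fin n → ℝ))
  have h1 : HasFDerivAt (fun p => l (FlA_P S p)) (l.comp (fderiv ℝ (FlA_P S) p)) p :=
    l.hasFDerivAt.comp p hd
  have h2 : HasFDerivAt (fun p => l (FlA_P S p))
      (l - (ContinuousLinearMap.apply ℝ ℝ ((0, Pi.single i 1) : Pt n)).comp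
        (fderiv ℝ (fderiv ℝ S) p)) p := l.hasFDerivAt.sub (FlA_hasFDerivAt hS p _)
  have h3 := congrArg (fun L : Pt n →L[ℝ] ℝ => L v) (h1.unique h2)
  exact h3

theorem FlA_P_snd {S : Pt n → ℝ} (hS : ContDiff ℝ 2 S) (p v : Pt n) :
    (fderiv ℝ (FlA_P S) p v).2 = v.2 := by
  have hd : HasFDerivAt (FlA_P S) (fderiv ℝ (FlA_P S) p) p :=
    (((FlA_P_smooth hS).differentiable (by norm_num)) p).hasFDerivAt
  let l : Pt n →L[ℝ] (Fin n → ℝ) := ContinuousLinearMap.snd ℝ (Fin n → ℝ) (Fin n → ℝ)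
  have h1 : HasFDerivAt (fun p => l (FlA_P S p)) (l.comp (fderiv ℝ (FlA_P S) p)) p :=
    l.hasFDerivAt.comp p hd
  have h2 : HasFDerivAt (fun p => l (FlA_P S p)) l p := l.hasFDerivAt
  have h3 := congrArg (fun L : Pt n →L[ℝ] (Fin n → ℝ) => L v) (h1.unique h2)
  exact h3

theorem FlA_inj {S : Pt n → ℝ} {f : Pt n → Pt n} (h : Gen S f) (p v : Pt n)
    (hv : fderiv ℝ (FlA_P S) p v = 0) : v = 0 := by
  have h2 : v.2 = 0 := by
    rw [← FlA_P_snd h.smooth p v, hv]; rfl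
  have h1 : v.1 = 0 := by
    refine h.inv p v.1 fun i => ?_
    have h3 := FlA_P_fst h.smooth p v i
    rw [hv] at h3
    have h4 : v = (v.1, 0) := Prod.ext rfl h2
    rw [h4] at h3
    have h5 : (0 : ℝ) = v.1 i - fderiv ℝ (fderiv ℝ S) p (v.1, 0) (0, Pi.single i 1) := h3
    linarith
  exact Prod.ext h1 h2

/-- the derivative of `FlA_P` as an equivalence -/
noncomputable def FlA_e {S : Pt n → ℝ} {f : Pt n → Pt n} (h : Gen S f) (p : Pt n) :
    Pt n ≃L[ℝ] Pt n :=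
  (LinearEquiv.ofInjectiveEndo (fderiv ℝ (FlA_P S) p : Pt n →ₗ[ℝ] Pt n) (by
    rw [← LinearMap.ker_eq_bot, LinearMap.ker_eq_bot']
    exact FlA_inj h p)).toContinuousLinearEquiv

theorem FlA_e_coe {S : Pt n → ℝ} {f : Pt n → Pt n} (h : Gen S f) (p : Pt n) :
    (FlA_e h p : Pt n →L[ℝ] Pt n) = fderiv ℝ (FlA_P S) p :=
  ContinuousLinearMap.ext fun _ => rfl

theorem FlA_comp {S : Pt n → ℝ} {f : Pt n → Pt n} (h : Gen S f) (p : Pt n) :
    f (FlA_P S p) = FlA_Q S p := by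
  rw [h.rel]
  intro i
  constructor
  · change p.1 i = (p.1 i - fderiv ℝ S p (0, Pi.single i 1)) +
      fderiv ℝ S p (0, Pi.single i 1)
    ring
  · rfl

theorem FlA_surj {S : Pt n → ℝ} {f : Pt n → Pt n} (h : Gen S f) (z : Pt n) :
    FlA_P S ((f z).1, z.2) = z := by
  refine Prod.ext ?_ rfl
  funext i
  have h1 := ((h.rel z (f z)).1 rfl i).1
  change (f z).1 i - fderiv ℝ S ((f z).1, z.2) (0, Pi.single i 1) = z.1 i
  linarith

theorem gen_c1 {S : Pt n → ℝ} {f : Pt n → Pt n} (h : Gen S f) : ContDiff ℝ 1 f := by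
  rw [contDiff_iff_contDiffAt]
  intro z
  set p : Pt n := ((f z).1, z.2) with hp
  have hpz : FlA_P S p = z := FlA_surj h z
  have hsm : ContDiffAt ℝ 1 (FlA_P S) p := (FlA_P_smooth h.smooth).contDiffAt
  have hd : HasFDerivAt (FlA_P S) (FlA_e h p : Pt n →L[ℝ] Pt n) p := by
    rw [FlA_e_coe]
    exact (((FlA_P_smooth h.smooth).differentiable (by norm_num)) p).hasFDerivAt
  let e := hsm.toOpenPartialHomeomorph (FlA_P S) hd (by norm_num)
  have hmem : z ∈ e.target := by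
    have h1 := hsm.image_mem_toOpenPartialHomeomorph_target hd (by norm_num)
    rwa [hpz] at h1
  have hsymm : ContDiffAt ℝ 1 e.symm z := by
    have h1 := hsm.to_localInverse hd (by norm_num)
    rw [hpz] at h1
    exact h1
  have hev : f =ᶠ[𝓝 z] fun y => FlA_Q S (e.symm y) := by
    filter_upwards [e.open_target.mem_nhds hmem] with y hy
    have h1 : e (e.symm y) = y := e.right_inv hy
    have h2 : FlA_P S (e.symm y) = y := h1
    rw [← FlA_comp h, h2]
  refine ContDiffAt.congr_of_eventuallyEq ?_ hev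
  exact (FlA_Q_smooth h.smooth).contDiffAt.comp z hsymm

theorem gen_rel_fderiv {S : Pt n → ℝ} {f : Pt n → Pt n} (h : Gen S f) (z v : Pt n) :
    IterPRel (fderiv ℝ (fderiv ℝ S) ((f z).1, z.2)) v (fderiv ℝ f z v) := by
  have hf : HasFDerivAt f (fderiv ℝ f z) z :=
    (((gen_c1 h).differentiable (by norm_num)) z).hasFDerivAt
  let l1 : Pt n →L[ℝ] (Fin n → ℝ) := ContinuousLinearMap.fst ℝ (Fin n → ℝ) (Fin n → ℝ)
  let l2 : Pt n →L[ℝ] (Fin n → ℝ) := ContinuousLinearMap.snd ℝ (Fin n → ℝ) (Fin n → ℝ)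
  have hG : HasFDerivAt (fun z : Pt n => ((f z).1, z.2))
      ((l1.comp (fderiv ℝ f z)).prod l2) z :=
    (l1.hasFDerivAt.comp z hf).prodMk l2.hasFDerivAt
  have hD : ∀ u : Pt n, HasFDerivAt (fun z : Pt n => fderiv ℝ S ((f z).1, z.2) u)
      (((ContinuousLinearMap.apply ℝ ℝ u).comp (fderiv ℝ (fderiv ℝ S) ((f z).1, z.2))).comp
        ((l1.comp (fderiv ℝ f z)).prod l2)) z := fun u =>
    HasFDerivAt.comp (g := fun p => fderiv ℝ S p u) z
      (FlA_hasFDerivAt h.smooth ((f z).1, z.2) u) hG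
  intro i
  let pr : (Fin n → ℝ) →L[ℝ] ℝ := ContinuousLinearMap.proj (R := ℝ) (φ := fun _ : Fin n => ℝ) i
  constructor
  · have h1 : HasFDerivAt (fun z : Pt n => (f z).1 i) ((pr.comp l1).comp (fderiv ℝ f z)) z :=
      (pr.comp l1).hasFDerivAt.comp z hf
    have h2 : (fun z : Pt n => (f z).1 i) =
        fun z : Pt n => z.1 i + fderiv ℝ S ((f z).1, z.2) (0, Pi.single i 1) := by
      funext y
      exact ((h.rel y (f y)).1 rfl i).1
    have h3 : HasFDerivAt (fun z : Pt n => (f z).1 i) (pr.comp l1 +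
        (((ContinuousLinearMap.apply ℝ ℝ ((0, Pi.single i 1) : Pt n)).comp
          (fderiv ℝ (fderiv ℝ S) ((f z).1, z.2))).comp
          ((l1.comp (fderiv ℝ f z)).prod l2))) z := by
      rw [h2]
      exact (pr.comp l1).hasFDerivAt.add (hD _)
    have h4 := congrArg (fun L : Pt n →L[ℝ] ℝ => L v) (h1.unique h3)
    exact h4
  · have h1 : HasFDerivAt (fun z : Pt n => (f z).2 i) ((pr.comp l2).comp (fderiv ℝ f z)) z :=
      (pr.comp l2).hasFDerivAt.comp z hf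
    have h2 : (fun z : Pt n => (f z).2 i) =
        fun z : Pt n => z.2 i - fderiv ℝ S ((f z).1, z.2) (Pi.single i 1, 0) := by
      funext y
      exact ((h.rel y (f y)).1 rfl i).2
    have h3 : HasFDerivAt (fun z : Pt n => (f z).2 i) (pr.comp l2 -
        (((ContinuousLinearMap.apply ℝ ℝ ((Pi.single i 1, 0) : Pt n)).comp
          (fderiv ℝ (fderiv ℝ S) ((f z).1, z.2))).comp
          ((l1.comp (fderiv ℝ f z)).prod l2))) z := by
      rw [h2]
      exact (pr.comp l2).hasFDerivAt.sub (hD _)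
    have h4 := congrArg (fun L : Pt n →L[ℝ] ℝ => L v) (h1.unique h3)
    exact h4

theorem FlA_flw_c1 {S : ℕ → Pt n → ℝ} {f : ℕ → Pt n → Pt n} (hS : ∀ j, Gen (S j) (f j)) (K : ℕ) :
    ContDiff ℝ 1 (flw f K) := by
  induction K with
  | zero => exact contDiff_id
  | succ K ih => exact (gen_c1 (hS K)).comp ih

theorem flw_c1 {S : ℕ → Pt n → ℝ} {f : ℕ → Pt n → Pt n} (hS : ∀ j, Gen (S j) (f j)) (K : ℕ) :
    ContDiff ℝ 1 (flw f K) := FlA_flw_c1 hS K

theorem FlA_fderiv_flw {S : ℕ → Pt n → ℝ} {f : ℕ → Pt n → Pt n} (hS : ∀ j, Gen (S j) (f j))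
    (w : Pt n) (K : ℕ) (v : Pt n) : fderiv ℝ (flw f K) w v =
      IterPLc (fun j => (fderiv ℝ (f j) (flw f j w) : Pt n →ₗ[ℝ] Pt n)) K v := by
  induction K with
  | zero =>
    change fderiv ℝ id w v = v
    rw [fderiv_id]
    rfl
  | succ K ih =>
    have h1 : fderiv ℝ (flw f (K + 1)) w =
        (fderiv ℝ (f K) (flw f K w)).comp (fderiv ℝ (flw f K) w) :=
      fderiv_comp w ((gen_c1 (hS K)).differentiable (by norm_num) _)
        ((FlA_flw_c1 hS K).differentiable (by norm_num) _)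
    rw [h1]
    change fderiv ℝ (f K) (flw f K w) (fderiv ℝ (flw f K) w v) =
      fderiv ℝ (f K) (flw f K w) (IterPLc _ K v)
    rw [ih]

/-- nondegeneracy from the derivative of the flow -/
theorem nondeg_of {S : ℕ → Pt n → ℝ} {f : ℕ → Pt n → Pt n} (hS : ∀ j, Gen (S j) (f j)) (K : ℕ)
    (hK : K ≠ 0) (w : Pt n) (hw : flw f K w = w)
    (h : ∀ v, fderiv ℝ (flw f K) w v = v → v = 0) : Nondeg S f K w := by
  refine (IterP_nondeg_iff S f (fun j => (hS j).smooth) w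
    (fun j => (fderiv ℝ (f j) (flw f j w) : Pt n →ₗ[ℝ] Pt n)) ?_ K hK hw).2 fun x hx => ?_
  · intro j a b
    obtain ⟨L, hL⟩ := IterP_exists_L
      (fderiv ℝ (fderiv ℝ (S j)) ((flw f (j + 1) w).1, (flw f j w).2)) ((hS j).inv _)
    have h1 : fderiv ℝ (f j) (flw f j w) a = L a :=
      (hL a _).1 (gen_rel_fderiv (hS j) (flw f j w) a)
    rw [hL]
    change b = L a ↔ b = fderiv ℝ (f j) (flw f j w) a
    rw [h1]
  · refine h x ?_
    rw [FlA_fderiv_flw hS w K x]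
    exact hx

end Pool.Agent.H47.OD
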