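import Pool.Agent.H47.OD.FlA

/-!
# Small generating functions, Lipschitz flows, finiteness of fixed points
-/

set_option autoImplicit false

open Module QuadraticForm Filter Topology

namespace Pool.Agent.H47.OD

open Pool.Agent.H47.QG

variable {n : ℕ}

/-- a small generating function gives a map close to the identity -/
theorem gen_close {S : Pt n → ℝ} {f : Pt n → Pt n} (h : Gen S f) {η : ℝ} (hη : 0 ≤ η)
    (hη' : η ≤ 1 / 2) (h1 : ∀ p, ‖fderiv ℝ S p‖ ≤ η) (h2 : ∀ p, ‖fderiv ℝ (fderiv ℝ S) p‖ ≤ η) :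
    (∀ z, ‖f z - z‖ ≤ η) ∧ ∀ z z', ‖(f z - z) - (f z' - z')‖ ≤ 2 * η * ‖z - z'‖ := by
  have hc1 : ∀ z i, (f z - z).1 i = fderiv ℝ S ((f z).1, z.2) (0, Pi.single i 1) := fun z i => by
    have := ((h.rel z (f z)).1 rfl i).1
    rw [Prod.fst_sub, Pi.sub_apply]
    linarith
  have hc2 : ∀ z i, (f z - z).2 i = - fderiv ℝ S ((f z).1, z.2) (Pi.single i 1, 0) :=
    fun z i => by
      have := ((h.rel z (f z)).1 rfl i).2
      rw [Prod.snd_sub, Pi.sub_apply]
      linarith
  have hs : ∀ i : Fin n, ‖(Pi.single i (1 : ℝ) : Fin n → ℝ)‖ = 1 := fun i => by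
    rw [Pi.norm_single, norm_one]
  have hn1 : ∀ i : Fin n, ‖((0, Pi.single i 1) : Pt n)‖ = 1 := fun i => by
    rw [Prod.norm_mk, hs, norm_zero]
    norm_num
  have hn2 : ∀ i : Fin n, ‖((Pi.single i 1, 0) : Pt n)‖ = 1 := fun i => by
    rw [Prod.norm_mk, hs, norm_zero]
    norm_num
  refine ⟨fun z => ?_, fun z z' => ?_⟩
  · rw [Prod.norm_def]
    refine max_le ?_ ?_
    · refine (pi_norm_le_iff_of_nonneg hη).2 fun i => ?_
      rw [hc1]
      refine (ContinuousLinearMap.le_opNorm _ _).trans ?_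
      rw [hn1, mul_one]
      exact h1 _
    · refine (pi_norm_le_iff_of_nonneg hη).2 fun i => ?_
      rw [hc2, norm_neg]
      refine (ContinuousLinearMap.le_opNorm _ _).trans ?_
      rw [hn2, mul_one]
      exact h1 _
  · have hd : Differentiable ℝ (fderiv ℝ S) :=
      (h.smooth.fderiv_right (m := 1) (by norm_num)).differentiable (by norm_num)
    have hlip : ∀ p p' : Pt n, ‖fderiv ℝ S p - fderiv ℝ S p'‖ ≤ η * ‖p - p'‖ := fun p p' =>
      Convex.norm_image_sub_le_of_norm_fderiv_le (𝕜 := ℝ) (s := Set.univ)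
        (fun x _ => hd x) (fun x _ => h2 x) convex_univ (Set.mem_univ _) (Set.mem_univ _)
    set d := ‖(f z - z) - (f z' - z')‖ with hd0
    have hd00 : 0 ≤ d := norm_nonneg _
    have hp : ‖(((f z).1, z.2) : Pt n) - ((f z').1, z'.2)‖ ≤ ‖z - z'‖ + d := by
      have h3 : (((f z).1, z.2) : Pt n) - ((f z').1, z'.2) =
          (z - z') + (((f z - z) - (f z' - z')).1, 0) := by
        refine Prod.ext (funext fun i => ?_) (funext fun i => ?_)
        · simp only [Prod.fst_sub, Prod.fst_add, Pi.sub_apply, Pi.add_apply]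
          ring
        · simp
      rw [h3]
      refine (norm_add_le _ _).trans ?_
      have h4 : ‖((((f z - z) - (f z' - z')).1, 0) : Pt n)‖ ≤ d := by
        rw [Prod.norm_mk, norm_zero]
        exact max_le (norm_fst_le _) hd00
      linarith
    have hmain : d ≤ η * (‖z - z'‖ + d) := by
      have h5 : ∀ v : Pt n, ‖v‖ = 1 → ‖fderiv ℝ S ((f z).1, z.2) v -
          fderiv ℝ S ((f z').1, z'.2) v‖ ≤ η * (‖z - z'‖ + d) := fun v hv => by
        rw [← sub_apply]
        refine (ContinuousLinearMap.le_opNorm _ _).trans ?_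
        rw [hv, mul_one]
        exact (hlip _ _).trans (mul_le_mul_of_nonneg_left hp hη)
      have h6 : 0 ≤ η * (‖z - z'‖ + d) := by positivity
      refine (Prod.norm_def ((f z - z) - (f z' - z'))).trans_le (max_le ?_ ?_)
      · refine (pi_norm_le_iff_of_nonneg h6).2 fun i => ?_
        rw [Prod.fst_sub, Pi.sub_apply, hc1, hc1]
        exact h5 _ (hn1 i)
      · refine (pi_norm_le_iff_of_nonneg h6).2 fun i => ?_
        rw [Prod.snd_sub, Pi.sub_apply, hc2, hc2, neg_sub_neg, norm_sub_rev]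
        exact h5 _ (hn2 i)
    have h7 : 0 ≤ ‖z - z'‖ := norm_nonneg _
    nlinarith

/-- representative in the unit cube -/
noncomputable def FlBred (w : Pt n) : Pt n :=
  (fun i => Int.fract (w.1 i), fun i => Int.fract (w.2 i))

theorem FlB_red_mem (w : Pt n) : w - FlBred w ∈ Zn n :=
  ⟨fun i => ⌊w.1 i⌋, fun i => ⌊w.2 i⌋, by ext i <;> simp [FlBred]⟩

theorem FlB_norm_le (w : Pt n) : ‖FlBred w‖ ≤ 1 := by
  rw [Prod.norm_def]
  refine max_le ((pi_norm_le_iff_of_nonneg zero_le_one).2 fun i => ?_)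
    ((pi_norm_le_iff_of_nonneg zero_le_one).2 fun i => ?_)
  · show ‖Int.fract (w.1 i)‖ ≤ 1
    rw [Real.norm_eq_abs, abs_of_nonneg (Int.fract_nonneg _)]
    exact (Int.fract_lt_one _).le
  · show ‖Int.fract (w.2 i)‖ ≤ 1
    rw [Real.norm_eq_abs, abs_of_nonneg (Int.fract_nonneg _)]
    exact (Int.fract_lt_one _).le

/-- two points with the same class have the same representative -/
theorem FlB_red_eq {w w' : Pt n} (h : w - w' ∈ Zn n) : FlBred w = FlBred w' := by
  obtain ⟨a, b, hab⟩ := h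
  have hw : w = w' + ((fun i => (a i : ℝ)), (fun i => (b i : ℝ))) := by
    rw [← hab]; abel
  subst hw
  refine Prod.ext (funext fun i => ?_) (funext fun i => ?_)
  · show Int.fract (w'.1 i + (a i : ℝ)) = Int.fract (w'.1 i)
    exact Int.fract_add_intCast _ _
  · show Int.fract (w'.2 i + (b i : ℝ)) = Int.fract (w'.2 i)
    exact Int.fract_add_intCast _ _

theorem FlB_red_red (w : Pt n) : FlBred (FlBred w) = FlBred w :=
  (FlB_red_eq (FlB_red_mem w)).symm

/-- a `C^1` map that commutes with the lattice is Lipschitz -/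
theorem FlB_lip {Φ : Pt n → Pt n} (hΦ : ContDiff ℝ 1 Φ)
    (hper : ∀ w, ∀ e ∈ Zn n, Φ (w + e) = Φ w + e) :
    ∃ Λ > 0, ∀ w w', ‖Φ w - Φ w'‖ ≤ Λ * ‖w - w'‖ := by
  have hd : Differentiable ℝ Φ := hΦ.differentiable (by norm_num)
  have hc : Continuous (fderiv ℝ Φ) := hΦ.continuous_fderiv (by norm_num)
  have hp : ∀ w, ∀ e ∈ Zn n, fderiv ℝ Φ (w + e) = fderiv ℝ Φ w := fun w e he => by
    rw [← fderiv_comp_add_right]
    have : (fun x => Φ (x + e)) = fun x => Φ x + e := funext fun x => hper x e he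
    rw [this, fderiv_add_const]
  obtain ⟨C, hC⟩ := (isCompact_closedBall (0 : Pt n) 1).exists_bound_of_continuousOn
    hc.continuousOn
  have hC' : ∀ w, ‖fderiv ℝ Φ w‖ ≤ |C| + 1 := fun w => by
    have h1 : w = FlBred w + (w - FlBred w) := by abel
    rw [h1, hp _ _ (FlB_red_mem w)]
    have h2 := hC (FlBred w) (by rw [mem_closedBall_zero_iff]; exact FlB_norm_le w)
    have h3 := le_abs_self C
    linarith
  refine ⟨|C| + 1, by positivity, fun w w' => ?_⟩
  exact Convex.norm_image_sub_le_of_norm_fderiv_le (𝕜 := ℝ) (s := Set.univ)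
    (fun x _ => hd x) (fun x _ => hC' x) convex_univ (Set.mem_univ _) (Set.mem_univ _)

/-- flows commute with lattice translations -/
theorem flw_per {S : ℕ → Pt n → ℝ} {f : ℕ → Pt n → Pt n} (hS : ∀ j, Gen (S j) (f j)) (K : ℕ) :
    ∀ w, ∀ e ∈ Zn n, flw f K (w + e) = flw f K w + e := by
  rintro w e ⟨a, b, rfl⟩
  exact IterT_flw S f hS a b w K

/-- flows are Lipschitz -/
theorem flw_lip {S : ℕ → Pt n → ℝ} {f : ℕ → Pt n → Pt n} (hS : ∀ j, Gen (S j) (f j)) (K : ℕ) :
    ∃ Λ > 0, ∀ w w', ‖flw f K w - flw f K w'‖ ≤ Λ * ‖w - w'‖ :=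
  FlB_lip (flw_c1 hS K) (flw_per hS K)

/-- nondegenerate fixed points are finite in number modulo `ℤ^{2n}` -/
theorem fin_fixed {Φ : Pt n → Pt n} (hΦ : ContDiff ℝ 1 Φ)
    (hper : ∀ w, ∀ e ∈ Zn n, Φ (w + e) = Φ w + e)
    (hnd : ∀ w, Φ w = w → ∀ v, fderiv ℝ Φ w v = v → v = 0) :
    ∃ C : Finset (Pt n), (∀ w, Φ w = w ↔ ∃ c ∈ C, w - c ∈ Zn n) ∧
      ∀ c ∈ C, ∀ c' ∈ C, c - c' ∈ Zn n → c = c' := by
  classical
  have hd : Differentiable ℝ Φ := hΦ.differentiable (by norm_num)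
  have hiso : ∀ w, Φ w = w → ∀ᶠ z in 𝓝[≠] w, Φ z ≠ z := fun w hw => by
    have h1 : HasFDerivAt (fun z => Φ z - z) (fderiv ℝ Φ w - ContinuousLinearMap.id ℝ (Pt n)) w :=
      (hd w).hasFDerivAt.sub (hasFDerivAt_id w)
    have h2 : ∃ K, AntilipschitzWith K (fderiv ℝ Φ w - ContinuousLinearMap.id ℝ (Pt n)) := by
      obtain ⟨K, hK, hK'⟩ := (LinearMap.injective_iff_antilipschitz
        ((fderiv ℝ Φ w - ContinuousLinearMap.id ℝ (Pt n)) : Pt n →ₗ[ℝ] Pt n)).1
        ((injective_iff_map_eq_zero _).2 fun v hv => hnd w hw v (sub_eq_zero.1 hv))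
      exact ⟨K, hK'⟩
    filter_upwards [h1.eventually_ne (c := 0) h2] with z hz hz'
    exact hz (sub_eq_zero.2 hz')
  set F : Set (Pt n) := {w | Φ w = w} ∩ Metric.closedBall 0 1 with hF
  have hFfin : F.Finite := by
    by_contra hinf
    obtain ⟨w, hwF, hacc⟩ := Set.Infinite.exists_accPt_of_subset_isCompact
      (K := F) hinf ((isCompact_closedBall (0 : Pt n) 1).inter_left
        (isClosed_eq hΦ.continuous continuous_id)) subset_rfl
    have h1 := hiso w hwF.1
    have h2 := accPt_iff_frequently_nhdsNE.1 hacc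
    exact h2 (h1.mono fun z hz hz' => hz hz'.1)
  refine ⟨hFfin.toFinset.filter fun c => FlBred c = c, fun w => ⟨fun hw => ?_, ?_⟩, ?_⟩
  · refine ⟨FlBred w, ?_, FlB_red_mem w⟩
    rw [Finset.mem_filter, Set.Finite.mem_toFinset]
    refine ⟨⟨?_, ?_⟩, FlB_red_red w⟩
    · show Φ (FlBred w) = FlBred w
      have h1 := hper w (-(w - FlBred w)) (neg_mem (FlB_red_mem w))
      have h2 : w + -(w - FlBred w) = FlBred w := by abel
      rw [h2] at h1
      rw [h1, hw, h2]
    · rw [mem_closedBall_zero_iff]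
      exact FlB_norm_le w
  · rintro ⟨c, hc, hwc⟩
    rw [Finset.mem_filter, Set.Finite.mem_toFinset] at hc
    have h1 := hper c _ hwc
    have h2 : c + (w - c) = w := by abel
    have h3 : Φ c = c := hc.1.1
    rw [h2, h3, h2] at h1
    exact h1
  · intro c hc c' hc' h
    rw [Finset.mem_filter] at hc hc'
    rw [← hc.2, ← hc'.2]
    exact FlB_red_eq h

end Pool.Agent.H47.OD
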