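import Pool.Agent.H47.OD.PerD

/-!
# The second variation of the action as a cyclic form
-/

set_option autoImplicit false

open Module QuadraticForm

namespace Pool.Agent.H47.OD

open Pool.Agent.H47.QG

variable {n : ℕ}

/-- the second variation of the action at the orbit of `w` -/
theorem hess_action (S : ℕ → Pt n → ℝ) (f : ℕ → Pt n → Pt n) (hS : ∀ j, ContDiff ℝ 2 (S j))
    (K : ℕ) [NeZero K] (w : Pt n) (hw : flw f K w = w) (v : Fin K → Pt n) :
    hess (action S K) (oseq f K w) v = ∑ j : Fin K, loc (hs S f w j) (v j, v (j + 1)) := by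
  rw [Pool.Agent.H47.QG.hess_action S hS K]
  refine Finset.sum_congr rfl fun j _ => ?_
  rw [loc_apply, IterA_oseq f hw]
  rfl

/-- concatenation of `m` sequences of length `N` -/
def PerA_cat (n m N : ℕ) : (Fin m → Fin N → Pt n) ≃ₗ[ℝ] (Fin (m * N) → Pt n) where
  toFun Z k := Z (finProdFinEquiv.symm k).1 (finProdFinEquiv.symm k).2
  map_add' _ _ := rfl
  map_smul' _ _ := rfl
  invFun v i j := v (finProdFinEquiv (i, j))
  left_inv Z := by
    funext i j
    simp only [Equiv.symm_apply_apply]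
  right_inv v := by
    funext k
    exact congrArg v (finProdFinEquiv.apply_symm_apply k)

theorem PerA_cat_apply (m N : ℕ) (Z : Fin m → Fin N → Pt n) (i : Fin m) (j : Fin N) :
    PerA_cat n m N Z (finProdFinEquiv (i, j)) = Z i j := by
  show Z (finProdFinEquiv.symm (finProdFinEquiv (i, j))).1
    (finProdFinEquiv.symm (finProdFinEquiv (i, j))).2 = Z i j
  rw [Equiv.symm_apply_apply]

theorem PerA_next (m N : ℕ) [NeZero m] [NeZero N] [NeZero (m * N)] (Z : Fin m → Fin N → Pt n)
    (i : Fin m) (j : Fin N) :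
    PerA_cat n m N Z (finProdFinEquiv (i, j) + 1) = nxt j (Z i, Z (i + 1)) := by
  rw [nxt_apply]
  have hval : ((finProdFinEquiv (i, j) : Fin (m * N)) : ℕ) = j + N * i := rfl
  have hi := i.isLt
  have hN : 0 < N := Nat.pos_of_neZero N
  split_ifs with h
  · rw [← PerA_cat_apply m N Z i ⟨j + 1, h⟩]
    refine congrArg (PerA_cat n m N Z) (Fin.ext ?_)
    have hval2 : ((finProdFinEquiv (i, (⟨j + 1, h⟩ : Fin N)) : Fin (m * N)) : ℕ) =
        (j + 1) + N * i := rfl
    have hlt := (finProdFinEquiv (i, (⟨j + 1, h⟩ : Fin N)) : Fin (m * N)).isLt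
    rw [hval2] at hlt
    rcases IterA_succ (m * N) (finProdFinEquiv (i, j)) with ⟨-, h1⟩ | ⟨h1, -⟩
    · rw [h1, hval, hval2]
      omega
    · rw [hval] at h1
      omega
  · have hj : (j : ℕ) + 1 = N := by
      have := j.isLt
      omega
    rw [← PerA_cat_apply m N Z (i + 1) ⟨0, j.pos⟩]
    refine congrArg (PerA_cat n m N Z) (Fin.ext ?_)
    have hval2 : ((finProdFinEquiv (i + 1, (⟨0, j.pos⟩ : Fin N)) : Fin (m * N)) : ℕ) =
        0 + N * ((i + 1 : Fin m) : ℕ) := rfl
    rw [hval2]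
    have e1 : ((finProdFinEquiv (i, j) : Fin (m * N)) : ℕ) + 1 = N * (i + 1) := by
      rw [hval, Nat.mul_add]
      omega
    rcases IterA_succ m i with ⟨h2, h3⟩ | ⟨h2, h3⟩
    · rcases IterA_succ (m * N) (finProdFinEquiv (i, j)) with ⟨-, h1⟩ | ⟨h1, -⟩
      · rw [h1, e1, h3, zero_add]
      · rw [e1, Nat.mul_comm m N] at h1
        have := Nat.eq_of_mul_eq_mul_left hN h1
        omega
    · rcases IterA_succ (m * N) (finProdFinEquiv (i, j)) with ⟨h1, -⟩ | ⟨-, h1⟩
      · rw [e1, h2, Nat.mul_comm] at h1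
        exact absurd h1 (lt_irrefl _)
      · rw [h1, h3, Nat.mul_zero]

/-- the index of the `m`-fold iterate is the index of the cyclic form -/
theorem ind_eq_Gm (S : ℕ → Pt n → ℝ) (f : ℕ → Pt n → Pt n) (hS : ∀ j, ContDiff ℝ 2 (S j))
    (N : ℕ) [NeZero N] (hper : ∀ j, S (j + N) = S j) (hfper : ∀ j, f (j + N) = f j) (w : Pt n)
    (hw : flw f N w = w) (m : ℕ) [NeZero m] :
    ind S f (m * N) w = sigNeg (Gm (Gb fun j : Fin N => hs S f w j) m) := by
  have hmN : m * N ≠ 0 := Nat.mul_ne_zero (NeZero.ne m) (NeZero.ne N)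
  haveI : NeZero (m * N) := ⟨hmN⟩
  have h0 : ind S f (m * N) w = sigNeg (hess (action S (m * N)) (oseq f (m * N) w)) := by
    rw [ind, dif_neg hmN]
  have hw' : flw f (m * N) w = w := IterA_flw_mul f hfper hw m 0
  have heq : (hess (action S (m * N)) (oseq f (m * N) w)).comp
      (PerA_cat n m N).toLinearMap = Gm (Gb fun j : Fin N => hs S f w j) m := by
    ext Z
    show hess (action S (m * N)) (oseq f (m * N) w) (PerA_cat n m N Z) = _
    rw [hess_action S f hS (m * N) w hw', Gm_apply,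
      ← Equiv.sum_comp (finProdFinEquiv : Fin m × Fin N ≃ Fin (m * N)), Fintype.sum_prod_type]
    refine Finset.sum_congr rfl fun i _ => ?_
    rw [Gb_apply]
    refine Finset.sum_congr rfl fun j _ => ?_
    rw [PerA_cat_apply, PerA_next]
    congr 2
    have hval : ((finProdFinEquiv (i, j) : Fin (m * N)) : ℕ) = i * N + j := by
      show (j : ℕ) + N * i = i * N + j
      ring
    show hess (S _) ((flw f (_ + 1) w).1, (flw f _ w).2) = _
    rw [hval, IterA_S_mul S hper, add_assoc, IterA_flw_mul f hfper hw, IterA_flw_mul f hfper hw]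
    rfl
  rw [h0, ← heq]
  have h1 := sigNeg_comp_le (hess (action S (m * N)) (oseq f (m * N) w))
    (PerA_cat n m N).toLinearMap (PerA_cat n m N).injective
  have h2 := sigNeg_le_comp (hess (action S (m * N)) (oseq f (m * N) w))
    (PerA_cat n m N).toLinearMap (PerA_cat n m N).injective
  have h3 := (PerA_cat n m N).finrank_eq
  omega

theorem hInv_hs (S : ℕ → Pt n → ℝ) (f : ℕ → Pt n → Pt n) (hS : ∀ j, Gen (S j) (f j)) (w : Pt n)
    (j : ℕ) : HInv (hs S f w j) := by
  intro v hv
  refine (hS j).inv ((flw f (j + 1) w).1, (flw f j w).2) v fun i => ?_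
  have h1 := hv i
  have h2 : QuadraticMap.polar (hs S f w j) (v, 0) (0, Pi.single i 1) =
      2 * fderiv ℝ (fderiv ℝ (S j)) ((flw f (j + 1) w).1, (flw f j w).2) (v, 0)
        (0, Pi.single i 1) := by
    have h3 : QuadraticMap.polar (hs S f w j) (v, 0) (0, Pi.single i 1) =
        fderiv ℝ (fderiv ℝ (S j)) ((flw f (j + 1) w).1, (flw f j w).2) (v, 0)
          (0, Pi.single i 1) +
        fderiv ℝ (fderiv ℝ (S j)) ((flw f (j + 1) w).1, (flw f j w).2) (0, Pi.single i 1)
          (v, 0) := LinearMap.BilinMap.polar_toQuadraticMap _ _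
    rw [h3, iterN_sym (hS j).smooth _ (0, Pi.single i 1) (v, 0)]
    ring
  rw [h2] at h1
  linarith

end Pool.Agent.H47.OD
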