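import Pool.Agent.H47.OD.TwD

/-!
# Semicontinuity in the angle, crossing
-/

set_option autoImplicit false

open Module QuadraticForm

namespace Pool.Agent.H47.OD

variable {E : Type*} [NormedAddCommGroup E] [NormedSpace ℝ E] [FiniteDimensional ℝ E]

/-- a quadratic form on a finite dimensional normed space is locally Lipschitz -/
theorem TwS_lip {F : Type*} [NormedAddCommGroup F] [NormedSpace ℝ F] [FiniteDimensional ℝ F]
    (Q : QuadraticForm ℝ F) :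
    ∃ C : ℝ, 0 ≤ C ∧ ∀ x y : F, |Q x - Q y| ≤ C * ‖x - y‖ * (‖x‖ + ‖y‖) := by
  set B := (QuadraticMap.associated (R := ℝ) Q).toContinuousBilinearMap with hB
  have hQ : ∀ v, Q v = B v v := by
    intro v
    rw [hB, LinearMap.toContinuousBilinearMap_apply]
    exact (QuadraticMap.associated_eq_self_apply ℝ Q v).symm
  refine ⟨‖B‖, B.opNorm_nonneg, fun x y => ?_⟩
  have h1 : Q x - Q y = B (x - y) x + B y (x - y) := by
    rw [hQ, hQ, map_sub, map_sub]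
    simp only [ContinuousLinearMap.sub_apply]
    ring
  have h2 : |B (x - y) x| ≤ ‖B‖ * ‖x - y‖ * ‖x‖ := by
    rw [← Real.norm_eq_abs]
    exact B.le_opNorm₂ _ _
  have h3 : |B y (x - y)| ≤ ‖B‖ * ‖y‖ * ‖x - y‖ := by
    rw [← Real.norm_eq_abs]
    exact B.le_opNorm₂ _ _
  rw [h1]
  calc |B (x - y) x + B y (x - y)| ≤ |B (x - y) x| + |B y (x - y)| := abs_add_le _ _
    _ ≤ ‖B‖ * ‖x - y‖ * ‖x‖ + ‖B‖ * ‖y‖ * ‖x - y‖ := add_le_add h2 h3
    _ = ‖B‖ * ‖x - y‖ * (‖x‖ + ‖y‖) := by ring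

theorem TwS_comb (a b : E) (c s c₀ s₀ : ℝ) :
    ‖(c • a + s • b) - (c₀ • a + s₀ • b)‖ ≤ (|c - c₀| + |s - s₀|) * max ‖a‖ ‖b‖ := by
  have h1 : (c • a + s • b) - (c₀ • a + s₀ • b) = (c - c₀) • a + (s - s₀) • b := by
    rw [sub_smul, sub_smul]
    abel
  rw [h1]
  have h2 : ‖(c - c₀) • a‖ ≤ |c - c₀| * max ‖a‖ ‖b‖ := by
    rw [norm_smul, Real.norm_eq_abs]
    exact mul_le_mul_of_nonneg_left (le_max_left _ _) (abs_nonneg _)
  have h3 : ‖(s - s₀) • b‖ ≤ |s - s₀| * max ‖a‖ ‖b‖ := by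
    rw [norm_smul, Real.norm_eq_abs]
    exact mul_le_mul_of_nonneg_left (le_max_right _ _) (abs_nonneg _)
  calc ‖(c - c₀) • a + (s - s₀) • b‖ ≤ ‖(c - c₀) • a‖ + ‖(s - s₀) • b‖ := norm_add_le _ _
    _ ≤ |c - c₀| * max ‖a‖ ‖b‖ + |s - s₀| * max ‖a‖ ‖b‖ := add_le_add h2 h3
    _ = (|c - c₀| + |s - s₀|) * max ‖a‖ ‖b‖ := by ring

theorem TwS_comb' (a b : E) (c s : ℝ) (hc : |c| ≤ 1) (hs : |s| ≤ 1) :
    ‖c • a + s • b‖ ≤ 2 * max ‖a‖ ‖b‖ := by
  have h := TwS_comb a b c s 0 0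
  rw [zero_smul, zero_smul, add_zero, sub_zero, sub_zero, sub_zero] at h
  refine h.trans (mul_le_mul_of_nonneg_right (by linarith) ?_)
  exact (norm_nonneg a).trans (le_max_left _ _)

/-- one term of the twisted form is Lipschitz in the coefficients -/
theorem TwS_term (G : QuadraticForm ℝ (E × E)) (C : ℝ) (hC : 0 ≤ C)
    (hG : ∀ x y : E × E, |G x - G y| ≤ C * ‖x - y‖ * (‖x‖ + ‖y‖))
    (a b u : E) (hu : ‖u‖ ≤ max ‖a‖ ‖b‖) (c s c₀ s₀ t : ℝ) (hc : |c| ≤ 1) (hs : |s| ≤ 1)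
    (hc₀ : |c₀| ≤ 1) (hs₀ : |s₀| ≤ 1) (ht : |c - c₀| ≤ t) (ht' : |s - s₀| ≤ t) :
    |G (u, c • a + s • b) - G (u, c₀ • a + s₀ • b)| ≤ 8 * C * t * (max ‖a‖ ‖b‖) ^ 2 := by
  set m := max ‖a‖ ‖b‖ with hm
  have hm0 : 0 ≤ m := (norm_nonneg a).trans (le_max_left _ _)
  have h1 : ‖((u, c • a + s • b) : E × E) - (u, c₀ • a + s₀ • b)‖ ≤ 2 * t * m := by
    rw [Prod.mk_sub_mk, sub_self, Prod.norm_mk, norm_zero]
    apply max_le
    · have : 0 ≤ t := (abs_nonneg _).trans ht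
      positivity
    · refine (TwS_comb a b c s c₀ s₀).trans ?_
      exact mul_le_mul_of_nonneg_right (by linarith) hm0
  have h2 : ‖((u, c • a + s • b) : E × E)‖ ≤ 2 * m := by
    rw [Prod.norm_mk]
    exact max_le (by linarith) (TwS_comb' a b c s hc hs)
  have h3 : ‖((u, c₀ • a + s₀ • b) : E × E)‖ ≤ 2 * m := by
    rw [Prod.norm_mk]
    exact max_le (by linarith) (TwS_comb' a b c₀ s₀ hc₀ hs₀)
  refine (hG _ _).trans ?_
  calc C * ‖((u, c • a + s • b) : E × E) - (u, c₀ • a + s₀ • b)‖ *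
        (‖((u, c • a + s • b) : E × E)‖ + ‖((u, c₀ • a + s₀ • b) : E × E)‖)
      ≤ C * (2 * t * m) * (2 * m + 2 * m) := by
        apply mul_le_mul
        · exact mul_le_mul_of_nonneg_left h1 hC
        · linarith
        · positivity
        · have : 0 ≤ t := (abs_nonneg _).trans ht
          positivity
    _ = 8 * C * t * m ^ 2 := by ring

theorem Gth_semicont (G : QuadraticForm ℝ (E × E)) (θ₀ : ℝ) :
    ∃ η > 0, ∀ θ, |θ - θ₀| < η → sigNeg (Gth G θ₀) ≤ sigNeg (Gth G θ) ∧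
      sigPos (Gth G θ₀) ≤ sigPos (Gth G θ) := by
  obtain ⟨δ, hδ, h⟩ := QG.sigNeg_semicont (Gth G θ₀)
  obtain ⟨C, hC, hG⟩ := TwS_lip G
  refine ⟨δ / (16 * C + 1), by positivity, fun θ hθ => h _ ?_⟩
  rintro ⟨a, b⟩
  have hcos : |Real.cos θ - Real.cos θ₀| ≤ |θ - θ₀| := by
    have := Real.abs_cos_sub_cos_le θ θ₀
    exact this
  have hsin : |Real.sin θ - Real.sin θ₀| ≤ |θ - θ₀| := by
    have := Real.abs_sin_sub_sin_le θ θ₀
    exact this
  have hsin' : |(-Real.sin θ) - (-Real.sin θ₀)| ≤ |θ - θ₀| := by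
    have e : (-Real.sin θ) - (-Real.sin θ₀) = -(Real.sin θ - Real.sin θ₀) := by ring
    rw [e, abs_neg]
    exact hsin
  have hsn : ∀ x : ℝ, |-Real.sin x| ≤ 1 := fun x => by
    rw [abs_neg]; exact Real.abs_sin_le_one x
  have e1 : ∀ x : ℝ, Gth G x (a, b) = G (a, Real.cos x • a + (-Real.sin x) • b) +
      G (b, Real.sin x • a + Real.cos x • b) := by
    intro x
    rw [Gth_apply, neg_smul, ← sub_eq_add_neg]
  have t1 := TwS_term G C hC hG a b a (le_max_left _ _) (Real.cos θ) (-Real.sin θ)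
    (Real.cos θ₀) (-Real.sin θ₀) |θ - θ₀| (Real.abs_cos_le_one _) (hsn _) (Real.abs_cos_le_one _)
    (hsn _) hcos hsin'
  have t2 := TwS_term G C hC hG a b b (le_max_right _ _) (Real.sin θ) (Real.cos θ)
    (Real.sin θ₀) (Real.cos θ₀) |θ - θ₀| (Real.abs_sin_le_one _) (Real.abs_cos_le_one _)
    (Real.abs_sin_le_one _) (Real.abs_cos_le_one _) hsin hcos
  rw [e1, e1]
  have hn : ‖((a, b) : E × E)‖ = max ‖a‖ ‖b‖ := Prod.norm_mk a b
  rw [hn]
  set m := max ‖a‖ ‖b‖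
  have h5 : |θ - θ₀| * (16 * C + 1) ≤ δ := by
    have := (lt_div_iff₀ (by positivity : (0 : ℝ) < 16 * C + 1)).1 hθ
    exact this.le
  have h6 : 16 * C * |θ - θ₀| ≤ δ := by
    have := abs_nonneg (θ - θ₀)
    linarith
  have h7 : (16 * C * |θ - θ₀|) * m ^ 2 ≤ δ * m ^ 2 :=
    mul_le_mul_of_nonneg_right h6 (by positivity)
  have h8 := abs_le.1 t1
  have h9 := abs_le.1 t2
  rw [abs_le]
  constructor <;> linarith [h8.1, h8.2, h9.1, h9.2]

theorem sigNeg_mono {V : Type*} [AddCommGroup V] [Module ℝ V] [FiniteDimensional ℝ V]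
    (Q Q' : QuadraticForm ℝ V) (h : ∀ v, Q' v ≤ Q v) : sigNeg Q ≤ sigNeg Q' := by
  obtain ⟨W, hW, hd⟩ := QG.exists_sigNeg Q
  rw [← hW]
  exact QG.le_sigNeg Q' W fun v hv hne => (h v).trans_lt (hd v hv hne)

/-- crossing: `ind Q' ≥ ind Q + null Q` -/
theorem cross {V : Type*} [AddCommGroup V] [Module ℝ V] [FiniteDimensional ℝ V]
    (Q Q' : QuadraticForm ℝ V) (hle : ∀ v, Q' v ≤ Q v)
    (hs : ∀ v ∈ Q.radical, v ≠ 0 → Q' v < 0) : finrank ℝ V ≤ sigPos Q + sigNeg Q' := by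
  obtain ⟨N, hN, hd⟩ := QG.exists_sigNeg Q
  have hdis : N ⊓ Q.radical = ⊥ := by
    rw [eq_bot_iff]
    rintro v ⟨hv, hv'⟩
    rw [Submodule.mem_bot]
    by_contra hne
    have h1 := hd v hv hne
    have h2 := (QuadraticMap.mem_radical_iff'.1 hv').1
    linarith
  have h1 : finrank ℝ (N ⊔ Q.radical : Submodule ℝ V) ≤ sigNeg Q' := by
    apply QG.le_sigNeg
    intro v hv hne
    obtain ⟨a, ha, k, hk, rfl⟩ := Submodule.mem_sup.1 hv
    by_cases h0 : a = 0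
    · rw [h0, zero_add]
      rw [h0, zero_add] at hne
      exact hs k hk hne
    · have h2 := (QuadraticMap.mem_radical_iff'.1 hk).2 a
      have h3 : Q (a + k) = Q a := by rw [add_comm]; exact h2
      have h4 := hle (a + k)
      have h5 := hd a ha h0
      linarith
  have h2 := Submodule.finrank_sup_add_finrank_inf_eq N Q.radical
  rw [hdis, finrank_bot] at h2
  have h3 := QuadraticForm.sigPos_add_sigNeg_add_radical (Q := Q)
  omega

theorem TwS_zero (G : QuadraticForm ℝ (E × E)) : sigNeg (Gth G 0) = 2 * sigNeg (Gm G 1) := by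
  set Q₀ : QuadraticForm ℝ E := G.comp (LinearMap.id.prod LinearMap.id) with hQ₀
  have hq : ∀ a, Q₀ a = G (a, a) := fun a => rfl
  have h1 : Gth G 0 = QuadraticMap.prod Q₀ Q₀ := by
    ext ⟨a, b⟩
    rw [Gth_apply, QuadraticMap.prod_apply, hq, hq, Real.cos_zero, Real.sin_zero, one_smul,
      one_smul, zero_smul, zero_smul, sub_zero, zero_add]
  have h2 : Gm G 1 = Q₀.comp (LinearMap.proj 0 : (Fin 1 → E) →ₗ[ℝ] E) := by
    ext z
    rw [Gm_apply, QuadraticMap.comp_apply, hq]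
    simp
  have h3 : Q₀ = (Gm G 1).comp (LinearMap.pi fun _ : Fin 1 => (LinearMap.id : E →ₗ[ℝ] E)) := by
    ext a
    show G (a, a) = Gm G 1 (fun _ => a)
    rw [Gm_apply]
    simp
  have h4 : sigNeg (Gm G 1) = sigNeg Q₀ := by
    apply le_antisymm
    · rw [h2]
      apply QG.sigNeg_comp_le
      intro x y hxy
      funext i
      have hi : i = 0 := Subsingleton.elim _ _
      rw [hi]
      exact hxy
    · conv_lhs => rw [h3]
      apply QG.sigNeg_comp_le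
      intro x y hxy
      exact congrFun hxy 0
  rw [h1, QG.sigNeg_prod, h4]
  ring

/-- if all twisted forms are nondegenerate, their index is constant -/
theorem Gth_const (G : QuadraticForm ℝ (E × E))
    (h : ∀ θ, sigNeg (Gth G θ) + sigPos (Gth G θ) = finrank ℝ (E × E)) (θ : ℝ) :
    sigNeg (Gth G θ) = 2 * sigNeg (Gm G 1) := by
  have hl : IsLocallyConstant fun θ : ℝ => sigNeg (Gth G θ) := by
    rw [IsLocallyConstant.iff_eventually_eq]
    intro θ₀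
    obtain ⟨η, hη, hθ⟩ := Gth_semicont G θ₀
    filter_upwards [Metric.ball_mem_nhds θ₀ hη] with θ hθ'
    rw [Metric.mem_ball, Real.dist_eq] at hθ'
    have h1 := hθ θ hθ'
    have h2 := h θ
    have h3 := h θ₀
    omega
  rw [← TwS_zero]
  exact hl.apply_eq_of_preconnectedSpace θ 0

end Pool.Agent.H47.OD
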