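import Pool.Agent.H47.OD.TwF
import Pool.Agent.H47.OD.TwS

/-!
# The locking lemma
-/

set_option autoImplicit false

open Module QuadraticForm Filter Topology

namespace Pool.Agent.H47.OD

variable {E : Type*} [NormedAddCommGroup E] [NormedSpace ℝ E] [FiniteDimensional ℝ E]

theorem TwL_per (G : QuadraticForm ℝ (E × E)) (θ : ℝ) (n : ℤ) :
    Gth G (θ - n * (2 * Real.pi)) = Gth G θ := by
  ext ⟨a, b⟩
  rw [Gth_apply, Gth_apply, Real.cos_sub_int_mul_two_pi, Real.sin_sub_int_mul_two_pi]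

theorem TwL_mono (G G' : QuadraticForm ℝ (E × E)) (hle : ∀ z, G' z ≤ G z) (θ : ℝ) (v : E × E) :
    Gth G' θ v ≤ Gth G θ v := by
  obtain ⟨a, b⟩ := v
  rw [Gth_apply, Gth_apply]
  exact add_le_add (hle _) (hle _)

theorem TwL_monoGm (G G' : QuadraticForm ℝ (E × E)) (hle : ∀ z, G' z ≤ G z) (m : ℕ) [NeZero m]
    (v : Fin m → E) : Gm G' m v ≤ Gm G m v := by
  rw [Gm_apply, Gm_apply]
  exact Finset.sum_le_sum fun i _ => hle _

theorem TwL_sum (f g : ℕ → ℕ) (N a b : ℕ) (hb : b ≤ N) (h1 : ∀ k, f k ≤ g k)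
    (h2 : ∀ k, a ≤ k → k < b → f k + 1 ≤ g k) :
    ∑ k ∈ Finset.range N, f k + (b - a) ≤ ∑ k ∈ Finset.range N, g k := by
  have h3 : ∑ k ∈ Finset.range N, (if k ∈ Finset.Ico a b then 1 else 0) = b - a := by
    rw [← Finset.sum_filter, Finset.sum_const, smul_eq_mul, mul_one]
    have h4 : (Finset.range N).filter (fun k => k ∈ Finset.Ico a b) = Finset.Ico a b := by
      ext k
      rw [Finset.mem_filter, Finset.mem_range, Finset.mem_Ico]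
      omega
    rw [h4, Nat.card_Ico]
  rw [← h3, ← Finset.sum_add_distrib]
  apply Finset.sum_le_sum
  intro k _
  split_ifs with h
  · rw [Finset.mem_Ico] at h
    exact h2 k h.1 h.2
  · exact h1 k

/-- a strict drop at one angle gives linear growth of the difference of the indices -/
theorem gap_growth (G G' : QuadraticForm ℝ (E × E)) (hle : ∀ z, G' z ≤ G z) (θ₀ : ℝ)
    (h : finrank ℝ (E × E) < sigPos (Gth G θ₀) + sigNeg (Gth G' θ₀)) :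
    ∃ c > 0, ∃ m₀ : ℕ, ∀ m ≥ m₀, (sigNeg (Gm G (m + 1)) : ℝ) + c * (m + 1) ≤
      sigNeg (Gm G' (m + 1)) := by
  have hpi := Real.pi_pos
  obtain ⟨θ₁, hθ0, hθ1, hG, hG'⟩ : ∃ θ₁ : ℝ, 0 ≤ θ₁ ∧ θ₁ < 2 * Real.pi ∧
      Gth G θ₁ = Gth G θ₀ ∧ Gth G' θ₁ = Gth G' θ₀ := by
    refine ⟨θ₀ - ⌊θ₀ / (2 * Real.pi)⌋ * (2 * Real.pi), ?_, ?_, TwL_per _ _ _, TwL_per _ _ _⟩
    · have h1 := Int.floor_le (θ₀ / (2 * Real.pi))
      rw [le_div_iff₀ (by positivity)] at h1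
      linarith
    · have h1 := Int.lt_floor_add_one (θ₀ / (2 * Real.pi))
      rw [div_lt_iff₀ (by positivity)] at h1
      linarith
  rw [← hG, ← hG'] at h
  obtain ⟨η₁, hη₁, h1⟩ := Gth_semicont G θ₁
  obtain ⟨η₂, hη₂, h2⟩ := Gth_semicont G' θ₁
  obtain ⟨η, hη, hη1, hη2, hη3⟩ : ∃ η : ℝ, 0 < η ∧ η ≤ η₁ ∧ η ≤ η₂ ∧ θ₁ + η ≤ 2 * Real.pi := by
    refine ⟨min (min η₁ η₂) (2 * Real.pi - θ₁), lt_min (lt_min hη₁ hη₂) (by linarith), ?_, ?_, ?_⟩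
    · exact (min_le_left _ _).trans (min_le_left _ _)
    · exact (min_le_left _ _).trans (min_le_right _ _)
    · have := min_le_right (min η₁ η₂) (2 * Real.pi - θ₁)
      linarith
  have h3 : ∀ θ, θ₁ ≤ θ → θ < θ₁ + η → sigNeg (Gth G θ) + 1 ≤ sigNeg (Gth G' θ) := by
    intro θ ha hb
    have h4 : |θ - θ₁| < η := by
      rw [abs_of_nonneg (by linarith)]
      linarith
    have h5 := (h1 θ (by linarith)).2
    have h6 := (h2 θ (by linarith)).1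
    have h7 := QuadraticForm.sigPos_add_sigNeg_add_radical (Q := Gth G θ)
    omega
  have h4 : ∀ θ, sigNeg (Gth G θ) ≤ sigNeg (Gth G' θ) := fun θ =>
    sigNeg_mono _ _ (TwL_mono G G' hle θ)
  refine ⟨η / (8 * Real.pi), by positivity, ⌈4 * Real.pi / η⌉₊, fun m hm => ?_⟩
  have hm1 : 4 * Real.pi / η ≤ (m : ℝ) := (Nat.le_ceil _).trans (by exact_mod_cast hm)
  have hm2 : 4 * Real.pi ≤ (m + 1) * η := by
    rw [div_le_iff₀ hη] at hm1
    nlinarith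
  set M : ℝ := (m : ℝ) + 1 with hM
  have hM0 : 0 < M := by positivity
  have f1 := fourier G (m + 1)
  have f2 := fourier G' (m + 1)
  rw [Fin.sum_univ_eq_sum_range
    (fun k => sigNeg (Gth G (2 * Real.pi * (k : ℕ) / (m + 1 : ℕ)))) (m + 1)] at f1
  rw [Fin.sum_univ_eq_sum_range
    (fun k => sigNeg (Gth G' (2 * Real.pi * (k : ℕ) / (m + 1 : ℕ)))) (m + 1)] at f2
  set a : ℝ := θ₁ * M / (2 * Real.pi) with ha
  set b : ℝ := (θ₁ + η) * M / (2 * Real.pi) with hb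
  have ha0 : 0 ≤ a := by positivity
  have hbM : b ≤ M := by
    rw [hb, div_le_iff₀ (by positivity)]
    nlinarith
  have h5 := TwL_sum (fun k => sigNeg (Gth G (2 * Real.pi * (k : ℕ) / (m + 1 : ℕ))))
    (fun k => sigNeg (Gth G' (2 * Real.pi * (k : ℕ) / (m + 1 : ℕ)))) (m + 1) ⌈a⌉₊ ⌈b⌉₊
    (Nat.ceil_le.2 (by push_cast; exact hbM)) (fun k => h4 _) (fun k hk1 hk2 => by
      apply h3
      · have h6 : a ≤ k := Nat.ceil_le.1 hk1
        rw [ha, div_le_iff₀ (by positivity)] at h6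
        push_cast
        rw [← hM, le_div_iff₀ hM0]
        linarith
      · have h6 : (k : ℝ) < b := Nat.lt_ceil.1 hk2
        rw [hb, lt_div_iff₀ (by positivity)] at h6
        push_cast
        rw [← hM, div_lt_iff₀ hM0]
        linarith)
  rw [← f1, ← f2] at h5
  have h6 : (2 * (sigNeg (Gm G (m + 1)) : ℝ)) + ((⌈b⌉₊ - ⌈a⌉₊ : ℕ) : ℝ) ≤
      2 * (sigNeg (Gm G' (m + 1)) : ℝ) := by
    exact_mod_cast h5
  have h7 : b - a - 1 ≤ ((⌈b⌉₊ - ⌈a⌉₊ : ℕ) : ℝ) := by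
    have h8 : (⌈b⌉₊ : ℝ) ≤ ((⌈b⌉₊ - ⌈a⌉₊ : ℕ) : ℝ) + (⌈a⌉₊ : ℝ) := by
      exact_mod_cast (by omega : ⌈b⌉₊ ≤ (⌈b⌉₊ - ⌈a⌉₊) + ⌈a⌉₊)
    have h9 := Nat.le_ceil b
    have h10 := Nat.ceil_lt_add_one ha0
    linarith
  have h8 : b - a = 4 * (η / (8 * Real.pi) * M) := by
    rw [hb, ha]
    field_simp
    ring
  have h9 : 1 ≤ 2 * (η / (8 * Real.pi) * M) := by
    have h10 : 2 * (η / (8 * Real.pi) * M) = (M * η) / (4 * Real.pi) := by
      field_simp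
      ring
    rw [h10, le_div_iff₀ (by positivity)]
    linarith
  linarith

/-- **The locking lemma.** -/
theorem lock (G₁ G₀ G₂ : QuadraticForm ℝ (E × E)) (h1 : ∀ z, G₀ z ≤ G₁ z) (h2 : ∀ z, G₂ z ≤ G₀ z)
    (hs1 : ∀ θ, ∀ u ∈ (Gth G₁ θ).radical, u ≠ 0 → Gth G₀ θ u < 0)
    (hs2 : ∀ θ, ∀ u ∈ (Gth G₀ θ).radical, u ≠ 0 → Gth G₂ θ u < 0) (D : ℝ)
    (hD1 : Tendsto (fun m : ℕ => (sigNeg (Gm G₁ (m + 1)) : ℝ) / (m + 1)) atTop (𝓝 D))
    (hD2 : Tendsto (fun m : ℕ => (sigNeg (Gm G₂ (m + 1)) : ℝ) / (m + 1)) atTop (𝓝 D)) :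
    (sigNeg (Gm G₀ 1) : ℝ) = D := by
  have h3 : ∀ θ, sigNeg (Gth G₀ θ) + sigPos (Gth G₀ θ) = finrank ℝ (E × E) := by
    intro θ
    by_contra hne
    have h4 := cross _ _ (TwL_mono G₁ G₀ h1 θ) (hs1 θ)
    have h5 := cross _ _ (TwL_mono G₀ G₂ h2 θ) (hs2 θ)
    have h6 := QuadraticForm.sigPos_add_sigNeg_add_radical (Q := Gth G₀ θ)
    obtain ⟨c, hc, m₀, hm⟩ := gap_growth G₁ G₂ (fun z => (h2 z).trans (h1 z)) θ (by omega)
    have h7 : D + c ≤ D := by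
      refine le_of_tendsto_of_tendsto (hD1.add_const c) hD2 ?_
      filter_upwards [eventually_ge_atTop m₀] with m hm'
      have h8 := hm m hm'
      have h9 : (0 : ℝ) < m + 1 := by positivity
      rw [le_div_iff₀ h9, add_mul, div_mul_cancel₀ _ h9.ne']
      exact h8
    linarith
  have h4 : ∀ m : ℕ, (sigNeg (Gm G₀ (m + 1)) : ℝ) = sigNeg (Gm G₀ 1) * (m + 1) := by
    intro m
    have h5 := fourier G₀ (m + 1)
    rw [Finset.sum_congr rfl fun k _ => Gth_const G₀ h3 _, Finset.sum_const, Finset.card_univ,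
      Fintype.card_fin, smul_eq_mul] at h5
    have h6 : sigNeg (Gm G₀ (m + 1)) = sigNeg (Gm G₀ 1) * (m + 1) := by
      have h7 : 2 * sigNeg (Gm G₀ (m + 1)) = 2 * (sigNeg (Gm G₀ 1) * (m + 1)) := by
        rw [h5]
        ring
      omega
    rw [h6]
    push_cast
    ring
  apply le_antisymm
  · refine ge_of_tendsto hD2 (Eventually.of_forall fun m => ?_)
    have h9 : (0 : ℝ) < m + 1 := by positivity
    rw [le_div_iff₀ h9, ← h4]
    exact_mod_cast sigNeg_mono _ _ (TwL_monoGm G₀ G₂ h2 (m + 1))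
  · refine le_of_tendsto hD1 (Eventually.of_forall fun m => ?_)
    have h9 : (0 : ℝ) < m + 1 := by positivity
    rw [div_le_iff₀ h9, ← h4]
    exact_mod_cast sigNeg_mono _ _ (TwL_monoGm G₁ G₀ h1 (m + 1))

end Pool.Agent.H47.OD
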