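import Pool.Agent.H47.OD.PerO
import Pool.Agent.H47.OD.TwL

/-!
# The locking lemma for the perturbation of one block
-/

set_option autoImplicit false

open Module QuadraticForm Filter Topology

namespace Pool.Agent.H47.OD

open Pool.Agent.H47.QG

variable {n N : ℕ}

/-- if the perturbations of the block `j₀` by a negative definite and by a positive definite form
give the same mean index `D`, then the index is `D` -/
theorem lock_block (h : Fin N → QuadraticForm ℝ (Pt n)) (j₀ : Fin N)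
    (q₁ q₂ : QuadraticForm ℝ (Pt n)) (hinv : ∀ j, HInv (h j)) (hinv1 : HInv (h j₀ + q₁))
    (hq1 : ∀ v, v ≠ 0 → q₁ v < 0) (hq2 : ∀ v, v ≠ 0 → 0 < q₂ v) (D : ℝ)
    (hD1 : Tendsto (fun m : ℕ => (sigNeg (Gm (Gb (Function.update h j₀ (h j₀ + q₁))) (m + 1)) : ℝ)
      / (m + 1)) atTop (𝓝 D))
    (hD2 : Tendsto (fun m : ℕ => (sigNeg (Gm (Gb (Function.update h j₀ (h j₀ + q₂))) (m + 1)) : ℝ)
      / (m + 1)) atTop (𝓝 D)) :
    (sigNeg (Gm (Gb h) 1) : ℝ) = D := by
  have h1 : ∀ v, q₁ v ≤ 0 := fun v => by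
    by_cases hv : v = 0
    · rw [hv, QuadraticMap.map_zero]
    · exact (hq1 v hv).le
  have h2 : ∀ v, 0 ≤ q₂ v := fun v => by
    by_cases hv : v = 0
    · rw [hv, QuadraticMap.map_zero]
    · exact (hq2 v hv).le
  have hth : ∀ (q : QuadraticForm ℝ (Pt n)) (θ : ℝ) (u : (Fin N → Pt n) × (Fin N → Pt n)),
      Gth (Gb (Function.update h j₀ (h j₀ + q))) θ u = Gth (Gb h) θ u -
        (q (blk j₀ (u.1, (rot θ u).1)) + q (blk j₀ (u.2, (rot θ u).2))) := by
    rintro q θ ⟨a, b⟩
    rw [Gth_apply, Gth_apply, Gb_update, Gb_update]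
    simp only [rot_apply]
    ring
  have hinv' : ∀ j, HInv (Function.update h j₀ (h j₀ + q₁) j) := by
    intro j
    by_cases hj : j = j₀
    · subst hj
      rw [Function.update_self]
      exact hinv1
    · rw [Function.update_of_ne hj]
      exact hinv j
  refine lock (Gb (Function.update h j₀ (h j₀ + q₁))) (Gb h)
    (Gb (Function.update h j₀ (h j₀ + q₂))) (fun z => ?_) (fun z => ?_) (fun θ u hu hu0 => ?_)
    (fun θ u hu hu0 => ?_) D hD1 hD2
  · rw [Gb_update]
    have := h1 (blk j₀ z)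
    linarith
  · rw [Gb_update]
    have := h2 (blk j₀ z)
    linarith
  · have h3 := hth q₁ θ u
    have h4 : Gth (Gb (Function.update h j₀ (h j₀ + q₁))) θ u = 0 :=
      (QuadraticMap.mem_radical_iff'.1 hu).1
    by_contra hc
    rw [not_lt] at hc
    have h5 := h1 (blk j₀ (u.1, (rot θ u).1))
    have h6 := h1 (blk j₀ (u.2, (rot θ u).2))
    have h7 : q₁ (blk j₀ (u.1, (rot θ u).1)) = 0 := by linarith
    have h8 : q₁ (blk j₀ (u.2, (rot θ u).2)) = 0 := by linarith
    refine hu0 (obs _ hinv' θ u hu j₀ ?_ ?_)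
    · by_contra h9
      exact (hq1 _ h9).ne h7
    · by_contra h9
      exact (hq1 _ h9).ne h8
  · have h3 := hth q₂ θ u
    have h4 : Gth (Gb h) θ u = 0 := (QuadraticMap.mem_radical_iff'.1 hu).1
    by_contra hc
    rw [not_lt] at hc
    have h5 := h2 (blk j₀ (u.1, (rot θ u).1))
    have h6 := h2 (blk j₀ (u.2, (rot θ u).2))
    have h7 : q₂ (blk j₀ (u.1, (rot θ u).1)) = 0 := by linarith
    have h8 : q₂ (blk j₀ (u.2, (rot θ u).2)) = 0 := by linarith
    refine hu0 (obs _ hinv θ u hu j₀ ?_ ?_)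
    · by_contra h9
      exact (hq2 _ h9).ne' h7
    · by_contra h9
      exact (hq2 _ h9).ne' h8

end Pool.Agent.H47.OD
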