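import Pool.Agent.H47.OD.Sy
import Pool.Agent.H47.OD.PerA
import Pool.Agent.H47.OD.PerL

/-!
# The locking lemma for systems
-/

set_option autoImplicit false

open Module QuadraticForm Filter Topology

namespace Pool.Agent.H47.OD

open Pool.Agent.H47.QG

variable {n : ℕ}

/-- the index only depends on the Hessians of the generating functions along the orbit -/
theorem ind_congr {N : ℕ} {S S' : ℕ → Pt n → ℝ} {ψ ψ' : ℕ → Pt n → Pt n} (h : Sy N S ψ)
    (h' : Sy N S' ψ') (w w' : Pt n) (hw : flw ψ N w = w) (hw' : flw ψ' N w' = w')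
    (hh : ∀ j < N, hs S ψ w j = hs S' ψ' w' j) (M : ℕ) (hM : 0 < M) :
    ind S ψ (M * N) w = ind S' ψ' (M * N) w' := by
  have : NeZero N := ⟨h.pos.ne'⟩
  have : NeZero M := ⟨hM.ne'⟩
  rw [ind_eq_Gm S ψ (fun j => (h.gen j).smooth) N h.perS h.perψ w hw M,
    ind_eq_Gm S' ψ' (fun j => (h'.gen j).smooth) N h'.perS h'.perψ w' hw' M]
  congr 3
  funext j
  exact hh j j.2

theorem mean_congr {N : ℕ} {S S' : ℕ → Pt n → ℝ} {ψ ψ' : ℕ → Pt n → Pt n} (h : Sy N S ψ)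
    (h' : Sy N S' ψ') (w w' : Pt n) (hw : flw ψ N w = w) (hw' : flw ψ' N w' = w')
    (hh : ∀ j < N, hs S ψ w j = hs S' ψ' w' j) (t : ℝ) :
    MeanIdx S ψ N w t ↔ MeanIdx S' ψ' N w' t := by
  unfold MeanIdx
  refine tendsto_congr' ?_
  filter_upwards [eventually_gt_atTop 0] with m hm
  rw [ind_congr h h' w w' hw hw' hh m hm]

theorem Lk_flw_le {N : ℕ} (ψ : ℕ → Pt n → Pt n) (α : Pt n → Pt n) (w : Pt n) {j : ℕ}
    (hj : j ≤ N) : flw (snoc (N + 1) (snoc N ψ α) id) j w = flw ψ j w := by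
  rw [flw_snoc_le (N + 1) (snoc N ψ α) id (by omega : j ≤ N + 1), flw_snoc_le N ψ α hj]

theorem Lk_flw_one {N : ℕ} (ψ : ℕ → Pt n → Pt n) (α : Pt n → Pt n) (w : Pt n)
    (hw : flw ψ N w = w) (hα : α w = w) :
    flw (snoc (N + 1) (snoc N ψ α) id) (N + 1) w = w := by
  rw [flw_snoc_le (N + 1) (snoc N ψ α) id le_rfl, flw_snoc, hw, hα]

theorem Lk_flw_two {N : ℕ} (ψ : ℕ → Pt n → Pt n) (α : Pt n → Pt n) (w : Pt n)
    (hw : flw ψ N w = w) (hα : α w = w) :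
    flw (snoc (N + 1) (snoc N ψ α) id) (N + 2) w = w := by
  have h := flw_snoc (N + 1) (snoc N ψ α) id w
  have h2 : flw (snoc N ψ α) (N + 1) w = w := by rw [flw_snoc, hw, hα]
  rw [h2] at h
  exact h

theorem Lk_hess_zero (z : Pt n) : hess (fun _ : Pt n => (0 : ℝ)) z = 0 := by
  ext v
  rw [hess_apply]
  simp

/-- the Hessians along the orbit of `w` in the system with the block `(a, α)` -/
theorem Lk_hs {N : ℕ} (S : ℕ → Pt n → ℝ) (ψ : ℕ → Pt n → Pt n) (w : Pt n)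
    (hw : flw ψ N w = w) (a : Pt n → ℝ) (α : Pt n → Pt n) (hα : α w = w) (j : ℕ)
    (hj : j < N + 2) :
    hs (snoc (N + 1) (snoc N S a) fun _ => 0) (snoc (N + 1) (snoc N ψ α) id) w j =
      if j < N then hs S ψ w j else if j = N then hess a w else 0 := by
  unfold hs
  by_cases h1 : j < N
  · rw [if_pos h1, snoc_lt (N + 1) _ _ (by omega : j < N + 1), snoc_lt N S a h1,
      Lk_flw_le ψ α w (by omega : j + 1 ≤ N), Lk_flw_le ψ α w (by omega : j ≤ N)]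
  · rw [if_neg h1]
    by_cases h2 : j = N
    · subst h2
      rw [if_pos rfl, snoc_lt (j + 1) _ _ (by omega : j < j + 1), snoc_last,
        Lk_flw_one ψ α w hw hα, Lk_flw_le ψ α w le_rfl, hw]
    · have h3 : j = N + 1 := by omega
      subst h3
      rw [if_neg h2, snoc_last, Lk_hess_zero]

/-- the mean index as the growth of the index of the cyclic form -/
theorem Lk_mean {N : ℕ} {S : ℕ → Pt n → ℝ} {ψ : ℕ → Pt n → Pt n} (h : Sy N S ψ) (w : Pt n)
    (hw : flw ψ N w = w) (t : ℝ) (ht : MeanIdx S ψ N w t) :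
    Tendsto (fun m : ℕ => (sigNeg (Gm (Gb fun j : Fin N => hs S ψ w j) (m + 1)) : ℝ) / (m + 1))
      atTop (𝓝 (t + n * N)) := by
  have : NeZero N := ⟨h.pos.ne'⟩
  have h1 := ht.comp (tendsto_add_atTop_nat 1)
  refine h1.congr fun m => ?_
  simp only [Function.comp_apply]
  rw [ind_eq_Gm S ψ (fun j => (h.gen j).smooth) N h.perS h.perψ w hw (m + 1)]
  push_cast
  rfl

/-- if inserting a negative and a positive definite block at `w` does not change the mean index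
`t`, then the index of `w` is `t + n N` -/
theorem lock_sys {N : ℕ} {S : ℕ → Pt n → ℝ} {ψ : ℕ → Pt n → Pt n} (h : Sy N S ψ) (w : Pt n)
    (hw : flw ψ N w = w) {a₁ a₂ : Pt n → ℝ} {α₁ α₂ : Pt n → Pt n} (h1 : Gen a₁ α₁)
    (h2 : Gen a₂ α₂) (hw1 : α₁ w = w) (hw2 : α₂ w = w) (hq1 : ∀ v, v ≠ 0 → hess a₁ w v < 0)
    (hq2 : ∀ v, v ≠ 0 → 0 < hess a₂ w v) (t : ℝ)
    (ht1 : MeanIdx (snoc (N + 1) (snoc N S a₁) fun _ => 0) (snoc (N + 1) (snoc N ψ α₁) id)
      (N + 2) w t)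
    (ht2 : MeanIdx (snoc (N + 1) (snoc N S a₂) fun _ => 0) (snoc (N + 1) (snoc N ψ α₂) id)
      (N + 2) w t) :
    (ind (snoc (N + 1) (snoc N S fun _ => 0) fun _ => 0) (snoc (N + 1) (snoc N ψ id) id)
      (N + 2) w : ℝ) = t + n * ((N + 2 : ℕ) : ℝ) := by
  have hB : Sy (N + 2) (snoc (N + 1) (snoc N S fun _ => 0) fun _ => 0)
      (snoc (N + 1) (snoc N ψ id) id) := (h.snoc gen_zero).snoc gen_zero
  have hA1 : Sy (N + 2) (snoc (N + 1) (snoc N S a₁) fun _ => 0)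
      (snoc (N + 1) (snoc N ψ α₁) id) := (h.snoc h1).snoc gen_zero
  have hA2 : Sy (N + 2) (snoc (N + 1) (snoc N S a₂) fun _ => 0)
      (snoc (N + 1) (snoc N ψ α₂) id) := (h.snoc h2).snoc gen_zero
  have hwB := Lk_flw_two ψ id w hw rfl
  have hwA1 := Lk_flw_two ψ α₁ w hw hw1
  have hwA2 := Lk_flw_two ψ α₂ w hw hw2
  let hb : Fin (N + 2) → QuadraticForm ℝ (Pt n) := fun j =>
    hs (snoc (N + 1) (snoc N S fun _ => 0) fun _ => 0) (snoc (N + 1) (snoc N ψ id) id) w j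
  let j₀ : Fin (N + 2) := ⟨N, by omega⟩
  have hup : ∀ (a : Pt n → ℝ) (α : Pt n → Pt n) (hα : α w = w), (fun j : Fin (N + 2) =>
      hs (snoc (N + 1) (snoc N S a) fun _ => 0) (snoc (N + 1) (snoc N ψ α) id) w j) =
      Function.update hb j₀ (hb j₀ + hess a w) := by
    intro a α hα
    funext j
    rw [Lk_hs S ψ w hw a α hα j j.2]
    by_cases h3 : j = j₀
    · subst h3
      rw [Function.update_self]
      simp only [hb]
      rw [Lk_hs S ψ w hw (fun _ => 0) id rfl (j₀ : ℕ) j₀.2, Lk_hess_zero]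
      simp [j₀]
    · rw [Function.update_of_ne h3]
      simp only [hb]
      rw [Lk_hs S ψ w hw (fun _ => 0) id rfl (j : ℕ) j.2]
      have h4 : (j : ℕ) ≠ N := fun h5 => h3 (Fin.ext h5)
      rw [if_neg h4, if_neg h4]
  have hD1 := Lk_mean hA1 w hwA1 t ht1
  have hD2 := Lk_mean hA2 w hwA2 t ht2
  rw [hup a₁ α₁ hw1] at hD1
  rw [hup a₂ α₂ hw2] at hD2
  have key := lock_block hb j₀ (hess a₁ w) (hess a₂ w) (fun j => hInv_hs _ _ hB.gen w j) ?_ hq1 hq2
    (t + n * ((N + 2 : ℕ) : ℝ)) hD1 hD2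
  · rw [← key]
    have : NeZero (N + 2) := ⟨by omega⟩
    have h5 := ind_eq_Gm _ _ (fun j => (hB.gen j).smooth) (N + 2) hB.perS hB.perψ w hwB 1
    rw [one_mul] at h5
    rw [h5]
  · have h6 := congrFun (hup a₁ α₁ hw1) j₀
    rw [Function.update_self] at h6
    rw [← h6]
    exact hInv_hs _ _ hA1.gen w _

end Pool.Agent.H47.OD
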