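import Pool.Agent.H47.OD.Sy

/-!
# Continuity of the index and of the mean index
-/

set_option autoImplicit false

open Module QuadraticForm Filter Topology

namespace Pool.Agent.H47.OD

open Pool.Agent.H47.QG

variable {n : ℕ}

/-- closeness of two systems and of two of their orbits -/
structure Close (N : ℕ) (S : ℕ → Pt n → ℝ) (ψ : ℕ → Pt n → Pt n) (w : Pt n) (S' : ℕ → Pt n → ℝ)
    (ψ' : ℕ → Pt n → Pt n) (w' : Pt n) (η : ℝ) : Prop where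
  hess : ∀ j < N, ∀ p,
    ‖fderiv ℝ (fderiv ℝ (S' j)) p - fderiv ℝ (fderiv ℝ (S j)) p‖ ≤ η
  pos : ∀ j ≤ N, ‖flw ψ' j w' - flw ψ j w‖ ≤ η

/-- the second derivative of a `C²` function is continuous -/
theorem Nr_cont {g : Pt n → ℝ} (hg : ContDiff ℝ 2 g) :
    Continuous fun p => fderiv ℝ (fderiv ℝ g) p := by
  have h1 : ContDiff ℝ 1 (fderiv ℝ g) := hg.fderiv_right (by norm_num)
  have h2 : ContDiff ℝ 0 (fderiv ℝ (fderiv ℝ g)) := h1.fderiv_right (by norm_num)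
  exact h2.continuous

theorem Nr_eps {E F : Type*} [SeminormedAddCommGroup E] [SeminormedAddCommGroup F] {g : E → F}
    (hg : Continuous g) (p : E) (δ : ℝ) (hδ : 0 < δ) :
    ∃ η > 0, ∀ p', ‖p' - p‖ ≤ η → ‖g p' - g p‖ ≤ δ := by
  obtain ⟨ε, hε, h2⟩ := Metric.continuousAt_iff.1 (hg.continuousAt (x := p)) δ hδ
  refine ⟨ε / 2, half_pos hε, fun p' hp' => ?_⟩
  have h3 := h2 (x := p') (by rw [dist_eq_norm]; linarith)
  rw [dist_eq_norm] at h3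
  exact h3.le

theorem Nr_tri {E : Type*} [SeminormedAddCommGroup E] (a b c : E) {x y : ℝ} (h1 : ‖a - b‖ ≤ x)
    (h2 : ‖b - c‖ ≤ y) : ‖a - c‖ ≤ x + y :=
  (norm_sub_le_norm_sub_add_norm_sub a b c).trans (add_le_add h1 h2)

/-- difference of the Hessians of two actions -/
theorem Nr_hess_sub {K : ℕ} [NeZero K] {S S' : ℕ → Pt n → ℝ} (hS : ∀ j, ContDiff ℝ 2 (S j))
    (hS' : ∀ j, ContDiff ℝ 2 (S' j)) (z z' : Fin K → Pt n) (δ : ℝ)
    (hd : ∀ j : Fin K, ‖fderiv ℝ (fderiv ℝ (S' j)) ((z' (j + 1)).1, (z' j).2) -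
      fderiv ℝ (fderiv ℝ (S j)) ((z (j + 1)).1, (z j).2)‖ ≤ δ) (v : Fin K → Pt n) :
    |hess (action S' K) z' v - hess (action S K) z v| ≤ (K * δ) * ‖v‖ ^ 2 := by
  rw [hess_action S' hS', hess_action S hS, ← Finset.sum_sub_distrib]
  refine (Finset.abs_sum_le_sum_abs _ _).trans ?_
  have key : ∀ j ∈ (Finset.univ : Finset (Fin K)),
      |(2 * ∑ i, (v j).2 i * ((v (j + 1)).1 i - (v j).1 i) -
      hess (S' j) ((z' (j + 1)).1, (z' j).2) ((v (j + 1)).1, (v j).2)) -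
      (2 * ∑ i, (v j).2 i * ((v (j + 1)).1 i - (v j).1 i) -
      hess (S j) ((z (j + 1)).1, (z j).2) ((v (j + 1)).1, (v j).2))| ≤ δ * ‖v‖ ^ 2 := by
    intro j _
    rw [hess_apply, hess_apply]
    set u : Pt n := ((v (j + 1)).1, (v j).2) with hu
    have hun : ‖u‖ ≤ ‖v‖ := by
      refine max_le ?_ ?_
      · exact (norm_fst_le (v (j + 1))).trans (norm_le_pi_norm v (j + 1))
      · exact (norm_snd_le (v j)).trans (norm_le_pi_norm v j)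
    set D' := fderiv ℝ (fderiv ℝ (S' j)) ((z' (j + 1)).1, (z' j).2) with hD'
    set D := fderiv ℝ (fderiv ℝ (S j)) ((z (j + 1)).1, (z j).2) with hD
    have h1 : (2 * ∑ i, (v j).2 i * ((v (j + 1)).1 i - (v j).1 i) - D' u u) -
        (2 * ∑ i, (v j).2 i * ((v (j + 1)).1 i - (v j).1 i) - D u u) = -((D' - D) u u) := by
      have h3 : (D' - D) u u = D' u u - D u u := rfl
      rw [h3]
      ring
    rw [h1, abs_neg, ← Real.norm_eq_abs]
    have h2 : ‖(D' - D) u u‖ ≤ ‖D' - D‖ * ‖u‖ * ‖u‖ := (D' - D).le_opNorm₂ u u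
    have hδ : ‖D' - D‖ ≤ δ := hd j
    have h0 : 0 ≤ δ := (norm_nonneg (D' - D)).trans hδ
    calc ‖(D' - D) u u‖ ≤ ‖D' - D‖ * ‖u‖ * ‖u‖ := h2
      _ ≤ δ * ‖v‖ * ‖v‖ := by gcongr
      _ = δ * ‖v‖ ^ 2 := by ring
  refine (Finset.sum_le_sum key).trans (le_of_eq ?_)
  rw [Finset.sum_const, Finset.card_univ, Fintype.card_fin, nsmul_eq_mul]
  ring

theorem Nr_S_mod {X : Type*} {N : ℕ} {S : ℕ → X} (hper : ∀ j, S (j + N) = S j) (j : ℕ) :
    S (j % N) = S j := by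
  have h : ∀ p, S (j % N + p * N) = S (j % N) := by
    intro p
    induction p with
    | zero => rw [zero_mul, add_zero]
    | succ p ih => rw [Nat.succ_mul, ← Nat.add_assoc, hper, ih]
  have h1 := h (j / N)
  rw [Nat.mod_add_div'] at h1
  exact h1.symm

/-- closeness at all times -/
theorem Nr_close {N : ℕ} {S : ℕ → Pt n → ℝ} {ψ : ℕ → Pt n → Pt n} (h : Sy N S ψ) {w : Pt n}
    (hw : flw ψ N w = w) {S' : ℕ → Pt n → ℝ} {ψ' : ℕ → Pt n → Pt n} {w' : Pt n}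
    (h' : Sy N S' ψ') (hw' : flw ψ' N w' = w') {η : ℝ} (hc : Close N S ψ w S' ψ' w' η) :
    (∀ j p, ‖fderiv ℝ (fderiv ℝ (S' j)) p - fderiv ℝ (fderiv ℝ (S j)) p‖ ≤ η) ∧
    (∀ j, ‖flw ψ' j w' - flw ψ j w‖ ≤ η) := by
  have hN := h.pos
  refine ⟨fun j p => ?_, fun j => ?_⟩
  · have h1 := hc.hess (j % N) (Nat.mod_lt _ hN) p
    rwa [Nr_S_mod h.perS, Nr_S_mod h'.perS] at h1
  · have h1 := hc.pos (j % N) (Nat.mod_lt _ hN).le
    rwa [IterQ_flw_mod h.perψ w hw hN, IterQ_flw_mod h'.perψ w' hw' hN] at h1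

/-- the Hessians are close -/
theorem Nr_hess {N : ℕ} {S : ℕ → Pt n → ℝ} {ψ : ℕ → Pt n → Pt n} (h : Sy N S ψ) (w : Pt n)
    (hw : flw ψ N w = w) (K : ℕ) [NeZero K] (hwK : flw ψ K w = w) (δ : ℝ) (hδ : 0 < δ) :
    ∃ η > 0, ∀ (S' : ℕ → Pt n → ℝ) (ψ' : ℕ → Pt n → Pt n) (w' : Pt n), Sy N S' ψ' →
      flw ψ' N w' = w' → flw ψ' K w' = w' → Close N S ψ w S' ψ' w' η →
      ∀ v : Fin K → Pt n, |hess (action S' K) (oseq ψ' K w') v -
        hess (action S K) (oseq ψ K w) v| ≤ δ * ‖v‖ ^ 2 := by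
  have hK0 : 0 < K := Nat.pos_of_ne_zero (NeZero.ne K)
  have hKr : (0 : ℝ) < K := by exact_mod_cast hK0
  set δ₁ : ℝ := δ / (2 * K) with hδ₁
  have hδ₁0 : 0 < δ₁ := by positivity
  have hcont : ∀ j : Fin K, ∃ η > 0, ∀ p' : Pt n,
      ‖p' - ((flw ψ (j + 1) w).1, (flw ψ j w).2)‖ ≤ η →
      ‖fderiv ℝ (fderiv ℝ (S j)) p' -
        fderiv ℝ (fderiv ℝ (S j)) ((flw ψ (j + 1) w).1, (flw ψ j w).2)‖ ≤ δ₁ := by
    intro j
    exact Nr_eps (E := Pt n) (F := Pt n →L[ℝ] Pt n →L[ℝ] ℝ) (Nr_cont (h.gen j).smooth)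
      ((flw ψ (j + 1) w).1, (flw ψ j w).2) δ₁ hδ₁0
  choose η hη hη' using hcont
  have hne : (Finset.univ : Finset (Fin K)).Nonempty := ⟨0, Finset.mem_univ _⟩
  refine ⟨min (Finset.univ.inf' hne η) δ₁, lt_min ((Finset.lt_inf'_iff hne).2 fun j _ => hη j)
    hδ₁0, fun S' ψ' w' h' hw' hwK' hc v => ?_⟩
  obtain ⟨hc1, hc2⟩ := Nr_close h hw h' hw' hc
  have hfin := Nr_hess_sub (K := K) (fun j => (h.gen j).smooth) (fun j => (h'.gen j).smooth)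
    (oseq ψ K w) (oseq ψ' K w') (2 * δ₁) (fun j => ?_) v
  · refine hfin.trans (le_of_eq ?_)
    rw [hδ₁]
    field_simp
  · rw [IterA_oseq ψ' hwK' j, IterA_oseq ψ hwK j]
    change ‖fderiv ℝ (fderiv ℝ (S' j)) ((flw ψ' (j + 1) w').1, (flw ψ' j w').2) -
      fderiv ℝ (fderiv ℝ (S j)) ((flw ψ (j + 1) w).1, (flw ψ j w).2)‖ ≤ 2 * δ₁
    have h1 := hc1 j ((flw ψ' (j + 1) w').1, (flw ψ' j w').2)
    have h2 := hη' j ((flw ψ' (j + 1) w').1, (flw ψ' j w').2) (by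
      have h3 := hc2 (j + 1)
      have h4 := hc2 j
      have h5 : (((flw ψ' (j + 1) w').1, (flw ψ' j w').2) : Pt n) -
          ((flw ψ (j + 1) w).1, (flw ψ j w).2) =
          ((flw ψ' (j + 1) w' - flw ψ (j + 1) w).1, (flw ψ' j w' - flw ψ j w).2) := rfl
      rw [h5]
      have h6 : min (Finset.univ.inf' hne η) δ₁ ≤ η j :=
        (min_le_left _ _).trans (Finset.inf'_le _ (Finset.mem_univ j))
      refine max_le ?_ ?_
      · exact ((norm_fst_le _).trans h3).trans h6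
      · exact ((norm_snd_le _).trans h4).trans h6)
    have h7 : min (Finset.univ.inf' hne η) δ₁ ≤ δ₁ := min_le_right _ _
    have h8 := Nr_tri (E := Pt n →L[ℝ] Pt n →L[ℝ] ℝ)
      (fderiv ℝ (fderiv ℝ (S' j)) ((flw ψ' (j + 1) w').1, (flw ψ' j w').2))
      (fderiv ℝ (fderiv ℝ (S j)) ((flw ψ' (j + 1) w').1, (flw ψ' j w').2))
      (fderiv ℝ (fderiv ℝ (S j)) ((flw ψ (j + 1) w).1, (flw ψ j w).2)) (h1.trans h7) h2
    exact h8.trans (le_of_eq (by ring))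

/-- the index of iterates under small perturbations -/
theorem near_idx {N : ℕ} {S : ℕ → Pt n → ℝ} {ψ : ℕ → Pt n → Pt n} (h : Sy N S ψ) (w : Pt n)
    (hw : flw ψ N w = w) (M : ℕ) (hM : 0 < M) :
    ∃ η > 0, ∀ (S' : ℕ → Pt n → ℝ) (ψ' : ℕ → Pt n → Pt n) (w' : Pt n), Sy N S' ψ' →
      flw ψ' N w' = w' → Close N S ψ w S' ψ' w' η →
      ind S ψ (M * N) w ≤ ind S' ψ' (M * N) w' ∧
      ind S' ψ' (M * N) w' ≤ ind S ψ (M * N) w + 2 * n ∧
      (Nondeg S ψ (M * N) w → Nondeg S' ψ' (M * N) w' ∧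
        ind S' ψ' (M * N) w' = ind S ψ (M * N) w) := by
  have hN := h.pos
  have hK : M * N ≠ 0 := (Nat.mul_pos hM hN).ne'
  have : NeZero (M * N) := ⟨hK⟩
  have hwK : flw ψ (M * N) w = w := IterA_flw_mul ψ h.perψ hw M 0
  obtain ⟨δ, hδ, hsc⟩ := sigNeg_semicont (hess (action S (M * N)) (oseq ψ (M * N) w))
  obtain ⟨η, hη, H⟩ := Nr_hess h w hw (M * N) hwK δ hδ
  refine ⟨η, hη, fun S' ψ' w' h' hw' hc => ?_⟩
  have hwK' : flw ψ' (M * N) w' = w' := IterA_flw_mul ψ' h'.perψ hw' M 0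
  obtain ⟨h1, h2⟩ := hsc _ (H S' ψ' w' h' hw' hwK' hc)
  have e1 : ind S ψ (M * N) w = sigNeg (hess (action S (M * N)) (oseq ψ (M * N) w)) := by
    unfold ind
    rw [dif_neg hK]
  have e2 : ind S' ψ' (M * N) w' =
      sigNeg (hess (action S' (M * N)) (oseq ψ' (M * N) w')) := by
    unfold ind
    rw [dif_neg hK]
  have n1 := null_le S ψ h.gen (M * N) w
  have n3 := sigPos_add_sigNeg_add_radical
    (Q := hess (action S' (M * N)) (oseq ψ' (M * N) w'))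
  rw [e1, e2]
  refine ⟨h1, by omega, fun hnd => ?_⟩
  have n4 := (nondeg_iff S ψ h.gen (M * N) w).1 hnd
  have n5 : sigNeg (hess (action S' (M * N)) (oseq ψ' (M * N) w')) +
      sigPos (hess (action S' (M * N)) (oseq ψ' (M * N) w')) =
      finrank ℝ (Fin (M * N) → Pt n) := by omega
  exact ⟨(nondeg_iff S' ψ' h'.gen (M * N) w').2 n5, by omega⟩

/-- continuity of the mean index -/
theorem near_mean {N : ℕ} {S : ℕ → Pt n → ℝ} {ψ : ℕ → Pt n → Pt n} (h : Sy N S ψ) (w : Pt n)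
    (hw : flw ψ N w = w) (t : ℝ) (ht : MeanIdx S ψ N w t) (δ : ℝ) (hδ : 0 < δ) :
    ∃ η > 0, ∀ (S' : ℕ → Pt n → ℝ) (ψ' : ℕ → Pt n → Pt n) (w' : Pt n), Sy N S' ψ' →
      flw ψ' N w' = w' → Close N S ψ w S' ψ' w' η → ∀ t', MeanIdx S' ψ' N w' t' →
      |t' - t| ≤ δ := by
  obtain ⟨t₀, h0, h1⟩ := h.exists_mean w hw
  have := mean_unique ht h0
  subst this
  obtain ⟨M, hM⟩ := exists_nat_gt ((6 * n + 1 : ℝ) / δ)
  have hM0 : 0 < M := by
    have h2 : (0 : ℝ) < M := lt_of_le_of_lt (by positivity) hM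
    exact_mod_cast h2
  obtain ⟨η, hη, H⟩ := near_idx h w hw M hM0
  refine ⟨η, hη, fun S' ψ' w' h' hw' hc t' ht' => ?_⟩
  obtain ⟨t₁, h2, h3⟩ := h'.exists_mean w' hw'
  have := mean_unique ht' h2
  subst this
  obtain ⟨h4, h5, -⟩ := H S' ψ' w' h' hw' hc
  have h6 := h1 M hM0
  have h7 := h3 M hM0
  have h4' : (ind S ψ (M * N) w : ℝ) ≤ ind S' ψ' (M * N) w' := by exact_mod_cast h4
  have h5' : (ind S' ψ' (M * N) w' : ℝ) ≤ ind S ψ (M * N) w + 2 * n := by exact_mod_cast h5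
  have hMr : (0 : ℝ) < M := by exact_mod_cast hM0
  have h8 : |(M : ℝ) * (t' - t)| ≤ 6 * n := by
    rw [abs_le] at h6 h7 ⊢
    constructor <;> nlinarith [h6.1, h6.2, h7.1, h7.2]
  rw [abs_mul, abs_of_pos hMr] at h8
  rw [div_lt_iff₀ hδ] at hM
  by_contra hcon
  rw [not_le] at hcon
  nlinarith

end Pool.Agent.H47.OD
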