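import Pool.Agent.H47.OD.Sy
import Pool.Agent.H47.OD.Fl
import Pool.Agent.H47.ST.GrowB

/-!
# The case without contractible fixed points
-/

set_option autoImplicit false

open Module QuadraticForm Filter Topology

namespace Pool.Agent.H47.OD

open Pool.Agent.H47.QG
open Pool.Agent.H60.QG (Torus projP)

variable {n : ℕ}

/-- every point is a translate of a point of the unit ball -/
theorem OpnC_fract (z : Pt n) : ∃ e ∈ Zn n, z - e ∈ Metric.closedBall (0 : Pt n) 1 := by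
  refine ⟨((fun i => (⌊z.1 i⌋ : ℝ)), (fun i => (⌊z.2 i⌋ : ℝ))),
    ⟨fun i => ⌊z.1 i⌋, fun i => ⌊z.2 i⌋, rfl⟩, ?_⟩
  rw [mem_closedBall_zero_iff, Prod.norm_def]
  refine max_le ?_ ?_
  · refine (pi_norm_le_iff_of_nonneg zero_le_one).2 fun i => ?_
    have h1 : (z - ((fun i => (⌊z.1 i⌋ : ℝ)), (fun i => (⌊z.2 i⌋ : ℝ)))).1 i =
        Int.fract (z.1 i) := rfl
    rw [h1, Real.norm_eq_abs, abs_of_nonneg (Int.fract_nonneg _)]
    exact (Int.fract_lt_one _).le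
  · refine (pi_norm_le_iff_of_nonneg zero_le_one).2 fun i => ?_
    have h1 : (z - ((fun i => (⌊z.1 i⌋ : ℝ)), (fun i => (⌊z.2 i⌋ : ℝ)))).2 i =
        Int.fract (z.2 i) := rfl
    rw [h1, Real.norm_eq_abs, abs_of_nonneg (Int.fract_nonneg _)]
    exact (Int.fract_lt_one _).le

/-- a flow without fixed points moves every point by at least `μ > 0` -/
theorem OpnC_far {N : ℕ} {S : ℕ → Pt n → ℝ} {ψ : ℕ → Pt n → Pt n} (h : Sy N S ψ)
    (hC : ∀ w, flw ψ N w ≠ w) : ∃ μ > 0, ∀ w, μ ≤ ‖flw ψ N w - w‖ := by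
  have hc : Continuous fun w => ‖flw ψ N w - w‖ :=
    (((flw_c1 h.gen N).continuous).sub continuous_id).norm
  obtain ⟨w₀, _, hw₀⟩ := (isCompact_closedBall (0 : Pt n) 1).exists_isMinOn
    ⟨0, Metric.mem_closedBall_self zero_le_one⟩ hc.continuousOn
  refine ⟨‖flw ψ N w₀ - w₀‖, norm_pos_iff.2 (sub_ne_zero.2 (hC w₀)), fun w => ?_⟩
  obtain ⟨e, he, hwe⟩ := OpnC_fract w
  have h1 : ‖flw ψ N w₀ - w₀‖ ≤ ‖flw ψ N (w - e) - (w - e)‖ := hw₀ hwe
  have h2 := flw_add_int h.gen N (w - e) e he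
  rw [sub_add_cancel] at h2
  have h3 : flw ψ N w - w = flw ψ N (w - e) - (w - e) := by
    rw [h2]
    abel
  rw [h3]
  exact h1

/-- the case without contractible fixed points -/
theorem open_empty (hn : 0 < n) {N : ℕ} {S : ℕ → Pt n → ℝ} {ψ : ℕ → Pt n → Pt n} (h : Sy N S ψ)
    (hC : ∀ w, flw ψ N w ≠ w) :
    ∃ η > 0, ∀ (b : Pt n → ℝ) (β : Pt n → Pt n), Gen b β → (∀ p, ‖fderiv ℝ b p‖ ≤ η) →
      (∀ p, ‖fderiv ℝ (fderiv ℝ b) p‖ ≤ η) → ∀ φ g : Torus n → Torus n,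
      (∀ z, φ (projP z) = projP (flw ψ N z)) → (∀ z, g (projP z) = projP (β z)) →
      QuadGrowth (g ∘ φ) := by
  obtain ⟨μ, hμ, hfar⟩ := OpnC_far h hC
  refine ⟨min (μ / 2) (1 / 2), lt_min (half_pos hμ) (by norm_num), ?_⟩
  intro b β hb hb1 hb2 φ g hφ hg
  have hclose := (gen_close hb (le_min (half_pos hμ).le (by norm_num)) (min_le_right _ _) hb1
    hb2).1
  have hs := h.snoc hb
  have hD : Decomp (g ∘ φ) (N + 1) (snoc N S b) (snoc N ψ β) := by
    refine hs.decomp fun w => ?_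
    rw [Function.comp_apply, hφ, hg, flw_snoc]
  haveI : NeZero (1 * (N + 1)) := ⟨by omega⟩
  have hfix : ∀ w, flw (snoc N ψ β) (1 * (N + 1)) w ≠ w := by
    intro w hw
    rw [one_mul, flw_snoc] at hw
    have h1 := hclose (flw ψ N w)
    rw [hw] at h1
    have h2 := hfar w
    rw [norm_sub_rev] at h1
    have h3 : min (μ / 2) (1 / 2 : ℝ) ≤ μ / 2 := min_le_left _ _
    linarith
  refine H47.ST.quad_ST hn hD 1 ∅ (fun w => ?_) (fun c hc => ?_) (fun _ => 0) (fun c hc => ?_) ?_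
  · constructor
    · rintro ⟨h1, _⟩
      exact absurd h1 (hfix w)
    · rintro ⟨c, hc, _⟩
      exact absurd hc (Finset.notMem_empty c)
  · exact absurd hc (Finset.notMem_empty c)
  · exact absurd hc (Finset.notMem_empty c)
  · rw [Finset.sum_empty]
    positivity

end Pool.Agent.H47.OD
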