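import Pool.Agent.H47.OD.Nr
import Pool.Agent.H47.OD.Pst

/-!
# Persistence of the fixed points of a system
-/

set_option autoImplicit false

open Module QuadraticForm Filter Topology

namespace Pool.Agent.H47.OD

open Pool.Agent.H47.QG
open Pool.Agent.H60.QG (Torus projP)

variable {n : ℕ}

theorem OpnA_min {α : Type*} (C : Finset α) (e : α → ℝ) (he : ∀ c ∈ C, 0 < e c) :
    ∃ η > 0, ∀ c ∈ C, η ≤ e c := by
  classical
  induction C using Finset.induction_on with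
  | empty => exact ⟨1, one_pos, by simp⟩
  | insert a s ha ih =>
    obtain ⟨η, h1, h2⟩ := ih fun c hc => he c (Finset.mem_insert_of_mem hc)
    refine ⟨min η (e a), lt_min h1 (he a (Finset.mem_insert_self a s)), fun c hc => ?_⟩
    rcases Finset.mem_insert.1 hc with rfl | hc
    · exact min_le_right _ _
    · exact (min_le_left _ _).trans (h2 c hc)

theorem OpnA_mono {N : ℕ} {S : ℕ → Pt n → ℝ} {ψ : ℕ → Pt n → Pt n} {w : Pt n}
    {S' : ℕ → Pt n → ℝ} {ψ' : ℕ → Pt n → Pt n} {w' : Pt n} {η η' : ℝ}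
    (h : Close N S ψ w S' ψ' w' η) (hη : η ≤ η') : Close N S ψ w S' ψ' w' η' :=
  ⟨fun j hj p => (h.hess j hj p).trans hη, fun j hj => (h.pos j hj).trans hη⟩

theorem OpnA_h1 (f : Pt n → ℝ) (p : Pt n) :
    ‖fderiv ℝ (fderiv ℝ f) p - fderiv ℝ (fderiv ℝ f) p‖ ≤ 0 := by
  refine ContinuousLinearMap.opNorm_le_bound _ le_rfl fun x => ?_
  refine ContinuousLinearMap.opNorm_le_bound _ (by positivity) fun y => ?_
  change ‖fderiv ℝ (fderiv ℝ f) p x y - fderiv ℝ (fderiv ℝ f) p x y‖ ≤ _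
  rw [sub_self, norm_zero]
  positivity

theorem OpnA_h2 (f : Pt n → ℝ) (p : Pt n) :
    ‖fderiv ℝ (fderiv ℝ f) p - fderiv ℝ (fderiv ℝ fun _ : Pt n => (0 : ℝ)) p‖ ≤
      ‖fderiv ℝ (fderiv ℝ f) p‖ := by
  have h0 : fderiv ℝ (fderiv ℝ fun _ : Pt n => (0 : ℝ)) p = 0 := by simp
  refine ContinuousLinearMap.opNorm_le_bound _ (ContinuousLinearMap.opNorm_nonneg _) fun x => ?_
  refine ContinuousLinearMap.opNorm_le_bound _ (by positivity) fun y => ?_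
  change ‖fderiv ℝ (fderiv ℝ f) p x y - fderiv ℝ (fderiv ℝ fun _ : Pt n => (0 : ℝ)) p x y‖ ≤ _
  rw [h0]
  change ‖fderiv ℝ (fderiv ℝ f) p x y - 0‖ ≤ _
  rw [sub_zero]
  exact ((fderiv ℝ (fderiv ℝ f) p x).le_opNorm y).trans (mul_le_mul_of_nonneg_right
    ((fderiv ℝ (fderiv ℝ f) p).le_opNorm x) (norm_nonneg _))
set_option maxHeartbeats 1000000 in
/-- for all small last blocks: fixed points persist, with their indices, and mean indices move
little -/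
theorem persist_sys {N : ℕ} {S : ℕ → Pt n → ℝ} {ψ : ℕ → Pt n → Pt n} (h : Sy N S ψ)
    (C : Finset (Pt n)) (hC : ∀ w, flw ψ N w = w ↔ ∃ c ∈ C, w - c ∈ Zn n)
    (hCd : ∀ c ∈ C, ∀ c' ∈ C, c - c' ∈ Zn n → c = c')
    (hnd : ∀ c ∈ C, ∀ v, fderiv ℝ (flw ψ N) c v = v → v = 0) (δ : ℝ) (hδ : 0 < δ) :
    ∃ η > 0, ∀ (b : Pt n → ℝ) (β : Pt n → Pt n), Gen b β → (∀ p, ‖fderiv ℝ b p‖ ≤ η) →
      (∀ p, ‖fderiv ℝ (fderiv ℝ b) p‖ ≤ η) → ∃ g : Pt n → Pt n,
      (∀ w, flw (snoc N ψ β) (N + 1) w = w ↔ ∃ c ∈ C, w - g c ∈ Zn n) ∧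
      (∀ c ∈ C, ∀ c' ∈ C, g c - g c' ∈ Zn n → c = c') ∧
      (∀ c ∈ C, Nondeg (snoc N S b) (snoc N ψ β) (N + 1) (g c)) ∧
      (∀ c ∈ C, ind (snoc N S b) (snoc N ψ β) (N + 1) (g c) =
        ind (snoc N S fun _ => 0) (snoc N ψ id) (N + 1) c) ∧
      ∀ c ∈ C, ∀ t t', MeanIdx (snoc N S fun _ => 0) (snoc N ψ id) (N + 1) c t →
        MeanIdx (snoc N S b) (snoc N ψ β) (N + 1) (g c) t' → |t' - t| ≤ δ := by
  classical
  have h0 : Sy (N + 1) (snoc N S fun _ => 0) (snoc N ψ id) := h.snoc gen_zero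
  have e0 : flw (snoc N ψ id) (N + 1) = flw ψ N := funext fun w => flw_snoc N ψ id w
  have hfix : ∀ c ∈ C, flw ψ N c = c := fun c hc =>
    (hC c).2 ⟨c, hc, by rw [sub_self]; exact (Zn n).zero_mem⟩
  -- one fixed point
  have H : ∀ c, ∃ e > 0, c ∈ C → ∀ (S' : ℕ → Pt n → ℝ) (ψ' : ℕ → Pt n → Pt n) (w' : Pt n),
      Sy (N + 1) S' ψ' → flw ψ' (N + 1) w' = w' →
      Close (N + 1) (snoc N S fun _ => 0) (snoc N ψ id) c S' ψ' w' e →
      Nondeg S' ψ' (N + 1) w' ∧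
      ind S' ψ' (N + 1) w' = ind (snoc N S fun _ => 0) (snoc N ψ id) (N + 1) c ∧
      ∀ t t', MeanIdx (snoc N S fun _ => 0) (snoc N ψ id) (N + 1) c t →
        MeanIdx S' ψ' (N + 1) w' t' → |t' - t| ≤ δ := by
    intro c
    by_cases hc : c ∈ C
    · have hc0 : flw (snoc N ψ id) (N + 1) c = c := by rw [e0]; exact hfix c hc
      have hnd0 : Nondeg (snoc N S fun _ => 0) (snoc N ψ id) (N + 1) c :=
        nondeg_of h0.gen (N + 1) (Nat.succ_ne_zero N) c hc0 (by rw [e0]; exact hnd c hc)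
      obtain ⟨t₀, ht₀, -⟩ := h0.exists_mean c hc0
      obtain ⟨η1, hη1, H1⟩ := near_idx h0 c hc0 1 one_pos
      obtain ⟨η2, hη2, H2⟩ := near_mean h0 c hc0 t₀ ht₀ δ hδ
      refine ⟨min η1 η2, lt_min hη1 hη2, fun _ S' ψ' w' h' hw' hcl => ?_⟩
      obtain ⟨-, -, h3⟩ := H1 S' ψ' w' h' hw' (OpnA_mono hcl (min_le_left _ _))
      rw [one_mul] at h3
      obtain ⟨h4, h5⟩ := h3 hnd0
      refine ⟨h4, h5, fun t t' ht ht' => ?_⟩
      rw [mean_unique ht ht₀]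
      exact H2 S' ψ' w' h' hw' (OpnA_mono hcl (min_le_right _ _)) t' ht'
    · exact ⟨1, one_pos, fun hc' => absurd hc' hc⟩
  choose e he H using H
  obtain ⟨η0, hη0, hη0'⟩ := OpnA_min C e fun c _ => he c
  -- Lipschitz constants
  have hΛ : ∀ j, ∃ Λ > 0, ∀ w w', ‖flw ψ j w - flw ψ j w'‖ ≤ Λ * ‖w - w'‖ := fun j =>
    flw_lip h.gen j
  choose Λf hΛf hΛf' using hΛ
  obtain ⟨s, hs, hs'⟩ := OpnA_min (Finset.range (N + 1)) (fun j => 1 / Λf j)
    (fun j _ => one_div_pos.2 (hΛf j))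
  set Λ : ℝ := max 1 (1 / s) with hΛd
  have hΛ1 : 1 ≤ Λ := le_max_left _ _
  have hΛ0 : 0 < Λ := lt_of_lt_of_le one_pos hΛ1
  have hlip : ∀ j ≤ N, ∀ w w', ‖flw ψ j w - flw ψ j w'‖ ≤ Λ * ‖w - w'‖ := by
    intro j hj w w'
    have h1 : s ≤ 1 / Λf j := hs' j (Finset.mem_range.2 (by omega))
    have h2 : Λf j ≤ 1 / s := by
      rw [le_div_iff₀ hs]
      rw [le_div_iff₀ (hΛf j)] at h1
      linarith
    exact (hΛf' j w w').trans (mul_le_mul_of_nonneg_right (h2.trans (le_max_right _ _))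
      (norm_nonneg _))
  have hρ : 0 < η0 / Λ := div_pos hη0 hΛ0
  obtain ⟨κ, hκ, HP⟩ := persist (flw_c1 h.gen N) (fun w e' he' => flw_add_int h.gen N w e' he') C hC
    hCd hnd (η0 / Λ) hρ
  refine ⟨min (min (1 / 2) η0) (min κ (κ / (2 * Λ))), ?_, ?_⟩
  · have : 0 < κ / (2 * Λ) := div_pos hκ (by linarith)
    exact lt_min (lt_min (by norm_num) hη0) (lt_min hκ this)
  intro b β hβ hb1 hb2
  set η : ℝ := min (min (1 / 2) η0) (min κ (κ / (2 * Λ))) with hηd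
  have hη1 : η ≤ 1 / 2 := (min_le_left _ _).trans (min_le_left _ _)
  have hη2 : η ≤ η0 := (min_le_left _ _).trans (min_le_right _ _)
  have hη3 : η ≤ κ := (min_le_right _ _).trans (min_le_left _ _)
  have hη4 : η ≤ κ / (2 * Λ) := (min_le_right _ _).trans (min_le_right _ _)
  have hη5 : 0 ≤ η := (norm_nonneg _).trans (hb1 0)
  obtain ⟨hcl1, hcl2⟩ := gen_close hβ hη5 hη1 hb1 hb2
  have h' : Sy (N + 1) (snoc N S b) (snoc N ψ β) := h.snoc hβ
  have e1 : ∀ w, flw (snoc N ψ β) (N + 1) w = β (flw ψ N w) := flw_snoc N ψ β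
  have hper : ∀ w, ∀ e' ∈ Zn n, flw (snoc N ψ β) (N + 1) (w + e') =
      flw (snoc N ψ β) (N + 1) w + e' := fun w e' he' => flw_add_int h'.gen (N + 1) w e' he'
  obtain ⟨g, hg1, hg2, hg3⟩ := HP (flw (snoc N ψ β) (N + 1)) hper (fun w => by
    rw [e1]
    exact (hcl1 _).trans hη3) (fun w w' => by
    rw [e1, e1]
    have h3 := hcl2 (flw ψ N w) (flw ψ N w')
    have h4 := hlip N le_rfl w w'
    have h5 : η * (2 * Λ) ≤ κ := by
      rwa [le_div_iff₀ (by linarith)] at hη4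
    calc ‖β (flw ψ N w) - flw ψ N w - (β (flw ψ N w') - flw ψ N w')‖
        ≤ 2 * η * ‖flw ψ N w - flw ψ N w'‖ := h3
      _ ≤ 2 * η * (Λ * ‖w - w'‖) := mul_le_mul_of_nonneg_left h4 (by linarith)
      _ = η * (2 * Λ) * ‖w - w'‖ := by ring
      _ ≤ κ * ‖w - w'‖ := mul_le_mul_of_nonneg_right h5 (norm_nonneg _))
  have hClose : ∀ c ∈ C, Close (N + 1) (snoc N S fun _ => 0) (snoc N ψ id) c (snoc N S b)
      (snoc N ψ β) (g c) (e c) := by
    intro c hc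
    have hd : ‖g c - c‖ ≤ η0 / Λ := (hg1 c hc).1
    have hd' : Λ * ‖g c - c‖ ≤ e c := by
      have h3 := mul_le_mul_of_nonneg_left hd hΛ0.le
      rw [mul_div_cancel₀ _ hΛ0.ne'] at h3
      exact h3.trans (hη0' c hc)
    refine ⟨fun j hj p => ?_, fun j hj => ?_⟩
    · by_cases hjN : j < N
      · rw [snoc_lt N S b hjN, snoc_lt N S _ hjN]
        exact (OpnA_h1 (S j) p).trans (he c).le
      · have hjN' : j = N := by omega
        subst hjN'
        rw [snoc_last, snoc_last]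
        exact (OpnA_h2 b p).trans (((hb2 p).trans hη2).trans (hη0' c hc))
    · by_cases hjN : j ≤ N
      · rw [flw_snoc_le N ψ β hjN, flw_snoc_le N ψ id hjN]
        exact (hlip j hjN _ _).trans hd'
      · have hjN' : j = N + 1 := by omega
        subst hjN'
        rw [(hg1 c hc).2, e0, hfix c hc]
        refine le_trans ?_ hd'
        exact le_mul_of_one_le_left (norm_nonneg _) hΛ1
  refine ⟨g, fun w => ⟨hg3 w, ?_⟩, hg2, fun c hc => ?_, fun c hc => ?_, fun c hc => ?_⟩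
  · rintro ⟨c, hc, hw⟩
    have h3 := hper (g c) _ hw
    rw [(hg1 c hc).2, add_sub_cancel] at h3
    exact h3
  · exact (H c hc _ _ _ h' (hg1 c hc).2 (hClose c hc)).1
  · exact (H c hc _ _ _ h' (hg1 c hc).2 (hClose c hc)).2.1
  · exact (H c hc _ _ _ h' (hg1 c hc).2 (hClose c hc)).2.2

end Pool.Agent.H47.OD
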