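import Pool.Agent.H47.OD.OpnA

/-!
# Openness
-/

set_option autoImplicit false

open Module QuadraticForm Filter Topology

namespace Pool.Agent.H47.OD

open Pool.Agent.H47.QG
open Pool.Agent.H60.QG (Torus projP)

variable {n : ℕ}

/-- the mean index is invariant under integer translations -/
theorem OpnB_mean_add {N : ℕ} {S : ℕ → Pt n → ℝ} {ψ : ℕ → Pt n → Pt n} (h : Sy N S ψ)
    {w w' : Pt n} (hw : w - w' ∈ Zn n) {t : ℝ} (ht : MeanIdx S ψ N w' t) : MeanIdx S ψ N w t := by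
  obtain ⟨a, b, he⟩ := hw
  have hw' : w = w' + ((fun i => (a i : ℝ)), (fun i => (b i : ℝ))) := by
    rw [← he]; abel
  have h1 : ∀ m : ℕ, ind S ψ (m * N) w = ind S ψ (m * N) w' := fun m => by
    rw [hw']; exact ind_translate (S := S) (f := ψ) h.gen (m * N) w' a b
  unfold MeanIdx at ht ⊢
  simp only [h1]
  exact ht

/-- a positive gap -/
theorem OpnB_gap {X : Type*} (C : Finset X) (f : X → ℝ) (t : ℝ) :
    ∃ d > 0, ∀ c ∈ C, f c ≠ t → d ≤ |f c - t| := by
  classical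
  induction C using Finset.induction_on with
  | empty => exact ⟨1, one_pos, fun c hc => absurd hc (Finset.notMem_empty c)⟩
  | insert a s _ ih =>
    obtain ⟨d, hd, h⟩ := ih
    by_cases ha : f a = t
    · refine ⟨d, hd, fun c hc hne => ?_⟩
      rcases Finset.mem_insert.1 hc with rfl | hc
      · exact absurd ha hne
      · exact h c hc hne
    · refine ⟨min d |f a - t|, lt_min hd (abs_pos.2 (sub_ne_zero.2 ha)), fun c hc hne => ?_⟩
      rcases Finset.mem_insert.1 hc with rfl | hc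
      · exact min_le_right _ _
      · exact (min_le_left _ _).trans (h c hc hne)

/-- **Openness.** -/
theorem open_step (hn : 0 < n) {N : ℕ} {S : ℕ → Pt n → ℝ} {ψ : ℕ → Pt n → Pt n} (h : Sy N S ψ)
    (C : Finset (Pt n)) (hC : ∀ w, flw ψ N w = w ↔ ∃ c ∈ C, w - c ∈ Zn n)
    (hCd : ∀ c ∈ C, ∀ c' ∈ C, c - c' ∈ Zn n → c = c')
    (hnd : ∀ c ∈ C, ∀ v, fderiv ℝ (flw ψ N) c v = v → v = 0) (t : ℝ) (T : Finset (Pt n))
    (hT : ∀ c, c ∈ T ↔ c ∈ C ∧ MeanIdx (snoc N S fun _ => 0) (snoc N ψ id) (N + 1) c t)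
    (hsum : ∑ c ∈ T, (-1 : ℤ) ^ ind (snoc N S fun _ => 0) (snoc N ψ id) (N + 1) c ≠ 0) :
    ∃ η > 0, ∀ (b : Pt n → ℝ) (β : Pt n → Pt n), Gen b β → (∀ p, ‖fderiv ℝ b p‖ ≤ η) →
      (∀ p, ‖fderiv ℝ (fderiv ℝ b) p‖ ≤ η) → ∀ φ g : Torus n → Torus n,
      (∀ z, φ (projP z) = projP (flw ψ N z)) → (∀ z, g (projP z) = projP (β z)) →
      QuadGrowth (g ∘ φ) := by
  classical
  have h' : Sy (N + 1) (snoc N S fun _ => 0) (snoc N ψ id) := h.snoc gen_zero
  -- mean indices of the base system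
  have hm : ∀ c, ∃ tc, c ∈ C → MeanIdx (snoc N S fun _ => 0) (snoc N ψ id) (N + 1) c tc := by
    intro c
    by_cases hc : c ∈ C
    · have hfix : flw ψ N c = c := (hC c).2 ⟨c, hc, by rw [sub_self]; exact (Zn n).zero_mem⟩
      obtain ⟨tc, htc, _⟩ := h'.exists_mean c (by rw [flw_snoc, hfix]; rfl)
      exact ⟨tc, fun _ => htc⟩
    · exact ⟨0, fun hc' => absurd hc' hc⟩
  choose tc htc using hm
  have hT' : ∀ c, c ∈ T ↔ c ∈ C ∧ tc c = t := fun c => by
    rw [hT]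
    constructor
    · rintro ⟨hc, h1⟩
      exact ⟨hc, mean_unique (htc c hc) h1⟩
    · rintro ⟨hc, rfl⟩
      exact ⟨hc, htc c hc⟩
  obtain ⟨d, hd, hgap⟩ := OpnB_gap C tc t
  obtain ⟨η, hη, H⟩ := persist_sys h C hC hCd hnd (d / 3) (by positivity)
  refine ⟨η, hη, fun b β hb hb1 hb2 φ g hφ hg => ?_⟩
  obtain ⟨G, G1, G2, G3, G4, G5⟩ := H b β hb hb1 hb2
  have h'' : Sy (N + 1) (snoc N S b) (snoc N ψ β) := h.snoc hb
  have hfix : ∀ c ∈ C, flw (snoc N ψ β) (N + 1) (G c) = G c := fun c hc =>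
    (G1 _).2 ⟨c, hc, by rw [sub_self]; exact (Zn n).zero_mem⟩
  have hm : ∀ c, ∃ tp, c ∈ C → MeanIdx (snoc N S b) (snoc N ψ β) (N + 1) (G c) tp := by
    intro c
    by_cases hc : c ∈ C
    · obtain ⟨tp, htp, _⟩ := h''.exists_mean (G c) (hfix c hc)
      exact ⟨tp, fun _ => htp⟩
    · exact ⟨0, fun hc' => absurd hc' hc⟩
  choose tp htp using hm
  have hclose : ∀ c ∈ C, |tp c - tc c| ≤ d / 3 := fun c hc =>
    G5 c hc _ _ (htc c hc) (htp c hc)
  -- members of `T` in terms of the new mean indices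
  have hTp : ∀ c ∈ C, (c ∈ T ↔ |tp c - t| ≤ d / 3) := by
    intro c hc
    rw [hT']
    have h1 := hclose c hc
    constructor
    · rintro ⟨_, h2⟩
      rw [← h2]; exact h1
    · intro h2
      refine ⟨hc, by_contra fun hne => ?_⟩
      have h3 := hgap c hc hne
      have h4 : |tc c - t| ≤ |tp c - tc c| + |tp c - t| := by
        have := abs_sub_le (tc c) (tp c) t
        rwa [abs_sub_comm (tc c) (tp c)] at this
      linarith
  -- a group of orbits with the same new mean index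
  have hsum2 : ∑ c ∈ T, (-1 : ℤ) ^ ind (snoc N S b) (snoc N ψ β) (N + 1) (G c) ≠ 0 := by
    intro h0
    apply hsum
    rw [← h0]
    refine Finset.sum_congr rfl fun c hc => ?_
    rw [G4 c ((hT' c).1 hc).1]
  rw [← Finset.sum_fiberwise_of_maps_to (t := T.image tp)
    (fun c hc => Finset.mem_image_of_mem tp hc)] at hsum2
  obtain ⟨τ, hτ, hne⟩ := Finset.exists_ne_zero_of_sum_ne_zero hsum2
  obtain ⟨c0, hc0, hτ0⟩ := Finset.mem_image.1 hτ
  have hc0C : c0 ∈ C := ((hT' c0).1 hc0).1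
  have hfil : T.filter (fun c => tp c = τ) = C.filter fun c => tp c = τ := by
    ext c
    rw [Finset.mem_filter, Finset.mem_filter]
    constructor
    · rintro ⟨h1, h2⟩
      exact ⟨((hT' c).1 h1).1, h2⟩
    · rintro ⟨h1, h2⟩
      refine ⟨(hTp c h1).2 ?_, h2⟩
      rw [h2, ← hτ0]
      exact (hTp c0 hc0C).1 hc0
  rw [hfil] at hne
  have hinj : Set.InjOn G (C.filter fun c => tp c = τ) := by
    intro c hc c' hc' hcc
    exact G2 c (Finset.mem_filter.1 hc).1 c' (Finset.mem_filter.1 hc').1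
      (by rw [hcc, sub_self]; exact (Zn n).zero_mem)
  have hdec : Decomp (g ∘ φ) (N + 1) (snoc N S b) (snoc N ψ β) := h''.decomp fun w => by
    rw [flw_snoc, Function.comp_apply, hφ, hg]
  refine quad_nondeg hn hdec 1 one_pos τ ((C.filter fun c => tp c = τ).image G) ?_ ?_ ?_ ?_
  · intro w
    rw [one_mul]
    constructor
    · rintro ⟨h1, h2⟩
      obtain ⟨c, hc, hwc⟩ := (G1 w).1 h1
      refine ⟨G c, Finset.mem_image_of_mem G (Finset.mem_filter.2 ⟨hc, ?_⟩), hwc⟩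
      exact mean_unique (OpnB_mean_add h'' hwc (htp c hc)) h2
    · rintro ⟨x, hx, hwx⟩
      obtain ⟨c, hc, rfl⟩ := Finset.mem_image.1 hx
      obtain ⟨hcC, hcτ⟩ := Finset.mem_filter.1 hc
      refine ⟨(G1 w).2 ⟨c, hcC, hwx⟩, ?_⟩
      rw [← hcτ]
      exact OpnB_mean_add h'' hwx (htp c hcC)
  · intro x hx x' hx' hxx
    obtain ⟨c, hc, rfl⟩ := Finset.mem_image.1 hx
    obtain ⟨c', hc', rfl⟩ := Finset.mem_image.1 hx'
    rw [G2 c (Finset.mem_filter.1 hc).1 c' (Finset.mem_filter.1 hc').1 hxx]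
  · intro x hx
    obtain ⟨c, hc, rfl⟩ := Finset.mem_image.1 hx
    rw [one_mul]
    exact G3 c (Finset.mem_filter.1 hc).1
  · rw [one_mul, Finset.sum_image hinj]
    exact hne

end Pool.Agent.H47.OD
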