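import Pool.Agent.H47.OD.TwD
import Pool.Agent.H47.QG.IterP
import Pool.Agent.H47.QG.Main5

/-!
# The second variation of the action as a cyclic form: definitions
-/

set_option autoImplicit false

open Module QuadraticForm

namespace Pool.Agent.H47.OD

open Pool.Agent.H47.QG

variable {n : ℕ}

/-- the local term `(p, q) ↦ 2 ∑ i, p.2 i * (q.1 i - p.1 i) - h (q.1, p.2)` -/
noncomputable def loc (h : QuadraticForm ℝ (Pt n)) : QuadraticForm ℝ (Pt n × Pt n) :=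
  (∑ i : Fin n, (2 : ℝ) • QuadraticMap.linMulLin
    ((LinearMap.proj i : (Fin n → ℝ) →ₗ[ℝ] ℝ) ∘ₗ (LinearMap.snd ℝ _ _) ∘ₗ
      (LinearMap.fst ℝ (Pt n) (Pt n)))
    ((LinearMap.proj i : (Fin n → ℝ) →ₗ[ℝ] ℝ) ∘ₗ
      ((LinearMap.fst ℝ _ _) ∘ₗ (LinearMap.snd ℝ (Pt n) (Pt n)) -
        (LinearMap.fst ℝ _ _) ∘ₗ (LinearMap.fst ℝ (Pt n) (Pt n))))) -
  h.comp (((LinearMap.fst ℝ _ _) ∘ₗ (LinearMap.snd ℝ (Pt n) (Pt n))).prod
    ((LinearMap.snd ℝ _ _) ∘ₗ (LinearMap.fst ℝ (Pt n) (Pt n))))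

theorem loc_apply (h : QuadraticForm ℝ (Pt n)) (p q : Pt n) :
    loc h (p, q) = 2 * ∑ i, p.2 i * (q.1 i - p.1 i) - h (q.1, p.2) := by
  simp [loc, Finset.mul_sum]

variable {N : ℕ}

/-- the entry `j + 1` of the sequence `z_0, …, z_{N-1}, z'_0` -/
def nxt (j : Fin N) : ((Fin N → Pt n) × (Fin N → Pt n)) →ₗ[ℝ] Pt n :=
  if h : (j : ℕ) + 1 < N then
    (LinearMap.proj (⟨j + 1, h⟩ : Fin N) : (Fin N → Pt n) →ₗ[ℝ] Pt n) ∘ₗ LinearMap.fst ℝ _ _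
  else
    (LinearMap.proj (⟨0, j.pos⟩ : Fin N) : (Fin N → Pt n) →ₗ[ℝ] Pt n) ∘ₗ LinearMap.snd ℝ _ _

theorem nxt_apply (j : Fin N) (z z' : Fin N → Pt n) :
    nxt j (z, z') = if h : (j : ℕ) + 1 < N then z ⟨j + 1, h⟩ else z' ⟨0, j.pos⟩ := by
  unfold nxt
  split_ifs <;> rfl

/-- the form of one period: `(z, z') ↦ ∑ j, loc (h j) (z j, z (j + 1))`, with `z N = z' 0` -/
noncomputable def Gb (h : Fin N → QuadraticForm ℝ (Pt n)) :
    QuadraticForm ℝ ((Fin N → Pt n) × (Fin N → Pt n)) :=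
  ∑ j : Fin N, (loc (h j)).comp
    (((LinearMap.proj j : (Fin N → Pt n) →ₗ[ℝ] Pt n) ∘ₗ LinearMap.fst ℝ _ _).prod (nxt j))

theorem Gb_apply (h : Fin N → QuadraticForm ℝ (Pt n)) (z z' : Fin N → Pt n) :
    Gb h (z, z') = ∑ j, loc (h j) (z j, nxt j (z, z')) := by
  rw [Gb, QuadraticMap.sum_apply]
  rfl

/-- the coordinates seen by the block `j`: `(x_{j+1}, y_j)` -/
noncomputable def blk (j : Fin N) : ((Fin N → Pt n) × (Fin N → Pt n)) →ₗ[ℝ] Pt n :=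
  (LinearMap.fst ℝ _ _ ∘ₗ nxt j).prod
    (LinearMap.snd ℝ _ _ ∘ₗ (LinearMap.proj j : (Fin N → Pt n) →ₗ[ℝ] Pt n) ∘ₗ
      LinearMap.fst ℝ _ _)

theorem blk_apply (j : Fin N) (z z' : Fin N → Pt n) :
    blk j (z, z') = ((nxt j (z, z')).1, (z j).2) := rfl

/-- the Hessians of the generating functions along the orbit of `w` -/
noncomputable def hs (S : ℕ → Pt n → ℝ) (f : ℕ → Pt n → Pt n) (w : Pt n) (j : ℕ) :
    QuadraticForm ℝ (Pt n) :=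
  hess (S j) ((flw f (j + 1) w).1, (flw f j w).2)

/-- nondegeneracy of `1 - ∂²S/∂x∂y` for a quadratic form -/
def HInv (h : QuadraticForm ℝ (Pt n)) : Prop :=
  ∀ v : Fin n → ℝ, (∀ i, 2 * v i = QuadraticMap.polar h (v, 0) (0, Pi.single i 1)) → v = 0

end Pool.Agent.H47.OD
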