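import Pool.Agent.H47.OD.PerD

/-!
# Kernel vectors are determined by the coordinates of one block
-/

set_option autoImplicit false

open Module QuadraticForm

namespace Pool.Agent.H47.OD

open Pool.Agent.H47.QG

variable {n N : ℕ}

/-- changing the form of one block -/
theorem Gb_update (h : Fin N → QuadraticForm ℝ (Pt n)) (j₀ : Fin N) (q : QuadraticForm ℝ (Pt n))
    (z : (Fin N → Pt n) × (Fin N → Pt n)) :
    Gb (Function.update h j₀ (h j₀ + q)) z = Gb h z - q (blk j₀ z) := by
  obtain ⟨z, z'⟩ := z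
  rw [Gb_apply, Gb_apply]
  have h1 : ∀ j : Fin N, loc (Function.update h j₀ (h j₀ + q) j) (z j, nxt j (z, z')) =
      loc (h j) (z j, nxt j (z, z')) - if j = j₀ then q (blk j₀ (z, z')) else 0 := by
    intro j
    by_cases hj : j = j₀
    · subst hj
      rw [Function.update_self, if_pos rfl, loc_apply, loc_apply, QuadraticMap.add_apply,
        blk_apply]
      ring
    · rw [Function.update_of_ne hj, if_neg hj, sub_zero]
  rw [Finset.sum_congr rfl fun j _ => h1 j, Finset.sum_sub_distrib, Finset.sum_ite_eq',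
    if_pos (Finset.mem_univ _)]

/-- the polar form of the local term -/
theorem PerO_loc_polar (h : QuadraticForm ℝ (Pt n)) (p q p' q' : Pt n) :
    QuadraticMap.polar (loc h) (p, q) (p', q') =
      2 * ∑ i, (p.2 i * (q'.1 i - p'.1 i) + p'.2 i * (q.1 i - p.1 i)) -
        QuadraticMap.polar h (q.1, p.2) (q'.1, p'.2) := by
  have h1 : ((p, q) + (p', q') : Pt n × Pt n) = (p + p', q + q') := rfl
  have h2 : (((q + q').1, (p + p').2) : Pt n) = (q.1, p.2) + (q'.1, p'.2) := rfl
  unfold QuadraticMap.polar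
  rw [h1, loc_apply, loc_apply, loc_apply, h2]
  have h3 : ∑ i, (p + p').2 i * ((q + q').1 i - (p + p').1 i) =
      ∑ i, p.2 i * (q.1 i - p.1 i) + ∑ i, p'.2 i * (q'.1 i - p'.1 i) +
        ∑ i, (p.2 i * (q'.1 i - p'.1 i) + p'.2 i * (q.1 i - p.1 i)) := by
    rw [← Finset.sum_add_distrib, ← Finset.sum_add_distrib]
    refine Finset.sum_congr rfl fun i _ => ?_
    simp only [Prod.fst_add, Prod.snd_add, Pi.add_apply]
    ring
  rw [h3]
  ring

theorem PerO_Gb_polar (h : Fin N → QuadraticForm ℝ (Pt n)) (z z' v v' : Fin N → Pt n) :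
    QuadraticMap.polar (Gb h) (z, z') (v, v') =
      ∑ j, QuadraticMap.polar (loc (h j)) (z j, nxt j (z, z')) (v j, nxt j (v, v')) := by
  unfold QuadraticMap.polar
  have h1 : ((z, z') + (v, v') : (Fin N → Pt n) × (Fin N → Pt n)) = (z + v, z' + v') := rfl
  rw [h1, Gb_apply, Gb_apply, Gb_apply, ← Finset.sum_sub_distrib, ← Finset.sum_sub_distrib]
  refine Finset.sum_congr rfl fun j _ => ?_
  have h2 : nxt j (z + v, z' + v') = nxt j (z, z') + nxt j (v, v') := by
    rw [← h1, map_add]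
  rw [h2]
  rfl

theorem PerO_nxt_succ (j : Fin N) (hj : (j : ℕ) + 1 < N) (p : Pt n) (i : Fin N) :
    nxt i ((Pi.single ⟨j + 1, hj⟩ p : Fin N → Pt n), (0 : Fin N → Pt n)) =
      if i = j then p else 0 := by
  rw [nxt_apply]
  by_cases hij : i = j
  · subst hij
    rw [dif_pos hj, if_pos rfl, Pi.single_eq_same]
  · rw [if_neg hij]
    split_ifs with h
    · rw [Pi.single_eq_of_ne]
      intro hc
      apply hij
      have := congrArg Fin.val hc
      simp only at this
      exact Fin.ext (by omega)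
    · rfl

theorem PerO_nxt_zero (h0 : 0 < N) (p : Pt n) (i : Fin N) :
    nxt i ((Pi.single ⟨0, h0⟩ p : Fin N → Pt n), (0 : Fin N → Pt n)) = 0 := by
  rw [nxt_apply]
  split_ifs with h
  · rw [Pi.single_eq_of_ne]
    intro hc
    have := congrArg Fin.val hc
    simp only at this
    omega
  · rfl

theorem PerO_nxt_snd (j : Fin N) (hj : ¬ (j : ℕ) + 1 < N) (h0 : 0 < N) (p : Pt n) (i : Fin N) :
    nxt i ((0 : Fin N → Pt n), (Pi.single ⟨0, h0⟩ p : Fin N → Pt n)) =
      if i = j then p else 0 := by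
  rw [nxt_apply]
  by_cases hij : i = j
  · subst hij
    rw [dif_neg hj, if_pos rfl, Pi.single_eq_same]
  · rw [if_neg hij]
    have hi := i.isLt
    have hj' := j.isLt
    have : (i : ℕ) ≠ j := fun hc => hij (Fin.ext hc)
    rw [dif_pos (by omega)]
    rfl

theorem PerO_nxt_snd_succ (k : Fin N) (hk : (k : ℕ) ≠ 0) (p : Pt n) (i : Fin N) :
    nxt i ((0 : Fin N → Pt n), (Pi.single k p : Fin N → Pt n)) = 0 := by
  rw [nxt_apply]
  split_ifs with h
  · rfl
  · rw [Pi.single_eq_of_ne]
    intro hc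
    apply hk
    rw [← hc]

/-- `z` is an orbit piece of the linear maps with the generating functions `h j / 2`, with
`z' 0` the last point -/
def PerO_Orb (h : Fin N → QuadraticForm ℝ (Pt n)) (z : (Fin N → Pt n) × (Fin N → Pt n)) : Prop :=
  ∀ (j : Fin N) (i : Fin n),
    2 * ((nxt j z).1 i - (z.1 j).1 i) =
      QuadraticMap.polar (h j) (blk j z) (0, Pi.single i 1) ∧
    2 * ((z.1 j).2 i - (nxt j z).2 i) =
      QuadraticMap.polar (h j) (blk j z) (Pi.single i 1, 0)

theorem PerO_orb_comb (h : Fin N → QuadraticForm ℝ (Pt n)) {z w : (Fin N → Pt n) × (Fin N → Pt n)}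
    (hz : PerO_Orb h z) (hw : PerO_Orb h w) (c s : ℝ) : PerO_Orb h (c • z + s • w) := by
  intro j i
  obtain ⟨h1, h2⟩ := hz j i
  obtain ⟨h3, h4⟩ := hw j i
  rw [map_add, map_smul, map_smul, map_add, map_smul, map_smul, QuadraticMap.polar_add_left,
    QuadraticMap.polar_smul_left, QuadraticMap.polar_smul_left, QuadraticMap.polar_add_left,
    QuadraticMap.polar_smul_left, QuadraticMap.polar_smul_left, ← h1, ← h2, ← h3, ← h4]
  simp only [Prod.fst_add, Prod.snd_add, Prod.smul_fst, Prod.smul_snd, Pi.add_apply, Pi.smul_apply,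
    smul_eq_mul]
  constructor <;> ring

/-- an orbit piece which vanishes in the coordinates of one block vanishes at the end -/
theorem PerO_orb_step (h : Fin N → QuadraticForm ℝ (Pt n)) (hinv : ∀ j, HInv (h j))
    {z : (Fin N → Pt n) × (Fin N → Pt n)} (hz : PerO_Orb h z) (j : Fin N) (h0 : z.1 j = 0) :
    nxt j z = 0 := by
  obtain ⟨a, b⟩ := z
  simp only at h0
  have h1 : (nxt j (a, b)).1 = 0 := by
    apply hinv j
    intro i
    have h2 := (hz j i).1
    rw [blk_apply] at h2
    simp only [h0, Prod.fst_zero, Prod.snd_zero, Pi.zero_apply, sub_zero] at h2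
    exact h2
  refine Prod.ext h1 (funext fun i => ?_)
  have h2 := (hz j i).2
  rw [blk_apply] at h2
  simp only [h0, h1, Prod.snd_zero, Pi.zero_apply, zero_sub] at h2
  have h3 : QuadraticMap.polar (h j) ((0 : Fin n → ℝ), (0 : Fin n → ℝ)) (Pi.single i 1, 0) = 0 :=
    QuadraticMap.polar_zero_left _ _
  rw [h3] at h2
  simp only [Prod.snd_zero, Pi.zero_apply]
  linarith

theorem PerO_orb_blk (h : Fin N → QuadraticForm ℝ (Pt n))
    {z : (Fin N → Pt n) × (Fin N → Pt n)} (hz : PerO_Orb h z) (j : Fin N) (h0 : blk j z = 0) :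
    z.1 j = 0 := by
  obtain ⟨a, b⟩ := z
  rw [blk_apply] at h0
  have h1 : (nxt j (a, b)).1 = 0 := congrArg Prod.fst h0
  have h2 : (a j).2 = 0 := congrArg Prod.snd h0
  refine Prod.ext (funext fun i => ?_) h2
  have h3 := (hz j i).1
  rw [blk_apply, h0, QuadraticMap.polar_zero_left, h1] at h3
  simp only [Pi.zero_apply, zero_sub] at h3
  simp only [Prod.fst_zero, Pi.zero_apply]
  linarith

theorem PerO_orb_iter (h : Fin N → QuadraticForm ℝ (Pt n)) (hinv : ∀ j, HInv (h j))
    {z : (Fin N → Pt n) × (Fin N → Pt n)} (hz : PerO_Orb h z) (j : Fin N) (h0 : z.1 j = 0) :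
    ∀ k : ℕ, ∀ hk : (j : ℕ) + k < N, z.1 ⟨j + k, hk⟩ = 0 := by
  intro k
  induction k with
  | zero => intro hk; exact h0
  | succ k ih =>
    intro hk
    have h1 := PerO_orb_step h hinv hz ⟨j + k, by omega⟩ (ih (by omega))
    obtain ⟨a, b⟩ := z
    rw [nxt_apply] at h1
    have h2 : ((⟨(j : ℕ) + k, by omega⟩ : Fin N) : ℕ) + 1 < N := by
      show (j : ℕ) + k + 1 < N
      omega
    rw [dif_pos h2] at h1
    exact h1

/-- an orbit piece with a vanishing entry ends at zero -/
theorem PerO_orb_last (h : Fin N → QuadraticForm ℝ (Pt n)) (hinv : ∀ j, HInv (h j))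
    {z : (Fin N → Pt n) × (Fin N → Pt n)} (hz : PerO_Orb h z) (j : Fin N) (h0 : z.1 j = 0) :
    z.2 ⟨0, j.pos⟩ = 0 := by
  have hj := j.isLt
  have h1 := PerO_orb_iter h hinv hz j h0 (N - 1 - j) (by omega)
  have h2 := PerO_orb_step h hinv hz _ h1
  obtain ⟨a, b⟩ := z
  rw [nxt_apply, dif_neg] at h2
  · exact h2
  · show ¬ (j : ℕ) + (N - 1 - j) + 1 < N
    omega

theorem PerO_polar_Gth (G : QuadraticForm ℝ ((Fin N → Pt n) × (Fin N → Pt n))) (θ : ℝ)
    (a b a' b' : Fin N → Pt n) :
    QuadraticMap.polar (Gth G θ) (a, b) (a', b') =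
      QuadraticMap.polar G (a, Real.cos θ • a - Real.sin θ • b)
        (a', Real.cos θ • a' - Real.sin θ • b') +
      QuadraticMap.polar G (b, Real.sin θ • a + Real.cos θ • b)
        (b', Real.sin θ • a' + Real.cos θ • b') := by
  unfold QuadraticMap.polar
  have h1 : ((a, b) + (a', b') : (Fin N → Pt n) × (Fin N → Pt n)) = (a + a', b + b') := rfl
  have h2 : (Real.cos θ • (a + a') - Real.sin θ • (b + b')) =
      (Real.cos θ • a - Real.sin θ • b) + (Real.cos θ • a' - Real.sin θ • b') := by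
    rw [smul_add, smul_add]; abel
  have h3 : (Real.sin θ • (a + a') + Real.cos θ • (b + b')) =
      (Real.sin θ • a + Real.cos θ • b) + (Real.sin θ • a' + Real.cos θ • b') := by
    rw [smul_add, smul_add]; abel
  rw [h1, Gth_apply, Gth_apply, Gth_apply, h2, h3]
  simp only [Prod.mk_add_mk]
  ring

theorem PerO_test1 (h : Fin N → QuadraticForm ℝ (Pt n)) (z z' : Fin N → Pt n) (k : Fin N)
    (p : Pt n) : QuadraticMap.polar (Gb h) (z, z') ((Pi.single k p : Fin N → Pt n), 0) =
      QuadraticMap.polar (loc (h k)) (z k, nxt k (z, z')) (p, 0) +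
      ∑ j, QuadraticMap.polar (loc (h j)) (z j, nxt j (z, z'))
        (0, nxt j ((Pi.single k p : Fin N → Pt n), 0)) := by
  rw [PerO_Gb_polar]
  have h1 : ∀ j : Fin N, QuadraticMap.polar (loc (h j)) (z j, nxt j (z, z'))
      ((Pi.single k p : Fin N → Pt n) j, nxt j ((Pi.single k p : Fin N → Pt n), 0)) =
      (if j = k then QuadraticMap.polar (loc (h k)) (z k, nxt k (z, z')) (p, 0) else 0) +
      QuadraticMap.polar (loc (h j)) (z j, nxt j (z, z'))
        (0, nxt j ((Pi.single k p : Fin N → Pt n), 0)) := by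
    intro j
    have h2 : (((Pi.single k p : Fin N → Pt n) j, nxt j ((Pi.single k p : Fin N → Pt n), 0)) :
        Pt n × Pt n) = ((Pi.single k p : Fin N → Pt n) j, 0) +
          (0, nxt j ((Pi.single k p : Fin N → Pt n), 0)) := by
      rw [Prod.mk_add_mk, add_zero, zero_add]
    rw [h2, QuadraticMap.polar_add_right]
    congr 1
    by_cases hj : j = k
    · subst hj
      rw [if_pos rfl, Pi.single_eq_same]
    · rw [if_neg hj, Pi.single_eq_of_ne hj]
      exact QuadraticMap.polar_zero_right _ _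
  rw [Finset.sum_congr rfl fun j _ => h1 j, Finset.sum_add_distrib, Finset.sum_ite_eq',
    if_pos (Finset.mem_univ _)]

theorem PerO_test2 (h : Fin N → QuadraticForm ℝ (Pt n)) (z z' v : Fin N → Pt n) :
    QuadraticMap.polar (Gb h) (z, z') (0, v) =
      ∑ j, QuadraticMap.polar (loc (h j)) (z j, nxt j (z, z'))
        (0, nxt j ((0 : Fin N → Pt n), v)) := by
  rw [PerO_Gb_polar]
  rfl

theorem PerO_loc_left (h : QuadraticForm ℝ (Pt n)) (p q : Pt n) (x y : Fin n → ℝ) :
    QuadraticMap.polar (loc h) (p, q) ((x, y), 0) =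
      2 * ∑ i, (y i * (q.1 i - p.1 i) - p.2 i * x i) -
        QuadraticMap.polar h (q.1, p.2) (0, y) := by
  rw [PerO_loc_polar]
  congr 2
  refine Finset.sum_congr rfl fun i _ => ?_
  simp only [Prod.fst_zero, Pi.zero_apply]
  ring

theorem PerO_loc_right (h : QuadraticForm ℝ (Pt n)) (p q : Pt n) (x y : Fin n → ℝ) :
    QuadraticMap.polar (loc h) (p, q) (0, (x, y)) =
      2 * ∑ i, p.2 i * x i - QuadraticMap.polar h (q.1, p.2) (x, 0) := by
  rw [PerO_loc_polar]
  congr 2
  refine Finset.sum_congr rfl fun i _ => ?_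
  simp only [Prod.fst_zero, Prod.snd_zero, Pi.zero_apply]
  ring

theorem PerO_sum_single (f : Fin n → ℝ) (i : Fin n) :
    ∑ k, f k * (Pi.single i 1 : Fin n → ℝ) k = f i := by
  rw [Finset.sum_eq_single i]
  · rw [Pi.single_eq_same, mul_one]
  · intro b _ hb
    rw [Pi.single_eq_of_ne hb, mul_zero]
  · intro hi
    exact absurd (Finset.mem_univ _) hi

/-- the kernel equation for one sequence: `G` at `(a, a₁)` tested with `(v, 0)` and at
`(a₋₁, a)` tested with `(0, v)` -/
theorem PerO_orb_of (h : Fin N → QuadraticForm ℝ (Pt n)) (am a a1 : Fin N → Pt n)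
    (hk : ∀ v : Fin N → Pt n, QuadraticMap.polar (Gb h) (a, a1) (v, 0) +
      QuadraticMap.polar (Gb h) (am, a) (0, v) = 0) :
    (∀ (j : Fin N) (i : Fin n), 2 * ((nxt j (a, a1)).1 i - (a j).1 i) =
      QuadraticMap.polar (h j) (blk j (a, a1)) (0, Pi.single i 1)) ∧
    (∀ (j : Fin N) (i : Fin n), (j : ℕ) + 1 < N →
      2 * ((a j).2 i - (nxt j (a, a1)).2 i) =
      QuadraticMap.polar (h j) (blk j (a, a1)) (Pi.single i 1, 0)) ∧
    (∀ (j : Fin N) (i : Fin n), ¬ (j : ℕ) + 1 < N →
      2 * ((am j).2 i - (nxt j (am, a)).2 i) =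
      QuadraticMap.polar (h j) (blk j (am, a)) (Pi.single i 1, 0)) := by
  refine ⟨fun j i => ?_, fun j i hj => ?_, fun j i hj => ?_⟩
  · have h1 := hk (Pi.single j ((0 : Fin n → ℝ), Pi.single i 1))
    have h2 : ∀ (k : Fin N) (v v' : Fin N → Pt n), (∀ l, (v l).1 = 0) → (∀ l, (v' l).1 = 0) →
        (nxt k (v, v')).1 = 0 := by
      intro k v v' hv hv'
      rw [nxt_apply]
      split_ifs with hh
      · exact hv _
      · exact hv' _
    have h3 : ∀ l, ((Pi.single j ((0 : Fin n → ℝ), Pi.single i 1) : Fin N → Pt n) l).1 = 0 := by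
      intro l
      by_cases hl : l = j
      · subst hl
        rw [Pi.single_eq_same]
      · rw [Pi.single_eq_of_ne hl]
        rfl
    have h4 : ∀ (g : QuadraticForm ℝ (Pt n)) (p q r : Pt n), r.1 = 0 →
        QuadraticMap.polar (loc g) (p, q) (0, r) = 0 := by
      intro g p q r hr
      obtain ⟨x, y⟩ := r
      simp only at hr
      subst hr
      rw [PerO_loc_right]
      simp only [Pi.zero_apply, mul_zero, Finset.sum_const_zero, zero_sub, neg_eq_zero]
      exact QuadraticMap.polar_zero_right _ _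
    rw [PerO_test1, PerO_test2, Finset.sum_eq_zero, Finset.sum_eq_zero, PerO_loc_left] at h1
    · have h5 : ∑ k, ((Pi.single i 1 : Fin n → ℝ) k * ((nxt j (a, a1)).1 k - (a j).1 k) -
          (a j).2 k * (0 : Fin n → ℝ) k) = (nxt j (a, a1)).1 i - (a j).1 i := by
        have h6 := PerO_sum_single (fun k => (nxt j (a, a1)).1 k - (a j).1 k) i
        rw [← h6]
        refine Finset.sum_congr rfl fun k _ => ?_
        simp only [Pi.zero_apply]
        ring
      rw [h5] at h1
      rw [blk_apply]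
      linarith
    · intro k _
      exact h4 _ _ _ _ (h2 k _ _ (fun l => rfl) h3)
    · intro k _
      exact h4 _ _ _ _ (h2 k _ _ h3 (fun l => rfl))
  · have h1 := hk (Pi.single ⟨j + 1, hj⟩ (Pi.single i 1, (0 : Fin n → ℝ)))
    rw [PerO_test1, PerO_test2, PerO_loc_left] at h1
    have h2 : ∀ k : Fin N, QuadraticMap.polar (loc (h k)) (a k, nxt k (a, a1))
        (0, nxt k ((Pi.single ⟨j + 1, hj⟩ (Pi.single i 1, (0 : Fin n → ℝ)) : Fin N → Pt n), 0)) =
        if k = j then QuadraticMap.polar (loc (h j)) (a j, nxt j (a, a1))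
          (0, (Pi.single i 1, (0 : Fin n → ℝ))) else 0 := by
      intro k
      rw [PerO_nxt_succ j hj]
      by_cases hkj : k = j
      · subst hkj
        rw [if_pos rfl, if_pos rfl]
      · rw [if_neg hkj, if_neg hkj]
        exact QuadraticMap.polar_zero_right _ _
    have h3 : ∀ k : Fin N, QuadraticMap.polar (loc (h k)) (am k, nxt k (am, a))
        (0, nxt k ((0 : Fin N → Pt n),
          (Pi.single ⟨j + 1, hj⟩ (Pi.single i 1, (0 : Fin n → ℝ)) : Fin N → Pt n))) = 0 := by
      intro k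
      rw [PerO_nxt_snd_succ _ (by show (j : ℕ) + 1 ≠ 0; omega)]
      exact QuadraticMap.polar_zero_right _ _
    rw [Finset.sum_congr rfl fun k _ => h2 k, Finset.sum_congr rfl fun k _ => h3 k,
      Finset.sum_const_zero, Finset.sum_ite_eq', if_pos (Finset.mem_univ _), PerO_loc_right] at h1
    have h5 : ∑ k, ((0 : Fin n → ℝ) k * ((nxt ⟨j + 1, hj⟩ (a, a1)).1 k -
        (a ⟨j + 1, hj⟩).1 k) - (a ⟨j + 1, hj⟩).2 k * (Pi.single i 1 : Fin n → ℝ) k) =
        - (a ⟨j + 1, hj⟩).2 i := by
      have h6 := PerO_sum_single (fun k => (a ⟨j + 1, hj⟩).2 k) i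
      rw [← h6, ← Finset.sum_neg_distrib]
      refine Finset.sum_congr rfl fun k _ => ?_
      simp only [Pi.zero_apply]
      ring
    have h7 : QuadraticMap.polar (h ⟨j + 1, hj⟩)
        ((nxt ⟨j + 1, hj⟩ (a, a1)).1, (a ⟨j + 1, hj⟩).2) (0, (0 : Fin n → ℝ)) = 0 :=
      QuadraticMap.polar_zero_right _ _
    have h8 : nxt j (a, a1) = a ⟨j + 1, hj⟩ := by
      rw [nxt_apply, dif_pos hj]
    rw [h5, h7, PerO_sum_single (fun k => (a j).2 k) i] at h1
    rw [blk_apply, h8]
    rw [h8] at h1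
    linarith
  · have h0 : 0 < N := j.pos
    have h1 := hk (Pi.single ⟨0, h0⟩ (Pi.single i 1, (0 : Fin n → ℝ)))
    rw [PerO_test1, PerO_test2, PerO_loc_left] at h1
    have h2 : ∀ k : Fin N, QuadraticMap.polar (loc (h k)) (a k, nxt k (a, a1))
        (0, nxt k ((Pi.single ⟨0, h0⟩ (Pi.single i 1, (0 : Fin n → ℝ)) : Fin N → Pt n), 0)) =
        0 := by
      intro k
      rw [PerO_nxt_zero h0]
      exact QuadraticMap.polar_zero_right _ _
    have h3 : ∀ k : Fin N, QuadraticMap.polar (loc (h k)) (am k, nxt k (am, a))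
        (0, nxt k ((0 : Fin N → Pt n),
          (Pi.single ⟨0, h0⟩ (Pi.single i 1, (0 : Fin n → ℝ)) : Fin N → Pt n))) =
        if k = j then QuadraticMap.polar (loc (h j)) (am j, nxt j (am, a))
          (0, (Pi.single i 1, (0 : Fin n → ℝ))) else 0 := by
      intro k
      rw [PerO_nxt_snd j hj h0]
      by_cases hkj : k = j
      · subst hkj
        rw [if_pos rfl, if_pos rfl]
      · rw [if_neg hkj, if_neg hkj]
        exact QuadraticMap.polar_zero_right _ _
    rw [Finset.sum_congr rfl fun k _ => h2 k, Finset.sum_congr rfl fun k _ => h3 k,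
      Finset.sum_const_zero, Finset.sum_ite_eq', if_pos (Finset.mem_univ _), PerO_loc_right] at h1
    have h5 : ∑ k, ((0 : Fin n → ℝ) k * ((nxt ⟨0, h0⟩ (a, a1)).1 k -
        (a ⟨0, h0⟩).1 k) - (a ⟨0, h0⟩).2 k * (Pi.single i 1 : Fin n → ℝ) k) =
        - (a ⟨0, h0⟩).2 i := by
      have h6 := PerO_sum_single (fun k => (a ⟨0, h0⟩).2 k) i
      rw [← h6, ← Finset.sum_neg_distrib]
      refine Finset.sum_congr rfl fun k _ => ?_
      simp only [Pi.zero_apply]
      ring
    have h7 : QuadraticMap.polar (h ⟨0, h0⟩)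
        ((nxt ⟨0, h0⟩ (a, a1)).1, (a ⟨0, h0⟩).2) (0, (0 : Fin n → ℝ)) = 0 :=
      QuadraticMap.polar_zero_right _ _
    have h8 : nxt j (am, a) = a ⟨0, h0⟩ := by
      rw [nxt_apply, dif_neg hj]
    rw [h5, h7, PerO_sum_single (fun k => (am j).2 k) i] at h1
    rw [blk_apply, h8]
    rw [h8] at h1
    linarith

/-- kernel vectors of the twisted form are orbits -/
theorem PerO_orb (h : Fin N → QuadraticForm ℝ (Pt n)) (θ : ℝ) (a b : Fin N → Pt n)
    (hu : (a, b) ∈ (Gth (Gb h) θ).radical) :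
    PerO_Orb h (a, Real.cos θ • a - Real.sin θ • b) ∧
      PerO_Orb h (b, Real.sin θ • a + Real.cos θ • b) := by
  set c := Real.cos θ with hc
  set s := Real.sin θ with hs
  have hcs : s ^ 2 + c ^ 2 = 1 := Real.sin_sq_add_cos_sq θ
  have hk : ∀ v w : Fin N → Pt n, QuadraticMap.polar (Gb h) (a, c • a - s • b)
      (v, c • v - s • w) + QuadraticMap.polar (Gb h) (b, s • a + c • b) (w, s • v + c • w) =
      0 := by
    intro v w
    rw [← PerO_polar_Gth]
    have h1 := QuadraticMap.mem_radical_iff'.1 hu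
    unfold QuadraticMap.polar
    rw [h1.2, h1.1]
    ring
  have e1 : c • (c • a - s • b) + s • (s • a + c • b) = a := by
    have h1 : c • (c • a - s • b) + s • (s • a + c • b) = (s ^ 2 + c ^ 2) • a := by module
    rw [h1, hcs, one_smul]
  have e2 : c • (s • a + c • b) - s • (c • a - s • b) = b := by
    have h1 : c • (s • a + c • b) - s • (c • a - s • b) = (s ^ 2 + c ^ 2) • b := by module
    rw [h1, hcs, one_smul]
  have split : ∀ (z : (Fin N → Pt n) × (Fin N → Pt n)) (v w : Fin N → Pt n) (t : ℝ),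
      QuadraticMap.polar (Gb h) z (v, t • w) = QuadraticMap.polar (Gb h) z (v, 0) +
        t * QuadraticMap.polar (Gb h) z (0, w) := by
    intro z v w t
    have h1 : ((v, t • w) : (Fin N → Pt n) × (Fin N → Pt n)) = (v, 0) + t • (0, w) := by
      rw [Prod.smul_mk, smul_zero, Prod.mk_add_mk, add_zero, zero_add]
    rw [h1, QuadraticMap.polar_add_right, QuadraticMap.polar_smul_right, smul_eq_mul]
  have comb : ∀ (z z' : (Fin N → Pt n) × (Fin N → Pt n)) (w : Fin N → Pt n) (t t' : ℝ),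
      t * QuadraticMap.polar (Gb h) z (0, w) + t' * QuadraticMap.polar (Gb h) z' (0, w) =
        QuadraticMap.polar (Gb h) (t • z + t' • z') (0, w) := by
    intro z z' w t t'
    rw [QuadraticMap.polar_add_left, QuadraticMap.polar_smul_left, QuadraticMap.polar_smul_left,
      smul_eq_mul, smul_eq_mul]
  have hA : ∀ v : Fin N → Pt n, QuadraticMap.polar (Gb h) (a, c • a - s • b) (v, 0) +
      QuadraticMap.polar (Gb h) (c • a + s • b, a) (0, v) = 0 := by
    intro v
    have h1 := hk v 0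
    rw [smul_zero, smul_zero, sub_zero, add_zero, split] at h1
    have h2 := split (b, s • a + c • b) 0 v s
    rw [h2] at h1
    have h3 : QuadraticMap.polar (Gb h) (b, s • a + c • b) ((0 : Fin N → Pt n), 0) = 0 :=
      QuadraticMap.polar_zero_right _ _
    rw [h3, zero_add, add_assoc, comb] at h1
    have h4 : c • ((a, c • a - s • b) : (Fin N → Pt n) × (Fin N → Pt n)) +
        s • (b, s • a + c • b) = (c • a + s • b, a) := by
      rw [Prod.smul_mk, Prod.smul_mk, Prod.mk_add_mk, e1]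
    rw [h4] at h1
    exact h1
  have hB : ∀ v : Fin N → Pt n, QuadraticMap.polar (Gb h) (b, s • a + c • b) (v, 0) +
      QuadraticMap.polar (Gb h) ((-s) • a + c • b, b) (0, v) = 0 := by
    intro v
    have h1 := hk 0 v
    rw [smul_zero, smul_zero, zero_sub, zero_add, ← neg_smul, split] at h1
    have h2 := split (b, s • a + c • b) v v c
    rw [h2] at h1
    have h3 : QuadraticMap.polar (Gb h) (a, c • a - s • b) ((0 : Fin N → Pt n), 0) = 0 :=
      QuadraticMap.polar_zero_right _ _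
    rw [h3, zero_add, add_left_comm, comb] at h1
    have h4 : (-s) • ((a, c • a - s • b) : (Fin N → Pt n) × (Fin N → Pt n)) +
        c • (b, s • a + c • b) = ((-s) • a + c • b, b) := by
      rw [Prod.smul_mk, Prod.smul_mk, Prod.mk_add_mk]
      congr 1
      rw [neg_smul, add_comm, ← sub_eq_add_neg, e2]
    rw [h4] at h1
    exact h1
  obtain ⟨x1, y1, l1⟩ := PerO_orb_of h _ a _ hA
  obtain ⟨x2, y2, l2⟩ := PerO_orb_of h _ b _ hB
  -- rotate the last equation by one period
  have rotA : c • ((c • a + s • b, a) : (Fin N → Pt n) × (Fin N → Pt n)) -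
      s • ((-s) • a + c • b, b) = (a, c • a - s • b) := by
    rw [Prod.smul_mk, Prod.smul_mk, Prod.mk_sub_mk]
    congr 1
    have h1 : c • (c • a + s • b) - s • ((-s) • a + c • b) = (s ^ 2 + c ^ 2) • a := by module
    rw [h1, hcs, one_smul]
  have rotB : s • ((c • a + s • b, a) : (Fin N → Pt n) × (Fin N → Pt n)) +
      c • ((-s) • a + c • b, b) = (b, s • a + c • b) := by
    rw [Prod.smul_mk, Prod.smul_mk, Prod.mk_add_mk]
    congr 1
    have h1 : s • (c • a + s • b) + c • ((-s) • a + c • b) = (s ^ 2 + c ^ 2) • b := by module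
    rw [h1, hcs, one_smul]
  have key : ∀ (t t' : ℝ) (j : Fin N) (i : Fin n), ¬ (j : ℕ) + 1 < N →
      2 * (((t • ((c • a + s • b, a) : (Fin N → Pt n) × (Fin N → Pt n)) +
        t' • ((-s) • a + c • b, b)).1 j).2 i -
        (nxt j (t • ((c • a + s • b, a) : (Fin N → Pt n) × (Fin N → Pt n)) +
        t' • ((-s) • a + c • b, b))).2 i) =
      QuadraticMap.polar (h j) (blk j (t • ((c • a + s • b, a) :
        (Fin N → Pt n) × (Fin N → Pt n)) + t' • ((-s) • a + c • b, b))) (Pi.single i 1, 0) := by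
    intro t t' j i hj
    have h1 := l1 j i hj
    have h2 := l2 j i hj
    rw [map_add, map_smul, map_smul, map_add, map_smul, map_smul, QuadraticMap.polar_add_left,
      QuadraticMap.polar_smul_left, QuadraticMap.polar_smul_left, ← h1, ← h2]
    simp only [Prod.fst_add, Prod.snd_add, Prod.smul_fst, Prod.smul_snd, Pi.add_apply,
      Pi.smul_apply, smul_eq_mul]
    ring
  constructor
  · intro j i
    refine ⟨x1 j i, ?_⟩
    by_cases hj : (j : ℕ) + 1 < N
    · exact y1 j i hj
    · have h1 := key c (-s) j i hj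
      have h2 : c • ((c • a + s • b, a) : (Fin N → Pt n) × (Fin N → Pt n)) +
          (-s) • ((-s) • a + c • b, b) = (a, c • a - s • b) := by
        rw [← rotA, neg_smul s ((-s) • a + c • b, b), ← sub_eq_add_neg]
      rw [h2] at h1
      exact h1
  · intro j i
    refine ⟨x2 j i, ?_⟩
    by_cases hj : (j : ℕ) + 1 < N
    · exact y2 j i hj
    · have h1 := key s c j i hj
      rw [rotB] at h1
      exact h1

/-- kernel vectors of the twisted form with vanishing block coordinates vanish -/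
theorem obs (h : Fin N → QuadraticForm ℝ (Pt n)) (hinv : ∀ j, HInv (h j)) (θ : ℝ)
    (u : (Fin N → Pt n) × (Fin N → Pt n)) (hu : u ∈ (Gth (Gb h) θ).radical) (j₀ : Fin N)
    (h1 : blk j₀ (u.1, (rot θ u).1) = 0) (h2 : blk j₀ (u.2, (rot θ u).2) = 0) : u = 0 := by
  obtain ⟨a, b⟩ := u
  rw [rot_apply] at h1 h2
  simp only at h1 h2
  obtain ⟨o1, o2⟩ := PerO_orb h θ a b hu
  have e1 := PerO_orb_last h hinv o1 j₀ (PerO_orb_blk h o1 j₀ h1)
  have e2 := PerO_orb_last h hinv o2 j₀ (PerO_orb_blk h o2 j₀ h2)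
  simp only [Pi.sub_apply, Pi.add_apply, Pi.smul_apply] at e1 e2
  have hcs := Real.sin_sq_add_cos_sq θ
  set a0 := a ⟨0, j₀.pos⟩ with ha0
  set b0 := b ⟨0, j₀.pos⟩ with hb0
  have e3 : a0 = 0 := by
    have h3 : Real.cos θ • (Real.cos θ • a0 - Real.sin θ • b0) +
        Real.sin θ • (Real.sin θ • a0 + Real.cos θ • b0) =
        (Real.sin θ ^ 2 + Real.cos θ ^ 2) • a0 := by
      module
    rw [e1, e2, smul_zero, smul_zero, add_zero, hcs, one_smul] at h3
    exact h3.symm
  have e4 : b0 = 0 := by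
    have h3 : Real.cos θ • (Real.sin θ • a0 + Real.cos θ • b0) -
        Real.sin θ • (Real.cos θ • a0 - Real.sin θ • b0) =
        (Real.sin θ ^ 2 + Real.cos θ ^ 2) • b0 := by
      module
    rw [e1, e2, smul_zero, smul_zero, sub_zero, hcs, one_smul] at h3
    exact h3.symm
  have f1 := PerO_orb_iter h hinv o1 ⟨0, j₀.pos⟩ e3
  have f2 := PerO_orb_iter h hinv o2 ⟨0, j₀.pos⟩ e4
  refine Prod.ext (funext fun j => ?_) (funext fun j => ?_)
  · have h3 := f1 j (by show 0 + (j : ℕ) < N; omega)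
    have h4 : (⟨((⟨0, j₀.pos⟩ : Fin N) : ℕ) + (j : ℕ), by show 0 + (j : ℕ) < N; omega⟩ : Fin N) = j :=
      Fin.ext (by show 0 + (j : ℕ) = j; omega)
    rw [h4] at h3
    exact h3
  · have h3 := f2 j (by show 0 + (j : ℕ) < N; omega)
    have h4 : (⟨((⟨0, j₀.pos⟩ : Fin N) : ℕ) + (j : ℕ), by show 0 + (j : ℕ) < N; omega⟩ : Fin N) = j :=
      Fin.ext (by show 0 + (j : ℕ) = j; omega)
    rw [h4] at h3
    exact h3

end Pool.Agent.H47.OD
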