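import Mathlib.MeasureTheory.Function.Jacobian
import Pool.Agent.H47.OD.Fl

/-!
# Generic shears make all fixed points nondegenerate
-/

set_option autoImplicit false

open Module Filter Topology MeasureTheory

namespace Pool.Agent.H47.OD

open Pool.Agent.H47.QG

variable {n : ℕ}

/-- the function `s ↦ a cos 2πs + b sin 2πs` in each coordinate -/
noncomputable def trg (a b : Fin n → ℝ) (x : Fin n → ℝ) : Fin n → ℝ := fun i =>
  a i * Real.cos (2 * Real.pi * x i) + b i * Real.sin (2 * Real.pi * x i)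

/-- the shear `(x, y) ↦ (x, y - trg a b x)` -/
noncomputable def shU (a b : Fin n → ℝ) (z : Pt n) : Pt n := (z.1, z.2 - trg a b z.1)

/-- the shear `(x, y) ↦ (x + trg a b y, y)` -/
noncomputable def shV (a b : Fin n → ℝ) (z : Pt n) : Pt n := (z.1 + trg a b z.2, z.2)

/-! ### the map of the regular values -/

/-- `cos 2πx` in each coordinate -/
noncomputable def sardS_cs (x : Fin n → ℝ) : Fin n → ℝ := fun i => Real.cos (2 * Real.pi * x i)

/-- `sin 2πx` in each coordinate -/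
noncomputable def sardS_sn (x : Fin n → ℝ) : Fin n → ℝ := fun i => Real.sin (2 * Real.pi * x i)

lemma sardS_trg (a b x : Fin n → ℝ) : trg a b x = a * sardS_cs x + b * sardS_sn x := rfl

lemma sardS_sq (x : Fin n → ℝ) : sardS_cs x * sardS_cs x + sardS_sn x * sardS_sn x = 1 := by
  funext i
  have h := Real.cos_sq_add_sin_sq (2 * Real.pi * x i)
  simp only [sardS_cs, sardS_sn, Pi.add_apply, Pi.mul_apply, Pi.one_apply]
  nlinarith [h]

lemma sardS_cs_smooth : ContDiff ℝ 1 (sardS_cs (n := n)) := by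
  refine contDiff_pi.2 fun i => ?_
  exact Real.contDiff_cos.comp (contDiff_const.mul (contDiff_apply ℝ ℝ i))

lemma sardS_sn_smooth : ContDiff ℝ 1 (sardS_sn (n := n)) := by
  refine contDiff_pi.2 fun i => ?_
  exact Real.contDiff_sin.comp (contDiff_const.mul (contDiff_apply ℝ ℝ i))

/-- the map `(x, y, s, t) ↦ (a, b, c, d)` -/
noncomputable def sardS_G (Φ : Pt n → Pt n) (q : Pt n × Pt n) : Pt n × Pt n :=
  ((((Φ q.1).2 - q.1.2) * sardS_cs (Φ q.1).1 - q.2.1 * sardS_sn (Φ q.1).1,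
    ((Φ q.1).2 - q.1.2) * sardS_sn (Φ q.1).1 + q.2.1 * sardS_cs (Φ q.1).1),
   ((q.1.1 - (Φ q.1).1) * sardS_cs q.1.2 - q.2.2 * sardS_sn q.1.2,
    (q.1.1 - (Φ q.1).1) * sardS_sn q.1.2 + q.2.2 * sardS_cs q.1.2))

lemma sardS_G_smooth {Φ : Pt n → Pt n} (hΦ : ContDiff ℝ 1 Φ) : ContDiff ℝ 1 (sardS_G Φ) := by
  have hP : ContDiff ℝ 1 (fun q : Pt n × Pt n => Φ q.1) := hΦ.comp contDiff_fst
  have hX : ContDiff ℝ 1 (fun q : Pt n × Pt n => (Φ q.1).1) := contDiff_fst.comp hP
  have hY : ContDiff ℝ 1 (fun q : Pt n × Pt n => (Φ q.1).2) := contDiff_snd.comp hP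
  have hx : ContDiff ℝ 1 (fun q : Pt n × Pt n => q.1.1) := contDiff_fst.comp contDiff_fst
  have hy : ContDiff ℝ 1 (fun q : Pt n × Pt n => q.1.2) := contDiff_snd.comp contDiff_fst
  have hs : ContDiff ℝ 1 (fun q : Pt n × Pt n => q.2.1) := contDiff_fst.comp contDiff_snd
  have ht : ContDiff ℝ 1 (fun q : Pt n × Pt n => q.2.2) := contDiff_snd.comp contDiff_snd
  have c1 : ContDiff ℝ 1 (fun q : Pt n × Pt n => sardS_cs (Φ q.1).1) := sardS_cs_smooth.comp hX
  have s1 : ContDiff ℝ 1 (fun q : Pt n × Pt n => sardS_sn (Φ q.1).1) := sardS_sn_smooth.comp hX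
  have c2 : ContDiff ℝ 1 (fun q : Pt n × Pt n => sardS_cs q.1.2) := sardS_cs_smooth.comp hy
  have s2 : ContDiff ℝ 1 (fun q : Pt n × Pt n => sardS_sn q.1.2) := sardS_sn_smooth.comp hy
  exact ((((hY.sub hy).mul c1).sub (hs.mul s1)).prodMk (((hY.sub hy).mul s1).add (hs.mul c1))).prodMk
    ((((hx.sub hX).mul c2).sub (ht.mul s2)).prodMk (((hx.sub hX).mul s2).add (ht.mul c2)))

/-- the section over the fixed points -/
noncomputable def sardS_S (Φ : Pt n → Pt n) (a b c d : Fin n → ℝ) (w : Pt n) : Pt n × Pt n :=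
  (w, (b * sardS_cs (Φ w).1 - a * sardS_sn (Φ w).1, d * sardS_cs w.2 - c * sardS_sn w.2))

lemma sardS_S_smooth {Φ : Pt n → Pt n} (hΦ : ContDiff ℝ 1 Φ) (a b c d : Fin n → ℝ) :
    ContDiff ℝ 1 (sardS_S Φ a b c d) := by
  have hX : ContDiff ℝ 1 (fun w : Pt n => (Φ w).1) := contDiff_fst.comp hΦ
  have c1 : ContDiff ℝ 1 (fun w : Pt n => sardS_cs (Φ w).1) := sardS_cs_smooth.comp hX
  have s1 : ContDiff ℝ 1 (fun w : Pt n => sardS_sn (Φ w).1) := sardS_sn_smooth.comp hX
  have c2 : ContDiff ℝ 1 (fun w : Pt n => sardS_cs w.2) := sardS_cs_smooth.comp contDiff_snd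
  have s2 : ContDiff ℝ 1 (fun w : Pt n => sardS_sn w.2) := sardS_sn_smooth.comp contDiff_snd
  exact contDiff_id.prodMk (((contDiff_const.mul c1).sub (contDiff_const.mul s1)).prodMk
    ((contDiff_const.mul c2).sub (contDiff_const.mul s2)))

/-- the first residue `Y - y - trg a b X` and the second residue `x - X - trg c d y` -/
noncomputable def sardS_r1 (Φ : Pt n → Pt n) (a b : Fin n → ℝ) (w : Pt n) : Fin n → ℝ :=
  (Φ w).2 - w.2 - trg a b (Φ w).1

/-- the second residue -/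
noncomputable def sardS_r2 (Φ : Pt n → Pt n) (c d : Fin n → ℝ) (w : Pt n) : Fin n → ℝ :=
  w.1 - (Φ w).1 - trg c d w.2

lemma sardS_GS (Φ : Pt n → Pt n) (a b c d : Fin n → ℝ) (w : Pt n) :
    sardS_G Φ (sardS_S Φ a b c d w) =
      ((a + sardS_cs (Φ w).1 * sardS_r1 Φ a b w, b + sardS_sn (Φ w).1 * sardS_r1 Φ a b w),
       (c + sardS_cs w.2 * sardS_r2 Φ c d w, d + sardS_sn w.2 * sardS_r2 Φ c d w)) := by
  have h1 := sardS_sq (Φ w).1
  have h2 := sardS_sq w.2
  unfold sardS_G sardS_S sardS_r1 sardS_r2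
  simp only [sardS_trg]
  refine Prod.ext (Prod.ext ?_ ?_) (Prod.ext ?_ ?_)
  · simp only
    linear_combination a * h1
  · simp only
    linear_combination b * h1
  · simp only
    linear_combination c * h2
  · simp only
    linear_combination d * h2

/-- a product with a factor vanishing to first order -/
lemma sardS_mul {f r : Pt n → Fin n → ℝ} {w v : Pt n} (hf : DifferentiableAt ℝ f w)
    (hr : DifferentiableAt ℝ r w) (h0 : r w = 0) (h1 : fderiv ℝ r w v = 0) (k : Fin n → ℝ) :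
    fderiv ℝ (fun w => k + f w * r w) w v = 0 := by
  rw [fderiv_const_add, fderiv_fun_mul hf hr, h0]
  simp [h1]

/-- **Sard.** -/
theorem sard_shear {Φ : Pt n → Pt n} (hΦ : ContDiff ℝ 1 Φ) (δ : ℝ) (hδ : 0 < δ) :
    ∃ a b c d : Fin n → ℝ, ‖a‖ ≤ δ ∧ ‖b‖ ≤ δ ∧ ‖c‖ ≤ δ ∧ ‖d‖ ≤ δ ∧
      ∀ w, shV c d (shU a b (Φ w)) = w →
        ∀ v, fderiv ℝ (fun w => shV c d (shU a b (Φ w))) w v = v → v = 0 := by
  have hG := sardS_G_smooth hΦ
  -- a small regular value
  have hnull : (Measure.addHaar : Measure (Pt n × Pt n))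
      (sardS_G Φ '' {q | (fderiv ℝ (sardS_G Φ) q).det = 0}) = 0 :=
    addHaar_image_eq_zero_of_det_fderivWithin_eq_zero Measure.addHaar
      (fun q _ => ((hG.differentiable one_ne_zero) q).hasFDerivAt.hasFDerivWithinAt)
      (fun q hq => hq)
  obtain ⟨k, hk, hkr⟩ : ∃ k ∈ Metric.ball (0 : Pt n × Pt n) δ,
      k ∉ sardS_G Φ '' {q | (fderiv ℝ (sardS_G Φ) q).det = 0} := by
    by_contra hcon
    push Not at hcon
    have h1 : (Measure.addHaar : Measure (Pt n × Pt n)) (Metric.ball 0 δ) ≤ 0 :=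
      hnull ▸ measure_mono hcon
    exact absurd h1 (not_le.2 (Metric.measure_ball_pos Measure.addHaar _ hδ))
  obtain ⟨⟨a, b⟩, ⟨c, d⟩⟩ := k
  rw [mem_ball_zero_iff, Prod.norm_def, max_lt_iff, Prod.norm_def, Prod.norm_def, max_lt_iff,
    max_lt_iff] at hk
  refine ⟨a, b, c, d, hk.1.1.le, hk.1.2.le, hk.2.1.le, hk.2.2.le, ?_⟩
  intro w hw v hv
  -- the derivatives of the residues
  set F : Pt n → Pt n := fun w => shV c d (shU a b (Φ w)) with hF
  have hFw : F w = w := hw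
  have hX : ContDiff ℝ 1 (fun w : Pt n => (Φ w).1) := contDiff_fst.comp hΦ
  have hY : ContDiff ℝ 1 (fun w : Pt n => (Φ w).2) := contDiff_snd.comp hΦ
  have htr : ∀ a b : Fin n → ℝ, ContDiff ℝ 1 (trg a b) := fun a b =>
    (contDiff_const.mul sardS_cs_smooth).add (contDiff_const.mul sardS_sn_smooth)
  have hF2 : ContDiff ℝ 1 (fun w : Pt n => (Φ w).2 - trg a b (Φ w).1) :=
    hY.sub ((htr a b).comp hX)
  have hFs : ContDiff ℝ 1 F := (hX.add ((htr c d).comp hF2)).prodMk hF2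
  have hFd : DifferentiableAt ℝ F w := (hFs.differentiable one_ne_zero) w
  have key : ∀ g : Pt n → Fin n → ℝ, ContDiff ℝ 1 g →
      fderiv ℝ (fun w => g (F w) - g w) w v = 0 := by
    intro g hg
    have hgd : DifferentiableAt ℝ g (F w) := (hg.differentiable one_ne_zero) _
    have hgd' : DifferentiableAt ℝ g w := (hg.differentiable one_ne_zero) _
    have hgF : DifferentiableAt ℝ (fun w => g (F w)) w := hgd.comp w hFd
    rw [fderiv_fun_sub hgF hgd']
    have h1 : fderiv ℝ (fun w => g (F w)) w = (fderiv ℝ g (F w)).comp (fderiv ℝ F w) :=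
      fderiv_comp w hgd hFd
    rw [h1, hFw]
    simp [hv]
  have hr1 : sardS_r1 Φ a b = fun w => (F w).2 - w.2 := by
    funext w
    simp only [sardS_r1, hF, shV, shU]
    abel
  have hr2 : sardS_r2 Φ c d = fun w => (fun z : Pt n => trg c d z.2 - z.1) (F w) -
      (fun z : Pt n => trg c d z.2 - z.1) w := by
    funext w
    simp only [sardS_r2, hF, shV, shU]
    abel
  have hg2 : ContDiff ℝ 1 (fun z : Pt n => trg c d z.2 - z.1) :=
    ((htr c d).comp contDiff_snd).sub contDiff_fst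
  have d1 : fderiv ℝ (sardS_r1 Φ a b) w v = 0 := by
    rw [hr1]
    exact key (fun z => z.2) contDiff_snd
  have d2 : fderiv ℝ (sardS_r2 Φ c d) w v = 0 := by
    rw [hr2]
    exact key _ hg2
  have z1 : sardS_r1 Φ a b w = 0 := by rw [hr1]; simp [hFw]
  have z2 : sardS_r2 Φ c d w = 0 := by rw [hr2]; simp [hFw]
  have D1 : DifferentiableAt ℝ (sardS_r1 Φ a b) w :=
    (((hY.sub contDiff_snd).sub ((htr a b).comp hX)).differentiable one_ne_zero) w
  have D2 : DifferentiableAt ℝ (sardS_r2 Φ c d) w :=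
    (((contDiff_fst.sub hX).sub ((htr c d).comp contDiff_snd)).differentiable one_ne_zero) w
  have C1 : DifferentiableAt ℝ (fun w : Pt n => sardS_cs (Φ w).1) w :=
    ((sardS_cs_smooth.comp hX).differentiable one_ne_zero) w
  have S1 : DifferentiableAt ℝ (fun w : Pt n => sardS_sn (Φ w).1) w :=
    ((sardS_sn_smooth.comp hX).differentiable one_ne_zero) w
  have C2 : DifferentiableAt ℝ (fun w : Pt n => sardS_cs w.2) w :=
    ((sardS_cs_smooth.comp contDiff_snd).differentiable one_ne_zero) w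
  have S2 : DifferentiableAt ℝ (fun w : Pt n => sardS_sn w.2) w :=
    ((sardS_sn_smooth.comp contDiff_snd).differentiable one_ne_zero) w
  -- the derivative of `G ∘ S` in the direction `v` vanishes
  have hGS : fderiv ℝ (fun w => sardS_G Φ (sardS_S Φ a b c d w)) w v = 0 := by
    have h1 : (fun w => sardS_G Φ (sardS_S Φ a b c d w)) = fun w =>
      ((a + sardS_cs (Φ w).1 * sardS_r1 Φ a b w, b + sardS_sn (Φ w).1 * sardS_r1 Φ a b w),
       (c + sardS_cs w.2 * sardS_r2 Φ c d w, d + sardS_sn w.2 * sardS_r2 Φ c d w)) :=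
      funext fun w => sardS_GS Φ a b c d w
    rw [h1]
    have e1 : DifferentiableAt ℝ (fun w => a + sardS_cs (Φ w).1 * sardS_r1 Φ a b w) w :=
      (C1.mul D1).const_add a
    have e2 : DifferentiableAt ℝ (fun w => b + sardS_sn (Φ w).1 * sardS_r1 Φ a b w) w :=
      (S1.mul D1).const_add b
    have e3 : DifferentiableAt ℝ (fun w : Pt n => c + sardS_cs w.2 * sardS_r2 Φ c d w) w :=
      (C2.mul D2).const_add c
    have e4 : DifferentiableAt ℝ (fun w : Pt n => d + sardS_sn w.2 * sardS_r2 Φ c d w) w :=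
      (S2.mul D2).const_add d
    rw [(e1.prodMk e2).fderiv_prodMk (e3.prodMk e4), e1.fderiv_prodMk e2, e3.fderiv_prodMk e4]
    simp only [ContinuousLinearMap.prod_apply]
    rw [sardS_mul C1 D1 z1 d1 a, sardS_mul S1 D1 z1 d1 b, sardS_mul C2 D2 z2 d2 c,
      sardS_mul S2 D2 z2 d2 d]
    rfl
  have hSd : DifferentiableAt ℝ (sardS_S Φ a b c d) w :=
    ((sardS_S_smooth hΦ a b c d).differentiable one_ne_zero) w
  have hGd : DifferentiableAt ℝ (sardS_G Φ) (sardS_S Φ a b c d w) :=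
    (hG.differentiable one_ne_zero) _
  have hcomp : fderiv ℝ (fun w => sardS_G Φ (sardS_S Φ a b c d w)) w =
      (fderiv ℝ (sardS_G Φ) (sardS_S Φ a b c d w)).comp (fderiv ℝ (sardS_S Φ a b c d) w) :=
    fderiv_comp w hGd hSd
  rw [hcomp, ContinuousLinearMap.comp_apply] at hGS
  -- the value is `k`, so the derivative of `G` is invertible there
  have hval : sardS_G Φ (sardS_S Φ a b c d w) = ((a, b), (c, d)) := by
    rw [sardS_GS, z1, z2]
    simp
  have hdet : (fderiv ℝ (sardS_G Φ) (sardS_S Φ a b c d w)).det ≠ 0 := fun h =>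
    hkr ⟨_, h, hval⟩
  have hu : fderiv ℝ (sardS_S Φ a b c d) w v = 0 := by
    have hinj := (ContinuousLinearMap.toContinuousLinearEquivOfDetNeZero _ hdet).injective
    apply hinj
    rw [map_zero]
    exact hGS
  have hfst : (fderiv ℝ (sardS_S Φ a b c d) w v).1 = v := by
    have h1 : fderiv ℝ (fun w => (sardS_S Φ a b c d w).1) w =
        (ContinuousLinearMap.fst ℝ (Pt n) (Pt n)).comp (fderiv ℝ (sardS_S Φ a b c d) w) :=
      fderiv.fst hSd
    have h2 : (fun w => (sardS_S Φ a b c d w).1) = fun w => w := rfl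
    rw [h2, fderiv_fun_id] at h1
    have h3 := congrArg (fun L : Pt n →L[ℝ] Pt n => L v) h1
    simpa using h3.symm
  rw [hu] at hfst
  exact hfst.symm

end Pool.Agent.H47.OD
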