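import Pool.Agent.H47.QG.Fin1

/-!
# Systems of maps with generating functions
-/

set_option autoImplicit false

open Module QuadraticForm Filter Topology

namespace Pool.Agent.H47.OD

open Pool.Agent.H47.QG
open Pool.Agent.H60.QG (Torus projP)

variable {n : ℕ}

/-- an `N`-periodic sequence of maps with generating functions -/
structure Sy (N : ℕ) (S : ℕ → Pt n → ℝ) (ψ : ℕ → Pt n → Pt n) : Prop where
  pos : 0 < N
  gen : ∀ j, Gen (S j) (ψ j)
  perS : ∀ j, S (j + N) = S j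
  perψ : ∀ j, ψ (j + N) = ψ j

theorem Sy.decomp {N : ℕ} {S : ℕ → Pt n → ℝ} {ψ : ℕ → Pt n → Pt n} (h : Sy N S ψ)
    {φ : Torus n → Torus n} (hφ : ∀ w, φ (projP w) = projP (flw ψ N w)) : Decomp φ N S ψ :=
  ⟨h.pos, h.gen, h.perS, h.perψ, hφ⟩

theorem sy_of_decomp {N : ℕ} {S : ℕ → Pt n → ℝ} {ψ : ℕ → Pt n → Pt n} {φ : Torus n → Torus n}
    (h : Decomp φ N S ψ) : Sy N S ψ := ⟨h.pos, h.gen, h.perS, h.perψ⟩

/-- one more block -/
def snoc {X : Type*} (N : ℕ) (S : ℕ → X) (a : X) : ℕ → X := fun j =>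
  if j % (N + 1) < N then S (j % (N + 1)) else a

theorem snoc_per {X : Type*} (N : ℕ) (S : ℕ → X) (a : X) (j : ℕ) :
    snoc N S a (j + (N + 1)) = snoc N S a j := by
  unfold snoc
  rw [Nat.add_mod_right]

theorem snoc_lt {X : Type*} (N : ℕ) (S : ℕ → X) (a : X) {j : ℕ} (hj : j < N) :
    snoc N S a j = S j := by
  unfold snoc
  rw [Nat.mod_eq_of_lt (by omega), if_pos hj]

theorem snoc_last {X : Type*} (N : ℕ) (S : ℕ → X) (a : X) : snoc N S a N = a := by
  unfold snoc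
  rw [Nat.mod_eq_of_lt (by omega), if_neg (lt_irrefl _)]

theorem flw_snoc_le (N : ℕ) (ψ : ℕ → Pt n → Pt n) (α : Pt n → Pt n) {j : ℕ} (hj : j ≤ N) :
    flw (snoc N ψ α) j = flw ψ j :=
  flw_congr fun i hi => snoc_lt N ψ α (by omega)

theorem flw_snoc (N : ℕ) (ψ : ℕ → Pt n → Pt n) (α : Pt n → Pt n) (w : Pt n) :
    flw (snoc N ψ α) (N + 1) w = α (flw ψ N w) := by
  change snoc N ψ α N (flw (snoc N ψ α) N w) = _
  rw [snoc_last, flw_snoc_le N ψ α le_rfl]

theorem Sy.snoc {N : ℕ} {S : ℕ → Pt n → ℝ} {ψ : ℕ → Pt n → Pt n} (h : Sy N S ψ)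
    {a : Pt n → ℝ} {α : Pt n → Pt n} (ha : Gen a α) :
    Sy (N + 1) (snoc N S a) (snoc N ψ α) where
  pos := Nat.succ_pos N
  gen j := by
    unfold OD.snoc
    split_ifs
    · exact h.gen _
    · exact ha
  perS := snoc_per N S a
  perψ := snoc_per N ψ α

/-- the identity block -/
theorem gen_zero : Gen (fun _ : Pt n => (0 : ℝ)) id where
  smooth := contDiff_const
  periodic _ _ _ := rfl
  rel z z' := by
    have h : fderiv ℝ (fun _ : Pt n => (0 : ℝ)) (z'.1, z.2) = 0 := by simp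
    rw [h]
    constructor
    · intro h1 i
      subst h1
      simp
    · intro h1
      refine Prod.ext (funext fun i => ?_) (funext fun i => ?_)
      · have := (h1 i).1
        simp at this
        exact this.symm
      · have := (h1 i).2
        simp at this
        exact this.symm
  inv z v hv := by
    funext i
    have := hv i
    have h : fderiv ℝ (fderiv ℝ (fun _ : Pt n => (0 : ℝ))) z = 0 := by simp
    rw [h] at this
    simpa using this

theorem mean_unique {N : ℕ} {S : ℕ → Pt n → ℝ} {ψ : ℕ → Pt n → Pt n} {w : Pt n} {t t' : ℝ}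
    (h : MeanIdx S ψ N w t) (h' : MeanIdx S ψ N w t') : t = t' := by
  have := tendsto_nhds_unique h h'
  linarith

/-- mean indices exist -/
theorem Sy.exists_mean {N : ℕ} {S : ℕ → Pt n → ℝ} {ψ : ℕ → Pt n → Pt n} (h : Sy N S ψ) (w : Pt n)
    (hw : flw ψ N w = w) : ∃ t, MeanIdx S ψ N w t ∧
      ∀ M : ℕ, 0 < M → |(ind S ψ (M * N) w : ℝ) - M * (t + n * N)| ≤ 2 * n := by
  obtain ⟨L, h1, h2⟩ := almost_additive (fun m => (ind S ψ (m * N) w : ℝ)) (2 * n)
    (fun p q hp hq => ind_add S ψ h.gen N h.pos h.perS h.perψ w hw p q hp hq)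
  refine ⟨L - n * N, ?_, fun M hM => ?_⟩
  · unfold MeanIdx
    rw [sub_add_cancel]
    exact h2
  · rw [sub_add_cancel]
    exact h1 M hM

end Pool.Agent.H47.OD
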