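import Pool.Agent.H47.OD.SardS
import Pool.Agent.H47.OD.Sy

/-!
# Explicit shears as time-one maps: the Hamiltonians, periodicity, smallness
-/

set_option autoImplicit false

open Module Filter Topology

namespace Pool.Agent.H47.OD

open Pool.Agent.H47.QG
open Pool.Agent.H60.QG (Torus PtE proj projP IsHamiltonian IsTimeOne)

variable {n : ℕ}

/-- the Hamiltonian `∑ i, (a i sin 2π x_i - b i cos 2π x_i) / 2π` -/
noncomputable def hamU (a b : Fin n → ℝ) (z : PtE n) : ℝ :=
  ∑ i, (a i * Real.sin (2 * Real.pi * z.1 i) - b i * Real.cos (2 * Real.pi * z.1 i)) /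
    (2 * Real.pi)

/-- the Hamiltonian `∑ i, (a i sin 2π y_i - b i cos 2π y_i) / 2π` -/
noncomputable def hamV (a b : Fin n → ℝ) (z : PtE n) : ℝ :=
  ∑ i, (a i * Real.sin (2 * Real.pi * z.2 i) - b i * Real.cos (2 * Real.pi * z.2 i)) /
    (2 * Real.pi)

theorem shrA_bdd_one (K : PtE n → ℝ) (k : ℕ) (hK : ContDiff ℝ k K)
    (hper : ∀ z w, proj z = proj w → K z = K w) :
    ∃ C, ∀ z, ‖iteratedFDeriv ℝ k K z‖ ≤ C := by
  have hc : Continuous fun z => ‖iteratedFDeriv ℝ k K z‖ :=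
    (hK.continuous_iteratedFDeriv le_rfl).norm
  obtain ⟨C, hC⟩ := (isCompact_closedBall (0 : PtE n) (n : ℝ)).exists_bound_of_continuousOn
    hc.continuousOn
  refine ⟨C, fun z => ?_⟩
  obtain ⟨e, he, hn⟩ := Pool.Agent.H60.QG.cocompact z
  have h1 : (fun w => K (w + e)) = K := by
    funext w
    refine hper _ _ ?_
    rw [Pool.Agent.H60.QG.proj_eq]
    simpa using he
  have h2 : iteratedFDeriv ℝ k K z = iteratedFDeriv ℝ k K (z + e) := by
    rw [← iteratedFDeriv_comp_add_right, h1]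
  have h3 := hC (z + e) (by simpa [Metric.mem_closedBall, dist_eq_norm] using hn)
  rw [h2]
  simpa using h3

/-- smooth periodic functions have bounded derivatives -/
theorem bdd_deriv (K : PtE n → ℝ) (hK : ∀ k : ℕ, ContDiff ℝ k K)
    (hper : ∀ z w, proj z = proj w → K z = K w) (m : ℕ) :
    ∃ C, ∀ k ≤ m, ∀ z, ‖iteratedFDeriv ℝ k K z‖ ≤ C := by
  choose C hC using fun k => shrA_bdd_one K k (hK k) hper
  refine ⟨∑ k ∈ Finset.range (m + 1), |C k|, fun k hk z => ?_⟩
  exact (hC k z).trans ((le_abs_self _).trans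
    (Finset.single_le_sum (f := fun k => |C k|) (fun i _ => abs_nonneg _)
      (Finset.mem_range.2 (by omega))))

theorem shrA_coord1 (i : Fin n) (k : ℕ) : ContDiff ℝ k (fun z : PtE n => z.1 i) := by
  fun_prop

theorem shrA_coord2 (i : Fin n) (k : ℕ) : ContDiff ℝ k (fun z : PtE n => z.2 i) := by
  fun_prop

theorem hamU_smooth (a b : Fin n → ℝ) (k : ℕ) : ContDiff ℝ k (hamU a b) := by
  unfold hamU
  fun_prop

theorem hamV_smooth (a b : Fin n → ℝ) (k : ℕ) : ContDiff ℝ k (hamV a b) := by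
  unfold hamV
  fun_prop

theorem shrA_trig {x y : ℝ} (h : (x : UnitAddCircle) = y) :
    Real.sin (2 * Real.pi * x) = Real.sin (2 * Real.pi * y) ∧
      Real.cos (2 * Real.pi * x) = Real.cos (2 * Real.pi * y) := by
  have h0 : ((x - y : ℝ) : UnitAddCircle) = 0 := by
    rw [AddCircle.coe_sub, h, sub_self]
  rw [AddCircle.coe_eq_zero_iff] at h0
  obtain ⟨k, hk⟩ := h0
  have h1 : 2 * Real.pi * x = 2 * Real.pi * y + k * (2 * Real.pi) := by
    have : x = y + k := by
      simp only [zsmul_eq_mul, mul_one] at hk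
      linarith
    rw [this]; ring
  rw [h1, Real.sin_add_int_mul_two_pi, Real.cos_add_int_mul_two_pi]
  exact ⟨rfl, rfl⟩

theorem shrA_pr1 {z w : PtE n} (h : proj z = proj w) (i : Fin n) :
    ((z.1 i : ℝ) : UnitAddCircle) = w.1 i := congrFun (congrArg Prod.fst h) i

theorem shrA_pr2 {z w : PtE n} (h : proj z = proj w) (i : Fin n) :
    ((z.2 i : ℝ) : UnitAddCircle) = w.2 i := congrFun (congrArg Prod.snd h) i

theorem hamU_per (a b : Fin n → ℝ) (z w : PtE n) (h : proj z = proj w) :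
    hamU a b z = hamU a b w := by
  unfold hamU
  refine Finset.sum_congr rfl fun i _ => ?_
  rw [(shrA_trig (shrA_pr1 h i)).1, (shrA_trig (shrA_pr1 h i)).2]

theorem hamV_per (a b : Fin n → ℝ) (z w : PtE n) (h : proj z = proj w) :
    hamV a b z = hamV a b w := by
  unfold hamV
  refine Finset.sum_congr rfl fun i _ => ?_
  rw [(shrA_trig (shrA_pr2 h i)).1, (shrA_trig (shrA_pr2 h i)).2]

/-- the sum of small multiples of fixed functions is small -/
theorem shrA_small {ι : Type} [Fintype ι] (u : ι → PtE n → ℝ)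
    (hu : ∀ i, ∀ k : ℕ, ContDiff ℝ k (u i))
    (hp : ∀ i z w, proj z = proj w → u i z = u i w) (m : ℕ) :
    ∃ C, 0 ≤ C ∧ ∀ a : ι → ℝ, ∀ ε, 0 ≤ ε → (∀ i, |a i| ≤ ε) → ∀ k ≤ m, ∀ z,
      ‖iteratedFDeriv ℝ k (fun z => ∑ i, a i * u i z) z‖ ≤ C * ε := by
  choose C hC using fun i => bdd_deriv (u i) (hu i) (hp i) m
  refine ⟨∑ i, |C i|, Finset.sum_nonneg fun i _ => abs_nonneg _, fun a ε hε ha k hk z => ?_⟩
  have h1 : iteratedFDeriv ℝ k (fun z => ∑ i, a i * u i z) z =
      ∑ i, a i • iteratedFDeriv ℝ k (u i) z := by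
    have h2 := iteratedFDeriv_sum (𝕜 := ℝ) (u := (Finset.univ : Finset ι)) (i := k)
      (f := fun i => a i • u i) (fun i _ => (hu i k).const_smul (a i))
    have h3 := congrFun h2 z
    rw [Finset.sum_apply] at h3
    refine Eq.trans ?_ (h3.trans (Finset.sum_congr rfl fun i _ => ?_))
    · rfl
    · exact iteratedFDeriv_const_smul_apply (hu i k).contDiffAt
  rw [h1, Finset.sum_mul]
  refine (norm_sum_le _ _).trans (Finset.sum_le_sum fun i _ => ?_)
  rw [norm_smul, Real.norm_eq_abs, mul_comm]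
  exact mul_le_mul ((hC i k hk z).trans (le_abs_self _)) (ha i) (abs_nonneg _) (abs_nonneg _)

theorem ham_small (m : ℕ) (δ : ℝ) (hδ : 0 < δ) : ∃ δ' > 0, ∀ a b : Fin n → ℝ, ‖a‖ ≤ δ' →
    ‖b‖ ≤ δ' → ∀ k ≤ m, ∀ z, ‖iteratedFDeriv ℝ k (hamU a b) z‖ ≤ δ ∧
      ‖iteratedFDeriv ℝ k (hamV a b) z‖ ≤ δ := by
  obtain ⟨C, hC, h⟩ := shrA_small (n := n) (ι := Fin n ⊕ Fin n)
    (Sum.elim (fun i z => Real.sin (2 * Real.pi * z.1 i) / (2 * Real.pi))
      (fun i z => -Real.cos (2 * Real.pi * z.1 i) / (2 * Real.pi)))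
    (by
      intro i k
      rcases i with i | i <;> simp only [Sum.elim_inl, Sum.elim_inr] <;> fun_prop)
    (by
      intro i z w hzw
      rcases i with i | i
      · simp only [Sum.elim_inl]
        rw [(shrA_trig (shrA_pr1 hzw i)).1]
      · simp only [Sum.elim_inr]
        rw [(shrA_trig (shrA_pr1 hzw i)).2]) m
  obtain ⟨D, hD, h'⟩ := shrA_small (n := n) (ι := Fin n ⊕ Fin n)
    (Sum.elim (fun i z => Real.sin (2 * Real.pi * z.2 i) / (2 * Real.pi))
      (fun i z => -Real.cos (2 * Real.pi * z.2 i) / (2 * Real.pi)))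
    (by
      intro i k
      rcases i with i | i <;> simp only [Sum.elim_inl, Sum.elim_inr] <;> fun_prop)
    (by
      intro i z w hzw
      rcases i with i | i
      · simp only [Sum.elim_inl]
        rw [(shrA_trig (shrA_pr2 hzw i)).1]
      · simp only [Sum.elim_inr]
        rw [(shrA_trig (shrA_pr2 hzw i)).2]) m
  have hpos : 0 < C + D + 1 := by positivity
  refine ⟨δ / (C + D + 1), div_pos hδ hpos, fun a b ha hb k hk z => ?_⟩
  have hε : 0 ≤ δ / (C + D + 1) := (div_pos hδ hpos).le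
  have hab : ∀ i, |Sum.elim a b i| ≤ δ / (C + D + 1) := by
    intro i
    rcases i with i | i
    · exact (norm_le_pi_norm a i).trans ha
    · exact (norm_le_pi_norm b i).trans hb
  have e1 : hamU a b = fun z : PtE n => ∑ i, Sum.elim a b i *
      Sum.elim (fun i (z : PtE n) => Real.sin (2 * Real.pi * z.1 i) / (2 * Real.pi))
      (fun i z => -Real.cos (2 * Real.pi * z.1 i) / (2 * Real.pi)) i z := by
    funext z
    rw [Fintype.sum_sum_type, ← Finset.sum_add_distrib]
    unfold hamU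
    refine Finset.sum_congr rfl fun i _ => ?_
    simp only [Sum.elim_inl, Sum.elim_inr]
    ring
  have e2 : hamV a b = fun z : PtE n => ∑ i, Sum.elim a b i *
      Sum.elim (fun i (z : PtE n) => Real.sin (2 * Real.pi * z.2 i) / (2 * Real.pi))
      (fun i z => -Real.cos (2 * Real.pi * z.2 i) / (2 * Real.pi)) i z := by
    funext z
    rw [Fintype.sum_sum_type, ← Finset.sum_add_distrib]
    unfold hamV
    refine Finset.sum_congr rfl fun i _ => ?_
    simp only [Sum.elim_inl, Sum.elim_inr]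
    ring
  have key : ∀ E, 0 ≤ E → E ≤ C + D + 1 → E * (δ / (C + D + 1)) ≤ δ := by
    intro E hE hE'
    rw [mul_div_assoc', div_le_iff₀ hpos]
    nlinarith
  refine ⟨?_, ?_⟩
  · rw [e1]
    exact (h _ _ hε hab k hk z).trans (key C hC (by linarith))
  · rw [e2]
    exact (h' _ _ hε hab k hk z).trans (key D hD (by linarith))

end Pool.Agent.H47.OD
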