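import Pool.Agent.H47.OD.ShrA
import Pool.Agent.H47.QG.Stmt

/-!
# Explicit shears as time-one maps
-/

set_option autoImplicit false

open Module Filter Topology
open scoped Gradient

namespace Pool.Agent.H47.OD

open Pool.Agent.H47.QG
open Pool.Agent.H60.QG (Torus PtE proj projP IsHamiltonian IsTimeOne lft)

variable {n : ℕ}

/-- one coordinate -/
lemma shrB_deriv (a b u : ℝ) : HasDerivAt
    (fun u : ℝ => (a * Real.sin (2 * Real.pi * u) - b * Real.cos (2 * Real.pi * u)) /
      (2 * Real.pi)) (a * Real.cos (2 * Real.pi * u) + b * Real.sin (2 * Real.pi * u)) u := by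
  have hpi : (2 * Real.pi) ≠ 0 := by positivity
  have h0 : HasDerivAt (fun u : ℝ => 2 * Real.pi * u) (2 * Real.pi) u := by
    simpa using (hasDerivAt_id u).const_mul (2 * Real.pi)
  have h1 := (h0.sin.const_mul a).sub (h0.cos.const_mul b)
  have h2 := h1.div_const (2 * Real.pi)
  refine h2.congr_deriv ?_
  field_simp
  ring

/-- the vector `trg a b x` in Euclidean space -/
noncomputable def shrB_A (a b : Fin n → ℝ) (x : EuclideanSpace ℝ (Fin n)) :
    EuclideanSpace ℝ (Fin n) := (EuclideanSpace.equiv (Fin n) ℝ).symm (trg a b (fun i => x i))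

lemma shrB_A_apply (a b : Fin n → ℝ) (x : EuclideanSpace ℝ (Fin n)) (i : Fin n) :
    shrB_A a b x i = a i * Real.cos (2 * Real.pi * x i) + b i * Real.sin (2 * Real.pi * x i) :=
  rfl

/-- the gradient -/
lemma shrB_grad (a b : Fin n → ℝ) (x : EuclideanSpace ℝ (Fin n)) :
    ∇ (fun x : EuclideanSpace ℝ (Fin n) => ∑ i, (a i * Real.sin (2 * Real.pi * x i) -
      b i * Real.cos (2 * Real.pi * x i)) / (2 * Real.pi)) x = shrB_A a b x := by
  refine HasGradientAt.gradient ?_
  rw [hasGradientAt_iff_hasFDerivAt]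
  have h1 : ∀ i : Fin n, HasFDerivAt (fun x : EuclideanSpace ℝ (Fin n) =>
      (a i * Real.sin (2 * Real.pi * x i) - b i * Real.cos (2 * Real.pi * x i)) / (2 * Real.pi))
      ((shrB_A a b x i) • (EuclideanSpace.proj i : EuclideanSpace ℝ (Fin n) →L[ℝ] ℝ)) x := by
    intro i
    have h2 : HasFDerivAt (fun x : EuclideanSpace ℝ (Fin n) => x i)
        (EuclideanSpace.proj i : EuclideanSpace ℝ (Fin n) →L[ℝ] ℝ) x :=
      (EuclideanSpace.proj i : EuclideanSpace ℝ (Fin n) →L[ℝ] ℝ).hasFDerivAt
    exact (shrB_deriv (a i) (b i) (x i)).comp_hasFDerivAt x h2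
  have h3 := HasFDerivAt.fun_sum (u := (Finset.univ : Finset (Fin n))) fun i _ => h1 i
  refine h3.congr_fderiv ?_
  ext v
  simp [PiLp.inner_apply, mul_comm]

theorem hamU_timeOne (a b : Fin n → ℝ) (g : Torus n → Torus n)
    (hg : IsTimeOne (fun _ => hamU a b) g) (z : Pt n) : g (projP z) = projP (shU a b z) := by
  have h := hg (fun t => ((lft n z).1, (lft n z).2 - t • shrB_A a b (lft n z).1)) ?_
  · have e0 : proj ((lft n z).1, (lft n z).2 - (0 : ℝ) • shrB_A a b (lft n z).1) = projP z := by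
      rw [zero_smul, sub_zero]
      rfl
    have e1 : proj ((lft n z).1, (lft n z).2 - (1 : ℝ) • shrB_A a b (lft n z).1) =
        projP (shU a b z) := by
      rw [one_smul]
      rfl
    rw [← e0, ← e1]
    exact h
  · intro t
    have h1 : HasDerivAt (fun t : ℝ => (lft n z).2 - t • shrB_A a b (lft n z).1)
        (-shrB_A a b (lft n z).1) t := by
      have h2 := ((hasDerivAt_id t).smul_const (shrB_A a b (lft n z).1)).const_sub (lft n z).2
      simpa using h2
    have h3 := (hasDerivAt_const t (lft n z).1).prodMk h1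
    refine h3.congr_deriv ?_
    refine Prod.ext ?_ ?_
    · change (0 : EuclideanSpace ℝ (Fin n)) = ∇ (fun _ => hamU a b ((lft n z).1, 0)) _
      rw [gradient_fun_const]
    · change -shrB_A a b (lft n z).1 = -∇ (fun x : EuclideanSpace ℝ (Fin n) =>
        ∑ i, (a i * Real.sin (2 * Real.pi * x i) -
          b i * Real.cos (2 * Real.pi * x i)) / (2 * Real.pi)) (lft n z).1
      rw [shrB_grad]

theorem hamV_timeOne (a b : Fin n → ℝ) (g : Torus n → Torus n)
    (hg : IsTimeOne (fun _ => hamV a b) g) (z : Pt n) : g (projP z) = projP (shV a b z) := by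
  have h := hg (fun t => ((lft n z).1 + t • shrB_A a b (lft n z).2, (lft n z).2)) ?_
  · have e0 : proj ((lft n z).1 + (0 : ℝ) • shrB_A a b (lft n z).2, (lft n z).2) = projP z := by
      rw [zero_smul, add_zero]
      rfl
    have e1 : proj ((lft n z).1 + (1 : ℝ) • shrB_A a b (lft n z).2, (lft n z).2) =
        projP (shV a b z) := by
      rw [one_smul]
      rfl
    rw [← e0, ← e1]
    exact h
  · intro t
    have h1 : HasDerivAt (fun t : ℝ => (lft n z).1 + t • shrB_A a b (lft n z).2)
        (shrB_A a b (lft n z).2) t := by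
      have h2 := ((hasDerivAt_id t).smul_const (shrB_A a b (lft n z).2)).const_add (lft n z).1
      simpa using h2
    have h3 := h1.prodMk (hasDerivAt_const t (lft n z).2)
    refine h3.congr_deriv ?_
    refine Prod.ext ?_ ?_
    · change shrB_A a b (lft n z).2 = ∇ (fun x : EuclideanSpace ℝ (Fin n) =>
        ∑ i, (a i * Real.sin (2 * Real.pi * x i) -
          b i * Real.cos (2 * Real.pi * x i)) / (2 * Real.pi)) (lft n z).2
      rw [shrB_grad]
    · change (0 : EuclideanSpace ℝ (Fin n)) = -∇ (fun _ => hamV a b (0, (lft n z).2)) _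
      rw [gradient_fun_const, neg_zero]

/-! ### generating functions -/

/-- the potential -/
noncomputable def shrB_p (a b x : Fin n → ℝ) : ℝ :=
  ∑ i, (a i * Real.sin (2 * Real.pi * x i) - b i * Real.cos (2 * Real.pi * x i)) / (2 * Real.pi)

lemma shrB_p_smooth (a b : Fin n → ℝ) : ContDiff ℝ 2 (shrB_p a b) := by
  unfold shrB_p
  fun_prop

lemma shrB_p_fderiv (a b x v : Fin n → ℝ) :
    fderiv ℝ (shrB_p a b) x v = ∑ i, trg a b x i * v i := by
  have h1 : ∀ i : Fin n, HasFDerivAt (fun x : Fin n → ℝ =>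
      (a i * Real.sin (2 * Real.pi * x i) - b i * Real.cos (2 * Real.pi * x i)) / (2 * Real.pi))
      ((trg a b x i) • (ContinuousLinearMap.proj i : (Fin n → ℝ) →L[ℝ] ℝ)) x := by
    intro i
    have h2 : HasFDerivAt (fun x : Fin n → ℝ => x i)
        (ContinuousLinearMap.proj i : (Fin n → ℝ) →L[ℝ] ℝ) x :=
      (ContinuousLinearMap.proj i : (Fin n → ℝ) →L[ℝ] ℝ).hasFDerivAt
    exact (shrB_deriv (a i) (b i) (x i)).comp_hasFDerivAt x h2
  have h3 : HasFDerivAt (shrB_p a b)
      (∑ i, (trg a b x i) • (ContinuousLinearMap.proj i : (Fin n → ℝ) →L[ℝ] ℝ)) x :=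
    HasFDerivAt.fun_sum (u := (Finset.univ : Finset (Fin n))) fun i _ => h1 i
  rw [h3.fderiv]
  simp

lemma shrB_p_per (a b x : Fin n → ℝ) (k : Fin n → ℤ) :
    shrB_p a b (x + fun i => (k i : ℝ)) = shrB_p a b x := by
  unfold shrB_p
  refine Finset.sum_congr rfl fun i _ => ?_
  have h1 : 2 * Real.pi * (x + fun i => (k i : ℝ)) i = 2 * Real.pi * x i + k i * (2 * Real.pi) := by
    rw [Pi.add_apply]
    ring
  rw [h1, Real.sin_add_int_mul_two_pi, Real.cos_add_int_mul_two_pi]

theorem gen_shU (a b : Fin n → ℝ) : ∃ S, Gen S (shU a b) := by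
  have hs : ContDiff ℝ 2 (fun z : Pt n => shrB_p a b z.1) := (shrB_p_smooth a b).comp contDiff_fst
  have hd : ∀ z w : Pt n, fderiv ℝ (fun z : Pt n => shrB_p a b z.1) z w =
      ∑ i, trg a b z.1 i * w.1 i := by
    intro z w
    have h1 : fderiv ℝ (fun z : Pt n => shrB_p a b z.1) z =
        (fderiv ℝ (shrB_p a b) z.1).comp (ContinuousLinearMap.fst ℝ (Fin n → ℝ) (Fin n → ℝ)) := by
      have h2 : HasFDerivAt (fun z : Pt n => z.1)
          (ContinuousLinearMap.fst ℝ (Fin n → ℝ) (Fin n → ℝ)) z := hasFDerivAt_fst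
      have h3 : HasFDerivAt (shrB_p a b) (fderiv ℝ (shrB_p a b) z.1) z.1 :=
        (((shrB_p_smooth a b).differentiable two_ne_zero) z.1).hasFDerivAt
      exact (h3.comp z h2).fderiv
    rw [h1, ContinuousLinearMap.comp_apply, shrB_p_fderiv]
    rfl
  refine ⟨fun z => shrB_p a b z.1, hs, fun z k l => shrB_p_per a b z.1 k, fun z z' => ?_,
    fun z v hv => ?_⟩
  · simp only [hd, shU]
    constructor
    · rintro rfl i
      simp [Pi.single_apply]
    · intro h
      have h1 : z'.1 = z.1 := by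
        funext i
        simpa using (h i).1
      refine Prod.ext h1.symm (funext fun i => ?_)
      have h2 := (h i).2
      rw [h1] at h2
      simpa [Pi.single_apply] using h2.symm
  · funext i
    rw [hv i, ← dir2_eq hs]
    unfold dir2 dir
    simp only [hd]
    simp

theorem gen_shV (a b : Fin n → ℝ) : ∃ S, Gen S (shV a b) := by
  have hs : ContDiff ℝ 2 (fun z : Pt n => shrB_p a b z.2) := (shrB_p_smooth a b).comp contDiff_snd
  have hd : ∀ z w : Pt n, fderiv ℝ (fun z : Pt n => shrB_p a b z.2) z w =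
      ∑ i, trg a b z.2 i * w.2 i := by
    intro z w
    have h1 : fderiv ℝ (fun z : Pt n => shrB_p a b z.2) z =
        (fderiv ℝ (shrB_p a b) z.2).comp (ContinuousLinearMap.snd ℝ (Fin n → ℝ) (Fin n → ℝ)) := by
      have h2 : HasFDerivAt (fun z : Pt n => z.2)
          (ContinuousLinearMap.snd ℝ (Fin n → ℝ) (Fin n → ℝ)) z := hasFDerivAt_snd
      have h3 : HasFDerivAt (shrB_p a b) (fderiv ℝ (shrB_p a b) z.2) z.2 :=
        (((shrB_p_smooth a b).differentiable two_ne_zero) z.2).hasFDerivAt
      exact (h3.comp z h2).fderiv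
    rw [h1, ContinuousLinearMap.comp_apply, shrB_p_fderiv]
    rfl
  refine ⟨fun z => shrB_p a b z.2, hs, fun z k l => shrB_p_per a b z.2 l, fun z z' => ?_,
    fun z v hv => ?_⟩
  · simp only [hd, shV]
    constructor
    · rintro rfl i
      simp [Pi.single_apply]
    · intro h
      refine Prod.ext (funext fun i => ?_) (funext fun i => ?_)
      · have h2 := (h i).1
        simpa [Pi.single_apply] using h2.symm
      · have h2 := (h i).2
        simpa using h2.symm
  · funext i
    rw [hv i, ← dir2_eq hs]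
    unfold dir2 dir
    simp only [hd]
    have h4 : (fun y : Pt n => ∑ j, trg a b y.2 j * (Pi.single i (1 : ℝ) : Fin n → ℝ) j) =
        (fun y : Fin n → ℝ => trg a b y i) ∘ fun y : Pt n => y.2 := by
      funext y
      simp [Pi.single_apply]
    rw [h4]
    have h5 : DifferentiableAt ℝ (fun y : Fin n → ℝ => trg a b y i) z.2 := by
      unfold trg
      fun_prop
    have h6 : HasFDerivAt (fun z : Pt n => z.2)
        (ContinuousLinearMap.snd ℝ (Fin n → ℝ) (Fin n → ℝ)) z := hasFDerivAt_snd
    rw [(h5.hasFDerivAt.comp z h6).fderiv]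
    simp

end Pool.Agent.H47.OD
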