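import Pool.Agent.H47.QG.IdxS
import Pool.Agent.H47.QG.IterN

/-!
# Twisted cyclic forms: definitions
-/

set_option autoImplicit false

open Module QuadraticForm

namespace Pool.Agent.H47.OD

variable {E : Type*} [NormedAddCommGroup E] [NormedSpace ℝ E] [FiniteDimensional ℝ E]

/-- the form `z ↦ ∑ i, G (z i, z (i + 1))` on `m`-periodic sequences -/
noncomputable def Gm (G : QuadraticForm ℝ (E × E)) (m : ℕ) [NeZero m] :
    QuadraticForm ℝ (Fin m → E) :=
  ∑ i : Fin m, G.comp ((LinearMap.proj i : (Fin m → E) →ₗ[ℝ] E).prod (LinearMap.proj (i + 1)))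

/-- rotation by `θ` on `E × E` -/
noncomputable def rot (θ : ℝ) : (E × E) →ₗ[ℝ] (E × E) :=
  (Real.cos θ • LinearMap.fst ℝ E E - Real.sin θ • LinearMap.snd ℝ E E).prod
    (Real.sin θ • LinearMap.fst ℝ E E + Real.cos θ • LinearMap.snd ℝ E E)

/-- the `θ`-twisted form (real version): `(a, b) ↦ G (a, a') + G (b, b')`, `(a', b')` the rotation
of `(a, b)` by `θ` -/
noncomputable def Gth (G : QuadraticForm ℝ (E × E)) (θ : ℝ) : QuadraticForm ℝ (E × E) :=
  G.comp ((LinearMap.fst ℝ E E).prod (LinearMap.fst ℝ E E ∘ₗ rot θ)) +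
    G.comp ((LinearMap.snd ℝ E E).prod (LinearMap.snd ℝ E E ∘ₗ rot θ))

theorem Gm_apply (G : QuadraticForm ℝ (E × E)) (m : ℕ) [NeZero m] (z : Fin m → E) :
    Gm G m z = ∑ i, G (z i, z (i + 1)) := by
  rw [Gm, QuadraticMap.sum_apply]
  rfl

theorem rot_apply (θ : ℝ) (a b : E) : rot θ (a, b) =
    (Real.cos θ • a - Real.sin θ • b, Real.sin θ • a + Real.cos θ • b) := rfl

theorem Gth_apply (G : QuadraticForm ℝ (E × E)) (θ : ℝ) (a b : E) :
    Gth G θ (a, b) = G (a, Real.cos θ • a - Real.sin θ • b) +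
      G (b, Real.sin θ • a + Real.cos θ • b) := rfl

end Pool.Agent.H47.OD
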