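import Pool.Agent.H47.OD.TwD

/-!
# Fourier decomposition of the cyclic form
-/

set_option autoImplicit false

open Module QuadraticForm

namespace Pool.Agent.H47.OD

theorem TwF_pi_ge {ι : Type*} [Fintype ι] {V : ι → Type*} [∀ i, AddCommGroup (V i)]
    [∀ i, Module ℝ (V i)] [∀ i, FiniteDimensional ℝ (V i)] (Q : ∀ i, QuadraticForm ℝ (V i)) :
    ∑ i, sigNeg (Q i) ≤
      sigNeg (∑ i, (Q i).comp (LinearMap.proj i : (∀ i, V i) →ₗ[ℝ] V i)) := by
  choose W hW hd using fun i => QG.exists_sigNeg (Q i)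
  let J : (∀ i, W i) →ₗ[ℝ] (∀ i, V i) :=
    LinearMap.pi fun i => (W i).subtype ∘ₗ LinearMap.proj i
  have hJ : ∀ v i, J v i = v i := fun v i => rfl
  have hj : Function.Injective J := by
    intro v w h
    funext i
    apply Subtype.ext
    rw [← hJ, ← hJ, h]
  have h1 : finrank ℝ (⊤ : Submodule ℝ (∀ i, W i)) = ∑ i, sigNeg (Q i) := by
    rw [finrank_top, Module.finrank_pi_fintype]
    exact Finset.sum_congr rfl fun i _ => hW i
  rw [← h1]
  refine le_trans (QG.le_sigNeg _ ⊤ ?_) (QG.sigNeg_comp_le _ J hj)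
  intro v _ hne
  rw [QuadraticMap.comp_apply, sum_apply]
  have h2 : ∀ i, (Q i) (v i : V i) ≤ 0 := by
    intro i
    by_cases h : (v i : V i) = 0
    · rw [h, QuadraticMap.map_zero]
    · exact (hd i _ (v i).2 h).le
  obtain ⟨j, hjn⟩ : ∃ j, v j ≠ 0 := by
    by_contra h
    push Not at h
    exact hne (funext h)
  have h3 : (Q j) (v j : V j) < 0 :=
    hd j _ (v j).2 (fun h0 => hjn (Subtype.ext h0))
  exact Finset.sum_neg' (fun i _ => h2 i) ⟨j, Finset.mem_univ j, h3⟩

/-- index of an orthogonal sum -/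
theorem sigNeg_pi {ι : Type*} [Fintype ι] {V : ι → Type*} [∀ i, AddCommGroup (V i)]
    [∀ i, Module ℝ (V i)] [∀ i, FiniteDimensional ℝ (V i)] (Q : ∀ i, QuadraticForm ℝ (V i)) :
    sigNeg (∑ i, (Q i).comp (LinearMap.proj i : (∀ i, V i) →ₗ[ℝ] V i)) = ∑ i, sigNeg (Q i) := by
  have h1 := TwF_pi_ge Q
  have h2 : ∑ i, sigPos (Q i) ≤
      sigPos (∑ i, (Q i).comp (LinearMap.proj i : (∀ i, V i) →ₗ[ℝ] V i)) := by
    have h3 := TwF_pi_ge (fun i => -Q i)
    have h4 : (∑ i, (-Q i).comp (LinearMap.proj i : (∀ i, V i) →ₗ[ℝ] V i)) =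
        -∑ i, (Q i).comp (LinearMap.proj i : (∀ i, V i) →ₗ[ℝ] V i) := by
      ext v
      rw [neg_apply, sum_apply, sum_apply,
        ← Finset.sum_neg_distrib]
      exact Finset.sum_congr rfl fun i _ => rfl
    rw [h4, sigNeg_neg] at h3
    refine le_trans (le_of_eq (Finset.sum_congr rfl fun i _ => ?_)) h3
    rw [sigNeg_neg]
  have h3 : ∑ i, finrank ℝ (Q i).radical ≤
      finrank ℝ (∑ i, (Q i).comp (LinearMap.proj i : (∀ i, V i) →ₗ[ℝ] V i)).radical := by
    rw [← Module.finrank_pi_fintype]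
    let J : (∀ i, (Q i).radical) →ₗ[ℝ] (∀ i, V i) :=
      LinearMap.pi fun i => (Q i).radical.subtype ∘ₗ LinearMap.proj i
    have hJ : ∀ v i, J v i = v i := fun v i => rfl
    have hj : Function.Injective J := by
      intro v w h
      funext i
      apply Subtype.ext
      rw [← hJ, ← hJ, h]
    rw [← LinearMap.finrank_range_of_inj hj]
    apply Submodule.finrank_mono
    rintro _ ⟨v, rfl⟩
    have hv := fun i => QuadraticMap.mem_radical_iff'.1 (v i).2
    refine QuadraticMap.mem_radical_iff'.2 ⟨?_, ?_⟩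
    · rw [sum_apply]
      exact Finset.sum_eq_zero fun i _ => (hv i).1
    · intro w
      rw [sum_apply, sum_apply]
      exact Finset.sum_congr rfl fun i _ => (hv i).2 (w i)
  have e1 : ∑ i, (sigPos (Q i) + sigNeg (Q i) + finrank ℝ (Q i).radical) =
      ∑ i, finrank ℝ (V i) :=
    Finset.sum_congr rfl fun i _ => QuadraticForm.sigPos_add_sigNeg_add_radical (Q := Q i)
  rw [Finset.sum_add_distrib, Finset.sum_add_distrib] at e1
  have e3 := QuadraticForm.sigPos_add_sigNeg_add_radical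
    (Q := ∑ i, (Q i).comp (LinearMap.proj i : (∀ i, V i) →ₗ[ℝ] V i))
  rw [Module.finrank_pi_fintype] at e3
  omega

theorem TwF_root (m : ℕ) [NeZero m] (k l : Fin m) (hkl : k ≠ l) :
    ∑ i : Fin m, Complex.exp (((((i : ℕ) : ℝ) *
      (2 * Real.pi * (k : ℕ) / m - 2 * Real.pi * (l : ℕ) / m) : ℝ) : ℂ) * Complex.I) = 0 := by
  set x : ℝ := 2 * Real.pi * (k : ℕ) / m - 2 * Real.pi * (l : ℕ) / m with hx
  have hm : (m : ℝ) ≠ 0 := Nat.cast_ne_zero.2 (NeZero.ne m)
  have hmC : (m : ℂ) ≠ 0 := Nat.cast_ne_zero.2 (NeZero.ne m)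
  set w : ℂ := Complex.exp ((x : ℂ) * Complex.I) with hw
  have h1 : ∀ i : ℕ, Complex.exp ((((i : ℝ) * x : ℝ) : ℂ) * Complex.I) = w ^ i := by
    intro i
    rw [hw, ← Complex.exp_nat_mul]
    congr 1
    push_cast
    ring
  have h2 : ∑ i : Fin m, Complex.exp (((((i : ℕ) : ℝ) * x : ℝ) : ℂ) * Complex.I) =
      ∑ i ∈ Finset.range m, w ^ i := by
    rw [← Fin.sum_univ_eq_sum_range (fun i => w ^ i) m]
    exact Finset.sum_congr rfl fun i _ => h1 i
  rw [h2]
  have h3 : w ^ m = 1 := by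
    rw [hw, ← Complex.exp_nat_mul, Complex.exp_eq_one_iff]
    refine ⟨(k : ℕ) - (l : ℕ), ?_⟩
    rw [hx]
    push_cast
    field_simp
  have h4 : w ≠ 1 := by
    intro h
    rw [hw, Complex.exp_eq_one_iff] at h
    obtain ⟨n, hn⟩ := h
    have h5 : (x : ℂ) = (n : ℂ) * (2 * Real.pi) := by
      have h6 : (x : ℂ) * Complex.I = ((n : ℂ) * (2 * Real.pi)) * Complex.I := by
        rw [hn]
        ring
      exact mul_right_cancel₀ Complex.I_ne_zero h6
    have h6 : x = (n : ℝ) * (2 * Real.pi) := by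
      exact_mod_cast h5
    have h7 : ((k : ℕ) : ℝ) - ((l : ℕ) : ℝ) = n * m := by
      have hp := Real.pi_pos
      have h8 : x * m = 2 * Real.pi * (((k : ℕ) : ℝ) - ((l : ℕ) : ℝ)) := by
        rw [hx]
        field_simp
      have h9 : 2 * Real.pi * (((k : ℕ) : ℝ) - ((l : ℕ) : ℝ)) = 2 * Real.pi * (n * m) := by
        rw [← h8, h6]
        ring
      exact mul_left_cancel₀ (by positivity) h9
    have h8 : ((k : ℕ) : ℤ) - ((l : ℕ) : ℤ) = n * m := by
      exact_mod_cast h7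
    have hk := k.2
    have hl := l.2
    have hn0 : n = 0 := by
      by_contra hn0
      rcases lt_or_gt_of_ne hn0 with h | h
      · have : n * (m : ℤ) ≤ -1 * m := by
          apply mul_le_mul_of_nonneg_right _ (by positivity)
          omega
        omega
      · have : 1 * (m : ℤ) ≤ n * m := by
          apply mul_le_mul_of_nonneg_right _ (by positivity)
          omega
        omega
    rw [hn0, zero_mul] at h8
    exact hkl (Fin.ext (by omega))
  have h5 := mul_neg_geom_sum w m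
  rw [h3, sub_self] at h5
  rcases mul_eq_zero.1 h5 with h | h
  · exact absurd (sub_eq_zero.1 h).symm h4
  · exact h

theorem TwF_cos (m : ℕ) [NeZero m] (k l : Fin m) :
    ∑ i : Fin m, Real.cos (((i : ℕ) : ℝ) *
      (2 * Real.pi * (k : ℕ) / m - 2 * Real.pi * (l : ℕ) / m)) = if k = l then (m : ℝ) else 0 := by
  split_ifs with h
  · rw [h]
    simp
  · have h1 := congrArg Complex.re (TwF_root m k l h)
    rw [Complex.re_sum, Complex.zero_re] at h1
    rw [← h1]
    exact Finset.sum_congr rfl fun i _ => (Complex.exp_ofReal_mul_I_re _).symm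

theorem TwF_sin (m : ℕ) [NeZero m] (k l : Fin m) :
    ∑ i : Fin m, Real.sin (((i : ℕ) : ℝ) *
      (2 * Real.pi * (k : ℕ) / m - 2 * Real.pi * (l : ℕ) / m)) = 0 := by
  by_cases h : k = l
  · rw [h]
    simp
  · have h1 := congrArg Complex.im (TwF_root m k l h)
    rw [Complex.im_sum, Complex.zero_im] at h1
    rw [← h1]
    exact Finset.sum_congr rfl fun i _ => (Complex.exp_ofReal_mul_I_im _).symm

/-- `cos (i θ_k)` -/
noncomputable def TwFc (m : ℕ) (i k : ℕ) : ℝ := Real.cos ((i : ℝ) * (2 * Real.pi * k / m))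

/-- `sin (i θ_k)` -/
noncomputable def TwFs (m : ℕ) (i k : ℕ) : ℝ := Real.sin ((i : ℝ) * (2 * Real.pi * k / m))

theorem TwF_cc (m : ℕ) [NeZero m] (k l : Fin m) :
    ∑ i : Fin m, (TwFc m i k * TwFc m i l + TwFs m i k * TwFs m i l) =
      if k = l then (m : ℝ) else 0 := by
  rw [← TwF_cos m k l]
  apply Finset.sum_congr rfl
  intro i _
  rw [TwFc, TwFc, TwFs, TwFs, mul_sub, Real.cos_sub]

theorem TwF_sc (m : ℕ) [NeZero m] (k l : Fin m) :
    ∑ i : Fin m, (TwFs m i k * TwFc m i l - TwFc m i k * TwFs m i l) = 0 := by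
  rw [← TwF_sin m k l]
  apply Finset.sum_congr rfl
  intro i _
  rw [TwFc, TwFc, TwFs, TwFs, mul_sub, Real.sin_sub]

theorem TwF_arg (m : ℕ) [NeZero m] (i k : Fin m) :
    ∃ n : ℕ, ((i : ℕ) : ℝ) * (2 * Real.pi * (k : ℕ) / m) + 2 * Real.pi * (k : ℕ) / m =
      (((i + 1 : Fin m) : ℕ) : ℝ) * (2 * Real.pi * (k : ℕ) / m) + n * (2 * Real.pi) := by
  have hm : (m : ℝ) ≠ 0 := Nat.cast_ne_zero.2 (NeZero.ne m)
  have h1 : ((i : ℕ) + 1) % m = ((i + 1 : Fin m) : ℕ) := by
    rw [Fin.val_add]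
    conv_lhs => rw [Nat.add_mod]
    conv_rhs => rw [Nat.add_mod]
    congr 2
    rcases Nat.lt_or_ge 1 m with h | h
    · rw [Fin.val_one']
      simp
    · have h2 : m = 1 := le_antisymm h (Nat.one_le_iff_ne_zero.2 (NeZero.ne m))
      subst h2
      simp
  have h2 := Nat.mod_add_div ((i : ℕ) + 1) m
  rw [h1] at h2
  refine ⟨(((i : ℕ) + 1) / m) * k, ?_⟩
  have h3 : (((i + 1 : Fin m) : ℕ) : ℝ) + m * ((((i : ℕ) + 1) / m : ℕ) : ℝ) = (i : ℕ) + 1 := by
    exact_mod_cast h2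
  have h4 : (((i + 1 : Fin m) : ℕ) : ℝ) = (i : ℕ) + 1 - m * ((((i : ℕ) + 1) / m : ℕ) : ℝ) := by
    linarith
  rw [h4, Nat.cast_mul]
  field_simp
  ring

theorem TwF_c_succ (m : ℕ) [NeZero m] (i k : Fin m) :
    TwFc m ((i + 1 : Fin m) : ℕ) k = TwFc m i k * Real.cos (2 * Real.pi * (k : ℕ) / m) -
      TwFs m i k * Real.sin (2 * Real.pi * (k : ℕ) / m) := by
  obtain ⟨n, hn⟩ := TwF_arg m i k
  rw [TwFc, TwFs, TwFc, ← Real.cos_add, hn, Real.cos_add_nat_mul_two_pi]

theorem TwF_s_succ (m : ℕ) [NeZero m] (i k : Fin m) :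
    TwFs m ((i + 1 : Fin m) : ℕ) k = TwFs m i k * Real.cos (2 * Real.pi * (k : ℕ) / m) +
      TwFc m i k * Real.sin (2 * Real.pi * (k : ℕ) / m) := by
  obtain ⟨n, hn⟩ := TwF_arg m i k
  rw [TwFs, TwFs, TwFc, ← Real.sin_add, hn, Real.sin_add_nat_mul_two_pi]

variable {E : Type*} [NormedAddCommGroup E] [NormedSpace ℝ E] [FiniteDimensional ℝ E]

/-- the real Fourier map -/
noncomputable def TwFPsi (E : Type*) [NormedAddCommGroup E] [NormedSpace ℝ E] (m : ℕ) :
    (Fin m → E × E) →ₗ[ℝ] (Fin m → E) × (Fin m → E) where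
  toFun u := (fun i => ∑ k : Fin m, (TwFc m i k • (u k).1 - TwFs m i k • (u k).2),
    fun i => ∑ k : Fin m, (TwFs m i k • (u k).1 + TwFc m i k • (u k).2))
  map_add' u v := by
    apply Prod.ext
    · funext i
      show ∑ k : Fin m, (TwFc m i k • ((u k).1 + (v k).1) - TwFs m i k • ((u k).2 + (v k).2)) =
        ∑ k : Fin m, (TwFc m i k • (u k).1 - TwFs m i k • (u k).2) +
        ∑ k : Fin m, (TwFc m i k • (v k).1 - TwFs m i k • (v k).2)
      rw [← Finset.sum_add_distrib]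
      apply Finset.sum_congr rfl
      intro k _
      module
    · funext i
      show ∑ k : Fin m, (TwFs m i k • ((u k).1 + (v k).1) + TwFc m i k • ((u k).2 + (v k).2)) =
        ∑ k : Fin m, (TwFs m i k • (u k).1 + TwFc m i k • (u k).2) +
        ∑ k : Fin m, (TwFs m i k • (v k).1 + TwFc m i k • (v k).2)
      rw [← Finset.sum_add_distrib]
      apply Finset.sum_congr rfl
      intro k _
      module
  map_smul' c u := by
    apply Prod.ext
    · funext i
      show ∑ k : Fin m, (TwFc m i k • (c • (u k).1) - TwFs m i k • (c • (u k).2)) =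
        c • ∑ k : Fin m, (TwFc m i k • (u k).1 - TwFs m i k • (u k).2)
      rw [Finset.smul_sum]
      apply Finset.sum_congr rfl
      intro k _
      module
    · funext i
      show ∑ k : Fin m, (TwFs m i k • (c • (u k).1) + TwFc m i k • (c • (u k).2)) =
        c • ∑ k : Fin m, (TwFs m i k • (u k).1 + TwFc m i k • (u k).2)
      rw [Finset.smul_sum]
      apply Finset.sum_congr rfl
      intro k _
      module

theorem TwF_Psi_fst (m : ℕ) (u : Fin m → E × E) (i : Fin m) :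
    (TwFPsi E m u).1 i = ∑ k : Fin m, (TwFc m i k • (u k).1 - TwFs m i k • (u k).2) := rfl

theorem TwF_Psi_snd (m : ℕ) (u : Fin m → E × E) (i : Fin m) :
    (TwFPsi E m u).2 i = ∑ k : Fin m, (TwFs m i k • (u k).1 + TwFc m i k • (u k).2) := rfl

theorem TwF_inv_fst (m : ℕ) [NeZero m] (u : Fin m → E × E) (l : Fin m) :
    ∑ i : Fin m, (TwFc m i l • (TwFPsi E m u).1 i + TwFs m i l • (TwFPsi E m u).2 i) =
      (m : ℝ) • (u l).1 := by
  have h1 : ∀ i : Fin m, TwFc m i l • (TwFPsi E m u).1 i + TwFs m i l • (TwFPsi E m u).2 i =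
      ∑ k : Fin m, ((TwFc m i k * TwFc m i l + TwFs m i k * TwFs m i l) • (u k).1 -
        (TwFs m i k * TwFc m i l - TwFc m i k * TwFs m i l) • (u k).2) := by
    intro i
    rw [TwF_Psi_fst, TwF_Psi_snd, Finset.smul_sum, Finset.smul_sum, ← Finset.sum_add_distrib]
    apply Finset.sum_congr rfl
    intro k _
    module
  rw [Finset.sum_congr rfl fun i _ => h1 i, Finset.sum_comm]
  have h2 : ∀ k : Fin m, ∑ i : Fin m,
      ((TwFc m i k * TwFc m i l + TwFs m i k * TwFs m i l) • (u k).1 -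
        (TwFs m i k * TwFc m i l - TwFc m i k * TwFs m i l) • (u k).2) =
      (if k = l then (m : ℝ) else 0) • (u k).1 := by
    intro k
    rw [Finset.sum_sub_distrib, ← Finset.sum_smul, ← Finset.sum_smul, TwF_cc, TwF_sc, zero_smul,
      sub_zero]
  rw [Finset.sum_congr rfl fun k _ => h2 k]
  simp [ite_smul]

theorem TwF_inv_snd (m : ℕ) [NeZero m] (u : Fin m → E × E) (l : Fin m) :
    ∑ i : Fin m, (TwFc m i l • (TwFPsi E m u).2 i - TwFs m i l • (TwFPsi E m u).1 i) =
      (m : ℝ) • (u l).2 := by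
  have h1 : ∀ i : Fin m, TwFc m i l • (TwFPsi E m u).2 i - TwFs m i l • (TwFPsi E m u).1 i =
      ∑ k : Fin m, ((TwFc m i k * TwFc m i l + TwFs m i k * TwFs m i l) • (u k).2 +
        (TwFs m i k * TwFc m i l - TwFc m i k * TwFs m i l) • (u k).1) := by
    intro i
    rw [TwF_Psi_fst, TwF_Psi_snd, Finset.smul_sum, Finset.smul_sum, ← Finset.sum_sub_distrib]
    apply Finset.sum_congr rfl
    intro k _
    module
  rw [Finset.sum_congr rfl fun i _ => h1 i, Finset.sum_comm]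
  have h2 : ∀ k : Fin m, ∑ i : Fin m,
      ((TwFc m i k * TwFc m i l + TwFs m i k * TwFs m i l) • (u k).2 +
        (TwFs m i k * TwFc m i l - TwFc m i k * TwFs m i l) • (u k).1) =
      (if k = l then (m : ℝ) else 0) • (u k).2 := by
    intro k
    rw [Finset.sum_add_distrib, ← Finset.sum_smul, ← Finset.sum_smul, TwF_cc, TwF_sc, zero_smul,
      add_zero]
  rw [Finset.sum_congr rfl fun k _ => h2 k]
  simp [ite_smul]

theorem TwF_Psi_inj (m : ℕ) [NeZero m] : Function.Injective (TwFPsi E m) := by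
  intro u v h
  have hm : (m : ℝ) ≠ 0 := Nat.cast_ne_zero.2 (NeZero.ne m)
  funext l
  have h1 := TwF_inv_fst m u l
  have h2 := TwF_inv_snd m u l
  rw [h, TwF_inv_fst m v l] at h1
  rw [h, TwF_inv_snd m v l] at h2
  exact Prod.ext (smul_right_injective E hm h1).symm (smul_right_injective E hm h2).symm

/-- first component vector -/
noncomputable def TwFp (m : ℕ) (u : Fin m → E × E) (k : Fin m) : E × E :=
  ((u k).1, Real.cos (2 * Real.pi * (k : ℕ) / m) • (u k).1 -
    Real.sin (2 * Real.pi * (k : ℕ) / m) • (u k).2)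

/-- second component vector -/
noncomputable def TwFq (m : ℕ) (u : Fin m → E × E) (k : Fin m) : E × E :=
  ((u k).2, Real.sin (2 * Real.pi * (k : ℕ) / m) • (u k).1 +
    Real.cos (2 * Real.pi * (k : ℕ) / m) • (u k).2)

theorem TwF_pair_fst (m : ℕ) [NeZero m] (u : Fin m → E × E) (i : Fin m) :
    ((TwFPsi E m u).1 i, (TwFPsi E m u).1 (i + 1)) =
      ∑ k : Fin m, (TwFc m i k • TwFp m u k - TwFs m i k • TwFq m u k) := by
  rw [TwF_Psi_fst, TwF_Psi_fst]
  apply Prod.ext
  · rw [Prod.fst_sum]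
    rfl
  · rw [Prod.snd_sum]
    show ∑ k : Fin m, (TwFc m ((i + 1 : Fin m) : ℕ) k • (u k).1 -
      TwFs m ((i + 1 : Fin m) : ℕ) k • (u k).2) = _
    apply Finset.sum_congr rfl
    intro k _
    rw [TwF_c_succ, TwF_s_succ]
    show _ = TwFc m i k • (Real.cos (2 * Real.pi * (k : ℕ) / m) • (u k).1 -
      Real.sin (2 * Real.pi * (k : ℕ) / m) • (u k).2) -
      TwFs m i k • (Real.sin (2 * Real.pi * (k : ℕ) / m) • (u k).1 +
      Real.cos (2 * Real.pi * (k : ℕ) / m) • (u k).2)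
    module

theorem TwF_pair_snd (m : ℕ) [NeZero m] (u : Fin m → E × E) (i : Fin m) :
    ((TwFPsi E m u).2 i, (TwFPsi E m u).2 (i + 1)) =
      ∑ k : Fin m, (TwFs m i k • TwFp m u k + TwFc m i k • TwFq m u k) := by
  rw [TwF_Psi_snd, TwF_Psi_snd]
  apply Prod.ext
  · rw [Prod.fst_sum]
    rfl
  · rw [Prod.snd_sum]
    show ∑ k : Fin m, (TwFs m ((i + 1 : Fin m) : ℕ) k • (u k).1 +
      TwFc m ((i + 1 : Fin m) : ℕ) k • (u k).2) = _
    apply Finset.sum_congr rfl
    intro k _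
    rw [TwF_c_succ, TwF_s_succ]
    show _ = TwFs m i k • (Real.cos (2 * Real.pi * (k : ℕ) / m) • (u k).1 -
      Real.sin (2 * Real.pi * (k : ℕ) / m) • (u k).2) +
      TwFc m i k • (Real.sin (2 * Real.pi * (k : ℕ) / m) • (u k).1 +
      Real.cos (2 * Real.pi * (k : ℕ) / m) • (u k).2)
    module

theorem TwF_bil {V ι : Type*} [AddCommGroup V] [Module ℝ V] [Fintype ι]
    (B : LinearMap.BilinMap ℝ V ℝ) (x : ι → V) :
    B (∑ k, x k) (∑ k, x k) = ∑ k, ∑ l, B (x k) (x l) := by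
  rw [map_sum, Finset.sum_comm]
  apply Finset.sum_congr rfl
  intro k _
  rw [map_sum, LinearMap.sum_apply]

theorem TwF_expand (G : QuadraticForm ℝ (E × E)) (m : ℕ) [NeZero m] (u : Fin m → E × E) :
    Gm G m (TwFPsi E m u).1 + Gm G m (TwFPsi E m u).2 =
      (m : ℝ) * ∑ k : Fin m, Gth G (2 * Real.pi * (k : ℕ) / m) (u k) := by
  rw [Gm_apply, Gm_apply, ← Finset.sum_add_distrib]
  obtain ⟨B, hG⟩ : ∃ B : LinearMap.BilinMap ℝ (E × E) ℝ, ∀ x, G x = B x x :=
    ⟨QuadraticMap.associated (R := ℝ) G,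
      fun x => (QuadraticMap.associated_eq_self_apply ℝ G x).symm⟩
  set p := TwFp m u with hp
  set q := TwFq m u with hq
  have h1 : ∀ i : Fin m, G ((TwFPsi E m u).1 i, (TwFPsi E m u).1 (i + 1)) +
      G ((TwFPsi E m u).2 i, (TwFPsi E m u).2 (i + 1)) =
      ∑ k : Fin m, ∑ l : Fin m,
        ((TwFc m i k * TwFc m i l + TwFs m i k * TwFs m i l) * (B (p k) (p l) + B (q k) (q l)) +
        (TwFs m i k * TwFc m i l - TwFc m i k * TwFs m i l) * (B (p k) (q l) - B (q k) (p l))) := by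
    intro i
    rw [TwF_pair_fst, TwF_pair_snd, hG, hG, ← hp, ← hq, TwF_bil, TwF_bil,
      ← Finset.sum_add_distrib]
    apply Finset.sum_congr rfl
    intro k _
    rw [← Finset.sum_add_distrib]
    apply Finset.sum_congr rfl
    intro l _
    simp only [map_add, map_sub, map_smul, LinearMap.add_apply, LinearMap.sub_apply,
      LinearMap.smul_apply, smul_eq_mul]
    ring
  rw [Finset.sum_congr rfl fun i _ => h1 i, Finset.sum_comm, Finset.mul_sum]
  apply Finset.sum_congr rfl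
  intro k _
  rw [Finset.sum_comm]
  have h2 : ∀ l : Fin m, ∑ i : Fin m,
      ((TwFc m i k * TwFc m i l + TwFs m i k * TwFs m i l) * (B (p k) (p l) + B (q k) (q l)) +
        (TwFs m i k * TwFc m i l - TwFc m i k * TwFs m i l) * (B (p k) (q l) - B (q k) (p l))) =
      (if k = l then (m : ℝ) else 0) * (B (p k) (p l) + B (q k) (q l)) := by
    intro l
    rw [Finset.sum_add_distrib, ← Finset.sum_mul, ← Finset.sum_mul, TwF_cc, TwF_sc, zero_mul,
      add_zero]
  rw [Finset.sum_congr rfl fun l _ => h2 l]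
  simp only [ite_mul, zero_mul]
  rw [Finset.sum_ite_eq, if_pos (Finset.mem_univ k), ← hG, ← hG]
  rfl

/-- the index of the cyclic form is the sum of the indices of the twisted forms -/
theorem fourier (G : QuadraticForm ℝ (E × E)) (m : ℕ) [NeZero m] :
    2 * sigNeg (Gm G m) = ∑ k : Fin m, sigNeg (Gth G (2 * Real.pi * (k : ℕ) / m)) := by
  have hm : (0 : ℝ) < m := Nat.cast_pos.2 (Nat.pos_of_ne_zero (NeZero.ne m))
  have h1 : (QuadraticMap.prod (Gm G m) (Gm G m)).comp (TwFPsi E m) =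
      ∑ k : Fin m, ((m : ℝ) • Gth G (2 * Real.pi * (k : ℕ) / m)).comp
        (LinearMap.proj k : (Fin m → E × E) →ₗ[ℝ] E × E) := by
    ext u
    rw [QuadraticMap.comp_apply, QuadraticMap.prod_apply, TwF_expand, sum_apply,
      Finset.mul_sum]
    rfl
  have h2 : sigNeg ((QuadraticMap.prod (Gm G m) (Gm G m)).comp (TwFPsi E m)) =
      ∑ k : Fin m, sigNeg (Gth G (2 * Real.pi * (k : ℕ) / m)) := by
    rw [h1, sigNeg_pi]
    exact Finset.sum_congr rfl fun k _ => QG.sigNeg_smul _ _ hm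
  have h3 := QG.sigNeg_comp_le (QuadraticMap.prod (Gm G m) (Gm G m)) (TwFPsi E m) (TwF_Psi_inj m)
  have h4 := QG.sigNeg_le_comp (QuadraticMap.prod (Gm G m) (Gm G m)) (TwFPsi E m) (TwF_Psi_inj m)
  have h5 : finrank ℝ (Fin m → E × E) = finrank ℝ ((Fin m → E) × (Fin m → E)) := by
    rw [Module.finrank_prod, Module.finrank_pi_fintype, Module.finrank_pi_fintype]
    simp only [Module.finrank_prod, Finset.sum_const, Finset.card_univ, Fintype.card_fin,
      smul_eq_mul]
    ring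
  rw [QG.sigNeg_prod] at h3 h4
  omega

end Pool.Agent.H47.OD
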