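import Pool.Agent.H47.OD.Sy
import Pool.Agent.H47.OD.PerD

/-!
# A local twist Hamiltonian
-/

set_option autoImplicit false

open Module Filter Topology

namespace Pool.Agent.H47.OD

open Pool.Agent.H47.QG
open Pool.Agent.H60.QG (Torus PtE proj projP lft)

variable {n : ℕ}

/-- cut-off: `1` for `u ≤ δ / 2`, `0` for `u ≥ δ` -/
noncomputable def TwH_psi (δ u : ℝ) : ℝ := Real.smoothTransition (2 - 2 * u / δ)

theorem TwH_psi_smooth (δ : ℝ) (k : ℕ) : ContDiff ℝ k (TwH_psi δ) := by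
  unfold TwH_psi
  refine Real.smoothTransition.contDiff.comp ?_
  exact contDiff_const.sub ((contDiff_const.mul contDiff_id).div_const δ)

theorem TwH_psi_one {δ u : ℝ} (hδ : 0 < δ) (hu : u ≤ δ / 2) : TwH_psi δ u = 1 := by
  unfold TwH_psi
  apply Real.smoothTransition.one_of_one_le
  have h1 : 2 * u / δ ≤ 1 := by
    rw [div_le_one hδ]; linarith
  linarith

theorem TwH_psi_zero {δ u : ℝ} (hδ : 0 < δ) (hu : δ ≤ u) : TwH_psi δ u = 0 := by
  unfold TwH_psi
  apply Real.smoothTransition.zero_of_nonpos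
  have h1 : 2 ≤ 2 * u / δ := by
    rw [le_div_iff₀ hδ]; linarith
  linarith

/-- periodic bump -/
noncomputable def TwH_B (δ x : ℝ) : ℝ := TwH_psi δ (Real.sin (x * Real.pi) ^ 2)

/-- periodic function equal to `x ^ 2 / 2` near `0` -/
noncomputable def TwH_Q (δ x : ℝ) : ℝ :=
  (Real.arcsin (Real.sin (x * Real.pi))) ^ 2 / (2 * Real.pi ^ 2) * TwH_B δ x

theorem TwH_sin_smooth (k : ℕ) : ContDiff ℝ k fun x : ℝ => Real.sin (x * Real.pi) :=
  Real.contDiff_sin.comp (contDiff_id.mul contDiff_const)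

theorem TwH_B_smooth (δ : ℝ) (k : ℕ) : ContDiff ℝ k (TwH_B δ) :=
  (TwH_psi_smooth δ k).comp ((TwH_sin_smooth k).pow 2)

theorem TwH_B_zero_near {δ x : ℝ} (hδ : 0 < δ) (hx : δ < Real.sin (x * Real.pi) ^ 2) :
    ∀ᶠ y in 𝓝 x, TwH_B δ y = 0 := by
  have hc : Continuous fun x : ℝ => Real.sin (x * Real.pi) ^ 2 := by fun_prop
  filter_upwards [hc.continuousAt.eventually (lt_mem_nhds hx)] with y hy
  exact TwH_psi_zero hδ hy.le

theorem TwH_Q_smooth {δ : ℝ} (hδ : 0 < δ) (hδ' : δ < 1) (k : ℕ) : ContDiff ℝ k (TwH_Q δ) := by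
  rw [contDiff_iff_contDiffAt]
  intro x
  by_cases hx : δ < Real.sin (x * Real.pi) ^ 2
  · have h1 : TwH_Q δ =ᶠ[𝓝 x] fun _ => 0 := by
      filter_upwards [TwH_B_zero_near hδ hx] with y hy
      unfold TwH_Q
      rw [hy, mul_zero]
    exact ContDiffAt.congr_of_eventuallyEq contDiffAt_const h1
  · rw [not_lt] at hx
    have h1 : Real.sin (x * Real.pi) ≠ -1 := by
      intro h
      rw [h] at hx
      linarith
    have h2 : Real.sin (x * Real.pi) ≠ 1 := by
      intro h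
      rw [h] at hx
      linarith
    have h3 : ContDiffAt ℝ k (fun x : ℝ => Real.arcsin (Real.sin (x * Real.pi))) x :=
      ContDiffAt.comp (g := Real.arcsin) (f := fun x : ℝ => Real.sin (x * Real.pi)) x
        (Real.contDiffAt_arcsin h1 h2) (TwH_sin_smooth k).contDiffAt
    exact ((h3.pow 2).div_const _).mul (TwH_B_smooth δ k).contDiffAt

theorem TwH_sin_add (x : ℝ) (m : ℤ) : Real.sin ((x + m) * Real.pi) = Real.sin (x * Real.pi) ∨
    Real.sin ((x + m) * Real.pi) = -Real.sin (x * Real.pi) := by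
  rw [add_mul, Real.sin_add_int_mul_pi]
  rcases Int.even_or_odd m with h | h
  · left
    rw [h.neg_one_zpow, one_mul]
  · right
    rw [h.neg_one_zpow, neg_one_mul]

theorem TwH_B_per (δ x : ℝ) (m : ℤ) : TwH_B δ (x + m) = TwH_B δ x := by
  unfold TwH_B
  rcases TwH_sin_add x m with h | h
  · rw [h]
  · rw [h, neg_sq]

theorem TwH_Q_per (δ x : ℝ) (m : ℤ) : TwH_Q δ (x + m) = TwH_Q δ x := by
  unfold TwH_Q
  rw [TwH_B_per]
  rcases TwH_sin_add x m with h | h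
  · rw [h]
  · rw [h, Real.arcsin_neg, neg_sq]

theorem TwH_sin_le (x : ℝ) : Real.sin (x * Real.pi) ^ 2 ≤ 16 * x ^ 2 := by
  have h1 : |Real.sin (x * Real.pi)| ≤ |x * Real.pi| := Real.abs_sin_le_abs
  have h2 : |x * Real.pi| ≤ 4 * |x| := by
    rw [abs_mul, abs_of_pos Real.pi_pos, mul_comm]
    exact mul_le_mul_of_nonneg_right Real.pi_le_four (abs_nonneg x)
  have h3 : |Real.sin (x * Real.pi)| ≤ 4 * |x| := h1.trans h2
  calc Real.sin (x * Real.pi) ^ 2 = |Real.sin (x * Real.pi)| ^ 2 := (sq_abs _).symm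
    _ ≤ (4 * |x|) ^ 2 := by
        have := abs_nonneg (Real.sin (x * Real.pi))
        gcongr
    _ = 16 * x ^ 2 := by rw [mul_pow, sq_abs]; norm_num

/-- near the integers -/
theorem TwH_B_one {r x : ℝ} (hr : 0 < r) (hx : |x| < r / 8) : TwH_B (2 * r ^ 2) x = 1 := by
  unfold TwH_B
  refine TwH_psi_one (by positivity) ((TwH_sin_le x).trans ?_)
  have h1 : x ^ 2 ≤ (r / 8) ^ 2 := by
    rw [← sq_abs]
    have := abs_nonneg x
    gcongr
  nlinarith

theorem TwH_Q_eq {r x : ℝ} (hr : 0 < r) (hr' : r ≤ 1 / 2) (hx : |x| < r / 8) :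
    TwH_Q (2 * r ^ 2) x = x ^ 2 / 2 := by
  unfold TwH_Q
  rw [TwH_B_one hr hx, mul_one]
  have hpi := Real.pi_pos
  rw [abs_lt] at hx
  rw [Real.arcsin_sin (by nlinarith [hx.1]) (by nlinarith [hx.2])]
  field_simp

/-- away from the integers -/
theorem TwH_far {r x : ℝ} (hr : 0 < r) (h : ∀ m : ℤ, r ≤ |x + m|) :
    2 * r ^ 2 < Real.sin (x * Real.pi) ^ 2 := by
  set m := round x with hm
  have h1 := h (-m)
  set t := x + ((-m : ℤ) : ℝ) with ht
  have h2 : |t| ≤ 1 / 2 := by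
    have := abs_sub_round x
    rw [ht, hm]
    push_cast
    rwa [← sub_eq_add_neg]
  have h3 : 2 * |t| ≤ |Real.sin (t * Real.pi)| := by
    have hpi := Real.pi_pos
    have h4 : |Real.sin (t * Real.pi)| = Real.sin (|t| * Real.pi) := by
      rcases le_total 0 t with h0 | h0
      · rw [abs_of_nonneg h0, abs_of_nonneg]
        refine Real.sin_nonneg_of_nonneg_of_le_pi (by positivity) ?_
        rw [abs_of_nonneg h0] at h2
        nlinarith
      · rw [abs_of_nonpos h0, neg_mul, Real.sin_neg, abs_of_nonpos]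
        have h5 : 0 ≤ Real.sin (-t * Real.pi) := by
          refine Real.sin_nonneg_of_nonneg_of_le_pi (by nlinarith) ?_
          rw [abs_of_nonpos h0] at h2
          nlinarith
        rw [neg_mul, Real.sin_neg] at h5
        linarith
    rw [h4]
    have h5 := Real.mul_le_sin (x := |t| * Real.pi) (by positivity) (by nlinarith)
    calc 2 * |t| = 2 / Real.pi * (|t| * Real.pi) := by field_simp
      _ ≤ _ := h5
  have h4 : Real.sin (t * Real.pi) ^ 2 = Real.sin (x * Real.pi) ^ 2 := by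
    rcases TwH_sin_add x (-m) with h | h
    · rw [ht, h]
    · rw [ht, h, neg_sq]
  rw [← h4, ← sq_abs (Real.sin _)]
  have h5 : 2 * r ≤ |Real.sin (t * Real.pi)| := by linarith
  nlinarith

/-- the Hamiltonian -/
noncomputable def TwH_K (δ : ℝ) (w : Pt n) (z : PtE n) : ℝ :=
  (∑ i, (TwH_Q δ (z.1 i - w.1 i) + TwH_Q δ (z.2 i - w.2 i))) *
    ∏ i, (TwH_B δ (z.1 i - w.1 i) * TwH_B δ (z.2 i - w.2 i))

theorem TwH_c1 (a : ℝ) (i : Fin n) (k : ℕ) : ContDiff ℝ k fun z : PtE n => z.1 i - a :=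
  (((EuclideanSpace.proj i : EuclideanSpace ℝ (Fin n) →L[ℝ] ℝ).contDiff).comp
    contDiff_fst).sub contDiff_const

theorem TwH_c2 (a : ℝ) (i : Fin n) (k : ℕ) : ContDiff ℝ k fun z : PtE n => z.2 i - a :=
  (((EuclideanSpace.proj i : EuclideanSpace ℝ (Fin n) →L[ℝ] ℝ).contDiff).comp
    contDiff_snd).sub contDiff_const

theorem TwH_K_smooth {δ : ℝ} (hδ : 0 < δ) (hδ' : δ < 1) (w : Pt n) (k : ℕ) :
    ContDiff ℝ k (TwH_K δ w) := by
  unfold TwH_K
  refine ContDiff.mul (ContDiff.sum fun i _ => ?_) (contDiff_prod fun i _ => ?_)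
  · exact ((TwH_Q_smooth hδ hδ' k).comp (TwH_c1 _ i k)).add
      ((TwH_Q_smooth hδ hδ' k).comp (TwH_c2 _ i k))
  · exact ((TwH_B_smooth δ k).comp (TwH_c1 _ i k)).mul ((TwH_B_smooth δ k).comp (TwH_c2 _ i k))

theorem TwH_proj {z z' : PtE n} (h : proj z = proj z') :
    (∀ i, ∃ m : ℤ, z.1 i = z'.1 i + m) ∧ ∀ i, ∃ m : ℤ, z.2 i = z'.2 i + m := by
  have key : ∀ a b : ℝ, ((a : ℝ) : UnitAddCircle) = ((b : ℝ) : UnitAddCircle) →
      ∃ m : ℤ, a = b + m := by
    intro a b hab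
    have h1 : (((a - b : ℝ)) : UnitAddCircle) = 0 := by
      rw [AddCircle.coe_sub, hab, sub_self]
    rw [AddCircle.coe_eq_zero_iff] at h1
    obtain ⟨m, hm⟩ := h1
    refine ⟨m, ?_⟩
    have h2 : (m : ℝ) = a - b := by
      rw [← hm]; simp
    linarith
  have h1 : (proj z).1 = (proj z').1 := congrArg Prod.fst h
  have h2 : (proj z).2 = (proj z').2 := congrArg Prod.snd h
  exact ⟨fun i => key _ _ (congrFun h1 i), fun i => key _ _ (congrFun h2 i)⟩

theorem TwH_K_per (δ : ℝ) (w : Pt n) (z z' : PtE n) (h : proj z = proj z') :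
    TwH_K δ w z = TwH_K δ w z' := by
  obtain ⟨h1, h2⟩ := TwH_proj h
  have e1 : ∀ i, TwH_Q δ (z.1 i - w.1 i) = TwH_Q δ (z'.1 i - w.1 i) := by
    intro i
    obtain ⟨m, hm⟩ := h1 i
    rw [hm, add_sub_right_comm, TwH_Q_per]
  have e2 : ∀ i, TwH_Q δ (z.2 i - w.2 i) = TwH_Q δ (z'.2 i - w.2 i) := by
    intro i
    obtain ⟨m, hm⟩ := h2 i
    rw [hm, add_sub_right_comm, TwH_Q_per]
  have e3 : ∀ i, TwH_B δ (z.1 i - w.1 i) = TwH_B δ (z'.1 i - w.1 i) := by
    intro i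
    obtain ⟨m, hm⟩ := h1 i
    rw [hm, add_sub_right_comm, TwH_B_per]
  have e4 : ∀ i, TwH_B δ (z.2 i - w.2 i) = TwH_B δ (z'.2 i - w.2 i) := by
    intro i
    obtain ⟨m, hm⟩ := h2 i
    rw [hm, add_sub_right_comm, TwH_B_per]
  unfold TwH_K
  simp only [e1, e2, e3, e4]

theorem TwH_K_near {r : ℝ} (hr : 0 < r) (hr' : r ≤ 1 / 2) (w z : Pt n) (hz : ‖z - w‖ < r / 8) :
    TwH_K (2 * r ^ 2) w (lft n z) =
      (∑ i, ((z.1 i - w.1 i) ^ 2 + (z.2 i - w.2 i) ^ 2)) / 2 := by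
  have hx : ∀ i, |z.1 i - w.1 i| < r / 8 := fun i =>
    ((norm_le_pi_norm (z - w).1 i).trans (norm_fst_le (z - w))).trans_lt hz
  have hy : ∀ i, |z.2 i - w.2 i| < r / 8 := fun i =>
    ((norm_le_pi_norm (z - w).2 i).trans (norm_snd_le (z - w))).trans_lt hz
  unfold TwH_K
  simp only [Pool.Agent.H60.QG.lft_fst, Pool.Agent.H60.QG.lft_snd]
  rw [Finset.prod_eq_one fun i _ => by rw [TwH_B_one hr (hx i), TwH_B_one hr (hy i), mul_one],
    mul_one, Finset.sum_div]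
  refine Finset.sum_congr rfl fun i _ => ?_
  rw [TwH_Q_eq hr hr' (hx i), TwH_Q_eq hr hr' (hy i)]
  ring

theorem TwH_K_far {r : ℝ} (hr : 0 < r) (w z : Pt n)
    (hz : ∀ e ∈ Zn n, r ≤ ‖z - w + e‖) : ∀ᶠ z' in 𝓝 (lft n z), TwH_K (2 * r ^ 2) w z' = 0 := by
  by_cases h : (∀ i, ∃ m : ℤ, |z.1 i - w.1 i + m| < r) ∧ ∀ i, ∃ m : ℤ, |z.2 i - w.2 i + m| < r
  · exfalso
    obtain ⟨h1, h2⟩ := h
    choose a ha using h1
    choose b hb using h2
    have h3 := hz (fun i => (a i : ℝ), fun i => (b i : ℝ)) ⟨a, b, rfl⟩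
    refine absurd h3 (not_le.2 ?_)
    rw [Prod.norm_def]
    refine max_lt ?_ ?_
    · rw [pi_norm_lt_iff hr]
      intro i
      exact ha i
    · rw [pi_norm_lt_iff hr]
      intro i
      exact hb i
  · rw [not_and_or] at h
    have hδ : 0 < 2 * r ^ 2 := by positivity
    rcases h with h | h
    · push Not at h
      obtain ⟨i, hi⟩ := h
      have hc : Continuous fun z' : PtE n => z'.1 i - w.1 i := (TwH_c1 (w.1 i) i 0).continuous
      have h1 := TwH_B_zero_near hδ (TwH_far hr hi)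
      have h2 : Tendsto (fun z' : PtE n => z'.1 i - w.1 i) (𝓝 (lft n z))
          (𝓝 (z.1 i - w.1 i)) := hc.continuousAt
      filter_upwards [h2.eventually h1] with z' hz'
      unfold TwH_K
      rw [Finset.prod_eq_zero (Finset.mem_univ i) (by rw [hz', zero_mul]), mul_zero]
    · push Not at h
      obtain ⟨i, hi⟩ := h
      have hc : Continuous fun z' : PtE n => z'.2 i - w.2 i := (TwH_c2 (w.2 i) i 0).continuous
      have h1 := TwH_B_zero_near hδ (TwH_far hr hi)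
      have h2 : Tendsto (fun z' : PtE n => z'.2 i - w.2 i) (𝓝 (lft n z))
          (𝓝 (z.2 i - w.2 i)) := hc.continuousAt
      filter_upwards [h2.eventually h1] with z' hz'
      unfold TwH_K
      rw [Finset.prod_eq_zero (Finset.mem_univ i) (by rw [hz', mul_zero]), mul_zero]

/-- a smooth periodic function equal to `|z - w|^2 / 2` near `w` and to `0` away from the lattice
translates of `w` -/
theorem exists_twistHam (w : Pt n) (ρ : ℝ) (hρ : 0 < ρ) : ∃ (K : PtE n → ℝ) (r : ℝ), 0 < r ∧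
    (∀ k : ℕ, ContDiff ℝ k K) ∧ (∀ z z', proj z = proj z' → K z = K z') ∧
    (∀ z : Pt n, ‖z - w‖ < r →
      K (lft n z) = (∑ i, ((z.1 i - w.1 i) ^ 2 + (z.2 i - w.2 i) ^ 2)) / 2) ∧
    ∀ z : Pt n, (∀ e ∈ Zn n, ρ ≤ ‖z - w + e‖) → ∀ᶠ z' in 𝓝 (lft n z), K z' = 0 := by
  set r : ℝ := min ρ (1 / 2) with hr
  have hr0 : 0 < r := lt_min hρ (by norm_num)
  have hr1 : r ≤ 1 / 2 := min_le_right _ _
  refine ⟨TwH_K (2 * r ^ 2) w, r / 8, by positivity, fun k => ?_, TwH_K_per _ w, fun z hz => ?_,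
    fun z hz => ?_⟩
  · refine TwH_K_smooth (by positivity) ?_ w k
    nlinarith
  · exact TwH_K_near hr0 hr1 w z hz
  · exact TwH_K_far hr0 w z fun e he => (min_le_left _ _).trans (hz e he)

end Pool.Agent.H47.OD
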